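import Pool.Agent.W_59b51d_c25.Defs

/-!
# The signed permutations `altP`
-/

namespace Pool.Agent.W_59b51d_c25

theorem Alt_ins_coef {α : Type} (x : α) (l : List α) : ∀ q ∈ ins x l, q.1 = 1 ∨ q.1 = -1 := by
  induction l with
  | nil => intro q hq; simp [ins] at hq; simp [hq]
  | cons y l ih =>
    intro q hq
    simp only [ins, List.mem_cons, List.mem_map] at hq
    rcases hq with rfl | ⟨p, hp, rfl⟩
    · left; rfl
    · rcases ih p hp with h | h <;> simp [h]

theorem Alt_ins_perm {α : Type} (x : α) (l : List α) : ∀ q ∈ ins x l, q.2.Perm (x :: l) := by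
  induction l with
  | nil => intro q hq; simp [ins] at hq; simp [hq]
  | cons y l ih =>
    intro q hq
    simp only [ins, List.mem_cons, List.mem_map] at hq
    rcases hq with rfl | ⟨p, hp, rfl⟩
    · exact List.Perm.refl _
    · exact ((ih p hp).cons y).trans (List.Perm.swap x y l)

/-- Induction on `a`; the coefficients of `ins` are `1` or `-1`. -/
theorem altP_coef (a : ℕ) : ∀ q ∈ altP a, q.1 = 1 ∨ q.1 = -1 := by
  induction a with
  | zero => intro q hq; simp [altP] at hq; simp [hq]
  | succ a ih =>
    intro q hq
    simp only [altP, List.mem_flatMap, List.mem_map] at hq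
    obtain ⟨p, hp, r, hr, rfl⟩ := hq
    rcases ih p hp with h | h <;> rcases Alt_ins_coef a p.2 r hr with h' | h' <;> simp [h, h']

/-- Induction on `a`; the members of `ins x l` are permutations of `x :: l`. -/
theorem altP_perm (a : ℕ) : ∀ q ∈ altP a, q.2.Perm (List.range a) := by
  induction a with
  | zero => intro q hq; simp [altP] at hq; simp [hq]
  | succ a ih =>
    intro q hq
    simp only [altP, List.mem_flatMap, List.mem_map] at hq
    obtain ⟨p, hp, r, hr, rfl⟩ := hq
    refine (Alt_ins_perm a p.2 r hr).trans (((ih p hp).cons a).trans ?_)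
    rw [List.range_succ]
    exact (List.perm_append_singleton a (List.range a)).symm

theorem Alt_ins_sum {a : ℕ} (l : List ℕ) : ∀ l' : List ℕ, a ∉ l → a ∉ l' →
    ((ins a l).map fun q => if q.2 = l' ++ [a] then q.1 else 0).sum =
      if l = l' then (-1 : ℤ) ^ l.length else 0 := by
  induction l with
  | nil =>
    intro l' _ _
    cases l' with
    | nil => simp [ins]
    | cons z l' => simp [ins]
  | cons y l ih =>
    intro l' hl hl'
    have hy : y ≠ a := fun h => hl (by simp [h])
    have hl2 : a ∉ l := fun h => hl (by simp [h])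
    simp only [ins, List.map_cons, List.map_map, List.sum_cons]
    cases l' with
    | nil =>
      have h0 : ((ins a l).map ((fun q : ℤ × List ℕ => if q.2 = [] ++ [a] then q.1 else 0) ∘
          fun q => (-q.1, y :: q.2))).sum = 0 := by
        apply List.sum_eq_zero
        intro z hz
        obtain ⟨q, -, rfl⟩ := List.mem_map.1 hz
        simp [hy]
      rw [h0]
      simp
    | cons z l' =>
      have hz : z ≠ a := fun h => hl' (by simp [h])
      have hl3 : a ∉ l' := fun h => hl' (by simp [h])
      have h1 : (if a :: y :: l = z :: l' ++ [a] then (1 : ℤ) else 0) = 0 := by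
        rw [if_neg]
        intro h
        simp only [List.cons_append, List.cons.injEq] at h
        exact hz h.1.symm
      rw [h1, zero_add]
      by_cases hyz : y = z
      · subst hyz
        have h2 : ((fun q : ℤ × List ℕ => if q.2 = y :: l' ++ [a] then q.1 else 0) ∘
            fun q => (-q.1, y :: q.2)) =
            fun q : ℤ × List ℕ => -1 * (if q.2 = l' ++ [a] then q.1 else 0) := by
          funext q
          by_cases h : q.2 = l' ++ [a] <;> simp [h]
        rw [h2, List.sum_map_mul_left, ih l' hl2 hl3]
        by_cases h : l = l'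
        · simp [h, pow_succ]
        · simp [h]
      · have h0 : ((ins a l).map ((fun q : ℤ × List ℕ => if q.2 = z :: l' ++ [a] then q.1 else 0) ∘
            fun q => (-q.1, y :: q.2))).sum = 0 := by
          apply List.sum_eq_zero
          intro w hw
          obtain ⟨q, -, rfl⟩ := List.mem_map.1 hw
          simp [hyz]
        rw [h0, if_neg]
        intro h
        simp only [List.cons.injEq] at h
        exact hyz h.1

theorem Alt_id_eq (a : ℕ) :
    ∃ k : ℕ, ((altP a).map fun q => if q.2 = List.range a then q.1 else 0).sum = (-1 : ℤ) ^ k := by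
  induction a with
  | zero => exact ⟨0, by simp [altP]⟩
  | succ a ih =>
    obtain ⟨k, hk⟩ := ih
    refine ⟨a + k, ?_⟩
    have hmem : a ∉ List.range a := by simp
    have key : ∀ P : List (ℤ × List ℕ), (∀ p ∈ P, p.2.Perm (List.range a)) →
        ((P.flatMap fun p => (ins a p.2).map fun q => (p.1 * q.1, q.2)).map
          fun q => if q.2 = List.range (a + 1) then q.1 else 0).sum =
        (-1 : ℤ) ^ a * (P.map fun q => if q.2 = List.range a then q.1 else 0).sum := by
      intro P
      induction P with
      | nil => intro _; simp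
      | cons p P ihP =>
        intro hP
        have hp := hP p (by simp)
        have hap : a ∉ p.2 := fun h => hmem (hp.mem_iff.1 h)
        rw [List.flatMap_cons, List.map_append, List.sum_append,
          ihP (fun q hq => hP q (by simp [hq])), List.map_cons, List.sum_cons, mul_add]
        congr 1
        rw [List.map_map]
        have h2 : ((fun q : ℤ × List ℕ => if q.2 = List.range (a + 1) then q.1 else 0) ∘
            fun q => (p.1 * q.1, q.2)) =
            fun q : ℤ × List ℕ => p.1 * (if q.2 = List.range a ++ [a] then q.1 else 0) := by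
          funext q
          rw [List.range_succ]
          by_cases h : q.2 = List.range a ++ [a] <;> simp [h]
        rw [h2, List.sum_map_mul_left, Alt_ins_sum p.2 (List.range a) hap hmem]
        have hlen : p.2.length = a := by rw [hp.length_eq, List.length_range]
        by_cases h : p.2 = List.range a
        · rw [if_pos h, if_pos h, hlen]; ring
        · rw [if_neg h, if_neg h]; ring
    have := key (altP a) (altP_perm a)
    simp only [altP]
    rw [this, hk, pow_add]

/-- The identity permutation occurs exactly once: for `a + 1` the list `range (a + 1)` is only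
obtained by inserting `a` at the end of `range a` (the members `l` of `altP a` do not contain
`a`). -/
theorem altP_id (a : ℕ) :
    ((altP a).map fun q => if q.2 = List.range a then q.1 else 0).sum = 1 ∨
      ((altP a).map fun q => if q.2 = List.range a then q.1 else 0).sum = -1 := by
  obtain ⟨k, hk⟩ := Alt_id_eq a
  rw [hk]
  exact neg_one_pow_eq_or ℤ k

/-- The signed insertions with the signs as truth values. -/
def Alt_insB (x : ℕ) (l : List ℕ) : List (Bool × List ℕ) :=
  List.recOn l [(true, [x])] fun y l IH =>
    (true, x :: y :: l) :: IH.map fun q => (!q.1, y :: q.2)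

/-- The signed permutations with the signs as truth values. -/
def Alt_altB (a : ℕ) : List (Bool × List ℕ) :=
  Nat.rec [(true, [])] (fun a IH => IH.flatMap fun p =>
    (Alt_insB a p.2).map fun q => (Bool.xor p.1 (!q.1), q.2)) a

/-- The sign. -/
def Alt_sg (b : Bool) : ℤ := cond b 1 (-1)

theorem Alt_sg_not (b : Bool) : Alt_sg (!b) = -Alt_sg b := by cases b <;> simp [Alt_sg]

theorem Alt_sg_xor (b c : Bool) : Alt_sg (Bool.xor b (!c)) = Alt_sg b * Alt_sg c := by
  cases b <;> cases c <;> simp [Alt_sg]

theorem Alt_ins_eq (x : ℕ) (l : List ℕ) :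
    ins x l = (Alt_insB x l).map fun q => (Alt_sg q.1, q.2) := by
  induction l with
  | nil => simp [ins, Alt_insB, Alt_sg]
  | cons y l ih =>
    have h : Alt_insB x (y :: l) =
      (true, x :: y :: l) :: (Alt_insB x l).map fun q => (!q.1, y :: q.2) := rfl
    rw [h]
    simp only [ins, List.map_cons, List.map_map, ih]
    congr 1
    apply List.map_congr_left
    intro q _
    simp [Alt_sg_not]

theorem Alt_altP_eq (a : ℕ) : altP a = (Alt_altB a).map fun q => (Alt_sg q.1, q.2) := by
  induction a with
  | zero => simp [altP, Alt_altB, Alt_sg]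
  | succ a ih =>
    have h : Alt_altB (a + 1) = (Alt_altB a).flatMap fun p =>
      (Alt_insB a p.2).map fun q => (Bool.xor p.1 (!q.1), q.2) := rfl
    rw [h]
    simp only [altP, ih, List.flatMap_map, List.map_flatMap, List.map_map]
    congr 1
    funext p
    rw [Alt_ins_eq, List.map_map]
    apply List.map_congr_left
    intro q _
    simp only [Function.comp, Alt_sg_xor]

theorem Alt_primrec_insB : Primrec₂ Alt_insB := by
  have h : Primrec fun p : ℕ × List ℕ => (List.recOn p.2 [(true, [p.1])]
      fun y l IH => (true, p.1 :: y :: l) :: IH.map fun q => (!q.1, y :: q.2) :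
        List (Bool × List ℕ)) := by
    refine Primrec.list_rec (f := fun p : ℕ × List ℕ => p.2)
      (g := fun p : ℕ × List ℕ => ([(true, [p.1])] : List (Bool × List ℕ)))
      (h := fun (p : ℕ × List ℕ) (t : ℕ × List ℕ × List (Bool × List ℕ)) =>
        (true, p.1 :: t.1 :: t.2.1) :: t.2.2.map fun q => (!q.1, t.1 :: q.2))
      Primrec.snd ?_ ?_
    · exact Primrec.list_cons.comp
        (Primrec.pair (Primrec.const true)
          (Primrec.list_cons.comp Primrec.fst (Primrec.const [])))
        (Primrec.const [])
    · have h1 : Primrec fun z : (ℕ × List ℕ) × (ℕ × List ℕ × List (Bool × List ℕ)) =>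
          ((true, z.1.1 :: z.2.1 :: z.2.2.1) : Bool × List ℕ) :=
        Primrec.pair (Primrec.const true)
          (Primrec.list_cons.comp (Primrec.fst.comp Primrec.fst)
            (Primrec.list_cons.comp (Primrec.fst.comp Primrec.snd)
              (Primrec.fst.comp (Primrec.snd.comp Primrec.snd))))
      have h2 : Primrec₂ fun (z : (ℕ × List ℕ) × (ℕ × List ℕ × List (Bool × List ℕ)))
          (q : Bool × List ℕ) => ((!q.1, z.2.1 :: q.2) : Bool × List ℕ) :=
        Primrec.pair (Primrec.not.comp (Primrec.fst.comp Primrec.snd))
          (Primrec.list_cons.comp (Primrec.fst.comp (Primrec.snd.comp Primrec.fst))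
            (Primrec.snd.comp Primrec.snd))
      exact Primrec.list_cons.comp h1
        (Primrec.list_map (Primrec.snd.comp (Primrec.snd.comp Primrec.snd)) h2)
  exact h

theorem Alt_primrec_altB : Primrec Alt_altB := by
  have h1 : Primrec₂ fun (z : (ℕ × List (Bool × List ℕ)) × (Bool × List ℕ))
      (q : Bool × List ℕ) => ((Bool.xor z.2.1 (!q.1), q.2) : Bool × List ℕ) :=
    Primrec.pair ((Primrec.dom_bool₂ fun b c => Bool.xor b (!c)).comp
      (Primrec.fst.comp (Primrec.snd.comp Primrec.fst)) (Primrec.fst.comp Primrec.snd))
      (Primrec.snd.comp Primrec.snd)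
  have h2 : Primrec₂ fun (z : ℕ × List (Bool × List ℕ)) (p : Bool × List ℕ) =>
      (Alt_insB z.1 p.2).map fun q => ((Bool.xor p.1 (!q.1), q.2) : Bool × List ℕ) :=
    Primrec.list_map (Alt_primrec_insB.comp (Primrec.fst.comp Primrec.fst)
      (Primrec.snd.comp Primrec.snd)) h1
  exact Primrec.nat_rec₁ [(true, [])] (Primrec.list_flatMap Primrec.snd h2)

/-- `ins` by `Primrec.list_rec`, `altP` by `Primrec.nat_rec`, `Primrec.list_flatMap`. -/
theorem primrec_altP : Primrec altP := by
  have h : altP = fun a => (Alt_altB a).map fun q => (Alt_sg q.1, q.2) := funext Alt_altP_eq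
  rw [h]
  exact Primrec.list_map Alt_primrec_altB
    (Primrec.pair ((Primrec.dom_bool Alt_sg).comp (Primrec.fst.comp Primrec.snd))
      (Primrec.snd.comp Primrec.snd))

end Pool.Agent.W_59b51d_c25
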