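import Pool.Agent.W_59b51d_c25.Defs

/-!
# The alternating sum vanishes if two labels are equal
-/

namespace Pool.Agent.W_59b51d_c25

section AltZ_aux

variable {S M : Type} [AddCommGroup M]

/-- Signed insertion, acting on functions on lists. -/
def AltZ_J (x : S) (g : List S → M) (l : List S) : M :=
  ((ins x l).map fun q => q.1 • g q.2).sum

/-- The alternating sum. -/
def AltZ_S (z : ℕ → S) (a : ℕ) (g : List S → M) : M :=
  ((altP a).map fun q => q.1 • g (q.2.map z)).sum

theorem AltZ_J_nil (x : S) (g : List S → M) : AltZ_J x g [] = g [x] := by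
  simp [AltZ_J, ins]

theorem AltZ_sum_neg {α : Type} (l : List α) (f : α → M) :
    (l.map fun q => - f q).sum = - (l.map f).sum := by
  induction l with
  | nil => simp
  | cons a l ih => simp only [List.map_cons, List.sum_cons, ih]; abel

theorem AltZ_sum_sub {α : Type} (l : List α) (f f' : α → M) :
    (l.map fun q => f q - f' q).sum = (l.map f).sum - (l.map f').sum := by
  induction l with
  | nil => simp
  | cons a l ih => simp only [List.map_cons, List.sum_cons, ih]; abel

theorem AltZ_J_cons (x : S) (g : List S → M) (c : S) (l : List S) :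
    AltZ_J x g (c :: l) = g (x :: c :: l) - AltZ_J x (fun l => g (c :: l)) l := by
  unfold AltZ_J
  simp only [ins, List.map_cons, List.sum_cons, List.map_map, one_smul]
  rw [show ((fun q : ℤ × List S => q.1 • g q.2) ∘ fun q : ℤ × List S => (-q.1, c :: q.2)) =
    fun q => - (q.1 • g (c :: q.2)) from by funext q; simp [neg_smul]]
  rw [AltZ_sum_neg]
  abel

theorem AltZ_J_sub (x : S) (g g' : List S → M) (l : List S) :
    AltZ_J x (fun l => g l - g' l) l = AltZ_J x g l - AltZ_J x g' l := by
  unfold AltZ_J
  rw [← AltZ_sum_sub]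
  simp only [smul_sub]

theorem AltZ_JJ (x y : S) (g : List S → M) (c : S) (l : List S) :
    AltZ_J x (AltZ_J y g) (c :: l) =
      g (y :: x :: c :: l) - g (x :: y :: c :: l) + AltZ_J y (fun l => g (x :: c :: l)) l
        - AltZ_J x (fun l => g (y :: c :: l)) l
        + AltZ_J x (AltZ_J y (fun l => g (c :: l))) l := by
  rw [AltZ_J_cons, AltZ_J_cons, AltZ_J_cons]
  rw [show (fun l => AltZ_J y g (c :: l)) =
    fun l => g (y :: c :: l) - AltZ_J y (fun l => g (c :: l)) l from by
      funext l; exact AltZ_J_cons _ _ _ _]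
  rw [AltZ_J_sub]
  abel

theorem AltZ_swap (x y : S) (l : List S) : ∀ g : List S → M,
    AltZ_J x (AltZ_J y g) l = - AltZ_J y (AltZ_J x g) l := by
  induction l with
  | nil =>
    intro g
    rw [AltZ_J_nil, AltZ_J_nil, AltZ_J_cons, AltZ_J_cons, AltZ_J_nil, AltZ_J_nil]
    abel
  | cons c l ih =>
    intro g
    rw [AltZ_JJ, AltZ_JJ, ih]
    abel

theorem AltZ_sq (x : S) (l : List S) : ∀ g : List S → M,
    AltZ_J x (AltZ_J x g) l = 0 := by
  induction l with
  | nil =>
    intro g
    rw [AltZ_J_nil, AltZ_J_cons, AltZ_J_nil]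
    abel
  | cons c l ih =>
    intro g
    rw [AltZ_JJ, ih]
    abel

theorem AltZ_ins_map {α : Type} (z : α → S) (x : α) (l : List α) :
    ins (z x) (l.map z) = (ins x l).map fun q => (q.1, q.2.map z) := by
  induction l with
  | nil => simp [ins]
  | cons c l ih => simp [ins, ih, Function.comp_def]

theorem AltZ_sum_smul {α : Type} (c : ℤ) (l : List α) (f : α → M) :
    (l.map fun q => c • f q).sum = c • (l.map f).sum := by
  induction l with
  | nil => simp
  | cons a l ih => simp only [List.map_cons, List.sum_cons, ih, smul_add]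

theorem AltZ_S_succ (z : ℕ → S) (a : ℕ) (g : List S → M) :
    AltZ_S z (a + 1) g = AltZ_S z a (AltZ_J (z a) g) := by
  unfold AltZ_S
  simp only [altP]
  generalize altP a = L
  induction L with
  | nil => simp
  | cons p L ih =>
    simp only [List.flatMap_cons, List.map_append, List.sum_append, List.map_cons, List.sum_cons,
      ih, List.map_map]
    congr 1
    unfold AltZ_J
    rw [AltZ_ins_map, List.map_map, ← AltZ_sum_smul]
    simp only [Function.comp_def, mul_smul]

theorem AltZ_S_neg (z : ℕ → S) (a : ℕ) (g : List S → M) :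
    AltZ_S z a (fun l => - g l) = - AltZ_S z a g := by
  unfold AltZ_S
  rw [← AltZ_sum_neg]
  simp only [smul_neg]

theorem AltZ_S_zero (z : ℕ → S) (a : ℕ) : AltZ_S z a (fun _ => (0 : M)) = 0 := by
  unfold AltZ_S
  simp

theorem AltZ_S_J (z : ℕ → S) (i a : ℕ) : i < a → ∀ g : List S → M,
    AltZ_S z a (AltZ_J (z i) g) = 0 := by
  induction a with
  | zero => intro h; omega
  | succ a ih =>
    intro h g
    rw [AltZ_S_succ]
    rcases Nat.lt_succ_iff_lt_or_eq.1 h with h' | h'
    · rw [show AltZ_J (z a) (AltZ_J (z i) g) = fun l => - AltZ_J (z i) (AltZ_J (z a) g) l from by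
        funext l; exact AltZ_swap _ _ _ _]
      rw [AltZ_S_neg, ih h', neg_zero]
    · subst h'
      rw [show AltZ_J (z i) (AltZ_J (z i) g) = fun _ => (0 : M) from by
        funext l; exact AltZ_sq _ _ _]
      exact AltZ_S_zero z i

theorem AltZ_S_eq (z : ℕ → S) (i j : ℕ) (hij : i < j) (h : z i = z j) (a : ℕ) : j < a →
    ∀ g : List S → M, AltZ_S z a g = 0 := by
  induction a with
  | zero => intro h; omega
  | succ a ih =>
    intro hj g
    rw [AltZ_S_succ]
    rcases Nat.lt_succ_iff_lt_or_eq.1 hj with h' | h'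
    · exact ih h' _
    · subst h'
      rw [← h]
      exact AltZ_S_J z i j hij g

end AltZ_aux

/-- The alternating sum vanishes if two labels are equal.

Proof. Let `Z = List S →₀ ℤ` and let `I x : Z →+ Z` be the signed insertion,
`I x (single l 1) = ∑ (c, l') ∈ ins x l, single l' c`. Then `I x (I y v) = - I y (I x v)` and
`I x (I x v) = 0`: for `v = single (y :: l) 1` use
`I x (c :: l) = x :: c :: l - c :: (I x l)` twice and induction on `l`. The sum
`A a z := ∑ (c, l) ∈ altP a, c • single (l.map z) 1` satisfies `A (a + 1) z = I (z a) (A a z)`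
(`ins` commutes with `map`). So it vanishes if `z i = z j` for some `i < j < a`: move `I (z j)` next
to `I (z i)`. Apply the additive map `Z →+ M` with `single l 1 ↦ g l`. -/
theorem altP_zero {S M : Type} [AddCommGroup M] (a : ℕ) (z : ℕ → S) (i j : ℕ) (hij : i < j)
    (hj : j < a) (h : z i = z j) (g : List S → M) :
    ((altP a).map fun q => q.1 • g (q.2.map z)).sum = 0 :=
  AltZ_S_eq z i j hij h a hj g

end Pool.Agent.W_59b51d_c25
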