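import Mathlib

/-!
# The projection lemma
-/

namespace Pool.Agent.W_59b51d_c25

/-- The tensor of a scalar function and a vector. -/
noncomputable def tp {F P : Type} [Field F] [AddCommGroup P] [Module F P] {Λ : Type} (p : P) :
    (Λ →₀ F) →ₗ[F] (Λ →₀ P) :=
  Finsupp.mapRange.linearMap (LinearMap.toSpanSingleton F P p)

/-- The image of `T ⊗ A`. -/
noncomputable def tps {F P : Type} [Field F] [AddCommGroup P] [Module F P] {Λ : Type}
    (A : Submodule F (Λ →₀ F)) (T : Submodule F P) : Submodule F (Λ →₀ P) :=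
  Submodule.span F {f | ∃ a ∈ A, ∃ p ∈ T, f = tp p a}

theorem PR_tp_apply {F P : Type} [Field F] [AddCommGroup P] [Module F P] {Λ : Type} (p : P)
    (u : Λ →₀ F) (l : Λ) : tp p u l = u l • p := by
  simp [tp]

/-- The functions with values in `N`. -/
def PR_S {F P : Type} [Field F] [AddCommGroup P] [Module F P] (Λ : Type) (N : Submodule F P) :
    Submodule F (Λ →₀ P) where
  carrier := {f | ∀ l, f l ∈ N}
  zero_mem' := fun l => by simp
  add_mem' := fun {f g} hf hg l => by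
    rw [Finsupp.add_apply]
    exact N.add_mem (hf l) (hg l)
  smul_mem' := fun c f hf l => by
    rw [Finsupp.smul_apply]
    exact N.smul_mem c (hf l)

/-- The map `p ↦ tp p u`. -/
noncomputable def PR_r {F P : Type} [Field F] [AddCommGroup P] [Module F P] {Λ : Type}
    (u : Λ →₀ F) : P →ₗ[F] (Λ →₀ P) where
  toFun := fun p => tp p u
  map_add' := fun p p' => by
    ext l
    simp [PR_tp_apply]
  map_smul' := fun c p => by
    ext l
    simp [PR_tp_apply, smul_comm c (u l) p]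

/-- The map `Q`. -/
noncomputable def PR_Q {F : Type} (P : Type) [Field F] [AddCommGroup P] [Module F P] {Λ : Type}
    (q : (Λ →₀ F) →ₗ[F] (Λ →₀ F)) : (Λ →₀ P) →ₗ[F] (Λ →₀ P) :=
  Finsupp.lsum F (fun l => PR_r (q (Finsupp.single l 1)))

theorem PR_Q_apply {F P : Type} [Field F] [AddCommGroup P] [Module F P] {Λ : Type}
    (q : (Λ →₀ F) →ₗ[F] (Λ →₀ F)) (f : Λ →₀ P) :
    PR_Q P q f = f.sum (fun l p => tp p (q (Finsupp.single l 1))) := by
  simp only [PR_Q, Finsupp.coe_lsum]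
  rfl

theorem PR_Q_tp {F P : Type} [Field F] [AddCommGroup P] [Module F P] {Λ : Type}
    (q : (Λ →₀ F) →ₗ[F] (Λ →₀ F)) (p : P) (a : Λ →₀ F) :
    PR_Q P q (tp p a) = tp p (q a) := by
  have h : (PR_Q P q).comp (tp p) = (tp p).comp q := by
    apply Finsupp.lhom_ext
    intro l c
    have h1 : tp p (Finsupp.single l c) = Finsupp.single l (c • p) := by
      simp [tp]
    have h2 : (Finsupp.single l c : Λ →₀ F) = c • Finsupp.single l 1 := by
      simp
    rw [LinearMap.comp_apply, LinearMap.comp_apply, h1, PR_Q_apply,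
      Finsupp.sum_single_index]
    · rw [h2, map_smul, map_smul]
      exact (PR_r (P := P) (q (Finsupp.single l 1))).map_smul c p
    · exact (PR_r (P := P) (q (Finsupp.single l 1))).map_zero
  exact LinearMap.congr_fun h a

theorem PR_Q_mem {F P : Type} [Field F] [AddCommGroup P] [Module F P] {Λ : Type}
    (q : (Λ →₀ F) →ₗ[F] (Λ →₀ F)) (N : Submodule F P) (f : Λ →₀ P) (hf : f ∈ PR_S Λ N) :
    PR_Q P q f ∈ PR_S Λ N := by
  rw [PR_Q_apply, Finsupp.sum]
  apply Submodule.sum_mem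
  intro l _ l'
  rw [PR_tp_apply]
  exact N.smul_mem _ (hf l)

/-- Let `N ≤ N' + T` and `N ∩ C ≤ N'`. An element of `N ⊗ U + T ⊗ A` with values in `C` is in
`N' ⊗ U + T ⊗ A` (`U = Λ →₀ F`).

Proof. Let `q : U → U` be a linear projection onto `A` (`Submodule.exists_isCompl`). It induces the
linear map `Q` of `Λ →₀ P` with `Q (tp p a) = tp p (q a)`
(`Q (single l p) = tp p (q (single l 1))`), which maps functions with values in `N`, resp. `C`, to
such functions. Let `y = ν + κ`. Then `y - Q y = ν - Q ν` (as `Q κ = κ`) has values in `N ⊓ C ≤ N'`.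
And `Q y = Q ν + κ`, where `Q ν` is a sum of elements `tp p (q (single l 1))` with
`p = ν l ∈ N ≤ N' + T`, hence in (functions with values in `N'`) `+ T ⊗ A`. -/
theorem pr_lemma {F P Λ : Type} [Field F] [AddCommGroup P] [Module F P]
    (A : Submodule F (Λ →₀ F)) (N N' C T : Submodule F P) (h1 : N ≤ N' ⊔ T) (h2 : N ⊓ C ≤ N')
    (ν κ : Λ →₀ P) (hν : ∀ l, ν l ∈ N) (hκ : κ ∈ tps A T) (hC : ∀ l, (ν + κ) l ∈ C) :
    ∃ ν' κ' : Λ →₀ P, (∀ l, ν' l ∈ N') ∧ κ' ∈ tps A T ∧ ν + κ = ν' + κ' := by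
  classical
  obtain ⟨g, hg⟩ : ∃ g : (Λ →₀ F) →ₗ[F] A, g.comp A.subtype = LinearMap.id :=
    @LinearMap.exists_leftInverse_of_injective F A (Λ →₀ F) _ _ _ _ _ A.subtype A.ker_subtype
  set q : (Λ →₀ F) →ₗ[F] (Λ →₀ F) := A.subtype.comp g with hq
  have hqA : ∀ u, q u ∈ A := fun u => (g u).2
  have hqid : ∀ a ∈ A, q a = a := by
    intro a ha
    have := LinearMap.congr_fun hg ⟨a, ha⟩
    simp only [LinearMap.comp_apply, LinearMap.id_apply, Submodule.subtype_apply] at this
    simp only [hq, LinearMap.comp_apply, this, Submodule.subtype_apply]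
  have hQκ : PR_Q P q κ = κ := by
    have : tps A T ≤ LinearMap.eqLocus (PR_Q P q) LinearMap.id := by
      apply Submodule.span_le.mpr
      rintro f ⟨a, ha, p, hp, rfl⟩
      show PR_Q P q (tp p a) = tp p a
      rw [PR_Q_tp, hqid a ha]
    exact this hκ
  have hQν : PR_Q P q ν ∈ PR_S Λ N' ⊔ tps A T := by
    rw [PR_Q_apply, Finsupp.sum]
    apply Submodule.sum_mem
    intro l _
    obtain ⟨n, hn, t, ht, hnt⟩ := Submodule.mem_sup.mp (h1 (hν l))
    rw [← hnt]
    have : tp (n + t) (q (Finsupp.single l 1)) =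
        tp n (q (Finsupp.single l 1)) + tp t (q (Finsupp.single l 1)) :=
      (PR_r (P := P) (q (Finsupp.single l 1))).map_add n t
    rw [this]
    apply Submodule.add_mem_sup
    · intro l'
      rw [PR_tp_apply]
      exact N'.smul_mem _ hn
    · exact Submodule.subset_span ⟨_, hqA _, t, ht, rfl⟩
  have hQy : PR_Q P q (ν + κ) ∈ PR_S Λ C := PR_Q_mem q C _ hC
  have hd : (ν + κ) - PR_Q P q (ν + κ) ∈ PR_S Λ N' := by
    have e : (ν + κ) - PR_Q P q (ν + κ) = ν - PR_Q P q ν := by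
      rw [map_add, hQκ]
      abel
    have m1 : (ν + κ) - PR_Q P q (ν + κ) ∈ PR_S Λ C := Submodule.sub_mem _ hC hQy
    have m2 : (ν + κ) - PR_Q P q (ν + κ) ∈ PR_S Λ N := by
      rw [e]
      exact Submodule.sub_mem _ hν (PR_Q_mem q N _ hν)
    intro l
    exact h2 ⟨m2 l, m1 l⟩
  obtain ⟨s, hs, k, hk, hsk⟩ := Submodule.mem_sup.mp hQν
  refine ⟨(ν + κ) - PR_Q P q (ν + κ) + s, κ + k, ?_, ?_, ?_⟩
  · exact Submodule.add_mem (PR_S Λ N') hd hs
  · exact Submodule.add_mem _ hκ hk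
  · rw [map_add, hQκ, ← hsk]
    abel

end Pool.Agent.W_59b51d_c25
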