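import Pool.Agent.W_59b51d_c25.KQ
import Pool.Agent.W_59b51d_c25.PR
import Pool.Agent.W_59b51d_c25.AltZ
import Pool.Agent.W_59b51d_c25.Alt

/-!
# The kills in one degree
-/

namespace Pool.Agent.W_59b51d_c25

variable (F : Type) [Field F] {S D : Type} [AddCommGroup D] [Module F D]

/-- The alternating combinations of `L`-words of length `(n + 1) ^ 2`. -/
noncomputable def AJ (S : Type) (n : ℕ) : Submodule F (List S →₀ F) :=
  Submodule.span F {f | ∃ (pre : List S) (z : ℕ → S),
    pre.length + (n.unpair.1 + 1) = (n + 1) ^ 2 ∧
    f = ((altP (n.unpair.1 + 1)).map fun c =>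
      Finsupp.single (pre ++ c.2.map z) ((c.1 : ℤ) : F)).sum}

/-- Alternating combinations vanish in small rank: pigeonhole and `altP_zero`. -/
theorem AJ_eq_bot [Finite S] (n : ℕ) (h : Nat.card S ≤ n.unpair.1) : AJ F S n = ⊥ := by
  rw [AJ, Submodule.span_eq_bot]
  rintro f ⟨pre, z, -, rfl⟩
  have hcard : Nat.card S < Nat.card (Fin (n.unpair.1 + 1)) := by
    rw [Nat.card_fin]; omega
  have hni : ¬ Function.Injective (fun i : Fin (n.unpair.1 + 1) => z i) := by
    intro hinj
    exact absurd (Nat.card_le_card_of_injective _ hinj) (by omega)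
  have hex : ∃ i j : ℕ, i < j ∧ j < n.unpair.1 + 1 ∧ z i = z j := by
    rw [Function.Injective] at hni
    push Not at hni
    obtain ⟨a, b, hab, hne⟩ := hni
    rcases lt_or_gt_of_ne (fun h' => hne (Fin.ext h')) with h1 | h1
    · exact ⟨a, b, h1, b.2, hab⟩
    · exact ⟨b, a, h1, a.2, hab.symm⟩
  obtain ⟨i, j, hij, hj, hz⟩ := hex
  have := altP_zero (n.unpair.1 + 1) z i j hij hj hz
    (fun l => (Finsupp.single (pre ++ l) (1 : F) : List S →₀ F))
  rw [← this]
  congr 1
  refine List.map_congr_left fun c _ => ?_
  rw [Finsupp.smul_single, zsmul_one]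

/-- Lengths of the `L`-words in a generator. -/
private theorem AJ_len (n : ℕ) (pre : List S) (z : ℕ → S)
    (hpre : pre.length + (n.unpair.1 + 1) = (n + 1) ^ 2) (c : ℤ × List ℕ)
    (hc : c ∈ altP (n.unpair.1 + 1)) : (pre ++ c.2.map z).length = (n + 1) ^ 2 := by
  rw [List.length_append, List.length_map, (altP_perm _ c hc).length_eq, List.length_range, hpre]

/-- Filtering a sum. -/
private theorem AJ_filter_sum {P α β : Type} [AddCommMonoid P] (p : α → Prop) [DecidablePred p]
    (L : List β) (g : β → α →₀ P) :
    ((L.map g).sum).filter p = (L.map fun c => (g c).filter p).sum := by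
  induction L with
  | nil => simp [Finsupp.filter_zero]
  | cons c L ih => simp [Finsupp.filter_add, ih]

/-- The part of degree `(n + 1) ^ 2` of a generator of the second type. -/
private theorem AJ_gen_filter (n n' : ℕ) (pre : List S) (z : ℕ → S) (b : List S) (d : D)
    (hpre : pre.length + (n'.unpair.1 + 1) = (n' + 1) ^ 2) :
    ((((altP (n'.unpair.1 + 1)).map fun c =>
        Finsupp.single (pre ++ c.2.map z) (Finsupp.single b (c.1 • d))).sum :
        QQ S D)).filter (fun w => w.length = (n + 1) ^ 2) =
      if n' = n then ((altP (n'.unpair.1 + 1)).map fun c =>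
        Finsupp.single (pre ++ c.2.map z) (Finsupp.single b (c.1 • d))).sum else 0 := by
  rw [AJ_filter_sum]
  split_ifs with hn
  · subst hn
    congr 1
    refine List.map_congr_left fun c hc => ?_
    exact Finsupp.filter_single_of_pos _ (AJ_len n' pre z hpre c hc)
  · have : ∀ c ∈ altP (n'.unpair.1 + 1), ((Finsupp.single (pre ++ c.2.map z)
        (Finsupp.single b (c.1 • d)) : QQ S D)).filter (fun w => w.length = (n + 1) ^ 2) = 0 := by
      intro c hc
      refine Finsupp.filter_single_of_neg _ ?_
      rw [AJ_len n' pre z hpre c hc]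
      intro h
      exact hn (Nat.succ_injective (Nat.pow_left_injective two_ne_zero h))
    rw [List.map_congr_left this]
    simp

/-- The value of `tp`. -/
private theorem AJ_tp (pre : List S) (z : ℕ → S) (b : List S) (d : D) (L : List (ℤ × List ℕ)) :
    tp (Finsupp.single b d : PP S D) ((L.map fun c =>
      Finsupp.single (pre ++ c.2.map z) ((c.1 : ℤ) : F)).sum) =
      ((L.map fun c => Finsupp.single (pre ++ c.2.map z) (Finsupp.single b (c.1 • d))).sum :
        QQ S D) := by
  rw [map_list_sum, List.map_map]
  congr 1
  refine List.map_congr_left fun c _ => ?_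
  simp only [Function.comp_apply, tp, Finsupp.mapRange.linearMap_apply, Finsupp.mapRange_single,
    LinearMap.toSpanSingleton_apply, Finsupp.smul_single, Int.cast_smul_eq_zsmul]

/-- The part of degree `(n + 1) ^ 2` of a kill: if `kil ent n q'` implies `q ≤ q'` for all `q'`, then
it is in `T ⊗ A`, where `T` consists of the functions supported on the `R`-words of length at least
`q`. -/
theorem KQ_part (ent : ℕ → ℕ → Bool) (n q : ℕ) (hq : ∀ q', kil ent n q' = true → q ≤ q')
    {f : QQ S D} (hf : f ∈ KQ F ent) :
    f.filter (fun w => w.length = (n + 1) ^ 2) ∈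
      tps (AJ F S n) (Finsupp.supported D F {b : List S | q ≤ b.length}) := by
  rw [KQ] at hf
  induction hf using Submodule.span_induction with
  | mem f hf =>
    cases hf with
    | k1 l b d hb hl =>
      rw [Finsupp.filter_single_of_neg]
      · exact zero_mem _
      · intro h
        rw [(sp_iff _).2 ⟨n + 1, h⟩] at hl
        exact absurd hl (by simp)
    | k2 n' q' pre z b d hk hb hpre =>
      rw [AJ_gen_filter n n' pre z b d hpre]
      split_ifs with hn
      · subst hn
        refine Submodule.subset_span ⟨_, Submodule.subset_span ⟨pre, z, hpre, rfl⟩,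
          Finsupp.single b d, ?_, (AJ_tp F pre z b d _).symm⟩
        exact Finsupp.single_mem_supported F d ((hq q' hk).trans hb)
      · exact zero_mem _
  | zero => rw [Finsupp.filter_zero]; exact zero_mem _
  | add f g _ _ hf hg => rw [Finsupp.filter_add]; exact add_mem hf hg
  | smul c f _ hf => rw [Finsupp.filter_smul]; exact Submodule.smul_mem _ c hf

/-- If nothing is killed in degree `(n + 1) ^ 2`. -/
theorem KQ_part_zero (ent : ℕ → ℕ → Bool) (n : ℕ) (hq : ∀ q', kil ent n q' = false)
    {f : QQ S D} (hf : f ∈ KQ F ent) :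
    f.filter (fun w => w.length = (n + 1) ^ 2) = 0 := by
  rw [KQ] at hf
  induction hf using Submodule.span_induction with
  | mem f hf =>
    cases hf with
    | k1 l b d hb hl =>
      rw [Finsupp.filter_single_of_neg]
      intro h
      rw [(sp_iff _).2 ⟨n + 1, h⟩] at hl
      exact absurd hl (by simp)
    | k2 n' q' pre z b d hk hb hpre =>
      rw [AJ_gen_filter n n' pre z b d hpre]
      split_ifs with hn
      · subst hn
        rw [hq q'] at hk
        exact absurd hk (by simp)
      · rfl
  | zero => rw [Finsupp.filter_zero]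
  | add f g _ _ hf hg => rw [Finsupp.filter_add, hf, hg, add_zero]
  | smul c f _ hf => rw [Finsupp.filter_smul, hf, smul_zero]

/-- Conversely `T ⊗ A` is killed if `kil ent n q`. -/
theorem tps_le_KQ (ent : ℕ → ℕ → Bool) (n q : ℕ) (hq : kil ent n q = true) :
    tps (AJ F S n) (Finsupp.supported D F {b : List S | q ≤ b.length}) ≤
      (KQ F ent : Submodule F (QQ S D)) := by
  rw [tps, Submodule.span_le]
  rintro f ⟨a, ha, p, hp, rfl⟩
  rw [SetLike.mem_coe]
  rw [AJ] at ha
  induction ha using Submodule.span_induction with
  | mem a ha =>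
    obtain ⟨pre, z, hpre, rfl⟩ := ha
    have hsum : ∀ r s : PP S D, ∀ v : List S →₀ F, tp (r + s) v = tp r v + tp s v := by
      intro r s v
      ext w : 1
      simp [tp, Finsupp.mapRange.linearMap_apply]
    have hzero : ∀ v : List S →₀ F, tp (0 : PP S D) v = 0 := by
      intro v
      ext w : 1
      simp [tp, Finsupp.mapRange.linearMap_apply]
    have key : ∀ s : Finset (List S), (∀ b ∈ s, q ≤ b.length) →
        tp (∑ b ∈ s, Finsupp.single b (p b) : PP S D)
          (((altP (n.unpair.1 + 1)).map fun c =>
            Finsupp.single (pre ++ c.2.map z) ((c.1 : ℤ) : F)).sum) ∈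
          (KQ F ent : Submodule F (QQ S D)) := by
      classical
      intro s
      induction s using Finset.induction_on with
      | empty => intro _; rw [Finset.sum_empty, hzero]; exact zero_mem _
      | insert b s hbs ih =>
        intro hs
        rw [Finset.sum_insert hbs, hsum]
        refine add_mem ?_ (ih fun b' hb' => hs b' (Finset.mem_insert_of_mem hb'))
        rw [AJ_tp]
        exact Submodule.subset_span (KGen.k2 n q pre z b (p b) hq
          (hs b (Finset.mem_insert_self _ _)) hpre)
    have h1 := key p.support fun b hb => (Finsupp.mem_supported F p).1 hp (Finset.mem_coe.2 hb)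
    have h2 : (∑ b ∈ p.support, Finsupp.single b (p b) : PP S D) = p := p.sum_single
    rw [h2] at h1
    exact h1
  | zero => rw [map_zero]; exact zero_mem _
  | add f g _ _ hf hg => rw [map_add]; exact add_mem hf hg
  | smul c f _ hf => rw [map_smul]; exact Submodule.smul_mem _ c hf

end Pool.Agent.W_59b51d_c25
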