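import Mathlib

/-!
# Algebras given by structure constants
-/

namespace Pool.Agent.W_59b51d_c25

/-- The vector given by a list of pairs (coefficient, basis element). -/
noncomputable def vecB {F β : Type} [Field F] (L : List (F × β)) : β →₀ F :=
  (L.map fun q => Finsupp.single q.2 q.1).sum

theorem vecB_nil {F β : Type} [Field F] : vecB ([] : List (F × β)) = 0 := rfl

theorem vecB_cons {F β : Type} [Field F] (q : F × β) (L : List (F × β)) :
    vecB (q :: L) = Finsupp.single q.2 q.1 + vecB L := by simp [vecB]

theorem vecB_append {F β : Type} [Field F] (L L' : List (F × β)) :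
    vecB (L ++ L') = vecB L + vecB L' := by simp [vecB]

theorem vecB_smul {F β : Type} [Field F] (c : F) (L : List (F × β)) :
    vecB (L.map fun q => (c * q.1, q.2)) = c • vecB L := by
  induction L with
  | nil => simp [vecB]
  | cons q L ih => simp [vecB_cons, ih, smul_add]

theorem exists_vecB {F β : Type} [Field F] (f : β →₀ F) : ∃ L : List (F × β), vecB L = f := by
  induction f using Finsupp.induction_linear with
  | zero => exact ⟨[], rfl⟩
  | add f g hf hg =>
    obtain ⟨L, rfl⟩ := hf
    obtain ⟨L', rfl⟩ := hg
    exact ⟨L ++ L', vecB_append _ _⟩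
  | single b c => exact ⟨[(c, b)], by simp [vecB]⟩

/-- The algebra with basis `β` in which the product of the basis elements `p` and `q` is
`bm p q`. -/
def SC {F β : Type} [Field F] (_bm : β → β → β →₀ F) : Type := β →₀ F

namespace SC

variable {F β : Type} [Field F] (bm : β → β → β →₀ F)

noncomputable instance : AddCommGroup (SC bm) := inferInstanceAs (AddCommGroup (β →₀ F))

noncomputable instance : Module F (SC bm) := inferInstanceAs (Module F (β →₀ F))

/-- The product as a bilinear map. -/
noncomputable def mulL : SC bm →ₗ[F] SC bm →ₗ[F] SC bm :=
  Finsupp.linearCombination F fun p : β =>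
    (Finsupp.linearCombination F (bm p) : (β →₀ F) →ₗ[F] (β →₀ F))

noncomputable instance : NonUnitalNonAssocRing (SC bm) :=
  { (inferInstance : AddCommGroup (SC bm)) with
    mul := fun x y => mulL bm x y
    left_distrib := fun x y z => map_add (mulL bm x) y z
    right_distrib := fun x y z => by
      change mulL bm (x + y) z = mulL bm x z + mulL bm y z
      rw [map_add, LinearMap.add_apply]
    zero_mul := fun x => by
      change mulL bm 0 x = 0
      rw [map_zero, LinearMap.zero_apply]
    mul_zero := fun x => map_zero (mulL bm x) }

theorem mul_def (x y : SC bm) : x * y = mulL bm x y := rfl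

instance : IsScalarTower F (SC bm) (SC bm) :=
  ⟨fun c x y => by
    change mulL bm (c • x) y = c • mulL bm x y
    rw [map_smul, LinearMap.smul_apply]⟩

instance : SMulCommClass F (SC bm) (SC bm) :=
  ⟨fun c x y => by
    change c • mulL bm x y = mulL bm x (c • y)
    rw [map_smul]⟩

/-- The basis elements. -/
noncomputable def b (p : β) : SC bm := Finsupp.single p (1 : F)

/-- A vector as an element of the algebra. -/
noncomputable def of : (β →₀ F) →ₗ[F] SC bm := LinearMap.id

/-- An element of the algebra as a vector. -/
noncomputable def val : SC bm →ₗ[F] (β →₀ F) := LinearMap.id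

@[simp] theorem val_of (x : β →₀ F) : val bm (of bm x) = x := rfl

@[simp] theorem of_val (x : SC bm) : of bm (val bm x) = x := rfl

theorem of_single (p : β) (c : F) : of bm (Finsupp.single p c) = c • b bm p := by
  change Finsupp.single p c = c • Finsupp.single p (1 : F)
  rw [Finsupp.smul_single, smul_eq_mul, mul_one]

theorem of_injective : Function.Injective (of bm) := fun _ _ h => h

theorem b_mul_b (p q : β) : b bm p * b bm q = of bm (bm p q) := by
  have h1 := Finsupp.linearCombination_single F (1 : F) p
    (v := fun p : β => (Finsupp.linearCombination F (bm p) : (β →₀ F) →ₗ[F] (β →₀ F)))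
  have h2 := Finsupp.linearCombination_single F (1 : F) q (v := bm p)
  rw [one_smul] at h1 h2
  have h3 := LinearMap.congr_fun h1 (Finsupp.single q (1 : F))
  exact h3.trans h2

/-- The basis elements span. -/
theorem span_b : Submodule.span F (Set.range (b bm)) = ⊤ := by
  rw [eq_top_iff]
  have h : ∀ f : β →₀ F, of bm f ∈ Submodule.span F (Set.range (b bm)) := by
    intro f
    induction f using Finsupp.induction_linear with
    | zero => rw [map_zero]; exact zero_mem _
    | add f g hf hg => rw [map_add]; exact add_mem hf hg
    | single p c =>
      rw [of_single]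
      exact Submodule.smul_mem _ _ (Submodule.subset_span ⟨p, rfl⟩)
  exact fun x _ => h (val bm x)

end SC

end Pool.Agent.W_59b51d_c25
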