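import Pool.Agent.W_59b51d_c25.Defs
import Pool.Agent.W_59b51d_c25.SC

/-!
# The module in coordinates

`(none, l, b, i)` stands for `i R_b L_l` and `(some e, l, b, i)`, `l ≠ []`, for `i R_b L_l R_e`.
-/

namespace Pool.Agent.W_59b51d_c25

/-- The basis of the module. -/
abbrev MB (S ι : Type) : Type := Option S × List S × List S × ι

/-- The operators on the basis; `none` is `0`. -/
def actB {S ι : Type} (o : Bool × S) : MB S ι → Option (MB S ι)
  | (some _, _, _, _) => none
  | (none, [], b, i) => if o.1 then some (none, [], b ++ [o.2], i) else some (none, [o.2], b, i)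
  | (none, x :: l, b, i) =>
    if o.1 then some (some o.2, x :: l, b, i) else some (none, x :: l ++ [o.2], b, i)

/-- A partial basis element as a vector. -/
noncomputable def osg (F : Type) [Field F] {β : Type} : Option β → (β →₀ F)
  | none => 0
  | some m => Finsupp.single m 1

variable (F : Type) [Field F] {S ι κ : Type}

/-- The operators. -/
noncomputable def actBL (o : Bool × S) : (MB S ι →₀ F) →ₗ[F] (MB S ι →₀ F) :=
  Finsupp.linearCombination F fun m => osg F (actB o m)

/-- The operators, with labels which are linear combinations of the elements of `S`. -/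
noncomputable def rho (o : Bool) : (S →₀ F) →ₗ[F] (MB S ι →₀ F) →ₗ[F] (MB S ι →₀ F) :=
  Finsupp.linearCombination F fun s => actBL F (o, s)

/-- The action of a word. -/
noncomputable def actwB : List (Bool × S) → (MB S ι →₀ F) →ₗ[F] (MB S ι →₀ F)
  | [] => LinearMap.id
  | o :: u => actwB u ∘ₗ actBL F o

/-- The span of the images of the `G k` under the words of length at most `n`. -/
noncomputable def ClB (G : κ → (MB S ι →₀ F)) (n : ℕ) : Submodule F (MB S ι →₀ F) :=
  Submodule.span F {z | ∃ k, ∃ u : List (Bool × S), u.length ≤ n ∧ z = actwB F u (G k)}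

/-- The submodule generated by the `G k`. -/
noncomputable def ClBw (G : κ → (MB S ι →₀ F)) : Submodule F (MB S ι →₀ F) :=
  Submodule.span F {z | ∃ k, ∃ u : List (Bool × S), z = actwB F u (G k)}

/-- The generators of the kills; the numbers are the lengths of the two words. -/
inductive KGenB (ent : ℕ → ℕ → Bool) : ℕ → ℕ → (MB S ι →₀ F) → Prop
  | k1 (e : S) (l b : List S) (i : ι) : 1 ≤ b.length → sp l.length = false →
      KGenB ent l.length b.length (Finsupp.single (some e, l, b, i) 1)
  | k2 (e : S) (n q : ℕ) (pre : List S) (z : ℕ → S) (b : List S) (i : ι) :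
      kil ent n q = true → q ≤ b.length → pre.length + (n.unpair.1 + 1) = (n + 1) ^ 2 →
      KGenB ent ((n + 1) ^ 2) b.length (((altP (n.unpair.1 + 1)).map fun c =>
        Finsupp.single (some e, pre ++ c.2.map z, b, i) ((c.1 : ℤ) : F)).sum)

/-- The kills. -/
noncomputable def KB (S ι : Type) (ent : ℕ → ℕ → Bool) : Submodule F (MB S ι →₀ F) :=
  Submodule.span F {f | ∃ L L', KGenB F ent L L' f}

/-- The kills with words of length at most `B`. -/
noncomputable def KBt (S ι : Type) (ent : ℕ → ℕ → Bool) (B : ℕ) : Submodule F (MB S ι →₀ F) :=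
  Submodule.span F {f | ∃ L ≤ B, ∃ L' ≤ B, KGenB F ent L L' f}

/-- The elements with words of length at most `m`. -/
noncomputable def bdg (S ι : Type) (m : ℕ) : Submodule F (MB S ι →₀ F) :=
  Finsupp.supported F F {p | p.2.1.length ≤ m ∧ p.2.2.1.length ≤ m}

theorem rho_single (o : Bool) (s : S) (m : MB S ι →₀ F) :
    rho F o (Finsupp.single s 1) m = actBL F (o, s) m := by
  simp [rho]

theorem actBL_single (o : Bool × S) (m : MB S ι) :
    actBL F o (Finsupp.single m 1) = osg F (actB o m) := by
  simp [actBL]

end Pool.Agent.W_59b51d_c25
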