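import Pool.Agent.W_59b51d_c25.MMDefs
import Pool.Agent.W_59b51d_c25.MBDefs

/-!
# Coordinates
-/

namespace Pool.Agent.W_59b51d_c25

variable (F : Type) [Field F] {S ι κ : Type}

/-- The coordinates: `single (e, l, b, i) c ↦ single e (single l (single b (single i c)))`
(`Finsupp.curryLinearEquiv` or similar, three times). -/
theorem exists_psi (S ι : Type) : ∃ ψ : (MB S ι →₀ F) ≃ₗ[F] MM S (ι →₀ F),
    ∀ (e : Option S) (l b : List S) (i : ι) (c : F), ψ (Finsupp.single (e, l, b, i) c) =
      Finsupp.single e (Finsupp.single l (Finsupp.single b (Finsupp.single i c))) := by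
  refine ⟨Finsupp.curryLinearEquiv F ≪≫ₗ Finsupp.mapRange.linearEquiv
    (Finsupp.curryLinearEquiv F ≪≫ₗ Finsupp.mapRange.linearEquiv
      (Finsupp.curryLinearEquiv F)), fun e l b i c => ?_⟩
  simp [Finsupp.curry_single]

theorem Psi_ins_length {α : Type} (x : α) (l : List α) :
    ∀ q ∈ ins x l, q.2.length = l.length + 1 := by
  induction l with
  | nil => simp [ins]
  | cons y l ih =>
    intro q hq
    rw [ins, List.mem_cons, List.mem_map] at hq
    rcases hq with rfl | ⟨p, hp, rfl⟩
    · simp
    · simp [ih p hp]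

theorem Psi_altP_length (a : ℕ) : ∀ q ∈ altP a, q.2.length = a := by
  induction a with
  | zero => simp [altP]
  | succ a ih =>
    intro q hq
    rw [altP, List.mem_flatMap] at hq
    obtain ⟨p, hp, hq⟩ := hq
    rw [List.mem_map] at hq
    obtain ⟨r, hr, rfl⟩ := hq
    rw [Psi_ins_length a p.2 r hr, ih p hp]

/-- The condition on the lengths of the words. -/
def Psi_cond (S ι : Type) (B : ℕ) (p : MB S ι) : Prop :=
  p.2.1.length ≤ B ∧ p.2.2.1.length ≤ B

/-- The filter as a linear map. -/
noncomputable def Psi_flt (S ι : Type) (B : ℕ) : (MB S ι →₀ F) →ₗ[F] (MB S ι →₀ F) :=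
  open scoped Classical in Finsupp.linearCombination F fun p =>
    if Psi_cond S ι B p then Finsupp.single p 1 else 0

theorem Psi_flt_single (B : ℕ) (p : MB S ι) (c : F) :
    Psi_flt F S ι B (Finsupp.single p c) =
      open scoped Classical in if Psi_cond S ι B p then Finsupp.single p c else 0 := by
  rw [Psi_flt, Finsupp.linearCombination_single]
  split_ifs <;> simp

theorem Psi_flt_eq {B : ℕ} {z : MB S ι →₀ F} (hz : z ∈ bdg F S ι B) : Psi_flt F S ι B z = z := by
  rw [Psi_flt, Finsupp.linearCombination_apply, Finsupp.sum]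
  conv_rhs => rw [← Finsupp.sum_single z, Finsupp.sum]
  refine Finset.sum_congr rfl fun p hp => ?_
  have h : Psi_cond S ι B p := (Finsupp.mem_supported F z).1 hz (Finset.mem_coe.2 hp)
  rw [if_pos h, Finsupp.smul_single, smul_eq_mul, mul_one]

theorem Psi_flt_gen (ent : ℕ → ℕ → Bool) (B L L' : ℕ) (f : MB S ι →₀ F)
    (hf : KGenB F ent L L' f) : Psi_flt F S ι B f ∈ KBt F S ι ent B := by
  classical
  by_cases hL : L ≤ B ∧ L' ≤ B
  · have h1 : Psi_flt F S ι B f = f := by
      apply Psi_flt_eq
      cases hf with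
      | k1 e l b i hb hs =>
        exact (Finsupp.mem_supported F _).2 ((Finset.coe_subset.2
          Finsupp.support_single_subset).trans (by simpa using hL))
      | k2 e n q pre z b i hk hq hp =>
        refine list_sum_mem fun g hg => ?_
        rw [List.mem_map] at hg
        obtain ⟨c, hc, rfl⟩ := hg
        refine (Finsupp.mem_supported F _).2 ((Finset.coe_subset.2
          Finsupp.support_single_subset).trans ?_)
        have h2 : (pre ++ c.2.map z).length = (n + 1) ^ 2 := by
          rw [List.length_append, List.length_map, Psi_altP_length _ c hc, hp]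
        rw [Finset.coe_singleton, Set.singleton_subset_iff]
        exact ⟨by rw [h2]; exact hL.1, hL.2⟩
    rw [h1]
    exact Submodule.subset_span ⟨L, hL.1, L', hL.2, hf⟩
  · have h1 : Psi_flt F S ι B f = 0 := by
      cases hf with
      | k1 e l b i hb hs =>
        rw [Psi_flt_single, if_neg]
        exact hL
      | k2 e n q pre z b i hk hq hp =>
        rw [map_list_sum, List.map_map]
        refine List.sum_eq_zero fun g hg => ?_
        rw [List.mem_map] at hg
        obtain ⟨c, hc, rfl⟩ := hg
        have h2 : (pre ++ c.2.map z).length = (n + 1) ^ 2 := by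
          rw [List.length_append, List.length_map, Psi_altP_length _ c hc, hp]
        rw [Function.comp_apply, Psi_flt_single, if_neg]
        rintro ⟨h3, h4⟩
        exact hL ⟨by rw [← h2]; exact h3, h4⟩
    rw [h1]
    exact zero_mem _

/-- The kills with short words: `Finsupp.filter` by the condition on the lengths of the words maps
`bdg`-elements to themselves and each `KGenB F ent L L' f` to itself or to `0`. -/
theorem KB_inf_bdg (ent : ℕ → ℕ → Bool) (B : ℕ) : KB F S ι ent ⊓ bdg F S ι B ≤ KBt F S ι ent B := by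
  rintro z ⟨hz, hz'⟩
  rw [← Psi_flt_eq F hz']
  have h : KB F S ι ent ≤ (KBt F S ι ent B).comap (Psi_flt F S ι B) := by
    refine Submodule.span_le.2 ?_
    rintro f ⟨L, L', hf⟩
    exact Psi_flt_gen F ent B L L' f hf
  exact h hz

theorem Psi_bdg_mono {m n : ℕ} (h : m ≤ n) : bdg F S ι m ≤ bdg F S ι n :=
  Finsupp.supported_mono fun _ hp => ⟨hp.1.trans h, hp.2.trans h⟩

theorem Psi_single_mem {m : ℕ} {p : MB S ι} (hp : Psi_cond S ι m p) (c : F) :
    Finsupp.single p c ∈ bdg F S ι m :=
  Finsupp.single_mem_supported F c hp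

theorem Psi_osg_mem (o : Bool × S) {m : ℕ} {p : MB S ι} (hp : Psi_cond S ι m p) :
    osg F (actB o p) ∈ bdg F S ι (m + 1) := by
  obtain ⟨e, l, b, i⟩ := p
  obtain ⟨h1, h2⟩ := hp
  dsimp only at h1 h2
  rcases e with _ | e
  · rcases l with _ | ⟨x, l⟩
    · by_cases ho : o.1 = true
      · simp only [actB, ho, if_true, osg]
        refine Psi_single_mem F ⟨?_, ?_⟩ 1 <;> simp at * <;> omega
      · simp only [actB, ho, osg, Bool.false_eq_true, if_false]
        refine Psi_single_mem F ⟨?_, ?_⟩ 1 <;> simp at * <;> omega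
    · by_cases ho : o.1 = true
      · simp only [actB, ho, if_true, osg]
        refine Psi_single_mem F ⟨?_, ?_⟩ 1 <;> simp at * <;> omega
      · simp only [actB, ho, osg, Bool.false_eq_true, if_false]
        refine Psi_single_mem F ⟨?_, ?_⟩ 1 <;> simp at * <;> omega
  · exact zero_mem _

theorem Psi_actBL_mem (o : Bool × S) {m : ℕ} {z : MB S ι →₀ F} (hz : z ∈ bdg F S ι m) :
    actBL F o z ∈ bdg F S ι (m + 1) := by
  rw [actBL, Finsupp.linearCombination_apply, Finsupp.sum]
  refine Submodule.sum_mem _ fun p hp => Submodule.smul_mem _ _ ?_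
  exact Psi_osg_mem F o ((Finsupp.mem_supported F z).1 hz (Finset.mem_coe.2 hp))

theorem Psi_actwB_mem (u : List (Bool × S)) : ∀ {m : ℕ} {z : MB S ι →₀ F}, z ∈ bdg F S ι m →
    actwB F u z ∈ bdg F S ι (m + u.length) := by
  induction u with
  | nil => intro m z hz; exact hz
  | cons o u ih =>
    intro m z hz
    have h := ih (Psi_actBL_mem F o hz)
    rw [actwB, LinearMap.comp_apply, List.length_cons]
    rw [add_assoc, add_comm 1] at h
    exact h

theorem Psi_exists_bdg (z : MB S ι →₀ F) : ∃ c, z ∈ bdg F S ι c := by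
  refine ⟨z.support.sup fun p => max p.2.1.length p.2.2.1.length, ?_⟩
  refine (Finsupp.mem_supported F z).2 fun p hp => ?_
  have h := Finset.le_sup (f := fun p : MB S ι => max p.2.1.length p.2.2.1.length)
    (Finset.mem_coe.1 hp)
  exact ⟨(le_max_left _ _).trans h, (le_max_right _ _).trans h⟩

theorem exists_ClB_le_bdg [Finite κ] (G : κ → (MB S ι →₀ F)) :
    ∃ c, ∀ n, ClB F G n ≤ bdg F S ι (n + c) := by
  choose c hc using fun k => Psi_exists_bdg F (G k)
  obtain ⟨C, hC⟩ := (Set.finite_range c).bddAbove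
  refine ⟨C, fun n => Submodule.span_le.2 ?_⟩
  rintro z ⟨k, u, hu, rfl⟩
  have hk : c k ≤ C := hC ⟨k, rfl⟩
  exact Psi_bdg_mono F (by omega) (Psi_actwB_mem F u (hc k))

end Pool.Agent.W_59b51d_c25
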