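import Pool.Agent.W_59b51d_c25.BDMain
import Pool.Agent.W_59b51d_c25.Psi

/-!
# Bounded derivations in coordinates
-/

namespace Pool.Agent.W_59b51d_c25

variable (F : Type) [Field F] {S ι κ : Type}

/-- The defining property of the coordinates. -/
def BDBasis_prop (ψ : (MB S ι →₀ F) ≃ₗ[F] MM S (ι →₀ F)) : Prop :=
  ∀ (e : Option S) (l b : List S) (i : ι) (c : F), ψ (Finsupp.single (e, l, b, i) c) =
    Finsupp.single e (Finsupp.single l (Finsupp.single b (Finsupp.single i c)))

theorem BDBasis_act_single {ψ : (MB S ι →₀ F) ≃ₗ[F] MM S (ι →₀ F)} (hψ : BDBasis_prop F ψ)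
    (o : Bool × S) (p : MB S ι) (c : F) :
    ψ (actBL F o (Finsupp.single p c)) = act F o (ψ (Finsupp.single p c)) := by
  classical
  obtain ⟨e, l, b, i⟩ := p
  obtain ⟨o, s⟩ := o
  rw [hψ, actBL, Finsupp.linearCombination_single]
  rcases e with _ | e
  · rcases l with _ | ⟨x, l⟩
    · cases o
      · rw [act_false]
        simp [actB, osg, hψ _ _ _ _ _, appw_single]
      · rw [act_true]
        simp [actB, osg, hψ _ _ _ _ _, appw_single]
        exact (add_zero (M := MM S (ι →₀ F)) _).symm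
    · cases o
      · rw [act_false]
        simp [actB, osg, hψ _ _ _ _ _, appw_single]
      · rw [act_true]
        simp [actB, osg, hψ _ _ _ _ _]
        exact (zero_add (M := MM S (ι →₀ F)) _).symm
  · cases o
    · rw [act_false]
      simp [actB, osg]
    · rw [act_true]
      simp [actB, osg]
      exact (add_zero (M := MM S (ι →₀ F)) _).symm

theorem BDBasis_act {ψ : (MB S ι →₀ F) ≃ₗ[F] MM S (ι →₀ F)} (hψ : BDBasis_prop F ψ)
    (o : Bool × S) (z : MB S ι →₀ F) : ψ (actBL F o z) = act F o (ψ z) := by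
  have h : ψ.toLinearMap ∘ₗ actBL F o = act F o ∘ₗ ψ.toLinearMap :=
    Finsupp.lhom_ext fun p c => BDBasis_act_single F hψ o p c
  exact LinearMap.congr_fun h z

theorem BDBasis_actw {ψ : (MB S ι →₀ F) ≃ₗ[F] MM S (ι →₀ F)} (hψ : BDBasis_prop F ψ) :
    ∀ (u : List (Bool × S)) (z : MB S ι →₀ F), ψ (actwB F u z) = actw F u (ψ z)
  | [], z => rfl
  | o :: u, z => by
    rw [actwB, actw, LinearMap.comp_apply, LinearMap.comp_apply, BDBasis_actw hψ u,
      BDBasis_act F hψ]

theorem BDBasis_Clw {ψ : (MB S ι →₀ F) ≃ₗ[F] MM S (ι →₀ F)} (hψ : BDBasis_prop F ψ)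
    (G : κ → (MB S ι →₀ F)) : ClBw F G ≤ (Clw F fun k => ψ (G k)).comap ψ.toLinearMap := by
  refine Submodule.span_le.2 ?_
  rintro z ⟨k, u, rfl⟩
  refine Submodule.subset_span ⟨k, u, ?_⟩
  exact BDBasis_actw F hψ u (G k)

theorem BDBasis_Cl {ψ : (MB S ι →₀ F) ≃ₗ[F] MM S (ι →₀ F)} (hψ : BDBasis_prop F ψ)
    (G : κ → (MB S ι →₀ F)) (n : ℕ) :
    Cl F (fun k => ψ (G k)) n ≤ (ClB F G n).map ψ.toLinearMap := by
  refine Submodule.span_le.2 ?_
  rintro z ⟨k, u, hu, rfl⟩
  exact ⟨actwB F u (G k), Submodule.subset_span ⟨k, u, hu, rfl⟩, BDBasis_actw F hψ u (G k)⟩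

theorem BDBasis_bdg {ψ : (MB S ι →₀ F) ≃ₗ[F] MM S (ι →₀ F)} (hψ : BDBasis_prop F ψ) (m : ℕ) :
    bdg F S ι m ≤ (mdg F S (ι →₀ F) m).comap ψ.toLinearMap := by
  classical
  intro z hz
  change ψ z ∈ mdg F S (ι →₀ F) m
  rw [← Finsupp.sum_single z, Finsupp.sum, map_sum]
  refine Submodule.sum_mem _ fun p hp => ?_
  have h := (Finsupp.mem_supported F z).1 hz (Finset.mem_coe.2 hp)
  obtain ⟨e, l, b, i⟩ := p
  obtain ⟨h1, h2⟩ := h
  rw [hψ]
  intro e' w v hv
  rw [Finsupp.single_apply] at hv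
  split_ifs at hv with h3
  · rw [Finsupp.single_apply] at hv
    split_ifs at hv with h4
    · rw [Finsupp.single_apply] at hv
      split_ifs at hv with h5
      · subst h4 h5
        exact ⟨h1, h2⟩
      · exact absurd rfl hv
    · exact absurd rfl hv
  · exact absurd rfl hv

/-- The alternating sum of the kills. -/
noncomputable def BDBasis_alt {D : Type} [AddCommGroup D] (pre : List S) (z : ℕ → S) (b : List S)
    (L : List (ℤ × List ℕ)) (d : D) : QQ S D :=
  (L.map fun c => Finsupp.single (pre ++ c.2.map z) (Finsupp.single b (c.1 • d))).sum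

theorem BDBasis_alt_nil {D : Type} [AddCommGroup D] (pre : List S) (z : ℕ → S) (b : List S)
    (e : S) (d : D) :
    (Finsupp.single (some e) (BDBasis_alt pre z b [] d) : MM S D) = 0 := by
  simp [BDBasis_alt]

theorem BDBasis_alt_cons {D : Type} [AddCommGroup D] (pre : List S) (z : ℕ → S) (b : List S)
    (e : S) (c : ℤ × List ℕ) (L : List (ℤ × List ℕ)) (d : D) :
    (Finsupp.single (some e) (BDBasis_alt pre z b (c :: L) d) : MM S D) =
      Finsupp.single (some e) (Finsupp.single (pre ++ c.2.map z) (Finsupp.single b (c.1 • d))) +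
        Finsupp.single (some e) (BDBasis_alt pre z b L d) := by
  rw [BDBasis_alt, List.map_cons, List.sum_cons, Finsupp.single_add]
  rfl

theorem BDBasis_alt_zero {D : Type} [AddCommGroup D] (pre : List S) (z : ℕ → S) (b : List S)
    (e : S) (L : List (ℤ × List ℕ)) :
    (Finsupp.single (some e) (BDBasis_alt pre z b L (0 : D)) : MM S D) = 0 := by
  induction L with
  | nil => exact BDBasis_alt_nil pre z b e 0
  | cons c L ih =>
    rw [BDBasis_alt_cons, ih]
    simp only [smul_zero, Finsupp.single_zero]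
    exact add_zero (M := MM S D) 0

theorem BDBasis_alt_add {D : Type} [AddCommGroup D] (pre : List S) (z : ℕ → S) (b : List S)
    (e : S) (L : List (ℤ × List ℕ)) (d d' : D) :
    (Finsupp.single (some e) (BDBasis_alt pre z b L (d + d')) : MM S D) =
      Finsupp.single (some e) (BDBasis_alt pre z b L d) +
        Finsupp.single (some e) (BDBasis_alt pre z b L d') := by
  induction L with
  | nil =>
    rw [BDBasis_alt_nil, BDBasis_alt_nil, BDBasis_alt_nil]
    exact (add_zero (M := MM S D) 0).symm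
  | cons c L ih =>
    rw [BDBasis_alt_cons, BDBasis_alt_cons, BDBasis_alt_cons, ih, smul_add, Finsupp.single_add,
      Finsupp.single_add, Finsupp.single_add]
    exact add_add_add_comm (G := MM S D) _ _ _ _

theorem BDBasis_alt_smul {D : Type} [AddCommGroup D] [Module F D] (pre : List S) (z : ℕ → S)
    (b : List S) (e : S) (L : List (ℤ × List ℕ)) (a : F) (d : D) :
    (Finsupp.single (some e) (BDBasis_alt pre z b L (a • d)) : MM S D) =
      a • Finsupp.single (some e) (BDBasis_alt pre z b L d) := by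
  induction L with
  | nil => rw [BDBasis_alt_nil, BDBasis_alt_nil, smul_zero]
  | cons c L ih =>
    have h3 : (Finsupp.single (some e) (Finsupp.single (pre ++ c.2.map z)
        (Finsupp.single b (c.1 • a • d))) : MM S D) = a • Finsupp.single (some e)
          (Finsupp.single (pre ++ c.2.map z) (Finsupp.single b (c.1 • d))) := by
      rw [Finsupp.smul_single, Finsupp.smul_single, Finsupp.smul_single, smul_comm]
    rw [BDBasis_alt_cons, BDBasis_alt_cons, ih, h3]
    exact (smul_add (A := MM S D) a _ _).symm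

theorem BDBasis_alt_psi {ψ : (MB S ι →₀ F) ≃ₗ[F] MM S (ι →₀ F)} (hψ : BDBasis_prop F ψ)
    (pre : List S) (z : ℕ → S) (b : List S) (e : S) (i : ι) (L : List (ℤ × List ℕ)) :
    ψ ((L.map fun c => Finsupp.single (some e, pre ++ c.2.map z, b, i) ((c.1 : ℤ) : F)).sum) =
      Finsupp.single (some e) (BDBasis_alt pre z b L (Finsupp.single i (1 : F))) := by
  induction L with
  | nil =>
    rw [List.map_nil, List.sum_nil, map_zero]
    exact (BDBasis_alt_nil pre z b e (Finsupp.single i (1 : F))).symm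
  | cons c L ih =>
    rw [List.map_cons, List.sum_cons, map_add, ih, hψ]
    refine Eq.trans ?_ (BDBasis_alt_cons pre z b e c L (Finsupp.single i (1 : F))).symm
    have h : (Finsupp.single i ((c.1 : ℤ) : F) : ι →₀ F) = c.1 • Finsupp.single i (1 : F) := by
      rw [Finsupp.smul_single, zsmul_eq_mul, mul_one]
    rw [h]

theorem BDBasis_KB {ψ : (MB S ι →₀ F) ≃ₗ[F] MM S (ι →₀ F)} (hψ : BDBasis_prop F ψ)
    (ent : ℕ → ℕ → Bool) : KB F S ι ent ≤ (KM F ent).comap ψ.toLinearMap := by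
  refine Submodule.span_le.2 ?_
  rintro f ⟨L, L', hf⟩
  change ψ f ∈ KM F ent
  cases hf with
  | k1 e l b i hb hs =>
    rw [hψ]
    exact BDMain_single_KM F ent e (Submodule.subset_span (KGen.k1 l b _ hb hs))
  | k2 e n q pre z b i hk hq hp =>
    rw [BDBasis_alt_psi F hψ]
    exact BDMain_single_KM F ent e (Submodule.subset_span
      (KGen.k2 n q pre z b (Finsupp.single i (1 : F)) hk hq hp))

theorem BDBasis_KQ {ψ : (MB S ι →₀ F) ≃ₗ[F] MM S (ι →₀ F)} (hψ : BDBasis_prop F ψ)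
    (ent : ℕ → ℕ → Bool) (e : S) : (KQ F ent : Submodule F (QQ S (ι →₀ F))) ≤
      ((KB F S ι ent).map ψ.toLinearMap).comap (Finsupp.lsingle (some e)) := by
  refine Submodule.span_le.2 ?_
  rintro f hf
  change Finsupp.single (some e) f ∈ (KB F S ι ent).map ψ.toLinearMap
  cases hf with
  | k1 l b d hb hs =>
    induction d using Finsupp.induction_linear with
    | zero =>
      simp only [Finsupp.single_zero]
      exact zero_mem _
    | add d d' hd hd' =>
      simp only [Finsupp.single_add]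
      exact add_mem hd hd'
    | single i c =>
      refine ⟨Finsupp.single (some e, l, b, i) c, ?_, hψ _ _ _ _ _⟩
      have h : (Finsupp.single (some e, l, b, i) c : MB S ι →₀ F) =
          c • Finsupp.single (some e, l, b, i) 1 := by
        rw [Finsupp.smul_single, smul_eq_mul, mul_one]
      rw [h]
      exact Submodule.smul_mem _ _ (Submodule.subset_span
        ⟨_, _, KGenB.k1 e l b i hb hs⟩)
  | k2 n q pre z b d hk hq hp =>
    change Finsupp.single (some e) (BDBasis_alt pre z b (altP (n.unpair.1 + 1)) d) ∈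
      (KB F S ι ent).map ψ.toLinearMap
    induction d using Finsupp.induction_linear with
    | zero =>
      have h := BDBasis_alt_zero (D := ι →₀ F) pre z b e (altP (n.unpair.1 + 1))
      exact h ▸ zero_mem _
    | add d d' hd hd' =>
      have h := BDBasis_alt_add pre z b e (altP (n.unpair.1 + 1)) d d'
      exact h ▸ add_mem hd hd'
    | single i c =>
      have h1 : (Finsupp.single i c : ι →₀ F) = c • Finsupp.single i 1 := by
        rw [Finsupp.smul_single, smul_eq_mul, mul_one]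
      have h := BDBasis_alt_smul F pre z b e (altP (n.unpair.1 + 1)) c (Finsupp.single i (1 : F))
      rw [h1]
      refine h ▸ Submodule.smul_mem _ c ?_
      exact ⟨_, Submodule.subset_span ⟨_, _, KGenB.k2 e n q pre z b i hk hq hp⟩,
        BDBasis_alt_psi F hψ pre z b e i _⟩

theorem BDBasis_KM {ψ : (MB S ι →₀ F) ≃ₗ[F] MM S (ι →₀ F)} (hψ : BDBasis_prop F ψ)
    (ent : ℕ → ℕ → Bool) :
    (KM F ent : Submodule F (MM S (ι →₀ F))) ≤ (KB F S ι ent).map ψ.toLinearMap := by
  intro y hy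
  refine BDMain_sum F y fun o => ?_
  rcases o with _ | e
  · rw [hy.1, Finsupp.single_zero]
    exact zero_mem _
  · exact BDBasis_KQ F hψ ent e (hy.2 e)

/-- Transport of `bd_main` by `exists_psi` (`ψ (actBL F o m) = act F o (ψ m)`, check on the basis;
`ψ` maps `ClB`, `ClBw`, `KB`, `bdg` onto `Cl`, `Clw`, `KM`, `mdg`), and truncation of the kills by
`KB_inf_bdg`. -/
theorem bd_basis [Finite S] [Finite κ] (ent : ℕ → ℕ → Bool) (G : κ → (MB S ι →₀ F)) :
    ∃ C, ∀ m σ, (∀ n q, n.unpair.1 < Nat.card S → (n + 1) ^ 2 ≤ (m + C) ^ 2 →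
        kil ent n q = true → ∃ q' ≤ σ, kil ent n q' = true) →
      ∀ z ∈ bdg F S ι m, z ∈ ClBw F G ⊔ KB F S ι ent →
        z ∈ ClB F G (C * ((m + C) ^ 2 + σ + 1)) ⊔ KBt F S ι ent (C * ((m + C) ^ 2 + σ + 1)) := by
  obtain ⟨ψ, hψ'⟩ := exists_psi F S ι
  have hψ : BDBasis_prop F ψ := hψ'
  obtain ⟨C₀, hC₀⟩ := bd_main F ent fun k => ψ (G k)
  obtain ⟨c₁, hc₁⟩ := exists_ClB_le_bdg F G
  refine ⟨C₀ + c₁ + 1, fun m σ hk z hz hzz => ?_⟩
  obtain ⟨C, hC⟩ : ∃ C, C = C₀ + c₁ + 1 := ⟨_, rfl⟩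
  rw [← hC] at hk ⊢
  have hle : (m + C₀) ^ 2 ≤ (m + C) ^ 2 := Nat.pow_le_pow_left (by omega) 2
  obtain ⟨P, hP⟩ : ∃ P, P = (m + C) ^ 2 + σ + 1 := ⟨_, rfl⟩
  rw [← hP]
  obtain ⟨B, hB⟩ : ∃ B, B = C₀ * ((m + C₀) ^ 2 + σ + 1) := ⟨_, rfl⟩
  have hP1 : m + C ≤ P := by
    have := Nat.le_self_pow (n := 2) two_ne_zero (m + C)
    omega
  have hBP : B + c₁ ≤ C * P := by
    have a1 : B ≤ C₀ * P := by
      rw [hB]
      exact Nat.mul_le_mul_left _ (by omega)
    have a2 : (C₀ + 1) * P ≤ C * P := Nat.mul_le_mul_right _ (by omega)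
    have a3 : (C₀ + 1) * P = C₀ * P + P := by ring
    omega
  have hmP : m ≤ C * P := by
    have a2 : 1 * P ≤ C * P := Nat.mul_le_mul_right _ (by omega)
    omega
  have h1 : ψ z ∈ mdg F S (ι →₀ F) m := BDBasis_bdg F hψ m hz
  have h2 : ψ z ∈ Clw F (fun k => ψ (G k)) ⊔ KM F ent := by
    obtain ⟨x, hx, y, hy, rfl⟩ := Submodule.mem_sup.1 hzz
    rw [map_add]
    exact Submodule.add_mem_sup (BDBasis_Clw F hψ G hx) (BDBasis_KB F hψ ent hy)
  have h3 := hC₀ m σ (fun n q hn hle' hq => hk n q hn (hle'.trans hle) hq) (ψ z) h1 h2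
  rw [← hB] at h3
  obtain ⟨x, hx, y, hy, hxy⟩ := Submodule.mem_sup.1 h3
  obtain ⟨x', hx', hx''⟩ := BDBasis_Cl F hψ G B hx
  obtain ⟨y', hy', hy''⟩ := BDBasis_KM F hψ ent hy
  have hz' : z = x' + y' := by
    apply ψ.injective
    rw [map_add, ← hxy]
    exact (congrArg₂ (· + ·) hx'' hy'').symm
  have hxb : x' ∈ bdg F S ι (C * P) := Psi_bdg_mono F hBP (hc₁ B hx')
  have hyb : y' ∈ bdg F S ι (C * P) := by
    have e1 : y' = z - x' := by rw [hz']; abel
    rw [e1]
    exact sub_mem (Psi_bdg_mono F hmP hz) hxb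
  rw [hz']
  refine Submodule.add_mem_sup ?_ (KB_inf_bdg F ent (C * P) ⟨hy', hyb⟩)
  refine Submodule.span_mono ?_ hx'
  rintro f ⟨k, u, hu, rfl⟩
  exact ⟨k, u, by omega, rfl⟩

end Pool.Agent.W_59b51d_c25
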