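import Pool.Agent.W_59b51d_c25.FMCut

/-!
# The weak algorithm: adapted families
-/

namespace Pool.Agent.W_59b51d_c25

variable {F D X κ : Type} [Field F] [AddCommGroup D] [Module F D]

theorem FMAlg_self_mem (γ : κ → List X →₀ D) (k : κ) (n : ℕ) : γ k ∈ rs F γ n :=
  Submodule.subset_span ⟨k, [], Nat.zero_le _, (appw_nil _).symm⟩

theorem FMAlg_mem_dg_dgr (f : List X →₀ D) : f ∈ dg F D X (dgr f) := mem_dg_iff.2 le_rfl

/-- A family with the same right submodule, whose images under `p` are independent with degrees.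

Proof. Induction on the measure `∑ k, if p (γ k) = 0 then 0 else dgr (p (γ k)) + 1`
(`p (γ k)` stands for `Finsupp.mapRange.linearMap p (γ k)`). Apply `fa_step` to `η := p ∘ γ`. In the
second case replace `γ i` by `γ i + ∑ ap (γ k) (b k)` (`Function.update`): the measure drops
(`mapRange_ap`), and as `b i = 0` each of the two families is contained in `rs` of the other, for
some constant (`mem_rs_iff`, `mem_rsw_exists`). -/
theorem fa_adapt {E : Type} [AddCommGroup E] [Module F E] [Fintype κ] [DecidableEq κ]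
    (p : D →ₗ[F] E) (γ : κ → List X →₀ D) :
    ∃ (γ' : κ → List X →₀ D) (c : ℕ), (∀ k, γ' k ∈ rs F γ c) ∧ (∀ k, γ k ∈ rs F γ' c) ∧
      ∀ (t : κ → List X →₀ F) (m : ℕ),
        Finsupp.mapRange.linearMap p (∑ k, ap (γ' k) (t k)) ∈ dg F E X m →
        ∀ k, Finsupp.mapRange.linearMap p (γ' k) ≠ 0 → t k ∈ dg F F X m := by
  classical
  induction hn : (∑ k, if Finsupp.mapRange.linearMap p (γ k) = 0 then 0 else
      dgr (Finsupp.mapRange.linearMap p (γ k)) + 1) using Nat.strong_induction_on
      generalizing γ with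
  | _ n ih =>
    subst hn
    rcases fa_step (F := F) (fun k => Finsupp.mapRange.linearMap p (γ k)) with h | h
    · refine ⟨γ, 0, fun k => FMAlg_self_mem γ k 0, fun k => FMAlg_self_mem γ k 0, ?_⟩
      intro t m ht k hk
      refine h t m ?_ k hk
      rw [map_sum] at ht
      simpa only [mapRange_ap] using ht
    · obtain ⟨i, b, hbi, hi, hlt⟩ := h
      set g : List X →₀ D := γ i + ∑ k, ap (γ k) (b k) with hg
      set γ₁ : κ → List X →₀ D := Function.update γ i g with hγ₁
      have h1i : γ₁ i = g := by rw [hγ₁, Function.update_self]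
      have h1k : ∀ k, k ≠ i → γ₁ k = γ k := fun k hk => by
        rw [hγ₁, Function.update_of_ne hk]
      have hpg : Finsupp.mapRange.linearMap p g = Finsupp.mapRange.linearMap p (γ i) +
          ∑ k, ap (Finsupp.mapRange.linearMap p (γ k)) (b k) := by
        rw [hg, map_add, map_sum]
        simp only [mapRange_ap]
      -- the constants
      set n₀ : ℕ := ∑ k, dgr (b k) with hn₀
      have hb : ∀ k, b k ∈ dg F F X n₀ := fun k => by
        rw [mem_dg_iff, hn₀]
        exact Finset.single_le_sum (f := fun k => dgr (b k)) (fun _ _ => Nat.zero_le _)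
          (Finset.mem_univ k)
      have hA : ∀ k, γ₁ k ∈ rs F γ n₀ := by
        intro k
        by_cases hk : k = i
        · subst hk
          rw [h1i, hg]
          exact add_mem (FMAlg_self_mem γ k n₀) ((mem_rs_iff γ n₀ _).2 ⟨b, hb, rfl⟩)
        · rw [h1k k hk]
          exact FMAlg_self_mem γ k n₀
      have hB : ∀ k, γ k ∈ rs F γ₁ n₀ := by
        intro k
        by_cases hk : k = i
        · subst hk
          have : γ k = γ₁ k - ∑ j, ap (γ₁ j) (b j) := by
            have hs : ∑ j, ap (γ₁ j) (b j) = ∑ j, ap (γ j) (b j) := by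
              refine Finset.sum_congr rfl fun j _ => ?_
              by_cases hj : j = k
              · subst hj
                rw [hbi, map_zero, map_zero]
              · rw [h1k j hj]
            rw [hs, h1i, hg, add_sub_cancel_right]
          rw [this]
          exact sub_mem (FMAlg_self_mem γ₁ k n₀) ((mem_rs_iff γ₁ n₀ _).2 ⟨b, hb, rfl⟩)
        · rw [← h1k k hk]
          exact FMAlg_self_mem γ₁ k n₀
      have hmeas : (∑ k, if Finsupp.mapRange.linearMap p (γ₁ k) = 0 then 0 else
          dgr (Finsupp.mapRange.linearMap p (γ₁ k)) + 1) <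
          ∑ k, if Finsupp.mapRange.linearMap p (γ k) = 0 then 0 else
            dgr (Finsupp.mapRange.linearMap p (γ k)) + 1 := by
        have hstrict : (if Finsupp.mapRange.linearMap p (γ₁ i) = 0 then 0 else
            dgr (Finsupp.mapRange.linearMap p (γ₁ i)) + 1) <
            if Finsupp.mapRange.linearMap p (γ i) = 0 then 0 else
              dgr (Finsupp.mapRange.linearMap p (γ i)) + 1 := by
          rw [if_neg hi, h1i, hpg]
          rcases hlt with h0 | h0
          · rw [if_pos h0]
            exact Nat.succ_pos _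
          · split_ifs
            · exact Nat.succ_pos _
            · exact Nat.succ_lt_succ h0
        refine Finset.sum_lt_sum (fun k _ => ?_) ⟨i, Finset.mem_univ _, hstrict⟩
        by_cases hk : k = i
        · subst hk
          exact hstrict.le
        · rw [h1k k hk]
      obtain ⟨γ', c, h1, h2, h3⟩ := ih _ hmeas γ₁ rfl
      refine ⟨γ', c + n₀, fun k => ?_, fun k => ?_, h3⟩
      · exact rs_le_rs hA c (h1 k)
      · rw [add_comm]
        exact rs_le_rs h2 n₀ (hB k)

theorem FMAlg_ap_zero_left (t : List X →₀ F) : ap (0 : List X →₀ D) t = 0 := by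
  simp [ap, Finsupp.linearCombination_apply]

theorem FMAlg_mkQ_eq_zero_iff (N : Submodule F D) (f : List X →₀ D) :
    Finsupp.mapRange.linearMap N.mkQ f = 0 ↔ f ∈ vl X N := by
  constructor
  · intro h w
    have := DFunLike.congr_fun h w
    simpa using this
  · intro h
    ext w
    have := h w
    simpa using this

/-- Apply `fa_adapt` to `p := N.mkQ`; `δ k := γ' k` if its image is `0` and `δ k := 0` otherwise. If
`z = y + ∑ ap (γ' k) (t k)` with `z ∈ dg m` and `y ∈ vl N`, the image of the sum is the image of `z`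
and so in `dg m`; put `y' := ∑ ap (γ' k) (t k)` over the `k` with `δ k = γ' k`. -/
theorem fa_main [Finite κ] (N : Submodule F D) (γ : κ → List X →₀ D) :
    ∃ (δ : κ → List X →₀ D) (c : ℕ), (∀ k, δ k ∈ rs F γ c) ∧ (∀ k, δ k ∈ vl X N) ∧
      ∀ m, ∀ z ∈ dg F D X m, ∀ y ∈ vl X N, z - y ∈ rsw F γ →
        ∃ y' ∈ rsw F δ, z - y - y' ∈ rs F γ (m + c) := by
  classical
  have := Fintype.ofFinite κ
  obtain ⟨γ', c, h1, h2, h3⟩ := fa_adapt N.mkQ γ
  refine ⟨fun k => if Finsupp.mapRange.linearMap N.mkQ (γ' k) = 0 then γ' k else 0, c,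
    fun k => ?_, fun k => ?_, ?_⟩
  · dsimp only
    split_ifs
    · exact h1 k
    · exact zero_mem _
  · dsimp only
    split_ifs with h
    · exact (FMAlg_mkQ_eq_zero_iff N _).1 h
    · exact zero_mem _
  · intro m z hz y hy hzy
    obtain ⟨t, ht⟩ := (mem_rsw_iff γ' _).1 (rsw_le_rsw h2 hzy)
    have hpz : Finsupp.mapRange.linearMap N.mkQ (∑ k, ap (γ' k) (t k)) ∈
        dg F (D ⧸ N) X m := by
      rw [← ht, map_sub, (FMAlg_mkQ_eq_zero_iff N y).2 hy, sub_zero, mem_dg]
      intro w hw
      rw [mem_dg] at hz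
      simp [hz w hw]
    have hk := h3 t m hpz
    refine ⟨∑ k, ap (if Finsupp.mapRange.linearMap N.mkQ (γ' k) = 0 then γ' k else 0) (t k),
      (mem_rsw_iff _ _).2 ⟨t, rfl⟩, ?_⟩
    have key : z - y - ∑ k, ap (if Finsupp.mapRange.linearMap N.mkQ (γ' k) = 0 then γ' k else 0)
        (t k) = ∑ k, ap (γ' k) (if Finsupp.mapRange.linearMap N.mkQ (γ' k) = 0 then 0 else t k) := by
      rw [ht, ← Finset.sum_sub_distrib]
      refine Finset.sum_congr rfl fun k _ => ?_
      split_ifs
      · rw [sub_self, map_zero]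
      · rw [FMAlg_ap_zero_left, sub_zero]
    rw [key]
    refine rs_le_rs h1 m ((mem_rs_iff γ' m _).2 ⟨_, fun k => ?_, rfl⟩)
    split_ifs with h
    · exact zero_mem _
    · exact hk k h

/-- `fa_main` for `N = ⊥`. -/
theorem fa_zero [Finite κ] (γ : κ → List X →₀ D) :
    ∃ c, ∀ m, ∀ z ∈ dg F D X m, z ∈ rsw F γ → z ∈ rs F γ (m + c) := by
  obtain ⟨δ, c, -, h2, h3⟩ := fa_main (⊥ : Submodule F D) γ
  refine ⟨c, fun m z hz hzr => ?_⟩
  obtain ⟨y', hy', h⟩ := h3 m z hz 0 (zero_mem _) (by rwa [sub_zero])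
  have h0 : y' = 0 := by
    have := rsw_le_vl h2 hy'
    ext w
    exact (Submodule.mem_bot F).1 (this w)
  rwa [h0, sub_zero, sub_zero] at h

/-- `fa_main` and `rsw_le_vl`. -/
theorem fa_one [Finite κ] (N : Submodule F D) (γ : κ → List X →₀ D) :
    ∃ c, ∀ m, ∀ z ∈ dg F D X m, z ∈ rsw F γ ⊔ vl X N →
      ∃ z' ∈ rs F γ (m + c), z - z' ∈ vl X N := by
  obtain ⟨δ, c, -, h2, h3⟩ := fa_main N γ
  refine ⟨c, fun m z hz hzr => ?_⟩
  obtain ⟨a, ha, y, hy, rfl⟩ := Submodule.mem_sup.1 hzr
  obtain ⟨y', hy', h⟩ := h3 m _ hz y hy (by rwa [add_sub_cancel_right])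
  refine ⟨_, h, ?_⟩
  have : a + y - (a + y - y - y') = y + y' := by abel
  rw [this]
  exact add_mem hy (rsw_le_vl h2 hy')

end Pool.Agent.W_59b51d_c25
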