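import Pool.Agent.W_59b51d_c25.BDa
import Pool.Agent.W_59b51d_c25.FMAlg

/-!
# Bounded combinations, without kills
-/

namespace Pool.Agent.W_59b51d_c25

variable (F : Type) [Field F] {S D κ : Type} [AddCommGroup D] [Module F D]

/-- The members of `rsw F (gq F G)` vanish at the empty word. -/
theorem BDb_gq_nil (G : κ → MM S D) {y : QQ S D} (hy : y ∈ rsw F (gq F G)) : y [] = 0 := by
  unfold rsw at hy
  induction hy using Submodule.span_induction with
  | mem x hx =>
    obtain ⟨p, u, rfl⟩ := hx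
    rw [gq, appw_appw]
    refine FM_appw_zero _ ?_
    intro v hv
    simp at hv
  | zero => rfl
  | add x y _ _ hx hy => rw [Finsupp.add_apply, hx, hy, add_zero]
  | smul a x _ hx => rw [Finsupp.smul_apply, hx, smul_zero]

/-- A bounded element of `rsw (gq G) ⊔ vn (g1 G)` is a bounded combination: `fa_one` with the
subspace `rsw F (g1 F G)` gives `y₁ ∈ rs (gq G) (m + c)` with `y - y₁` with values in
`rsw (g1 G)`, and `(y - y₁) [] = 0` (all members of `rsw (gq G)` vanish at `[]`); `y - y₁` is in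
`qdg (m + c')`, and `fa_zero` bounds its values. -/
theorem bound_b [Finite S] [Finite κ] (G : κ → MM S D) :
    ∃ C, ∀ m, ∀ y ∈ qdg F S D m, y ∈ rsw F (gq F G) ⊔ vn F (g1 F G) →
      y ∈ rs F (gq F G) (m + C) ⊔ vnb F (g1 F G) (m + C) := by
  obtain ⟨c₀, h₀⟩ := exists_rs_le_qdg F (gq F G)
  obtain ⟨c₁, h₁⟩ := fa_one (F := F) (rsw F (g1 F G)) (gq F G)
  obtain ⟨c₂, h₂⟩ := fa_zero (F := F) (g1 F G)
  refine ⟨c₀ + c₁ + c₂, fun m y hy hyy => ?_⟩
  have hdg : y ∈ dg F (PP S D) S m := by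
    rw [mem_dg]
    intro w hw
    ext v
    by_contra hne
    have := (hy w v hne).1
    omega
  have hle : rsw F (gq F G) ⊔ vn F (g1 F G) ≤ rsw F (gq F G) ⊔ vl S (rsw F (g1 F G)) :=
    sup_le_sup_left (fun f hf => hf.2) _
  obtain ⟨y₁, hy₁, hsub⟩ := h₁ m y hdg (hle hyy)
  have hnil : (y - y₁) [] = 0 := by
    obtain ⟨a, ha, b, hb, hab⟩ := Submodule.mem_sup.1 hyy
    rw [Finsupp.sub_apply, BDb_gq_nil F G (rs_le_rsw _ _ hy₁), ← hab, Finsupp.add_apply,
      BDb_gq_nil F G ha, hb.1]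
    simp
  have hq : y - y₁ ∈ qdg F S D (m + (c₁ + c₀)) := by
    refine sub_mem (BDa_qdg_mono F (by omega) hy) (BDa_qdg_mono F ?_ (h₀ _ hy₁))
    omega
  have hv : y - y₁ ∈ vnb F (g1 F G) (m + (c₀ + c₁ + c₂)) := by
    refine ⟨hnil, fun w hw => ?_, fun w => ?_⟩
    · ext v
      by_contra hne
      have := (hq w v hne).1
      omega
    · refine rs_mono _ (by omega) (h₂ (m + (c₁ + c₀)) _ ?_ (hsub w))
      rw [mem_dg]
      intro v hv
      by_contra hne
      have := (hq w v hne).2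
      omega
  have h6 : y = y₁ + (y - y₁) := by abel
  rw [h6]
  exact Submodule.add_mem_sup (rs_mono _ (by omega) hy₁) hv

end Pool.Agent.W_59b51d_c25
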