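import Pool.Agent.W_59b51d_c25.KQ
import Pool.Agent.W_59b51d_c25.FMAlg

/-!
# The gap argument
-/

namespace Pool.Agent.W_59b51d_c25

variable (F : Type) [Field F] {S D κ κ' : Type} [AddCommGroup D] [Module F D]

/-- The values of the elements of `rsw F g` vanish at the empty word. -/
theorem CC1_rsw_nil (g : κ → PP S D) (hg : ∀ k, g k [] = 0) {p : PP S D} (hp : p ∈ rsw F g) :
    p [] = 0 := by
  unfold rsw at hp
  induction hp using Submodule.span_induction with
  | mem x hx =>
    obtain ⟨k, u, rfl⟩ := hx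
    cases u with
    | nil => rw [appw_nil]; exact hg k
    | cons a u =>
      rw [appw, Finsupp.lmapDomain_apply]
      refine Finsupp.mapDomain_of_notMem_range _ _ ?_
      rintro ⟨w, hw⟩
      simp at hw
  | zero => rfl
  | add x y _ _ hx hy => rw [Finsupp.add_apply, hx, hy, add_zero]
  | smul a x _ hx => rw [Finsupp.smul_apply, hx, smul_zero]

/-- Splitting an element of `rsw` according to the length of the words. -/
theorem CC1_split {X E : Type} [AddCommGroup E] [Module F E] (δ : κ' → List X →₀ E) (J : ℕ)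
    {f : List X →₀ E} (hf : f ∈ rsw F δ) :
    ∃ a ∈ rs F δ J, ∀ w : List X, w.length ≤ J → (f - a) w = 0 := by
  unfold rsw at hf
  induction hf using Submodule.span_induction with
  | mem x hx =>
    obtain ⟨k, u, rfl⟩ := hx
    by_cases hu : u.length ≤ J
    · refine ⟨appw F u (δ k), Submodule.subset_span ⟨k, u, hu, rfl⟩, fun w _ => ?_⟩
      rw [sub_self]; rfl
    · refine ⟨0, zero_mem _, fun w hw => ?_⟩
      rw [sub_zero, appw, Finsupp.lmapDomain_apply]
      refine Finsupp.mapDomain_of_notMem_range _ _ ?_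
      rintro ⟨v, hv⟩
      apply hu
      rw [← hv] at hw
      simp only [List.length_append] at hw
      omega
  | zero => exact ⟨0, zero_mem _, fun w _ => by rw [sub_zero]; rfl⟩
  | add x y _ _ hx hy =>
    obtain ⟨a, ha, ha'⟩ := hx
    obtain ⟨b, hb, hb'⟩ := hy
    refine ⟨a + b, add_mem ha hb, fun w hw => ?_⟩
    have h1 : x + y - (a + b) = (x - a) + (y - b) := by abel
    rw [h1, Finsupp.add_apply, ha' w hw, hb' w hw, add_zero]
  | smul r x _ hx =>
    obtain ⟨a, ha, ha'⟩ := hx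
    refine ⟨r • a, Submodule.smul_mem _ r ha, fun w hw => ?_⟩
    rw [← smul_sub, Finsupp.smul_apply, ha' w hw, smul_zero]

/-- The gap argument. Write `y = ρ + ν + κ`. Let `N` be the subspace of the `p` with `p [] = 0`;
`ν + κ ∈ vl N` (as `g k [] = 0`, and by `KQ_apply_nil`). Apply `fa_main`: it gives `δ`, `c` and
`y' ∈ rsw δ` with `y₁ := y - (ν + κ) - y' ∈ rs γ (m + c)`. Let `J = (m + C) ^ 2` where `C` is large
compared with `c` and the degrees of the `γ k`, `δ k` (`exists_rs_le_dg`). Split `y'` into the part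
`y'' ∈ rs δ J` of the words of length at most `J` and the rest `y'''`, which is supported on words of
length `> J`. Then `f := y - y₁ - y'' = ν + κ + y'''` has degree at most `J + C`, values which vanish
at `[]`, and its part of degree `≤ J` is the part of degree `≤ J` of `ν + κ`
(`KQ_filter`); its part of degree in `(J, J + C]` is in `KQ` by `mem_KQ_of_nonsq`, because there is
no square in `(J, J + C]`. -/
theorem cc1 [Finite κ] [Finite κ'] (ent : ℕ → ℕ → Bool) (γ : κ' → QQ S D) (g : κ → PP S D)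
    (hg : ∀ k, g k [] = 0) :
    ∃ C, ∀ m, ∀ y ∈ dg F (PP S D) S m, y ∈ rsw F γ ⊔ vn F g ⊔ KQ F ent →
      ∃ y₁ ∈ rs F γ (C * ((m + C) ^ 2 + 1)),
        y - y₁ ∈ (vn F g ⊓ dg F (PP S D) S ((m + C) ^ 2)) ⊔ KQ F ent := by
  classical
  obtain ⟨N, hN⟩ : ∃ N : Submodule F (PP S D), ∀ p, p ∈ N ↔ p [] = 0 :=
    ⟨LinearMap.ker (Finsupp.lapply (R := F) ([] : List S) : PP S D →ₗ[F] D), fun p => by
      rw [LinearMap.mem_ker]; rfl⟩
  obtain ⟨δ, c, hδ, hδN, H⟩ := fa_main (F := F) N γ
  obtain ⟨c1, hc1⟩ := exists_rs_le_dg (F := F) γ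
  have : Finite κ' := inferInstance
  obtain ⟨c2, hc2⟩ := exists_rs_le_dg (F := F) δ
  refine ⟨c + c1 + c2 + 1, fun m y hy hy' => ?_⟩
  obtain ⟨C, hC⟩ : ∃ C, C = c + c1 + c2 + 1 := ⟨_, rfl⟩
  rw [← hC]
  obtain ⟨J, hJ⟩ : ∃ J, J = (m + C) ^ 2 := ⟨_, rfl⟩
  rw [← hJ]
  have hJ1 : m + C ≤ J := by
    rw [hJ]; nlinarith
  obtain ⟨ρν, hρν, q, hq, rfl⟩ := Submodule.mem_sup.1 hy'
  obtain ⟨ρ, hρ, ν, hν, rfl⟩ := Submodule.mem_sup.1 hρν
  have hνq : ν + q ∈ vl S N := fun w => by
    rw [hN, Finsupp.add_apply, Finsupp.add_apply, CC1_rsw_nil F g hg (hν.2 w),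
      (KQ_apply_nil F ent hq).2 w, add_zero]
  have h1 : ρ + ν + q - (ν + q) ∈ rsw F γ := by
    have : ρ + ν + q - (ν + q) = ρ := by abel
    rw [this]; exact hρ
  obtain ⟨y', hy'1, hy'2⟩ := H m (ρ + ν + q) hy (ν + q) hνq h1
  obtain ⟨a, ha, ha'⟩ := CC1_split F δ J hy'1
  have haN : a ∈ vl S N := rsw_le_vl hδN (rs_le_rsw _ _ ha)
  have hyN : y' ∈ vl S N := rsw_le_vl hδN hy'1
  have haγ : a ∈ rs F γ (J + c) := rs_le_rs hδ J ha
  refine ⟨(ρ + ν + q - (ν + q) - y') + a, add_mem (rs_mono γ ?_ hy'2) (rs_mono γ ?_ haγ), ?_⟩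
  · nlinarith
  · nlinarith
  obtain ⟨f, hf⟩ : ∃ f, f = ρ + ν + q - ((ρ + ν + q - (ν + q) - y') + a) := ⟨_, rfl⟩
  rw [← hf]
  have hf1 : f = (ν + q) + (y' - a) := by rw [hf]; abel
  have hfdg : f ∈ dg F (PP S D) S (J + C) := by
    rw [hf]
    refine sub_mem (dg_mono (by omega) hy) (add_mem (dg_mono ?_ (hc1 _ hy'2))
      (dg_mono ?_ (hc2 _ ha)))
    · omega
    · omega
  have hfN : ∀ w, f w [] = 0 := fun w => by
    rw [← hN, hf1]
    exact add_mem (hνq w) (sub_mem (hyN w) (haN w))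
  have hsplit : f = (ν.filter (fun w => w.length ≤ J) + q.filter (fun w => w.length ≤ J)) +
      f.filter (fun w => ¬ w.length ≤ J) := by
    refine Finsupp.ext fun w => ?_
    rw [Finsupp.add_apply, Finsupp.add_apply, Finsupp.filter_apply, Finsupp.filter_apply,
      Finsupp.filter_apply]
    by_cases hw : w.length ≤ J
    · rw [if_pos hw, if_pos hw, if_neg (not_not.2 hw), add_zero, hf1, Finsupp.add_apply, ha' w hw,
        add_zero, Finsupp.add_apply]
    · rw [if_neg hw, if_neg hw, if_pos hw, add_zero, zero_add]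
  rw [hsplit]
  refine add_mem (add_mem (Submodule.mem_sup_left ⟨⟨?_, fun w => ?_⟩, ?_⟩)
    (Submodule.mem_sup_right (KQ_filter F ent (fun i => i ≤ J) hq))) (Submodule.mem_sup_right ?_)
  · rw [Finsupp.filter_apply, hν.1, ite_self]
  · rw [Finsupp.filter_apply]
    split_ifs with hw
    · exact hν.2 w
    · exact zero_mem _
  · rw [SetLike.mem_coe, mem_dg]
    intro w hw
    rw [Finsupp.filter_apply, if_neg (by omega)]
  · refine mem_KQ_of_nonsq F ent _ (fun w hw => ?_) (fun w => ?_)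
    · by_cases hw1 : w.length ≤ J
      · rw [Finsupp.filter_apply, if_neg (not_not.2 hw1)] at hw
        exact absurd rfl hw
      · rw [Finsupp.filter_apply, if_pos hw1] at hw
        have hw2 : w.length ≤ J + C := by
          by_contra hcon
          exact hw (mem_dg.1 hfdg w (by omega))
        by_contra hsp
        rw [Bool.not_eq_false, sp_iff] at hsp
        obtain ⟨b, hb⟩ := hsp
        have hb1 : m + C < b := by
          by_contra hcon
          have h5 : b ^ 2 ≤ (m + C) ^ 2 := Nat.pow_le_pow_left (by omega) 2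
          omega
        have hb2 : (m + C + 1) ^ 2 ≤ b ^ 2 := Nat.pow_le_pow_left (by omega) 2
        nlinarith
    · by_cases hw1 : w.length ≤ J
      · rw [Finsupp.filter_apply, if_neg (not_not.2 hw1)]
        rfl
      · rw [Finsupp.filter_apply, if_pos hw1]
        exact hfN w

end Pool.Agent.W_59b51d_c25
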