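import Pool.Agent.W_59b51d_c25.AJ
import Pool.Agent.W_59b51d_c25.FMAlg

/-!
# Bounding the `N`-part
-/

namespace Pool.Agent.W_59b51d_c25

variable (F : Type) [Field F] {S D κ : Type} [AddCommGroup D] [Module F D]

/-- Members of `rsw g` vanish at `[]`. -/
theorem CC2_rsw_nil {g : κ → PP S D} (hg : ∀ k, g k [] = 0) {f : PP S D} (hf : f ∈ rsw F g) :
    f [] = 0 := by
  unfold rsw at hf
  induction hf using Submodule.span_induction with
  | mem x hx =>
    obtain ⟨k, u, rfl⟩ := hx
    rcases u with - | ⟨a, u⟩
    · rw [appw_nil]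
      exact hg k
    · refine FM_appw_zero _ fun v h => ?_
      have := congrArg List.length h
      simp only [List.length_nil, List.length_append, List.length_cons] at this
      omega
  | zero => rfl
  | add x y _ _ hx hy => rw [Finsupp.add_apply, hx, hy, add_zero]
  | smul a x _ hx => rw [Finsupp.smul_apply, hx, smul_zero]

/-- A function is the sum of its homogeneous parts. -/
theorem CC2_sum {M : Type} [AddCommGroup M] (f : List S →₀ M) :
    f = ∑ j ∈ Finset.range (dgr f + 1), f.filter (fun w => w.length = j) := by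
  ext1 w
  rw [Finsupp.finsetSum_apply]
  by_cases h : w.length < dgr f + 1
  · rw [Finset.sum_eq_single w.length]
    · rw [Finsupp.filter_apply, if_pos rfl]
    · intro j _ hj
      rw [Finsupp.filter_apply, if_neg (Ne.symm hj)]
    · intro h'
      exact absurd (Finset.mem_range.2 h) h'
  · have h0 : f w = 0 := FMCut_dgr_zero f w (by omega)
    rw [h0]
    symm
    apply Finset.sum_eq_zero
    intro j _
    rw [Finsupp.filter_apply, h0, ite_self]

/-- Homogeneous functions with bounded values. -/
theorem CC2_vnb {g : κ → PP S D} {B j : ℕ} (hj : 1 ≤ j) (hB : j ≤ B) {f : QQ S D}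
    (hf : ∀ w, f w ∈ rs F g B) : f.filter (fun w => w.length = j) ∈ vnb F g B := by
  refine ⟨?_, fun w hw => ?_, fun w => ?_⟩
  · rw [Finsupp.filter_apply, if_neg]
    simp only [List.length_nil]
    omega
  · rw [Finsupp.filter_apply, if_neg (by omega)]
  · rw [Finsupp.filter_apply]
    split_ifs
    · exact hf w
    · exact zero_mem _

/-- Filtering twice. -/
theorem CC2_idem {M : Type} [AddCommGroup M] (f : List S →₀ M) (j : ℕ) :
    (f.filter (fun w => w.length = j)).filter (fun w => w.length = j) =
      f.filter (fun w => w.length = j) := by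
  ext1 w
  by_cases h : w.length = j
  · rw [Finsupp.filter_apply, if_pos h]
  · rw [Finsupp.filter_apply, if_neg h, Finsupp.filter_apply, if_neg h]

/-- `N ≤ N' ⊔ T`. -/
theorem CC2_le {g : κ → PP S D} {B q : ℕ} (hq : q ≤ B) :
    rsw F g ≤ rs F g B ⊔ Finsupp.supported D F {b : List S | q ≤ b.length} := by
  unfold rsw
  refine Submodule.span_le.2 ?_
  rintro f ⟨k, u, rfl⟩
  rw [SetLike.mem_coe]
  rcases le_total u.length q with h | h
  · exact Submodule.mem_sup_left (Submodule.subset_span ⟨k, u, h.trans hq, rfl⟩)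
  · refine Submodule.mem_sup_right ?_
    rw [Finsupp.mem_supported]
    intro w hw
    have hw' := Finsupp.mem_support_iff.1 (Finset.mem_coe.1 hw)
    by_contra hlen
    have hlen' : w.length < q := not_le.1 hlen
    refine hw' (FM_appw_zero _ fun v hv => ?_)
    have := congrArg List.length hv
    rw [List.length_append] at this
    omega

/-- `tps` of `⊥`. -/
theorem CC2_tps_bot {P Λ : Type} [AddCommGroup P] [Module F P] (T : Submodule F P) :
    tps (⊥ : Submodule F (Λ →₀ F)) T = ⊥ := by
  rw [tps, Submodule.span_eq_bot]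
  rintro f ⟨a, ha, p, -, rfl⟩
  rw [(Submodule.mem_bot F).1 ha, map_zero]

/-- Write `y = ν + κ` and treat each degree `j` in the `L`-word (`Finsupp.filter`) separately:
`y_j = ν_j + κ_j`.
* `j > J`: `ν_j = 0`. `j = 0`: `ν_j = 0` and `κ_j = 0`.
* `1 ≤ j ≤ J` not a square: `ν_j ∈ KQ` by `mem_KQ_of_nonsq` (`g k [] = 0`, so the members of
  `rsw g` vanish at `[]`).
* `j = (n + 1) ^ 2 ≤ J`, and `AJ F S n = ⊥` or no `q` with `kil ent n q`: `κ_j = 0`
  (`KQ_part_zero`, `KQ_part`, `tps` of `⊥`), `ν_j = y_j` has values in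
  `dg m ⊓ rsw g ≤ rs g (m + c)` (`fa_zero`).
* otherwise `n.unpair.1 < Nat.card S` (`AJ_eq_bot`) and the least `q` with `kil ent n q` is at most
  `σ`. Apply `pr_lemma` with `A = AJ F S n`, `N = rsw g`, `N' = rs g (J + m + σ + C)`, `C = dg m`,
  `T = supported {b | q ≤ b.length}`: `N ≤ N' ⊔ T` as `appw u (g k)` is in `N'` if `|u| ≤ q` and in
  `T` otherwise; `N ⊓ C ≤ N'` by `fa_zero`. Filter the result (the length is `j`) and use
  `tps_le_KQ`. -/
theorem cc2 [Finite S] [Finite κ] (ent : ℕ → ℕ → Bool) (g : κ → PP S D)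
    (hg : ∀ k, g k [] = 0) :
    ∃ C, ∀ m J σ, (∀ n q, n.unpair.1 < Nat.card S → (n + 1) ^ 2 ≤ J → kil ent n q = true →
        ∃ q' ≤ σ, kil ent n q' = true) →
      ∀ y ∈ qdg F S D m, y ∈ (vn F g ⊓ dg F (PP S D) S J) ⊔ KQ F ent →
        y ∈ vnb F g (J + m + σ + C) ⊔ KQ F ent := by
  classical
  obtain ⟨C, hC⟩ := fa_zero (F := F) g
  refine ⟨C, ?_⟩
  intro m J σ hσ y hy hyN
  obtain ⟨ν, ⟨hν, hνJ⟩, κ', hκ, hsum⟩ := Submodule.mem_sup.1 hyN
  have hνv : ∀ w, ν w ∈ rsw F g := hν.2
  have hν0 : ν [] = 0 := hν.1
  rw [CC2_sum y]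
  refine Submodule.sum_mem _ fun j _ => ?_
  have hyj : y.filter (fun w => w.length = j) =
      ν.filter (fun w => w.length = j) + κ'.filter (fun w => w.length = j) := by
    rw [← hsum, Finsupp.filter_add]
  have hκj : κ'.filter (fun w => w.length = j) ∈ KQ F ent := KQ_filter F ent (· = j) hκ
  have hνj : ∀ w, ν.filter (fun w => w.length = j) w ∈ rsw F g := fun w => by
    rw [Finsupp.filter_apply]
    split_ifs
    · exact hνv w
    · exact zero_mem _
  by_cases hj0 : j = 0
  · have h0 : ν.filter (fun w => w.length = j) = 0 := by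
      ext1 w
      rw [Finsupp.filter_apply, Finsupp.zero_apply]
      split_ifs with h
      · rw [hj0, List.length_eq_zero_iff] at h
        rw [h, hν0]
      · rfl
    rw [hyj, h0, zero_add]
    exact Submodule.mem_sup_right hκj
  by_cases hjJ : J < j
  · have h0 : ν.filter (fun w => w.length = j) = 0 := by
      ext1 w
      rw [Finsupp.filter_apply, Finsupp.zero_apply]
      split_ifs with h
      · exact (mem_dg.1 hνJ) w (by omega)
      · rfl
    rw [hyj, h0, zero_add]
    exact Submodule.mem_sup_right hκj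
  by_cases hsp : sp j = false
  · rw [hyj]
    refine Submodule.mem_sup_right (add_mem (mem_KQ_of_nonsq F ent _ ?_ ?_) hκj)
    · intro w hw
      rw [Finsupp.filter_apply] at hw
      split_ifs at hw with h
      · rw [h]
        exact hsp
      · exact absurd rfl hw
    · intro w
      exact CC2_rsw_nil F hg (hνj w)
  · -- a square
    obtain ⟨b, hb⟩ := (sp_iff j).1 (by simpa using hsp)
    obtain ⟨n, rfl⟩ : ∃ n, b = n + 1 := by
      rcases b with - | b
      · exact absurd (by rw [hb]; rfl) hj0
      · exact ⟨b, rfl⟩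
    subst hb
    have hyv : ∀ w, y.filter (fun w => w.length = (n + 1) ^ 2) w ∈ dg F D S m := by
      intro w
      rw [Finsupp.filter_apply]
      split_ifs
      · rw [mem_dg]
        intro v hv
        by_contra hne
        have := (hy w v hne).2
        omega
      · exact zero_mem _
    have hfree : κ'.filter (fun w => w.length = (n + 1) ^ 2) = 0 →
        y.filter (fun w => w.length = (n + 1) ^ 2) ∈ vnb F g (J + m + σ + C) ⊔ KQ F ent := by
      intro h0
      refine Submodule.mem_sup_left ?_
      have h1 : ∀ w, y.filter (fun w => w.length = (n + 1) ^ 2) w ∈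
          rs F g (J + m + σ + C) := by
        intro w
        refine rs_mono g (by omega) (hC m _ (hyv w) ?_)
        rw [hyj, h0, add_zero]
        exact hνj w
      have h2 := CC2_vnb F (j := (n + 1) ^ 2) (by omega) (by omega) h1
      rwa [CC2_idem] at h2
    by_cases hkil : ∃ q, kil ent n q = true
    · have hq := Nat.find_spec hkil
      have hmin : ∀ q', kil ent n q' = true → Nat.find hkil ≤ q' := fun q' h' =>
        Nat.find_min' hkil h'
      have hκp := KQ_part F ent n (Nat.find hkil) hmin hκ
      rcases Nat.lt_or_ge n.unpair.1 (Nat.card S) with hcard | hcard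
      · obtain ⟨q', hq', hk'⟩ := hσ n (Nat.find hkil) hcard (by omega) hq
        have hqσ : Nat.find hkil ≤ σ := (hmin q' hk').trans hq'
        obtain ⟨ν', κ'', h1, h2, h3⟩ := pr_lemma (AJ F S n) (rsw F g)
          (rs F g (J + m + σ + C)) (dg F D S m)
          (Finsupp.supported D F {b : List S | Nat.find hkil ≤ b.length})
          (CC2_le F (by omega)) (fun f hf => rs_mono g (by omega) (hC m f hf.2 hf.1))
          _ _ hνj hκp (fun l => by rw [← hyj]; exact hyv l)
        have h4 : y.filter (fun w => w.length = (n + 1) ^ 2) =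
            ν'.filter (fun w => w.length = (n + 1) ^ 2) +
              κ''.filter (fun w => w.length = (n + 1) ^ 2) := by
          rw [← Finsupp.filter_add, ← h3, ← hyj, CC2_idem]
        rw [h4]
        exact Submodule.add_mem_sup (CC2_vnb F (by omega) (by omega) h1)
          (KQ_filter F ent (· = (n + 1) ^ 2) (tps_le_KQ F ent n _ hq h2))
      · refine hfree ?_
        rw [AJ_eq_bot F n hcard, CC2_tps_bot] at hκp
        exact (Submodule.mem_bot F).1 hκp
    · push Not at hkil
      exact hfree (KQ_part_zero F ent n (fun q' => by simpa using hkil q') hκ)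

end Pool.Agent.W_59b51d_c25
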