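import Pool.Agent.W_59b51d_c25.BDa
import Pool.Agent.W_59b51d_c25.CC1
import Pool.Agent.W_59b51d_c25.CC2

/-!
# Bounded combinations, with kills
-/

namespace Pool.Agent.W_59b51d_c25

variable (F : Type) [Field F] {S D κ : Type} [AddCommGroup D] [Module F D]

theorem BDc_g1_nil (G : κ → MM S D) (p : κ × S) : g1 F G p [] = 0 := by
  rw [g1, appw, Finsupp.lmapDomain_apply]
  refine Finsupp.mapDomain_notin_range _ _ ?_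
  rintro ⟨w, hw⟩
  simp at hw

theorem BDc_vnb_mono {κ' : Type} (g : κ' → PP S D) {B B' : ℕ} (h : B ≤ B') :
    vnb F g B ≤ vnb F g B' := fun _ hf =>
  ⟨hf.1, fun w hw => hf.2.1 w (lt_of_le_of_lt h hw), fun w => rs_mono g h (hf.2.2 w)⟩

theorem BDc_qdg_mono {m m' : ℕ} (h : m ≤ m') : qdg F S D m ≤ qdg F S D m' := fun _ hf w v hv =>
  ⟨((hf w v hv).1).trans h, ((hf w v hv).2).trans h⟩

theorem BDc_qdg_le_dg (m : ℕ) : qdg F S D m ≤ dg F (PP S D) S m := fun f hf => by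
  rw [mem_dg]
  intro w hw
  ext v
  by_contra hne
  have := (hf w v hne).1
  omega

/-- The same with kills, from `cc1` and `cc2` (with `J = (m + C₁) ^ 2`). -/
theorem bound_c [Finite S] [Finite κ] (ent : ℕ → ℕ → Bool) (G : κ → MM S D) :
    ∃ C, ∀ m σ, (∀ n q, n.unpair.1 < Nat.card S → (n + 1) ^ 2 ≤ (m + C) ^ 2 →
        kil ent n q = true → ∃ q' ≤ σ, kil ent n q' = true) →
      ∀ y ∈ qdg F S D m, y ∈ rsw F (gq F G) ⊔ vn F (g1 F G) ⊔ KQ F ent →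
        y ∈ rs F (gq F G) (C * ((m + C) ^ 2 + σ + 1)) ⊔
          vnb F (g1 F G) (C * ((m + C) ^ 2 + σ + 1)) ⊔ KQ F ent := by
  obtain ⟨C₁, h₁⟩ := cc1 F ent (gq F G) (g1 F G) (BDc_g1_nil F G)
  obtain ⟨C₂, h₂⟩ := cc2 F ent (g1 F G) (BDc_g1_nil F G)
  obtain ⟨c₀, h₀⟩ := exists_rs_le_qdg F (gq F G)
  refine ⟨C₁ + c₀ + C₂ + 2, fun m σ hk y hy hyy => ?_⟩
  obtain ⟨y₁, hy₁, hy₂⟩ := h₁ m y (BDc_qdg_le_dg F m hy) hyy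
  have hJ : (m + C₁) ^ 2 ≤ (m + (C₁ + c₀ + C₂ + 2)) ^ 2 := Nat.pow_le_pow_left (by omega) 2
  have hm : m ≤ (m + (C₁ + c₀ + C₂ + 2)) ^ 2 :=
    (Nat.le_add_right m _).trans (Nat.le_self_pow two_ne_zero _)
  have hq : y - y₁ ∈ qdg F S D (m + (C₁ * ((m + C₁) ^ 2 + 1) + c₀)) :=
    sub_mem (BDc_qdg_mono F (by omega) hy) (BDc_qdg_mono F (by omega) (h₀ _ hy₁))
  have h3 := h₂ (m + (C₁ * ((m + C₁) ^ 2 + 1) + c₀)) ((m + C₁) ^ 2) σ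
    (fun n q hn hle hq => hk n q hn (hle.trans hJ) hq) (y - y₁) hq hy₂
  have e1 : C₁ * ((m + C₁) ^ 2 + 1) ≤ (C₁ + c₀ + C₂ + 2) * ((m + (C₁ + c₀ + C₂ + 2)) ^ 2 + σ + 1) :=
    Nat.mul_le_mul (by omega) (by omega)
  have e2 : (m + C₁) ^ 2 + (m + (C₁ * ((m + C₁) ^ 2 + 1) + c₀)) + σ + C₂ ≤
      (C₁ + c₀ + C₂ + 2) * ((m + (C₁ + c₀ + C₂ + 2)) ^ 2 + σ + 1) := by
    have a1 : C₁ * (m + C₁) ^ 2 ≤ C₁ * (m + (C₁ + c₀ + C₂ + 2)) ^ 2 := Nat.mul_le_mul_left _ hJ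
    have a2 : 0 ≤ (c₀ + C₂) * (m + (C₁ + c₀ + C₂ + 2)) ^ 2 := Nat.zero_le _
    have a3 : 0 ≤ (C₁ + c₀ + C₂ + 1) * σ := Nat.zero_le _
    calc (m + C₁) ^ 2 + (m + (C₁ * ((m + C₁) ^ 2 + 1) + c₀)) + σ + C₂
        = C₁ * (m + C₁) ^ 2 + (m + C₁) ^ 2 + m + C₁ + c₀ + C₂ + σ := by ring
      _ ≤ C₁ * (m + (C₁ + c₀ + C₂ + 2)) ^ 2 + (m + (C₁ + c₀ + C₂ + 2)) ^ 2 +
          (m + (C₁ + c₀ + C₂ + 2)) ^ 2 + (C₁ + c₀ + C₂ + 2) + σ := by omega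
      _ ≤ C₁ * (m + (C₁ + c₀ + C₂ + 2)) ^ 2 + (m + (C₁ + c₀ + C₂ + 2)) ^ 2 +
          (m + (C₁ + c₀ + C₂ + 2)) ^ 2 + (C₁ + c₀ + C₂ + 2) + σ +
          (c₀ + C₂) * (m + (C₁ + c₀ + C₂ + 2)) ^ 2 + (C₁ + c₀ + C₂ + 1) * σ := by omega
      _ = _ := by ring
  have h4 : y - y₁ ∈ vnb F (g1 F G)
      ((C₁ + c₀ + C₂ + 2) * ((m + (C₁ + c₀ + C₂ + 2)) ^ 2 + σ + 1)) ⊔ KQ F ent :=
    sup_le_sup_right (BDc_vnb_mono F _ e2) _ h3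
  have h5 : y₁ ∈ rs F (gq F G)
      ((C₁ + c₀ + C₂ + 2) * ((m + (C₁ + c₀ + C₂ + 2)) ^ 2 + σ + 1)) := rs_mono _ e1 hy₁
  have h6 : y = y₁ + (y - y₁) := by abel
  rw [h6, sup_assoc]
  exact Submodule.add_mem_sup h5 h4

end Pool.Agent.W_59b51d_c25
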