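import Pool.Agent.W_59b51d_c25.Dec
import Pool.Agent.W_59b51d_c25.BDb
import Pool.Agent.W_59b51d_c25.BDc

/-!
# Bounded derivations in the module
-/

namespace Pool.Agent.W_59b51d_c25

variable (F : Type) [Field F] {S D κ : Type} [AddCommGroup D] [Module F D]

theorem BDMain_mdg_mono {m m' : ℕ} (h : m ≤ m') : mdg F S D m ≤ mdg F S D m' :=
  fun _ hf e w v hv => ⟨((hf e w v hv).1).trans h, ((hf e w v hv).2).trans h⟩

theorem BDMain_single_KM (ent : ℕ → ℕ → Bool) (e : S) {y : QQ S D} (hy : y ∈ KQ F ent) :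
    (Finsupp.single (some e) y : MM S D) ∈ KM F ent := by
  classical
  refine ⟨?_, fun e' => ?_⟩
  · rw [Finsupp.single_apply, if_neg (by simp)]
  · rw [Finsupp.single_apply]
    split_ifs
    · exact hy
    · exact zero_mem _

theorem BDMain_sum {T : Submodule F (MM S D)} (z : MM S D)
    (h : ∀ o, Finsupp.single o (z o) ∈ T) : z ∈ T := by
  rw [← Finsupp.sum_single z]
  exact Submodule.sum_mem _ fun o _ => h o

theorem BDMain_at_nil {m : ℕ} {y : QQ S D} (hy : y ∈ qdg F S D m) :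
    y [] ∈ dg F D S m ∧ Finsupp.single [] (y []) ∈ qdg F S D m := by
  classical
  constructor
  · rw [mem_dg]
    intro v hv
    by_contra hne
    have := (hy [] v hne).2
    omega
  · intro w v h
    rw [Finsupp.single_apply] at h
    split_ifs at h with hw
    · subst hw
      exact hy [] v h
    · exact absurd rfl h

/-- Bounded derivations. By `Clw_le`, `z = z₁ + z₂ + κ` with `z₁ ∈ Cl F G 1`, `z₂ ∈ TT F G`,
`κ ∈ KM`. Put `z' = z - z₁ = z₂ + κ`, in `mdg m₁` (`exists_Cl_le_mdg`). As `κ none = 0`: the value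
`z' none []` is in `rsw (g2 G) ⊓ dg m₁` (`fa_zero`, `lift_a`); `z' none` minus it is bounded by
`bound_b` (`lift_b`, `lift_vnb`); each `z' (some e)` is bounded by `bound_c` (`lift_c`,
`lift_vnb`), the `KQ`-parts give an element of `KM`. `z'` is the sum of these parts, `S` is
finite. -/
theorem bd_main [Finite S] [Finite κ] (ent : ℕ → ℕ → Bool) (G : κ → MM S D) :
    ∃ C, ∀ m σ, (∀ n q, n.unpair.1 < Nat.card S → (n + 1) ^ 2 ≤ (m + C) ^ 2 →
        kil ent n q = true → ∃ q' ≤ σ, kil ent n q' = true) →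
      ∀ z ∈ mdg F S D m, z ∈ Clw F G ⊔ KM F ent →
        z ∈ Cl F G (C * ((m + C) ^ 2 + σ + 1)) ⊔ KM F ent := by
  obtain ⟨c₀, h₀⟩ := exists_Cl_le_mdg F G
  obtain ⟨c₂, h₂⟩ := fa_zero (F := F) (g2 F G)
  obtain ⟨Cb, hb⟩ := bound_b F G
  obtain ⟨Cc, hc⟩ := bound_c F ent G
  refine ⟨2 * Cc + 2 * Cb + 2 * c₀ + c₂ + 10, fun m σ hk z hz hzz => ?_⟩
  generalize hC : 2 * Cc + 2 * Cb + 2 * c₀ + c₂ + 10 = C at hk ⊢
  obtain ⟨P, hP⟩ : ∃ P, P = (m + C) ^ 2 + σ + 1 := ⟨_, rfl⟩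
  rw [← hP]
  have hP1 : m + C ≤ P := by
    have := Nat.le_self_pow (n := 2) two_ne_zero (m + C)
    omega
  have hCP : 2 * (m + C) ≤ C * P := Nat.mul_le_mul (by omega) hP1
  have hB : 2 * (Cc * ((m + (1 + c₀) + Cc) ^ 2 + σ + 1)) + 2 ≤ C * P := by
    have a1 : (m + (1 + c₀) + Cc) ^ 2 ≤ (m + C) ^ 2 := Nat.pow_le_pow_left (by omega) 2
    have a2 : Cc * ((m + (1 + c₀) + Cc) ^ 2 + σ + 1) ≤ Cc * P := Nat.mul_le_mul_left _ (by omega)
    have a3 : (2 * Cc + 2) * P ≤ C * P := Nat.mul_le_mul_right _ (by omega)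
    have a4 : (2 * Cc + 2) * P = 2 * (Cc * P) + 2 * P := by ring
    omega
  -- decomposition
  have hzz' : z ∈ (Cl F G 1 ⊔ TT F G) ⊔ KM F ent := sup_le_sup_right (Clw_le F G) _ hzz
  obtain ⟨z₁₂, h12, k, hk1, rfl⟩ := Submodule.mem_sup.1 hzz'
  obtain ⟨z₁, hz1, z₂, hz2, rfl⟩ := Submodule.mem_sup.1 h12
  have hz' : z₂ + k ∈ mdg F S D (m + (1 + c₀)) := by
    have e1 : z₂ + k = (z₁ + z₂ + k) + (-1 : F) • z₁ := by
      ext e w v
      change z₂ e w v + k e w v = (z₁ e w v + z₂ e w v + k e w v) + (-1 : F) • (z₁ e w v)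
      rw [neg_smul, one_smul]
      abel
    rw [e1]
    exact add_mem (BDMain_mdg_mono F (Nat.le_add_right m (1 + c₀)) hz)
      (Submodule.smul_mem _ _ (BDMain_mdg_mono F (Nat.le_add_left (1 + c₀) m) (h₀ 1 hz1)))
  have hCl : Cl F G (C * P) ≤ Cl F G (C * P) ⊔ KM F ent := le_sup_left
  have hz1' : z₁ ∈ Cl F G (C * P) ⊔ KM F ent := hCl (Cl_mono F G (by omega) hz1)
  rw [add_assoc]
  refine add_mem hz1' (BDMain_sum F _ fun o => ?_)
  cases o with
  | none =>
    have hkn : (z₂ + k) none = z₂ none := by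
      rw [Finsupp.add_apply, hk1.1, add_zero]
    have hqd := hz' none
    rw [hkn] at hqd ⊢
    obtain ⟨hd1, hd2⟩ := BDMain_at_nil F hqd
    have e2 : z₂ none = Finsupp.single [] (z₂ none []) +
        (z₂ none - Finsupp.single [] (z₂ none [])) := by abel
    rw [e2, Finsupp.single_add]
    refine add_mem ?_ ?_
    · exact hCl (Cl_mono F G (by omega) (lift_a F G _ _ (h₂ _ _ hd1 hz2.1)))
    · have h3 := hb _ _ (sub_mem hqd hd2) hz2.2.1
      obtain ⟨y₁, hy1, y₂, hy2, h4⟩ := Submodule.mem_sup.1 h3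
      rw [← h4, Finsupp.single_add]
      refine add_mem ?_ ?_
      · exact hCl (Cl_mono F G (by omega) (lift_b F G _ _ hy1))
      · exact hCl (Cl_mono F G (by omega) (lift_vnb F G _ _ hy2).1)
  | some e =>
    have hqd := hz' (some e)
    have hmem : (z₂ + k) (some e) ∈ rsw F (gq F G) ⊔ vn F (g1 F G) ⊔ KQ F ent := by
      rw [Finsupp.add_apply]
      exact Submodule.add_mem_sup (hz2.2.2 e) (hk1.2 e)
    have h3 := hc (m + (1 + c₀)) σ (fun n q hn hle hq => hk n q hn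
      (hle.trans (Nat.pow_le_pow_left (by omega) 2)) hq) _ hqd hmem
    obtain ⟨y₁₂, hy12, y₃, hy3, h4⟩ := Submodule.mem_sup.1 h3
    obtain ⟨y₁, hy1, y₂, hy2, h5⟩ := Submodule.mem_sup.1 hy12
    rw [← h4, ← h5, Finsupp.single_add, Finsupp.single_add]
    refine add_mem (add_mem ?_ ?_) ?_
    · exact hCl (Cl_mono F G (by omega) (lift_c F G _ _ hy1 e))
    · exact hCl (Cl_mono F G (by omega) ((lift_vnb F G _ _ hy2).2 e))
    · exact Submodule.mem_sup_right (BDMain_single_KM F ent e hy3)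

end Pool.Agent.W_59b51d_c25
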