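import Pool.Agent.W_59b51d_c25.Lift

/-!
# Bounds for finite families
-/

namespace Pool.Agent.W_59b51d_c25

variable (F : Type) [Field F] {S D κ : Type} [AddCommGroup D] [Module F D]

theorem BDa_qdg_mono {m m' : ℕ} (h : m ≤ m') : qdg F S D m ≤ qdg F S D m' := by
  intro f hf w v hne
  have h1 := hf w v hne
  exact ⟨h1.1.trans h, h1.2.trans h⟩

theorem BDa_mdg_mono {m m' : ℕ} (h : m ≤ m') : mdg F S D m ≤ mdg F S D m' :=
  fun _ hf e => BDa_qdg_mono F h (hf e)

theorem BDa_exists_qdg (f : QQ S D) : ∃ m, f ∈ qdg F S D m := by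
  classical
  refine ⟨(f.support.sup List.length) + f.support.sup (fun w => (f w).support.sup List.length),
    fun w v hne => ?_⟩
  have hw : w ∈ f.support := by
    rw [Finsupp.mem_support_iff]
    intro h0
    exact hne (by rw [h0]; rfl)
  have hv : v ∈ (f w).support := Finsupp.mem_support_iff.2 hne
  have h1 : w.length ≤ f.support.sup List.length := Finset.le_sup (f := List.length) hw
  have h2 : v.length ≤ (f w).support.sup List.length := Finset.le_sup (f := List.length) hv
  have h3 : (f w).support.sup List.length ≤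
      f.support.sup (fun w => (f w).support.sup List.length) :=
    Finset.le_sup (f := fun w => (f w).support.sup List.length) hw
  omega

theorem BDa_exists_mdg (z : MM S D) : ∃ m, z ∈ mdg F S D m := by
  classical
  choose b hb using fun e : Option S => BDa_exists_qdg F (z e)
  refine ⟨z.support.sup b, fun e => ?_⟩
  by_cases he : z e = 0
  · rw [he]
    exact zero_mem _
  · exact BDa_qdg_mono F (Finset.le_sup (f := b) (Finsupp.mem_support_iff.2 he)) (hb e)

theorem BDa_appw_qdg {m : ℕ} {f : QQ S D} (hf : f ∈ qdg F S D m) (u : List S) :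
    appw F u f ∈ qdg F S D (m + u.length) := by
  intro w v hne
  by_cases h : ∃ w', w = w' ++ u
  · obtain ⟨w', rfl⟩ := h
    rw [appw_apply_append] at hne
    have h1 := hf w' v hne
    rw [List.length_append]
    exact ⟨by omega, by omega⟩
  · push Not at h
    exact absurd (by rw [FM_appw_zero f h]; rfl) hne

/-- The elements of `rs F γ n`, `γ` finite, are bounded in both words. -/
theorem exists_rs_le_qdg [Finite κ] (γ : κ → QQ S D) :
    ∃ c, ∀ n, rs F γ n ≤ qdg F S D (n + c) := by
  choose b hb using fun k : κ => BDa_exists_qdg F (γ k)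
  obtain ⟨c, hc⟩ : ∃ c, ∀ k, b k ≤ c := by
    obtain ⟨c, hc⟩ := (Set.finite_range b).bddAbove
    exact ⟨c, fun k => hc ⟨k, rfl⟩⟩
  refine ⟨c, fun n => Submodule.span_le.2 ?_⟩
  rintro f ⟨k, u, hu, rfl⟩
  exact BDa_qdg_mono F (by have := hc k; omega) (BDa_appw_qdg F (hb k) u)

theorem BDa_act_mdg {m : ℕ} {z : MM S D} (hz : z ∈ mdg F S D m) (o : Bool × S) :
    act F o z ∈ mdg F S D (m + 1) := by
  classical
  obtain ⟨o1, s⟩ := o
  have hz0 : z none ∈ qdg F S D m := hz none
  cases o1 with
  | false =>
    rw [act_false]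
    intro e
    rw [Finsupp.single_apply]
    split_ifs with h
    · exact BDa_appw_qdg F hz0 [s]
    · exact zero_mem _
  | true =>
    rw [act_true]
    have ha : Finsupp.single [] (appw F [s] (z none [])) ∈ qdg F S D (m + 1) := by
      intro w v hne
      rw [Finsupp.single_apply] at hne
      split_ifs at hne with h
      · subst h
        by_cases h2 : ∃ v', v = v' ++ [s]
        · obtain ⟨v', rfl⟩ := h2
          rw [appw_apply_append] at hne
          have h3 := hz0 [] v' hne
          simp only [List.length_nil, List.length_append, List.length_cons] at h3 ⊢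
          omega
        · push Not at h2
          exact absurd (by rw [FM_appw_zero _ h2]) hne
      · exact absurd rfl hne
    have hb : z none - Finsupp.single [] (z none []) ∈ qdg F S D (m + 1) := by
      refine sub_mem (BDa_qdg_mono F (by omega) hz0) ?_
      intro w v hne
      rw [Finsupp.single_apply] at hne
      split_ifs at hne with h
      · subst h
        have h3 := hz0 [] v hne
        exact ⟨by omega, by omega⟩
      · exact absurd rfl hne
    intro e
    rw [Finsupp.add_apply]
    refine add_mem ?_ ?_
    · rw [Finsupp.single_apply]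
      split_ifs with h
      · exact ha
      · exact zero_mem _
    · rw [Finsupp.single_apply]
      split_ifs with h
      · exact hb
      · exact zero_mem _

theorem BDa_actw_mdg (u : List (Bool × S)) : ∀ {m : ℕ} {z : MM S D}, z ∈ mdg F S D m →
    actw F u z ∈ mdg F S D (m + u.length) := by
  induction u with
  | nil => intro m z hz; exact hz
  | cons o u ih =>
    intro m z hz
    have h1 := ih (BDa_act_mdg F hz o)
    have h2 : actw F (o :: u) z = actw F u (act F o z) := rfl
    rw [h2]
    refine BDa_mdg_mono F ?_ h1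
    simp only [List.length_cons]
    omega

/-- The elements of `Cl F G n`, `G` finite, are bounded. -/
theorem exists_Cl_le_mdg [Finite κ] (G : κ → MM S D) : ∃ c, ∀ n, Cl F G n ≤ mdg F S D (n + c) := by
  choose b hb using fun k : κ => BDa_exists_mdg F (G k)
  obtain ⟨c, hc⟩ : ∃ c, ∀ k, b k ≤ c := by
    obtain ⟨c, hc⟩ := (Set.finite_range b).bddAbove
    exact ⟨c, fun k => hc ⟨k, rfl⟩⟩
  refine ⟨c, fun n => Submodule.span_le.2 ?_⟩
  rintro f ⟨k, u, hu, rfl⟩
  exact BDa_mdg_mono F (by have := hc k; omega) (BDa_actw_mdg F u (hb k))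

/-- The two parts of `vnb` can be lifted: an element of `vnb F (g1 F G) B` is a finite sum of
`single w (y w)` with `w ≠ []`, `w.length ≤ B`, `y w ∈ rs F (g1 F G) B`; use `lift_d`, `lift_e`. -/
theorem lift_vnb (G : κ → MM S D) (B : ℕ) (y : QQ S D) (hy : y ∈ vnb F (g1 F G) B) :
    Finsupp.single none y ∈ Cl F G (2 * B + 2) ∧
      ∀ e : S, Finsupp.single (some e) y ∈ Cl F G (2 * B + 2) := by
  classical
  obtain ⟨h0, h1, h2⟩ := hy
  have key : ∀ e : Option S, Finsupp.single e y =
      ∑ w ∈ y.support, Finsupp.single e (Finsupp.single w (y w)) := by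
    intro e
    rw [← Finsupp.single_finsetSum]
    congr 1
    exact (Finsupp.sum_single y).symm
  have hw : ∀ w ∈ y.support, w ≠ [] ∧ w.length ≤ B := by
    intro w hw
    rw [Finsupp.mem_support_iff] at hw
    refine ⟨fun h => hw (by rw [h, h0]), ?_⟩
    by_contra hlt
    exact hw (h1 w (by omega))
  refine ⟨?_, fun e => ?_⟩
  · rw [key]
    refine Submodule.sum_mem _ fun w hws => ?_
    exact Cl_mono F G (by have := (hw w hws).2; omega) (lift_d F G B (y w) (h2 w) w (hw w hws).1)
  · rw [key]
    refine Submodule.sum_mem _ fun w hws => ?_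
    exact Cl_mono F G (by have := (hw w hws).2; omega) (lift_e F G B (y w) (h2 w) w (hw w hws).1 e)

end Pool.Agent.W_59b51d_c25
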