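import Pool.Agent.W_59b51d_c25.BadDefs

/-!
# The codes of the `E_i`
-/

namespace Pool.Agent.W_59b51d_c25

open Pool.Agent.W_59b51d_h18 (Poly code Multilinear)

theorem BadC_code_opw {n : ℕ} (m : FreeMagma (Fin n)) (u : List (Bool × Fin n)) :
    code (opw m u) = opc (code m) (u.map fun o => (o.1, (o.2 : ℕ))) := by
  unfold opw opc
  induction u generalizing m with
  | nil => rfl
  | cons o u ih =>
    simp only [List.foldl_cons, List.map_cons]
    rw [ih]
    congr 1
    rcases o with ⟨b, x⟩
    cases b <;> rfl

/-- The tail of the coded operator word. -/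
def BadC_tail (a : ℕ) (σ : List ℕ) : List (Bool × ℕ) :=
  (σ.map fun r => (false, min (5 + r) (a + 5))) ++ [(true, 4)]

theorem BadC_ew (a i : ℕ) (σ : List ℕ) :
    (ew a i σ).map (fun o => (o.1, (o.2 : ℕ))) =
      (List.range ((Nat.pair a i + 1) * (Nat.pair a i + 1) - (a + 1))).map
        (fun _ => ((false, 3) : Bool × ℕ)) ++ BadC_tail a σ := by
  unfold ew BadC_tail
  rw [List.map_append, List.map_append, List.map_replicate, List.map_map, List.map_const',
    List.length_range, sq]
  congr 1

/-- The code of `E_i` is computable (`a` is fixed; the list `altP (a + 1)` is a constant; the code of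
`opw m (u ++ u')` is obtained from the code of `opw m u` by a fixed function for fixed `u'`; the
power of `(false, 3)` by recursion on a number). -/
theorem computable_EE {F : Type} [Field F] [Primcodable F] (a : ℕ) :
    Computable fun i => (EE F a i).map fun q => (q.1, code q.2) := by
  have hP : Primrec fun i : ℕ =>
      (((altP (a + 1)).map fun c => (((c.1 : ℤ) : F), BadC_tail a c.2))).map
        fun p : F × List (Bool × ℕ) =>
          (p.1, opc (code (((FreeMagma.of 0 * FreeMagma.of 1) * FreeMagma.of 2 :
              FreeMagma (Fin (a + 6)))))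
            ((List.range ((Nat.pair a i + 1) * (Nat.pair a i + 1) - (a + 1))).map
              (fun _ => ((false, 3) : Bool × ℕ)) ++ p.2)) := by
    refine Primrec.list_map (Primrec.const _) ?_
    refine Primrec.pair (Primrec.fst.comp Primrec.snd) ?_
    refine primrec_opc.comp (Primrec.const _) ?_
    refine Primrec.list_append.comp ?_ (Primrec.snd.comp Primrec.snd)
    refine Primrec.list_map (Primrec.list_range.comp ?_) (Primrec.const _).to₂
    have hk : Primrec fun p : ℕ × (F × List (Bool × ℕ)) => Nat.pair a p.1 + 1 :=
      Primrec.succ.comp (Primrec₂.natPair.comp (Primrec.const a) Primrec.fst)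
    exact Primrec.nat_sub.comp (Primrec.nat_mul.comp hk hk) (Primrec.const (a + 1))
  refine hP.to_comp.of_eq fun i => ?_
  unfold EE
  rw [List.map_map, List.map_map]
  refine List.map_congr_left fun c _ => ?_
  simp only [Function.comp]
  rw [BadC_code_opw, BadC_ew]

end Pool.Agent.W_59b51d_c25
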