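import Pool.Agent.W_59b51d_c25.BadDefs

/-!
# The model satisfies the identities
-/

namespace Pool.Agent.W_59b51d_c25

open Pool.Agent.W_59b51d_h18 (Poly code Multilinear)

/-- One multiplication, on the basis elements and `0` (`none`). -/
def BadM_st (q₀ J : ℕ) (o : Bool × BN) (s : Option BN) : Option BN :=
  s.bind fun r => if o.1 then bmul q₀ J r o.2 else bmul q₀ J o.2 r

/-- A word of multiplications, on the basis elements and `0` (`none`). -/
def BadM_ev (q₀ J : ℕ) (w : List (Bool × BN)) (s : Option BN) : Option BN :=
  w.foldl (fun s o => BadM_st q₀ J o s) s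

/-- The element of the algebra. -/
noncomputable def BadM_of (F : Type) [Field F] (q₀ J : ℕ) : Option BN → SC (bmF F q₀ J)
  | none => 0
  | some r => SC.b _ r

theorem BadM_mul (F : Type) [Field F] (q₀ J : ℕ) (p q : BN) :
    SC.b (bmF F q₀ J) p * SC.b (bmF F q₀ J) q = BadM_of F q₀ J (bmul q₀ J p q) := by
  rw [SC.b_mul_b]
  have h : bmF F q₀ J p q = match bmul q₀ J p q with
    | none => 0
    | some r => Finsupp.single r 1 := rfl
  rw [h]
  cases bmul q₀ J p q with
  | none => exact map_zero _
  | some r =>
    change SC.of _ (Finsupp.single r (1 : F)) = SC.b _ r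
    rw [SC.of_single, one_smul]

theorem BadM_step (F : Type) [Field F] (q₀ J : ℕ) (o : Bool × BN) (s : Option BN) :
    rA F (SC (bmF F q₀ J)) o.1 (SC.b _ o.2) (BadM_of F q₀ J s) =
      BadM_of F q₀ J (BadM_st q₀ J o s) := by
  cases s with
  | none => exact map_zero _
  | some r =>
    obtain ⟨b, p⟩ := o
    cases b
    · rw [rA_false]
      exact BadM_mul F q₀ J p r
    · rw [rA_true]
      exact BadM_mul F q₀ J r p

theorem BadM_ow (F : Type) [Field F] (q₀ J : ℕ) (w : List (Bool × BN)) (s : Option BN) :
    ow (rA F (SC (bmF F q₀ J))) (w.map fun o => (o.1, SC.b _ o.2)) (BadM_of F q₀ J s) =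
      BadM_of F q₀ J (BadM_ev q₀ J w s) := by
  induction w generalizing s with
  | nil => rfl
  | cons o w ih =>
    have h1 : ow (rA F (SC (bmF F q₀ J))) ((o :: w).map fun o => (o.1, SC.b _ o.2))
        (BadM_of F q₀ J s) =
        ow (rA F (SC (bmF F q₀ J))) (w.map fun o => (o.1, SC.b _ o.2))
          (rA F (SC (bmF F q₀ J)) o.1 (SC.b _ o.2) (BadM_of F q₀ J s)) := rfl
    rw [h1, BadM_step, ih]
    rfl

/-- The products of two basis elements. -/
def BadM_P (s : Option BN) : Prop := s = none ∨ (∃ t, s = some (.m t)) ∨ s = some .e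

theorem BadM_bmul_P (q₀ J : ℕ) (p q : BN) : BadM_P (bmul q₀ J p q) := by
  unfold bmul BadM_P
  split <;> (try split_ifs) <;> simp

theorem BadM_none (q₀ J : ℕ) (w : List (Bool × BN)) : BadM_ev q₀ J w none = none := by
  induction w with
  | nil => rfl
  | cons o w ih => exact ih

theorem BadM_st_Re (q₀ J : ℕ) (c : BN) : BadM_st q₀ J (true, c) (some .e) = none := by
  cases c <;> rfl

theorem BadM_st_Le (q₀ J : ℕ) (c : BN) : BadM_st q₀ J (false, c) (some .e) = none := by
  cases c <;> rfl

theorem BadM_st_R (q₀ J : ℕ) (c : BN) (t : ℕ) :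
    BadM_st q₀ J (true, c) (some (.m t)) = none ∨
      (t = 0 ∧ BadM_st q₀ J (true, c) (some (.m t)) = some (.m 0)) ∨
      (t = J ∧ BadM_st q₀ J (true, c) (some (.m t)) = some .e) := by
  cases c with
  | g i =>
    change bmul q₀ J (.m t) (.g i) = none ∨ (t = 0 ∧ bmul q₀ J (.m t) (.g i) = some (.m 0)) ∨
      (t = J ∧ bmul q₀ J (.m t) (.g i) = some .e)
    unfold bmul
    dsimp only
    split_ifs with h1 h2
    · exact Or.inr (Or.inl ⟨h1.1, rfl⟩)
    · exact Or.inr (Or.inr ⟨h2.1, rfl⟩)
    · exact Or.inl rfl
  | m i => exact Or.inl rfl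
  | e => exact Or.inl rfl

theorem BadM_st_L (q₀ J : ℕ) (c : BN) (t : ℕ) :
    BadM_st q₀ J (false, c) (some (.m t)) = none ∨
      BadM_st q₀ J (false, c) (some (.m t)) = some (.m (t + 1)) := by
  cases c with
  | g i =>
    change bmul q₀ J (.g i) (.m t) = none ∨ bmul q₀ J (.g i) (.m t) = some (.m (t + 1))
    unfold bmul
    dsimp only
    split_ifs
    · exact Or.inr rfl
    · exact Or.inl rfl
  | m i => exact Or.inl rfl
  | e => exact Or.inl rfl

theorem BadM_append (q₀ J : ℕ) (w w' : List (Bool × BN)) (s : Option BN) :
    BadM_ev q₀ J (w ++ w') s = BadM_ev q₀ J w' (BadM_ev q₀ J w s) := by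
  simp [BadM_ev, List.foldl_append]

theorem BadM_cons (q₀ J : ℕ) (o : Bool × BN) (w : List (Bool × BN)) (s : Option BN) :
    BadM_ev q₀ J (o :: w) s = BadM_ev q₀ J w (BadM_st q₀ J o s) := rfl

/-- The states after a right multiplication. -/
def BadM_Q (s : Option BN) : Prop := s = none ∨ s = some (.m 0) ∨ s = some .e

theorem BadM_Q_of_P (q₀ J : ℕ) (c : BN) (s : Option BN) (hs : BadM_P s) :
    BadM_Q (BadM_st q₀ J (true, c) s) := by
  rcases hs with rfl | ⟨t, rfl⟩ | rfl
  · exact Or.inl rfl
  · rcases BadM_st_R q₀ J c t with h | ⟨-, h⟩ | ⟨-, h⟩ <;> rw [h] <;> simp [BadM_Q]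
  · exact Or.inl (BadM_st_Re q₀ J c)

theorem BadM_P_of_Q {s : Option BN} (hs : BadM_Q s) : BadM_P s := by
  rcases hs with rfl | rfl | rfl <;> simp [BadM_P]

theorem BadM_evR (q₀ J : ℕ) (w : List (Bool × BN)) (hw : ∀ o ∈ w, o.1 = true) (s : Option BN)
    (hs : BadM_Q s) : BadM_Q (BadM_ev q₀ J w s) := by
  induction w generalizing s with
  | nil => exact hs
  | cons o w ih =>
    rw [BadM_cons]
    have ho : o = (true, o.2) := by
      ext
      · exact hw o (by simp)
      · rfl
    rw [ho]
    exact ih (fun o' ho' => hw o' (by simp [ho'])) _ (BadM_Q_of_P q₀ J _ s (BadM_P_of_Q hs))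

theorem BadM_evL (q₀ J : ℕ) (w : List (Bool × BN)) (hw : ∀ o ∈ w, o.1 = false) (t : ℕ) :
    BadM_ev q₀ J w (some (.m t)) = none ∨
      BadM_ev q₀ J w (some (.m t)) = some (.m (t + w.length)) := by
  induction w generalizing t with
  | nil => exact Or.inr rfl
  | cons o w ih =>
    rw [BadM_cons]
    have ho : o = (false, o.2) := by
      ext
      · exact hw o (by simp)
      · rfl
    rw [ho]
    rcases BadM_st_L q₀ J o.2 t with h | h
    · rw [h]
      exact Or.inl (BadM_none q₀ J w)
    · rw [h, List.length_cons, show t + (w.length + 1) = (t + 1) + w.length by omega]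
      exact ih (fun o' ho' => hw o' (by simp [ho'])) (t + 1)

/-- `R … R L … L R = 0`, if the number of the `L` is not `J`. -/
theorem BadM_RLR (q₀ J : ℕ) (A B : List (Bool × BN)) (c : BN) (hA : A ≠ [])
    (hA' : ∀ o ∈ A, o.1 = true) (hB : B ≠ []) (hB' : ∀ o ∈ B, o.1 = false)
    (hBJ : B.length ≠ J) (s : Option BN) (hs : BadM_P s) :
    BadM_ev q₀ J (A ++ (B ++ [(true, c)])) s = none := by
  rw [BadM_append, BadM_append]
  have h1 : BadM_Q (BadM_ev q₀ J A s) := by
    cases A with
    | nil => exact absurd rfl hA
    | cons o A =>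
      rw [BadM_cons]
      have ho : o = (true, o.2) := by
        ext
        · exact hA' o (by simp)
        · rfl
      rw [ho]
      exact BadM_evR q₀ J A (fun o' ho' => hA' o' (by simp [ho'])) _ (BadM_Q_of_P q₀ J _ s hs)
  rcases h1 with h | h | h
  · rw [h, BadM_none, BadM_none]
  · rw [h]
    rcases BadM_evL q₀ J B hB' 0 with h2 | h2
    · rw [h2, BadM_none]
    · rw [h2, zero_add]
      change BadM_st q₀ J (true, c) (some (.m B.length)) = none
      rcases BadM_st_R q₀ J c B.length with h3 | ⟨h3, -⟩ | ⟨h3, -⟩
      · exact h3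
      · exact absurd (List.length_eq_zero_iff.1 h3) hB
      · exact absurd h3 hBJ
  · rw [h]
    cases B with
    | nil => exact absurd rfl hB
    | cons o B =>
      have ho : o = (false, o.2) := by
        ext
        · exact hB' o (by simp)
        · rfl
      rw [ho]
      have h7 : BadM_ev q₀ J ((false, o.2) :: B) (some .e) = none := by
        rw [BadM_cons, BadM_st_Le, BadM_none]
      rw [h7, BadM_none]

/-- `BadM_RLR` for words with given flags. -/
theorem BadM_flag (q₀ J : ℕ) (w : List (Bool × BN)) (s : Option BN) (hs : BadM_P s)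
    (A B : List Bool) (hw : w.map Prod.fst = A ++ (B ++ [true])) (hA : A ≠ [])
    (hA' : ∀ o ∈ A, o = true) (hB : B ≠ []) (hB' : ∀ o ∈ B, o = false) (hBJ : B.length ≠ J) :
    BadM_ev q₀ J w s = none := by
  obtain ⟨wA, w', rfl, rfl, hw1⟩ := List.map_eq_append_iff.1 hw
  obtain ⟨wB, w'', rfl, rfl, hw2⟩ := List.map_eq_append_iff.1 hw1
  obtain ⟨⟨f, c⟩, w3, rfl, hf, hw3⟩ := List.map_eq_cons_iff.1 hw2
  obtain rfl := List.map_eq_nil_iff.1 hw3
  dsimp only at hf
  subst hf
  refine BadM_RLR q₀ J wA wB c ?_ ?_ ?_ ?_ ?_ s hs
  · rintro rfl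
    exact hA rfl
  · exact fun o ho => hA' _ (List.mem_map_of_mem ho)
  · rintro rfl
    exact hB rfl
  · exact fun o ho => hB' _ (List.mem_map_of_mem ho)
  · rwa [List.length_map] at hBJ

/-- `L R R = 0` and `L R L = 0`. -/
theorem BadM_LRX (q₀ J : ℕ) (x y z : BN) (o : Bool) (s : Option BN) (hs : BadM_P s) :
    BadM_ev q₀ J [(false, x), (true, y), (o, z)] s = none := by
  rw [BadM_cons, BadM_cons]
  rcases hs with rfl | ⟨t, rfl⟩ | rfl
  · exact BadM_none q₀ J [(true, y), (o, z)]
  · rcases BadM_st_L q₀ J x t with h | h
    · rw [h]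
      exact BadM_none q₀ J [(true, y), (o, z)]
    · rw [h]
      rcases BadM_st_R q₀ J y (t + 1) with h3 | ⟨h3, -⟩ | ⟨h3, h4⟩
      · rw [h3]
        exact BadM_none q₀ J [(o, z)]
      · omega
      · rw [h4]
        change BadM_st q₀ J (o, z) (some .e) = none
        cases o
        · exact BadM_st_Le q₀ J z
        · exact BadM_st_Re q₀ J z
  · rw [BadM_st_Le]
    exact BadM_none q₀ J [(true, y), (o, z)]

/-- The value of a word is additive in the argument. -/
theorem BadM_ow_add {F A : Type} [Field F] [NonUnitalNonAssocRing A] [Module F A]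
    [IsScalarTower F A A] [SMulCommClass F A A] (u : List (Bool × A)) (m m' : A) :
    ow (rA F A) u (m + m') = ow (rA F A) u m + ow (rA F A) u m' := by
  induction u generalizing m m' with
  | nil => rfl
  | cons o u ih =>
    change ow (rA F A) u (rA F A o.1 o.2 (m + m')) = ow (rA F A) u (rA F A o.1 o.2 m) +
      ow (rA F A) u (rA F A o.1 o.2 m')
    rw [map_add, ih]

theorem BadM_ow_smul {F A : Type} [Field F] [NonUnitalNonAssocRing A] [Module F A]
    [IsScalarTower F A A] [SMulCommClass F A A] (u : List (Bool × A)) (c : F) (m : A) :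
    ow (rA F A) u (c • m) = c • ow (rA F A) u m := by
  induction u generalizing m with
  | nil => rfl
  | cons o u ih =>
    change ow (rA F A) u (rA F A o.1 o.2 (c • m)) = c • ow (rA F A) u (rA F A o.1 o.2 m)
    rw [map_smul, ih]

theorem BadM_ow_zero {F A : Type} [Field F] [NonUnitalNonAssocRing A] [Module F A]
    [IsScalarTower F A A] [SMulCommClass F A A] (u : List (Bool × A)) :
    ow (rA F A) u (0 : A) = 0 := by
  have h := BadM_ow_smul (F := F) u (0 : F) (0 : A)
  rwa [zero_smul, zero_smul] at h

/-- A word which vanishes at a basis element, for all labels in the basis, vanishes there for all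
labels. -/
theorem BadM_lab (F : Type) [Field F] (q₀ J : ℕ) (u : List (Bool × SC (bmF F q₀ J)))
    (s : Option BN)
    (hw : ∀ w : List (Bool × BN), w.map Prod.fst = u.map Prod.fst → BadM_ev q₀ J w s = none) :
    ow (rA F (SC (bmF F q₀ J))) u (BadM_of F q₀ J s) = 0 := by
  induction u generalizing s with
  | nil =>
    have h : s = none := hw [] rfl
    rw [h]
    rfl
  | cons o u ih =>
    obtain ⟨f, x⟩ := o
    change ow (rA F (SC (bmF F q₀ J))) u
      (rA F (SC (bmF F q₀ J)) f x (BadM_of F q₀ J s)) = 0
    have hx : x ∈ Submodule.span F (Set.range (SC.b (bmF F q₀ J))) := by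
      rw [SC.span_b]; trivial
    induction hx using Submodule.span_induction with
    | mem x hx =>
      obtain ⟨c, rfl⟩ := hx
      rw [BadM_step F q₀ J (f, c) s]
      refine ih _ fun w h => ?_
      exact hw ((f, c) :: w) (by rw [List.map_cons, h, List.map_cons])
    | zero =>
      rw [map_zero, LinearMap.zero_apply]
      exact BadM_ow_zero u
    | add x y _ _ h1 h2 =>
      rw [map_add, LinearMap.add_apply, BadM_ow_add]
      rw [h1 (fun w hw' => hw w hw'), h2 (fun w hw' => hw w hw'), add_zero]
    | smul c x _ h1 =>
      rw [map_smul, LinearMap.smul_apply, BadM_ow_smul]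
      rw [h1 (fun w hw' => hw w hw'), smul_zero]

/-- A word which vanishes on the basis vanishes on all products. -/
theorem BadM_word (F : Type) [Field F] (q₀ J : ℕ) (u : List (Bool × SC (bmF F q₀ J)))
    (hw : ∀ (w : List (Bool × BN)) (s : Option BN), BadM_P s →
      w.map Prod.fst = u.map Prod.fst → BadM_ev q₀ J w s = none)
    (x y : SC (bmF F q₀ J)) :
    ow (rA F (SC (bmF F q₀ J))) u (x * y) = 0 := by
  have hx : x ∈ Submodule.span F (Set.range (SC.b (bmF F q₀ J))) := by
    rw [SC.span_b]; trivial
  have hy : y ∈ Submodule.span F (Set.range (SC.b (bmF F q₀ J))) := by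
    rw [SC.span_b]; trivial
  induction hx using Submodule.span_induction with
  | mem x hx =>
    obtain ⟨p, rfl⟩ := hx
    induction hy using Submodule.span_induction with
    | mem y hy =>
      obtain ⟨q, rfl⟩ := hy
      rw [BadM_mul]
      exact BadM_lab F q₀ J u _ fun w h => hw w _ (BadM_bmul_P q₀ J p q) h
    | zero => rw [mul_zero]; exact BadM_ow_zero u
    | add y y' _ _ h3 h4 => rw [mul_add, BadM_ow_add, h3, h4, add_zero]
    | smul c y _ h3 => rw [mul_smul_comm, BadM_ow_smul, h3, smul_zero]
  | zero => rw [zero_mul]; exact BadM_ow_zero u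
  | add x x' _ _ h3 h4 => rw [add_mul, BadM_ow_add, h3, h4, add_zero]
  | smul c x _ h3 => rw [smul_mul_assoc, BadM_ow_smul, h3, smul_zero]

theorem BadM_sq (n : ℕ) : sp ((n + 1) ^ 2) = true := by
  have h : (n + 1) ^ 2 = Nat.pair 0 (n + 1) := by
    rw [Nat.pair, if_pos (Nat.succ_pos n)]
    ring
  rw [sp, h, Nat.unpair_pair]
  simp

/-- The model satisfies the identities, if `i` is not enumerated.

Proof. Products of basis elements are `0` or basis elements `m t`, `e`. By `satisfies_iff` and
`ow_mem` (the words `(true, x₁) :: u` with the argument `x₀`: the labels are again a permutation of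
a `range`; `L = M` the algebra, `K = ⊥`) it suffices to consider values at basis elements. On the
elements `m t`, `e`: right multiplication by a basis element gives `0`, or `m 0 ↦ m 0` or
`m J ↦ e`; left multiplication gives `0` or `m t ↦ m (t + 1)`, `t < J`. As `1 ≤ J`: `L R R` and
`L R L` give `0`; `R L^j R` (`j ≥ 1`) gives `0` unless `j = J`, but `J` is a square (`sp J = true`);
`R^q L^(J') R` with `J' = (n' + 1) ^ 2`, `q ≥ 1`, `ent n' s = true` gives `0` unless `J' = J`, i.e.
`n' = n`, which is excluded. All words of one identity have the same shape. -/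
theorem model_satisfies {F : Type} [Field F] (ent : ℕ → ℕ → Bool) (a i : ℕ)
    (h : ∀ s, ent (Nat.pair a i) s = false) :
    Satisfies (SC (bmF F ((Nat.pair a i + 1) ^ 2 - (a + 1)) ((Nat.pair a i + 1) ^ 2)))
      (fun t => poly F (fam ent t)) := by
  generalize hq₀ : (Nat.pair a i + 1) ^ 2 - (a + 1) = q₀
  generalize hJ : (Nat.pair a i + 1) ^ 2 = J
  rw [satisfies_iff]
  refine ⟨?_, ?_⟩
  · -- the product of two products
    intro x y z w
    have h1 : ∀ x y : SC (bmF F q₀ J), x * y ∈
        Submodule.span F (Set.range fun r : {r : BN // BadM_P (some r)} =>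
          SC.b (bmF F q₀ J) r.1) := by
      intro x y
      have hx : x ∈ Submodule.span F (Set.range (SC.b (bmF F q₀ J))) := by
        rw [SC.span_b]; trivial
      have hy : y ∈ Submodule.span F (Set.range (SC.b (bmF F q₀ J))) := by
        rw [SC.span_b]; trivial
      induction hx using Submodule.span_induction with
      | mem x hx =>
        obtain ⟨p, rfl⟩ := hx
        induction hy using Submodule.span_induction with
        | mem y hy =>
          obtain ⟨q, rfl⟩ := hy
          rw [BadM_mul]
          have h2 := BadM_bmul_P q₀ J p q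
          cases h3 : bmul q₀ J p q with
          | none => exact zero_mem _
          | some r =>
            rw [h3] at h2
            exact Submodule.subset_span ⟨⟨r, h2⟩, rfl⟩
        | zero => rw [mul_zero]; exact zero_mem _
        | add y y' _ _ h3 h4 => rw [mul_add]; exact add_mem h3 h4
        | smul c y _ h3 => rw [mul_smul_comm]; exact Submodule.smul_mem _ _ h3
      | zero => rw [zero_mul]; exact zero_mem _
      | add x x' _ _ h3 h4 => rw [add_mul]; exact add_mem h3 h4
      | smul c x _ h3 => rw [smul_mul_assoc]; exact Submodule.smul_mem _ _ h3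
    have hx := h1 x y
    have hy := h1 z w
    generalize x * y = X at hx
    generalize z * w = Y at hy
    induction hx using Submodule.span_induction with
    | mem x hx =>
      obtain ⟨p, rfl⟩ := hx
      induction hy using Submodule.span_induction with
      | mem y hy =>
        obtain ⟨q, rfl⟩ := hy
        dsimp only
        rw [BadM_mul]
        obtain ⟨p, hp⟩ := p
        obtain ⟨q, hq⟩ := q
        rcases hp with hp | ⟨t, hp⟩ | hp
        · cases hp
        · cases hp
          rcases hq with hq | ⟨t', hq⟩ | hq
          · cases hq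
          · cases hq; rfl
          · cases hq; rfl
        · cases hp
          rcases hq with hq | ⟨t', hq⟩ | hq
          · cases hq
          · cases hq; rfl
          · cases hq; rfl
      | zero => rw [mul_zero]
      | add y y' _ _ h3 h4 => rw [mul_add, h3, h4, add_zero]
      | smul c y _ h3 => rw [mul_smul_comm, h3, smul_zero]
    | zero => rw [zero_mul]
    | add x x' _ _ h3 h4 => rw [add_mul, h3, h4, add_zero]
    | smul c x _ h3 => rw [smul_mul_assoc, h3, smul_zero]
  · intro t ht x y v
    have key : ∀ q ∈ idw ent t,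
        ow (rA F (SC (bmF F q₀ J))) (q.2.map fun o => (o.1, v o.2)) (x * y) = 0 := by
      intro q hq
      refine BadM_word F q₀ J _ ?_ x y
      intro w s hs hfl
      rw [List.map_map] at hfl
      match t, ht, hq with
      | 1, _, hq =>
        simp only [idw, List.mem_singleton] at hq
        subst hq
        simp only [List.map_cons, List.map_nil, Function.comp_apply] at hfl
        obtain ⟨⟨f₁, c₁⟩, w, rfl, h₁, hfl⟩ := List.map_eq_cons_iff.1 hfl
        obtain ⟨⟨f₂, c₂⟩, w, rfl, h₂, hfl⟩ := List.map_eq_cons_iff.1 hfl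
        obtain ⟨⟨f₃, c₃⟩, w, rfl, h₃, hfl⟩ := List.map_eq_cons_iff.1 hfl
        obtain rfl := List.map_eq_nil_iff.1 hfl
        dsimp only at h₁ h₂ h₃
        subst h₁ h₂ h₃
        exact BadM_LRX q₀ J _ _ _ true s hs
      | 2, _, hq =>
        simp only [idw, List.mem_singleton] at hq
        subst hq
        simp only [List.map_cons, List.map_nil, Function.comp_apply] at hfl
        obtain ⟨⟨f₁, c₁⟩, w, rfl, h₁, hfl⟩ := List.map_eq_cons_iff.1 hfl
        obtain ⟨⟨f₂, c₂⟩, w, rfl, h₂, hfl⟩ := List.map_eq_cons_iff.1 hfl
        obtain ⟨⟨f₃, c₃⟩, w, rfl, h₃, hfl⟩ := List.map_eq_cons_iff.1 hfl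
        obtain rfl := List.map_eq_nil_iff.1 hfl
        dsimp only at h₁ h₂ h₃
        subst h₁ h₂ h₃
        exact BadM_LRX q₀ J _ _ _ false s hs
      | j + 3, _, hq =>
        by_cases hj : sp j = true
        · simp only [idw, if_pos hj] at hq
          split_ifs at hq with h2
          · rw [List.mem_map] at hq
            obtain ⟨c, hc, rfl⟩ := hq
            set n' := (j.unpair.2 - 1).unpair.1 with hn'
            have hlen : c.2.length = n'.unpair.1 + 1 := by
              rw [(altP_perm _ c hc).length_eq, List.length_range]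
            have hle : n'.unpair.1 + 1 ≤ (n' + 1) ^ 2 := by
              have := Nat.unpair_left_le n'
              nlinarith
            have hne : n' ≠ Nat.pair a i := by
              intro h5
              rw [h5, h] at h2
              exact absurd h2.2 (by simp)
            simp only [wk, List.map_append, List.map_map, List.map_cons, List.map_nil] at hfl
            rw [← List.append_assoc (List.map _ (List.range ((n' + 1) ^ 2 - _)))] at hfl
            refine BadM_flag q₀ J w s hs _ _ hfl ?_ ?_ ?_ ?_ ?_
            · intro h5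
              rw [List.map_eq_nil_iff, List.range_eq_nil] at h5
              omega
            · intro o ho
              rw [List.mem_map] at ho
              obtain ⟨k, -, rfl⟩ := ho
              rfl
            · intro h5
              have h6 := congrArg List.length h5
              rw [List.length_append, List.length_map, List.length_map, List.length_range,
                hlen, List.length_nil] at h6
              omega
            · intro o ho
              rw [List.mem_append, List.mem_map, List.mem_map] at ho
              rcases ho with ⟨k, -, rfl⟩ | ⟨k, -, rfl⟩ <;> rfl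
            · rw [List.length_append, List.length_map, List.length_map, List.length_range,
                hlen, Nat.sub_add_cancel hle, ← hJ]
              intro h5
              exact hne (Nat.succ_injective (Nat.pow_left_injective (n := 2) (by norm_num) h5))
          · exact absurd hq (by simp)
        · simp only [idw, if_neg hj, List.mem_singleton] at hq
          subst hq
          have hj0 : j ≠ 0 := by
            rintro rfl
            exact hj (by simp [sp])
          have hjJ : j ≠ J := by
            rintro rfl
            exact hj (hJ ▸ BadM_sq _)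
          simp only [w4, List.map_append, List.map_map, List.map_cons, List.map_nil] at hfl
          refine BadM_flag q₀ J w s hs [true] _ hfl (by simp) ?_ ?_ ?_ ?_
          · intro o ho
            rw [List.mem_singleton] at ho
            exact ho
          · intro h5
            rw [List.map_eq_nil_iff, List.range_eq_nil] at h5
            omega
          · intro o ho
            rw [List.mem_map] at ho
            obtain ⟨k, -, rfl⟩ := ho
            rfl
          · rw [List.length_map, List.length_range]
            exact hjJ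
    refine List.sum_eq_zero fun r hr => ?_
    rw [List.mem_map] at hr
    obtain ⟨q, hq, rfl⟩ := hr
    rw [key q hq, smul_zero]

end Pool.Agent.W_59b51d_c25
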