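import Pool.Agent.W_59b51d_c25.BadDefs
import Pool.Agent.W_59b51d_c25.BadM

/-!
# The elements `E_i` which do not vanish
-/

namespace Pool.Agent.W_59b51d_c25

open Pool.Agent.W_59b51d_h18 (Poly code Multilinear)

/-- The letters `L_l`. -/
theorem BadN_rep (q₀ J : ℕ) (hJ : q₀ ≤ J) (k : ℕ) (t : ℕ) (h : t + k ≤ q₀) :
    BadM_ev q₀ J (List.replicate k (false, BN.g 3)) (some (.m t)) = some (.m (t + k)) := by
  induction k generalizing t with
  | zero => rfl
  | succ k ih =>
    rw [List.replicate_succ, BadM_cons]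
    have h1 : BadM_st q₀ J (false, BN.g 3) (some (.m t)) = some (.m (t + 1)) := by
      change bmul q₀ J (.g 3) (.m t) = some (.m (t + 1))
      unfold bmul
      dsimp only
      rw [if_pos ⟨by omega, Or.inl ⟨by omega, rfl⟩⟩]
    rw [h1, ih (t + 1) (by omega), show t + 1 + k = t + (k + 1) by omega]

/-- The letters `L_(z_r)`. -/
theorem BadN_sig (q₀ J a : ℕ) (hJ : J = q₀ + (a + 1)) (σ : List ℕ) (j : ℕ)
    (hl : j + σ.length = a + 1) (hs : ∀ r ∈ σ, r ≤ a) :
    BadM_ev q₀ J (σ.map fun r => (false, BN.g (fz a r).1)) (some (.m (q₀ + j))) =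
      if σ = List.range' j σ.length then some (.m J) else none := by
  induction σ generalizing j with
  | nil =>
    have h1 : q₀ + j = J := by simp at hl; omega
    simp [BadM_ev, h1]
  | cons r σ ih =>
    rw [List.map_cons, BadM_cons]
    have hr : (fz a r).1 = 5 + r := by
      have := hs r (by simp)
      simp only [fz]
      omega
    have hj : q₀ + j < J := by rw [List.length_cons] at hl; omega
    rw [List.length_cons, List.range'_succ]
    by_cases h : r = j
    · have h1 : BadM_st q₀ J (false, BN.g (fz a r).1) (some (.m (q₀ + j))) =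
          some (.m (q₀ + (j + 1))) := by
        change bmul q₀ J (.g (fz a r).1) (.m (q₀ + j)) = some (.m (q₀ + j + 1))
        unfold bmul
        dsimp only
        rw [if_pos ⟨hj, Or.inr ⟨by omega, by rw [hr]; omega⟩⟩]
      rw [h1, ih (j + 1) (by rw [List.length_cons] at hl; omega) (fun r' hr' => hs r' (by simp [hr']))]
      subst h
      simp
    · have h1 : BadM_st q₀ J (false, BN.g (fz a r).1) (some (.m (q₀ + j))) = none := by
        change bmul q₀ J (.g (fz a r).1) (.m (q₀ + j)) = none
        unfold bmul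
        dsimp only
        rw [if_neg]
        rintro ⟨-, h2 | h2⟩
        · omega
        · rw [hr] at h2
          omega
      rw [h1, BadM_none, if_neg]
      intro h2
      rw [List.cons.injEq] at h2
      exact h h2.1

/-- The value of the word of a permutation. -/
theorem BadN_word (a i : ℕ) (σ : List ℕ) (hσ : σ.Perm (List.range (a + 1))) :
    BadM_ev ((Nat.pair a i + 1) ^ 2 - (a + 1)) ((Nat.pair a i + 1) ^ 2)
      ((ew a i σ).map fun o => (o.1, BN.g o.2.1)) (some (.m 0)) =
      if σ = List.range (a + 1) then some .e else none := by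
  have h0 : a + 1 ≤ (Nat.pair a i + 1) ^ 2 := by
    have h1 : a ≤ Nat.pair a i := Nat.left_le_pair a i
    nlinarith
  generalize hJ : (Nat.pair a i + 1) ^ 2 = J
  rw [hJ] at h0
  have hlen : σ.length = a + 1 := by rw [hσ.length_eq, List.length_range]
  have hs : ∀ r ∈ σ, r ≤ a := fun r hr => by
    have := List.mem_range.1 (hσ.mem_iff.1 hr)
    omega
  have e1 : (ew a i σ).map (fun o => (o.1, BN.g o.2.1)) =
      List.replicate (J - (a + 1)) (false, BN.g 3) ++
        ((σ.map fun r => (false, BN.g (fz a r).1)) ++ [(true, BN.g 4)]) := by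
    simp only [ew, hJ, List.map_append, List.map_replicate, List.map_map, List.map_cons,
      List.map_nil]
    rfl
  rw [e1, BadM_append, BadN_rep _ _ (by omega) _ 0 (by omega), BadM_append, zero_add]
  have h2 := BadN_sig (J - (a + 1)) J a (by omega) σ 0 (by omega) hs
  rw [add_zero] at h2
  rw [h2, hlen, ← List.range_eq_range']
  by_cases h : σ = List.range (a + 1)
  · rw [if_pos h, if_pos h]
    change bmul (J - (a + 1)) J (.m J) (.g 4) = some .e
    unfold bmul
    dsimp only
    rw [if_neg (by omega), if_pos ⟨rfl, rfl⟩]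
  · rw [if_neg h, if_neg h]
    exact BadM_none _ _ _

/-- The value of `E_i` in the model is `± e ≠ 0`: `m 0` goes to `m q₀` under `L_l^q₀`; the word
`L_(z_σ)` maps it to `m J` if `σ = range (a + 1)` and to `0` otherwise (`altP_perm`, `altP_id`). -/
theorem not_vanishes_EE {F : Type} [Field F] (ent : ℕ → ℕ → Bool) (a i : ℕ)
    (h : ∀ s, ent (Nat.pair a i) s = false) :
    ¬ Vanishes F (fun t => poly F (fam ent t)) (rl F a) (EE F a i) := by
  intro hv
  set q₀ := (Nat.pair a i + 1) ^ 2 - (a + 1) with hq₀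
  set J := (Nat.pair a i + 1) ^ 2 with hJ
  have hsat : Satisfies (SC (bmF F q₀ J)) (fun t => poly F (fam ent t)) :=
    model_satisfies ent a i h
  have h01 : SC.b (bmF F q₀ J) (BN.g 0) * SC.b (bmF F q₀ J) (BN.g 1) =
      SC.b (bmF F q₀ J) (BN.m 0) := by
    rw [BadM_mul]; rfl
  have h02 : SC.b (bmF F q₀ J) (BN.m 0) * SC.b (bmF F q₀ J) (BN.g 2) =
      SC.b (bmF F q₀ J) (BN.m 0) := by
    rw [BadM_mul]; rfl
  have hg0 : ((0 : Fin (a + 6)) : ℕ) = 0 := rfl
  have hg1 : ((1 : Fin (a + 6)) : ℕ) = 1 := Nat.mod_eq_of_lt (show 1 < a + 6 by omega)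
  have hg2 : ((2 : Fin (a + 6)) : ℕ) = 2 := Nat.mod_eq_of_lt (show 2 < a + 6 by omega)
  have hlift : FreeMagma.lift (fun k : Fin (a + 6) => SC.b (bmF F q₀ J) (BN.g k.1))
      ((FreeMagma.of 0 * FreeMagma.of 1) * FreeMagma.of 2) = SC.b (bmF F q₀ J) (BN.m 0) := by
    rw [map_mul, map_mul, FreeMagma.lift_of, FreeMagma.lift_of, FreeMagma.lift_of, hg0, hg1, hg2,
      h01, h02]
  have hlift' : FreeMagma.lift (fun k : Fin (a + 6) => SC.b (bmF F q₀ J) (BN.g k.1))
      (FreeMagma.of 0 * FreeMagma.of 1) = SC.b (bmF F q₀ J) (BN.m 0) := by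
    rw [map_mul, FreeMagma.lift_of, FreeMagma.lift_of, hg0, hg1, h01]
  have h1 := hv (SC (bmF F q₀ J)) hsat (fun k => SC.b _ (BN.g k.1)) (by
    intro p hp
    rw [rl, List.mem_singleton] at hp
    subst hp
    simp only [Pool.Agent.W_59b51d_h18.Poly.eval, List.map_cons, List.map_nil, List.sum_cons,
      List.sum_nil]
    rw [hlift, hlift', one_smul, neg_smul, one_smul, add_zero, add_neg_cancel])
  have h2 : Pool.Agent.W_59b51d_h18.Poly.eval
      (fun k : Fin (a + 6) => SC.b (bmF F q₀ J) (BN.g k.1)) (EE F a i) =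
      (((((altP (a + 1)).map fun q => if q.2 = List.range (a + 1) then q.1 else 0).sum : ℤ)) : F) •
        SC.b (bmF F q₀ J) BN.e := by
    unfold Pool.Agent.W_59b51d_h18.Poly.eval EE
    rw [List.map_map]
    have key : ∀ P : List (ℤ × List ℕ), (∀ p ∈ P, p.2.Perm (List.range (a + 1))) →
        (P.map ((fun q : F × FreeMagma (Fin (a + 6)) => q.1 •
          FreeMagma.lift (fun k : Fin (a + 6) => SC.b (bmF F q₀ J) (BN.g k.1)) q.2) ∘
          fun c => (((c.1 : ℤ) : F), opw ((FreeMagma.of 0 * FreeMagma.of 1) * FreeMagma.of 2)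
            (ew a i c.2)))).sum =
        ((((P.map fun q => if q.2 = List.range (a + 1) then q.1 else 0).sum : ℤ)) : F) •
          SC.b (bmF F q₀ J) BN.e := by
      intro P
      induction P with
      | nil => intro _; simp
      | cons p P ih =>
        intro hP
        rw [List.map_cons, List.sum_cons, ih (fun q hq => hP q (by simp [hq])), List.map_cons,
          List.sum_cons, Int.cast_add, add_smul]
        congr 1
        simp only [Function.comp]
        rw [lift_opw (F := F), hlift]
        have h3 := BadM_ow F q₀ J ((ew a i p.2).map fun o => (o.1, BN.g o.2.1)) (some (.m 0))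
        rw [List.map_map] at h3
        have h4 : (ew a i p.2).map (fun o => (o.1, SC.b (bmF F q₀ J) (BN.g o.2.1))) =
            (ew a i p.2).map ((fun o : Bool × BN => (o.1, SC.b (bmF F q₀ J) o.2)) ∘
              fun o => (o.1, BN.g o.2.1)) := rfl
        have h5 : BadM_of F q₀ J (some (.m 0)) = SC.b (bmF F q₀ J) (BN.m 0) := rfl
        rw [h4, ← h5, h3, hq₀, hJ, BadN_word a i p.2 (hP p (by simp))]
        by_cases h6 : p.2 = List.range (a + 1)
        · rw [if_pos h6, if_pos h6]
          rfl
        · rw [if_neg h6, if_neg h6, Int.cast_zero, zero_smul]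
          exact smul_zero _
    exact key _ (altP_perm (a + 1))
  rw [h2] at h1
  have h7 : SC.b (bmF F q₀ J) BN.e ≠ 0 := by
    intro h8
    have h9 := congrArg (fun x => SC.val (bmF F q₀ J) x BN.e) h8
    have h10 : SC.val (bmF F q₀ J) (SC.b (bmF F q₀ J) BN.e) BN.e = 1 := Finsupp.single_eq_same
    have h11 : SC.val (bmF F q₀ J) 0 BN.e = 0 := by rw [map_zero]; rfl
    rw [h10, h11] at h9
    exact one_ne_zero h9
  rcases altP_id (a + 1) with h12 | h12
  · rw [h12, Int.cast_one, one_smul] at h1
    exact h7 h1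
  · rw [h12, Int.cast_neg, Int.cast_one, neg_smul, one_smul, neg_eq_zero] at h1
    exact h7 h1

end Pool.Agent.W_59b51d_c25
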