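import Pool.Agent.W_59b51d_c25.BadDefs

/-!
# The elements `E_i` which vanish
-/

namespace Pool.Agent.W_59b51d_c25

open Pool.Agent.W_59b51d_h18 (Poly code Multilinear)

/-- The identity `t = q + 3` for `q = (u + 1) ^ 2`, `u = Nat.pair n s`, if `n` is enumerated at the
stage `s`. -/
theorem BadV_idw (ent : ℕ → ℕ → Bool) (n s : ℕ) (h : ent n s = true) :
    idw ent ((Nat.pair n s + 1) ^ 2 + 3) =
      (altP (n.unpair.1 + 1)).map fun c => (c.1, wk n ((Nat.pair n s + 1) ^ 2) c.2) := by
  have h0 : ∀ k : ℕ, Nat.pair 0 (k + 1) = (k + 1) ^ 2 := by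
    intro k
    rw [Nat.pair, if_pos (Nat.succ_pos _), sq, add_zero]
  have h1 : (Nat.pair n s + 1) ^ 2 = Nat.pair 0 (Nat.pair n s + 1) := (h0 _).symm
  have h2 : ((Nat.pair n s + 1) ^ 2).unpair = (0, Nat.pair n s + 1) := by
    rw [h1, Nat.unpair_pair]
  have h3 : (((Nat.pair n s + 1) ^ 2).unpair.2 - 1).unpair = (n, s) := by
    rw [h2]
    show (Nat.pair n s + 1 - 1).unpair = (n, s)
    rw [Nat.add_sub_cancel, Nat.unpair_pair]
  have h4 : sp ((Nat.pair n s + 1) ^ 2) = true := by
    unfold sp
    rw [h2]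
    simp
  have h5 : 0 < (Nat.pair n s + 1) ^ 2 := by positivity
  rw [idw, if_pos h4, h3, if_pos ⟨h5, h⟩]

/-- A word is applied letter by letter. -/
theorem BadV_append {F L M : Type} [Field F] [AddCommGroup L] [Module F L] [AddCommGroup M]
    [Module F M] (ρ : Bool → L →ₗ[F] M →ₗ[F] M) (u w : List (Bool × L)) (m : M) :
    ow ρ (u ++ w) m = ow ρ w (ow ρ u m) := by
  unfold ow
  rw [List.foldl_append]

/-- A letter which fixes `m`. -/
theorem BadV_fix {F L M : Type} [Field F] [AddCommGroup L] [Module F L] [AddCommGroup M]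
    [Module F M] (ρ : Bool → L →ₗ[F] M →ₗ[F] M) (o : Bool × L) (m : M) (h : ρ o.1 o.2 m = m)
    (q : ℕ) : ow ρ (List.replicate q o) m = m := by
  induction q with
  | zero => rfl
  | succ q ih =>
    have h1 : ow ρ (List.replicate (q + 1) o) m = ow ρ (List.replicate q o) (ρ o.1 o.2 m) := rfl
    rw [h1, h, ih]

/-- The labels. -/
def BadV_val {A : Type} (a c q : ℕ) (g : Fin (a + 6) → A) (k : ℕ) : A :=
  if k < q then g 2 else if k < q + c then g 3 else
    if k < q + c + (a + 1) then g (fz a (k - (q + c))) else g 4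

/-- The word of the identity, for these labels. -/
theorem BadV_word {A : Type} (a i q : ℕ) (g : Fin (a + 6) → A) (σ : List ℕ)
    (hσ : σ.Perm (List.range (a + 1))) :
    (wk (Nat.pair a i) q σ).map (fun o =>
      (o.1, BadV_val a ((Nat.pair a i + 1) ^ 2 - (a + 1)) q g o.2)) =
      List.replicate q (true, g 2) ++ (ew a i σ).map fun o => (o.1, g o.2) := by
  have hn : (Nat.pair a i).unpair.1 = a := by rw [Nat.unpair_pair]
  have h0 : a + 1 ≤ (Nat.pair a i + 1) ^ 2 := by
    have h1 : a ≤ Nat.pair a i := Nat.left_le_pair a i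
    nlinarith
  obtain ⟨c, hc⟩ : ∃ c, (Nat.pair a i + 1) ^ 2 = c + (a + 1) :=
    ⟨(Nat.pair a i + 1) ^ 2 - (a + 1), by omega⟩
  have hc' : (Nat.pair a i + 1) ^ 2 - (a + 1) = c := by omega
  have e1 : ((List.range q).map fun k => (true, k)).map
      (fun o : Bool × ℕ => (o.1, BadV_val a c q g o.2)) = List.replicate q (true, g 2) := by
    rw [List.map_map, List.eq_replicate_iff]
    refine ⟨by simp, fun b hb => ?_⟩
    obtain ⟨k, hk, rfl⟩ := List.mem_map.1 hb
    have hk' : k < q := List.mem_range.1 hk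
    simp [BadV_val, hk']
  have e2 : ((List.range c).map fun k => (false, q + k)).map
      (fun o : Bool × ℕ => (o.1, BadV_val a c q g o.2)) = List.replicate c (false, g 3) := by
    rw [List.map_map, List.eq_replicate_iff]
    refine ⟨by simp, fun b hb => ?_⟩
    obtain ⟨k, hk, rfl⟩ := List.mem_map.1 hb
    have hk' : k < c := List.mem_range.1 hk
    have h1 : ¬ (q + k < q) := by omega
    have h2 : q + k < q + c := by omega
    simp only [Function.comp, BadV_val, if_neg h1, if_pos h2]
  have e3 : (σ.map fun k => (false, q + c + k)).map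
      (fun o : Bool × ℕ => (o.1, BadV_val a c q g o.2)) = σ.map fun r => (false, g (fz a r)) := by
    rw [List.map_map]
    apply List.map_congr_left
    intro k hk
    have hk' : k < a + 1 := List.mem_range.1 (hσ.mem_iff.1 hk)
    have h1 : ¬ (q + c + k < q) := by omega
    have h2 : ¬ (q + c + k < q + c) := by omega
    have h3 : q + c + k < q + c + (a + 1) := by omega
    have h4 : q + c + k - (q + c) = k := by omega
    simp only [Function.comp, BadV_val, if_neg h1, if_neg h2, if_pos h3, h4]
  have e4 : BadV_val a c q g (q + (c + (a + 1))) = g 4 := by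
    have h1 : ¬ (q + (c + (a + 1)) < q) := by omega
    have h2 : ¬ (q + (c + (a + 1)) < q + c) := by omega
    have h3 : ¬ (q + (c + (a + 1)) < q + c + (a + 1)) := by omega
    simp only [BadV_val, if_neg h1, if_neg h2, if_neg h3]
  rw [wk, ew, hn, hc', hc, List.map_append, List.map_append, List.map_append, e1, e2, e3,
    List.map_append, List.map_append, List.map_replicate, List.map_map, List.map_singleton,
    List.map_singleton, e4]
  rfl

/-- If `i` is enumerated, at stage `s`, then `E_i` vanishes: with `m = y z = m x` and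
`q = (Nat.pair (Nat.pair a i) s + 1) ^ 2` we have `m x = m x ⋯ x` (`q` factors), so that `E_i` is the
value of the identity `t = q + 3` at `x₀ = y`, `x₁ = z`, the labels `0, …, q - 1` equal to `x`, the
next `(n + 1) ^ 2 - (a + 1)` labels equal to `l`, then `z_0, …, z_a`, and `b`. -/
theorem vanishes_EE {F : Type} [Field F] (ent : ℕ → ℕ → Bool) (a i s : ℕ)
    (h : ent (Nat.pair a i) s = true) :
    Vanishes F (fun t => poly F (fam ent t)) (rl F a) (EE F a i) := by
  intro A _ _ _ _ hA g hg
  have hn : (Nat.pair a i).unpair.1 = a := by rw [Nat.unpair_pair]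
  -- the relator
  have hr : (g 0 * g 1) * g 2 = g 0 * g 1 := by
    have h1 := hg _ (List.mem_singleton.2 rfl)
    have h2 : (g 0 * g 1) * g 2 - g 0 * g 1 = 0 := by
      simpa [Pool.Agent.W_59b51d_h18.Poly.eval, sub_eq_add_neg] using h1
    exact sub_eq_zero.1 h2
  -- the identity
  have h2 := (satisfies_iff ent).1 hA |>.2 ((Nat.pair (Nat.pair a i) s + 1) ^ 2 + 3) (by omega)
    (g 0) (g 1) (BadV_val a ((Nat.pair a i + 1) ^ 2 - (a + 1))
      ((Nat.pair (Nat.pair a i) s + 1) ^ 2) g)
  rw [BadV_idw ent _ s h, hn, List.map_map] at h2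
  rw [← h2]
  unfold EE Pool.Agent.W_59b51d_h18.Poly.eval
  rw [List.map_map]
  congr 1
  apply List.map_congr_left
  intro c hc
  have h3 := altP_perm (a + 1) c hc
  simp only [Function.comp]
  rw [BadV_word a i _ g c.2 h3, BadV_append,
    BadV_fix (rA F A) (true, g 2) (g 0 * g 1) (by rw [rA_true]; exact hr), lift_opw (F := F)]
  congr 2

end Pool.Agent.W_59b51d_c25
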