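import Pool.Agent.W_59b51d_c25.BadDefs
import Pool.Agent.W_59b51d_c25.BadV
import Pool.Agent.W_59b51d_c25.BadN
import Pool.Agent.W_59b51d_c25.BadC

/-!
# The unsolvable side
-/

namespace Pool.Agent.W_59b51d_c25

open Pool.Agent.W_59b51d_h18 (Poly code Multilinear)

/-- The unsolvable side. -/
theorem bad {F : Type} [Field F] [Primcodable F] (ent : ℕ → ℕ → Bool)
    (h : AllSolvable F (fun t => poly F (fam ent t))) (a : ℕ) :
    ∃ g : ℕ → Bool, Computable g ∧ ∀ i, g i = true ↔ ∃ s, ent (Nat.pair a i) s = true := by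
  obtain ⟨g, hg, hgs⟩ := h (a + 6) (rl F a)
  refine ⟨fun i => g ((EE F a i).map fun q => (q.1, code q.2)), hg.comp (computable_EE a),
    fun i => ?_⟩
  rw [hgs]
  constructor
  · intro h1
    by_contra h2
    push Not at h2
    exact not_vanishes_EE ent a i (fun s => by simpa using h2 s) h1
  · rintro ⟨s, hs⟩
    exact vanishes_EE ent a i s hs

end Pool.Agent.W_59b51d_c25
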