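import Pool.Agent.W_59b51d_c25.CU
import Pool.Agent.W_59b51d_c25.Alt

/-!
# The identities are computable
-/

namespace Pool.Agent.W_59b51d_c25

/-- The code of `opw m u`, from the code of `m`. -/
def opc (m : ℕ) (u : List (Bool × ℕ)) : ℕ :=
  u.foldl (fun m o => if o.1 then 2 * Nat.pair m (2 * o.2) + 1 else 2 * Nat.pair (2 * o.2) m + 1) m

theorem mcode_opw (m : FreeMagma ℕ) (u : List (Bool × ℕ)) :
    mcode (opw m u) = opc (mcode m) u := by
  induction u generalizing m with
  | nil => rfl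
  | cons o u ih =>
    have h := ih (if o.1 then m * FreeMagma.of o.2 else FreeMagma.of o.2 * m)
    have h1 : mcode (if o.1 then m * FreeMagma.of o.2 else FreeMagma.of o.2 * m) =
        if o.1 then 2 * Nat.pair (mcode m) (2 * o.2) + 1
          else 2 * Nat.pair (2 * o.2) (mcode m) + 1 := by
      cases o.1 <;> rfl
    rw [h1] at h
    exact h

theorem primrec_opc : Primrec₂ opc := by
  unfold opc
  refine Primrec.list_foldl (f := fun p : ℕ × List (Bool × ℕ) => p.2)
    (g := fun p : ℕ × List (Bool × ℕ) => p.1)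
    (h := fun (_ : ℕ × List (Bool × ℕ)) (q : ℕ × (Bool × ℕ)) =>
      if q.2.1 then 2 * Nat.pair q.1 (2 * q.2.2) + 1 else 2 * Nat.pair (2 * q.2.2) q.1 + 1)
    Primrec.snd Primrec.fst ?_
  have hm : Primrec fun p : (ℕ × List (Bool × ℕ)) × (ℕ × (Bool × ℕ)) => p.2.1 :=
    Primrec.fst.comp Primrec.snd
  have ho : Primrec fun p : (ℕ × List (Bool × ℕ)) × (ℕ × (Bool × ℕ)) => 2 * p.2.2.2 :=
    Primrec.nat_mul.comp (Primrec.const 2) (Primrec.snd.comp (Primrec.snd.comp Primrec.snd))
  have hc : PrimrecPred fun p : (ℕ × List (Bool × ℕ)) × (ℕ × (Bool × ℕ)) => p.2.2.1 = true :=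
    Primrec.eq.comp (Primrec.fst.comp (Primrec.snd.comp Primrec.snd)) (Primrec.const true)
  exact Primrec.ite hc
    (Primrec.succ.comp (Primrec.nat_mul.comp (Primrec.const 2) (Primrec₂.natPair.comp hm ho)))
    (Primrec.succ.comp (Primrec.nat_mul.comp (Primrec.const 2) (Primrec₂.natPair.comp ho hm)))

theorem primrec_w4 : Primrec w4 := by
  unfold w4
  have h1 : Primrec fun j : ℕ => (List.range j).map fun i => (false, i + 1) :=
    Primrec.list_map Primrec.list_range
      ((Primrec.const false).pair (Primrec.succ.comp Primrec.snd)).to₂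
  have h2 : Primrec fun j : ℕ => [(true, j + 1)] :=
    Primrec.list_cons.comp ((Primrec.const true).pair Primrec.succ) (Primrec.const [])
  exact Primrec.list_cons.comp (Primrec.const (true, 0)) (Primrec.list_append.comp h1 h2)

theorem primrec_wk : Primrec fun p : ℕ × ℕ × List ℕ => wk p.1 p.2.1 p.2.2 := by
  unfold wk
  have hn : Primrec fun p : ℕ × ℕ × List ℕ => p.1 := Primrec.fst
  have hq : Primrec fun p : ℕ × ℕ × List ℕ => p.2.1 := Primrec.fst.comp Primrec.snd
  have hs : Primrec fun p : ℕ × ℕ × List ℕ => p.2.2 := Primrec.snd.comp Primrec.snd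
  have hJ : Primrec fun p : ℕ × ℕ × List ℕ => (p.1 + 1) ^ 2 := by
    refine (Primrec.nat_mul.comp (Primrec.succ.comp hn) (Primrec.succ.comp hn)).of_eq ?_
    intro p
    rw [pow_two]
  have hd : Primrec fun p : ℕ × ℕ × List ℕ => (p.1 + 1) ^ 2 - (p.1.unpair.1 + 1) :=
    Primrec.nat_sub.comp hJ (Primrec.succ.comp (Primrec.fst.comp (Primrec.unpair.comp hn)))
  have h1 : Primrec fun p : ℕ × ℕ × List ℕ => (List.range p.2.1).map fun i => (true, i) :=
    Primrec.list_map (Primrec.list_range.comp hq)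
      ((Primrec.const true).pair Primrec.snd).to₂
  have h2 : Primrec fun p : ℕ × ℕ × List ℕ =>
      (List.range ((p.1 + 1) ^ 2 - (p.1.unpair.1 + 1))).map fun i => (false, p.2.1 + i) :=
    Primrec.list_map (Primrec.list_range.comp hd)
      ((Primrec.const false).pair (Primrec.nat_add.comp (hq.comp Primrec.fst) Primrec.snd)).to₂
  have h3 : Primrec fun p : ℕ × ℕ × List ℕ =>
      p.2.2.map fun i => (false, p.2.1 + ((p.1 + 1) ^ 2 - (p.1.unpair.1 + 1)) + i) :=
    Primrec.list_map hs
      ((Primrec.const false).pair (Primrec.nat_add.comp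
        ((Primrec.nat_add.comp hq hd).comp Primrec.fst) Primrec.snd)).to₂
  have h4 : Primrec fun p : ℕ × ℕ × List ℕ => [(true, p.2.1 + (p.1 + 1) ^ 2)] :=
    Primrec.list_cons.comp ((Primrec.const true).pair (Primrec.nat_add.comp hq hJ))
      (Primrec.const [])
  exact Primrec.list_append.comp h1
    (Primrec.list_append.comp h2 (Primrec.list_append.comp h3 h4))

/-- `idw` with the value of `ent` as an argument. -/
def FamComp_iw (t : ℕ) (b : Bool) : List (ℤ × List (Bool × ℕ)) :=
  if t = 0 then []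
  else if t = 1 then [(1, [(false, 0), (true, 1), (true, 2)])]
  else if t = 2 then [(1, [(false, 0), (true, 1), (false, 2)])]
  else if (t - 3).unpair.1 = 0 then
    (if 0 < t - 3 ∧ b = true then
      (altP (((t - 3).unpair.2 - 1).unpair.1.unpair.1 + 1)).map fun c =>
        (c.1, wk ((t - 3).unpair.2 - 1).unpair.1 (t - 3) c.2)
    else [])
  else [(1, w4 (t - 3))]

theorem FamComp_idw (ent : ℕ → ℕ → Bool) (t : ℕ) :
    idw ent t = FamComp_iw t (ent ((t - 3).unpair.2 - 1).unpair.1
      ((t - 3).unpair.2 - 1).unpair.2) := by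
  match t with
  | 0 => rfl
  | 1 => rfl
  | 2 => rfl
  | j + 3 =>
    have h0 : j + 3 ≠ 0 := by omega
    have h1 : j + 3 ≠ 1 := by omega
    have h2 : j + 3 ≠ 2 := by omega
    have h3 : j + 3 - 3 = j := by omega
    rw [FamComp_iw, if_neg h0, if_neg h1, if_neg h2, h3, idw]
    have h4 : (sp j = true) ↔ (j.unpair.1 = 0) := by
      rw [sp, decide_eq_true_eq]
    by_cases h : j.unpair.1 = 0
    · rw [if_pos (h4.2 h), if_pos h]
    · rw [if_neg (fun h' => h (h4.1 h')), if_neg h]

theorem FamComp_primrec_iw : Primrec fun p : ℕ × Bool => FamComp_iw p.1 p.2 := by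
  unfold FamComp_iw
  have ht : Primrec fun p : ℕ × Bool => p.1 := Primrec.fst
  have hj : Primrec fun p : ℕ × Bool => p.1 - 3 := Primrec.nat_sub.comp ht (Primrec.const 3)
  have hu : Primrec fun p : ℕ × Bool => (p.1 - 3).unpair.2 - 1 :=
    Primrec.nat_sub.comp (Primrec.snd.comp (Primrec.unpair.comp hj)) (Primrec.const 1)
  have hn : Primrec fun p : ℕ × Bool => ((p.1 - 3).unpair.2 - 1).unpair.1 :=
    Primrec.fst.comp (Primrec.unpair.comp hu)
  have ha : Primrec fun p : ℕ × Bool => altP (((p.1 - 3).unpair.2 - 1).unpair.1.unpair.1 + 1) :=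
    primrec_altP.comp (Primrec.succ.comp (Primrec.fst.comp (Primrec.unpair.comp hn)))
  have hm : Primrec fun p : ℕ × Bool =>
      (altP (((p.1 - 3).unpair.2 - 1).unpair.1.unpair.1 + 1)).map fun c =>
        (c.1, wk ((p.1 - 3).unpair.2 - 1).unpair.1 (p.1 - 3) c.2) := by
    refine Primrec.list_map ha ?_
    have hwk : Primrec fun r : (ℕ × Bool) × (ℤ × List ℕ) =>
        wk ((r.1.1 - 3).unpair.2 - 1).unpair.1 (r.1.1 - 3) r.2.2 :=
      primrec_wk.comp ((hn.comp Primrec.fst).pair
        ((hj.comp Primrec.fst).pair (Primrec.snd.comp Primrec.snd)))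
    exact ((Primrec.fst.comp Primrec.snd).pair hwk).to₂
  refine Primrec.ite (Primrec.eq.comp ht (Primrec.const 0)) (Primrec.const _) ?_
  refine Primrec.ite (Primrec.eq.comp ht (Primrec.const 1)) (Primrec.const _) ?_
  refine Primrec.ite (Primrec.eq.comp ht (Primrec.const 2)) (Primrec.const _) ?_
  refine Primrec.ite (Primrec.eq.comp (Primrec.fst.comp (Primrec.unpair.comp hj))
    (Primrec.const 0)) ?_ ?_
  · refine Primrec.ite (PrimrecPred.and (Primrec.nat_lt.comp (Primrec.const 0) hj)
      (Primrec.eq.comp Primrec.snd (Primrec.const true))) hm (Primrec.const [])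
  · exact Primrec.list_cons.comp ((Primrec.const (1 : ℤ)).pair (primrec_w4.comp hj))
      (Primrec.const [])

/-- `pcode (fam ent t)` with the value of `ent` as an argument. -/
def FamComp_g (t : ℕ) (b : Bool) : List (ℤ × ℕ) :=
  if t = 0 then
    [(1, mcode ((FreeMagma.of 0 * FreeMagma.of 1) * (FreeMagma.of 2 * FreeMagma.of 3)))]
  else
    (FamComp_iw t b).map fun q =>
      (q.1, opc (mcode (FreeMagma.of 0 * FreeMagma.of 1)) (q.2.map fun o => (o.1, o.2 + 2)))

theorem FamComp_primrec_g : Primrec fun p : ℕ × Bool => FamComp_g p.1 p.2 := by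
  unfold FamComp_g
  refine Primrec.ite (Primrec.eq.comp Primrec.fst (Primrec.const 0)) (Primrec.const _) ?_
  refine Primrec.list_map FamComp_primrec_iw ?_
  have h1 : Primrec fun r : (ℕ × Bool) × (ℤ × List (Bool × ℕ)) =>
      r.2.2.map fun o => (o.1, o.2 + 2) := by
    refine Primrec.list_map (Primrec.snd.comp Primrec.snd) ?_
    exact ((Primrec.fst.comp Primrec.snd).pair
      (Primrec.nat_add.comp (Primrec.snd.comp Primrec.snd) (Primrec.const 2))).to₂
  exact ((Primrec.fst.comp Primrec.snd).pair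
    (primrec_opc.comp (Primrec.const _) h1)).to₂

theorem FamComp_fam (ent : ℕ → ℕ → Bool) (t : ℕ) :
    pcode (fam ent t) = FamComp_g t (ent ((t - 3).unpair.2 - 1).unpair.1
      ((t - 3).unpair.2 - 1).unpair.2) := by
  unfold fam FamComp_g pcode
  by_cases h : t = 0
  · rw [if_pos h, if_pos h]
    rfl
  · rw [if_neg h, if_neg h, ← FamComp_idw, List.map_map]
    refine List.map_congr_left fun q _ => ?_
    simp only [Function.comp]
    rw [mcode_opw]

/-- Case distinction: `idw ent t` is computed from `t` and the one value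
`ent (j.unpair.2 - 1).unpair.1 (j.unpair.2 - 1).unpair.2`, `j = t - 3`. -/
theorem computable_fam {ent : ℕ → ℕ → ℕ → Bool}
    (h : Computable fun p : ℕ × ℕ × ℕ => ent p.1 p.2.1 p.2.2) :
    Computable₂ fun k t => pcode (fam (ent k) t) := by
  have hu : Primrec fun p : ℕ × ℕ => (p.2 - 3).unpair.2 - 1 :=
    Primrec.nat_sub.comp (Primrec.snd.comp (Primrec.unpair.comp
      (Primrec.nat_sub.comp Primrec.snd (Primrec.const 3)))) (Primrec.const 1)
  have hv : Primrec fun p : ℕ × ℕ => (p.1, ((p.2 - 3).unpair.2 - 1).unpair) :=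
    Primrec.fst.pair (Primrec.unpair.comp hu)
  have he : Computable fun p : ℕ × ℕ => ent p.1 ((p.2 - 3).unpair.2 - 1).unpair.1
      ((p.2 - 3).unpair.2 - 1).unpair.2 := h.comp hv.to_comp
  have hg : Computable fun p : ℕ × ℕ => FamComp_g p.2 (ent p.1 ((p.2 - 3).unpair.2 - 1).unpair.1
      ((p.2 - 3).unpair.2 - 1).unpair.2) :=
    FamComp_primrec_g.to_comp.comp (Computable.snd.pair he)
  exact hg.of_eq fun p => (FamComp_fam (ent p.1) p.2).symm

end Pool.Agent.W_59b51d_c25
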