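import Pool.Agent.W_59b51d_c25.EvFam
import Pool.Agent.W_59b51d_c25.SC
import Pool.Agent.W_59b51d_c25.FamComp

/-!
# The unsolvable side

Generators `y = 0`, `z = 1`, `x = 2`, `l = 3`, `b = 4`, `z_r = 5 + r` (`r = 0, …, a`), one relator
`(y z) x - y z`.
-/

namespace Pool.Agent.W_59b51d_c25

open Pool.Agent.W_59b51d_h18 (Poly code Multilinear)

/-- The generator `z_r`. -/
def fz (a r : ℕ) : Fin (a + 6) := ⟨min (5 + r) (a + 5), by omega⟩

/-- The word `L_l^(J-a-1) L_(z_σ) R_b`, `J = (n + 1) ^ 2`, `n = Nat.pair a i`. -/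
def ew (a i : ℕ) (σ : List ℕ) : List (Bool × Fin (a + 6)) :=
  List.replicate ((Nat.pair a i + 1) ^ 2 - (a + 1)) (false, 3) ++
    ((σ.map fun r => (false, fz a r)) ++ [(true, 4)])

/-- The element `E_i`. -/
def EE (F : Type) [Field F] (a i : ℕ) : Poly F (Fin (a + 6)) :=
  (altP (a + 1)).map fun c => (((c.1 : ℤ) : F),
    opw ((FreeMagma.of 0 * FreeMagma.of 1) * FreeMagma.of 2) (ew a i c.2))

/-- The relators. -/
def rl (F : Type) [Field F] (a : ℕ) : List (Poly F (Fin (a + 6))) :=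
  [[(1, (FreeMagma.of 0 * FreeMagma.of 1) * FreeMagma.of 2),
    (-1, FreeMagma.of 0 * FreeMagma.of 1)]]

/-- The basis of the model. -/
inductive BN : Type
  | g (i : ℕ)
  | m (t : ℕ)
  | e
  deriving DecidableEq

/-- The products of the model; `J = q₀ + a + 1`. -/
def bmul (q₀ J : ℕ) : BN → BN → Option BN
  | .g i, .g j => if i = 0 ∧ j = 1 then some (.m 0) else none
  | .m t, .g i =>
    if t = 0 ∧ i = 2 then some (.m 0) else if t = J ∧ i = 4 then some .e else none
  | .g i, .m t =>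
    if t < J ∧ ((t < q₀ ∧ i = 3) ∨ (q₀ ≤ t ∧ i = t - q₀ + 5)) then some (.m (t + 1)) else none
  | _, _ => none

/-- The structure constants of the model. -/
noncomputable def bmF (F : Type) [Field F] (q₀ J : ℕ) (p q : BN) : BN →₀ F :=
  match bmul q₀ J p q with
  | none => 0
  | some r => Finsupp.single r 1

end Pool.Agent.W_59b51d_c25
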