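import Pool.Agent.W_59b51d_c25.Defs
import Pool.Agent.W_59b51d_h18.SComp1

/-!
# Utilities for computable functions on lists
-/

namespace Pool.Agent.W_59b51d_c25

open Pool.Agent.W_59b51d_h18 (SComp1_foldl)

variable {α β γ σ : Type} [Primcodable α] [Primcodable β] [Primcodable γ] [Primcodable σ]

theorem CU_foldl_flatMap {β σ : Type} (l : List β) (g : β → List σ) (s : List σ) :
    l.foldl (fun s b => s ++ g b) s = s ++ l.flatMap g := by
  induction l generalizing s with
  | nil => simp
  | cons b l ih => rw [List.foldl_cons, ih, List.flatMap_cons, List.append_assoc]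

theorem CU_foldl_any {β : Type} (l : List β) (g : β → Bool) (s : Bool) :
    l.foldl (fun s b => s || g b) s = (s || l.any g) := by
  induction l generalizing s with
  | nil => simp
  | cons b l ih => rw [List.foldl_cons, ih, List.any_cons, Bool.or_assoc]

theorem CU_foldl_all {β : Type} (l : List β) (g : β → Bool) (s : Bool) :
    l.foldl (fun s b => s && g b) s = (s && l.all g) := by
  induction l generalizing s with
  | nil => simp
  | cons b l ih => rw [List.foldl_cons, ih, List.all_cons, Bool.and_assoc]

/-- Proof: `flatMap` is a `foldl` with `++` (`SComp1_foldl`, `Computable.list_append`). -/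
theorem computable_flatMap {f : α → List β} {g : α → β → List σ} (hf : Computable f)
    (hg : Computable₂ g) : Computable fun a => (f a).flatMap (g a) := by
  have h1 : Computable₂ fun (a : α) (p : List σ × β) => p.1 ++ g a p.2 :=
    (Computable.list_append.comp (Computable.fst.comp Computable.snd)
      (hg.comp Computable.fst (Computable.snd.comp Computable.snd))).to₂
  refine (SComp1_foldl hf (Computable.const ([] : List σ)) h1).of_eq fun a => ?_
  show (f a).foldl (fun s b => s ++ g a b) [] = (f a).flatMap (g a)
  rw [CU_foldl_flatMap, List.nil_append]

theorem computable_map {f : α → List β} {g : α → β → σ} (hf : Computable f)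
    (hg : Computable₂ g) : Computable fun a => (f a).map (g a) := by
  have h1 : Computable₂ fun (a : α) (b : β) => [g a b] :=
    (Computable.list_cons.comp hg (Computable.const ([] : List σ))).to₂
  refine (computable_flatMap hf h1).of_eq fun a => ?_
  induction f a with
  | nil => rfl
  | cons b l ih => rw [List.flatMap_cons, ih, List.map_cons]; rfl

theorem computable_filterMap {f : α → List β} {g : α → β → Option σ} (hf : Computable f)
    (hg : Computable₂ g) : Computable fun a => (f a).filterMap (g a) := by
  have h1 : Computable₂ fun (a : α) (b : β) =>
      Option.casesOn (motive := fun _ => List σ) (g a b) [] (fun c => [c]) := by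
    refine Computable.option_casesOn (o := fun q : α × β => g q.1 q.2)
      (f := fun _ : α × β => ([] : List σ)) (g := fun (_ : α × β) (c : σ) => [c]) ?_ ?_ ?_
    · exact hg
    · exact Computable.const _
    · exact (Computable.list_cons.comp Computable.snd (Computable.const ([] : List σ))).to₂
  refine (computable_flatMap hf h1).of_eq fun a => ?_
  induction f a with
  | nil => rfl
  | cons b l ih =>
    rw [List.flatMap_cons, ih]
    cases hb : g a b with
    | none => rw [List.filterMap_cons_none hb]; rfl
    | some c => rw [List.filterMap_cons_some hb]; rfl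

theorem computable_filter {f : α → List β} {g : α → β → Bool} (hf : Computable f)
    (hg : Computable₂ g) : Computable fun a => (f a).filter (g a) := by
  have h1 : Computable₂ fun (a : α) (b : β) => cond (g a b) (some b) none :=
    (Computable.cond hg (Computable.option_some.comp Computable.snd)
      (Computable.const (none : Option β))).to₂
  refine (computable_filterMap hf h1).of_eq fun a => ?_
  induction f a with
  | nil => rfl
  | cons b l ih =>
    cases hb : g a b with
    | false =>
      rw [List.filterMap_cons_none (by rw [hb]; rfl), ih,
        List.filter_cons_of_neg (by rw [hb]; exact Bool.false_ne_true)]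
    | true =>
      rw [List.filterMap_cons_some (b := b) (by rw [hb]; rfl), ih, List.filter_cons_of_pos hb]

theorem computable_any {f : α → List β} {g : α → β → Bool} (hf : Computable f)
    (hg : Computable₂ g) : Computable fun a => (f a).any (g a) := by
  have h1 : Computable₂ fun (a : α) (p : Bool × β) => (p.1 || g a p.2) :=
    (Primrec.or.to_comp.comp (Computable.fst.comp Computable.snd)
      (hg.comp Computable.fst (Computable.snd.comp Computable.snd))).to₂
  refine (SComp1_foldl hf (Computable.const false) h1).of_eq fun a => ?_
  show (f a).foldl (fun s b => (s || g a b)) false = (f a).any (g a)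
  rw [CU_foldl_any, Bool.false_or]

theorem computable_all {f : α → List β} {g : α → β → Bool} (hf : Computable f)
    (hg : Computable₂ g) : Computable fun a => (f a).all (g a) := by
  have h1 : Computable₂ fun (a : α) (p : Bool × β) => (p.1 && g a p.2) :=
    (Primrec.and.to_comp.comp (Computable.fst.comp Computable.snd)
      (hg.comp Computable.fst (Computable.snd.comp Computable.snd))).to₂
  refine (SComp1_foldl hf (Computable.const true) h1).of_eq fun a => ?_
  show (f a).foldl (fun s b => (s && g a b)) true = (f a).all (g a)
  rw [CU_foldl_all, Bool.true_and]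

/-- The conditional with a computable Boolean condition. -/
theorem computable_ite {c : α → Bool} {f g : α → σ} (hc : Computable c) (hf : Computable f)
    (hg : Computable g) : Computable fun a => if c a = true then f a else g a := by
  refine (Computable.cond hc hf hg).of_eq fun a => ?_
  cases h : c a
  · simp
  · simp

/-- Recursion over the codes: `G a n` is computed from the list of the previous values. See
`Computable.nat_strong_rec` in Mathlib. -/
theorem computable_strong {f : α → ℕ → σ} {g : α → List σ → σ} (hg : Computable₂ g)
    (h : ∀ a n, f a n = g a ((List.range n).map (f a))) : Computable₂ f := by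
  refine Computable.nat_strong_rec f (g := fun a l => some (g a l))
    (Computable.option_some.comp hg).to₂ fun a n => ?_
  rw [h a n]

/-- Search which always terminates. -/
theorem computable_find {p : α → ℕ → Bool} (hp : Computable₂ p) (h : ∀ a, ∃ n, p a n = true) :
    ∃ f : α → ℕ, Computable f ∧ ∀ a, p a (f a) = true := by
  refine ⟨fun a => Nat.find (h a), ?_, fun a => Nat.find_spec (h a)⟩
  have h2 := Partrec.rfind hp.partrec₂
  refine h2.of_eq fun a => Part.eq_some_iff.2 (Nat.mem_rfind.2 ?_)
  refine ⟨Part.mem_some_iff.2 (Nat.find_spec (h a)).symm, fun {m} hm => Part.mem_some_iff.2 ?_⟩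
  have h3 := Nat.find_min (h a) hm
  cases h4 : p a m with
  | false => rfl
  | true => exact absurd h4 h3

theorem computable_sp : Computable sp := by
  refine (Primrec.beq.comp (Primrec.fst.comp Primrec.unpair) (Primrec.const 0)).to_comp.of_eq
    fun j => ?_
  unfold sp
  rw [Bool.eq_iff_iff, beq_iff_eq, decide_eq_true_iff]

/-- `kil` is computable, uniformly in a parameter. -/
theorem computable_kil {ent : α → ℕ → ℕ → Bool}
    (h : Computable fun p : α × ℕ × ℕ => ent p.1 p.2.1 p.2.2) :
    Computable fun p : α × ℕ × ℕ => kil (ent p.1) p.2.1 p.2.2 := by
  have hn : Computable fun p : α × ℕ × ℕ => p.2.1 := Computable.fst.comp Computable.snd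
  have hq : Computable fun p : α × ℕ × ℕ => p.2.2 := Computable.snd.comp Computable.snd
  have h1 : Computable fun p : α × ℕ × ℕ => (p.2.2.unpair.2 - 1).unpair :=
    Computable.unpair.comp (Primrec.nat_sub.to_comp.comp
      (Computable.snd.comp (Computable.unpair.comp hq)) (Computable.const 1))
  have h2 : Computable fun p : α × ℕ × ℕ => sp p.2.2 := computable_sp.comp hq
  have h3 : Computable fun p : α × ℕ × ℕ => decide (0 < p.2.2) :=
    (Primrec.nat_lt.decide.to_comp).comp (Computable.const 0) hq
  have h4 : Computable fun p : α × ℕ × ℕ => decide ((p.2.2.unpair.2 - 1).unpair.1 = p.2.1) :=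
    (Primrec.eq.decide.to_comp).comp (Computable.fst.comp h1) hn
  have h5 : Computable fun p : α × ℕ × ℕ => ent p.1 p.2.1 (p.2.2.unpair.2 - 1).unpair.2 :=
    h.comp (Computable.fst.pair (hn.pair (Computable.snd.comp h1)))
  exact (Primrec.and.to_comp.comp h2 (Primrec.and.to_comp.comp h3
    (Primrec.and.to_comp.comp h4 h5)))

end Pool.Agent.W_59b51d_c25
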