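import Pool.Agent.W_59b51d_c25.MMDefs

/-!
# The submodule generated by `G`, by types of words
-/

namespace Pool.Agent.W_59b51d_c25

variable (F : Type) [Field F] {S D κ : Type} [AddCommGroup D] [Module F D]

/-- Where the products of the `G k` with the words of length at least `2` are. -/
def TT (G : κ → MM S D) : Submodule F (MM S D) where
  carrier := {z | z none [] ∈ rsw F (g2 F G) ∧
    z none - Finsupp.single [] (z none []) ∈ rsw F (gq F G) ⊔ vn F (g1 F G) ∧
    ∀ e : S, z (some e) ∈ rsw F (gq F G) ⊔ vn F (g1 F G)}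
  zero_mem' := by
    refine ⟨zero_mem _, ?_, fun _ => zero_mem _⟩
    simp
  add_mem' := by
    rintro f g ⟨h1, h2, h3⟩ ⟨h4, h5, h6⟩
    refine ⟨add_mem h1 h4, ?_, fun e => add_mem (h3 e) (h6 e)⟩
    have h7 := add_mem h2 h5
    rw [Finsupp.add_apply, Finsupp.add_apply, Finsupp.single_add]
    convert h7 using 1
    abel
  smul_mem' := by
    rintro c f ⟨h1, h2, h3⟩
    refine ⟨Submodule.smul_mem _ c h1, ?_, fun e => Submodule.smul_mem _ c (h3 e)⟩
    have h7 := Submodule.smul_mem _ c h2
    rw [Finsupp.smul_apply, Finsupp.smul_apply, ← Finsupp.smul_single, ← smul_sub]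
    exact h7

theorem Dec_rsw_appw {X E κ' : Type} [AddCommGroup E] [Module F E] (γ : κ' → List X →₀ E)
    {f : List X →₀ E} (h : f ∈ rsw F γ) (u : List X) : appw F u f ∈ rsw F γ := by
  have h2 : rsw F γ ≤ (rsw F γ).comap (appw F u) := by
    rw [rsw, Submodule.span_le]
    rintro _ ⟨k, v, rfl⟩
    rw [SetLike.mem_coe, Submodule.mem_comap, appw_appw]
    exact Submodule.subset_span ⟨k, v ++ u, rfl⟩
  exact h2 h

theorem Dec_mem_rsw {X E κ' : Type} [AddCommGroup E] [Module F E] (γ : κ' → List X →₀ E)
    (k : κ') : γ k ∈ rsw F γ :=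
  Submodule.subset_span ⟨k, [], (appw_nil (F := F) (γ k)).symm⟩

theorem Dec_appw_nil {X E : Type} [AddCommGroup E] [Module F E] (s : X) (f : List X →₀ E) :
    appw F [s] f [] = 0 := by
  rw [appw, Finsupp.lmapDomain_apply]
  refine Finsupp.mapDomain_of_notMem_range _ _ ?_
  rintro ⟨w, hw⟩
  simp at hw

theorem Dec_appw_apply {X E : Type} [AddCommGroup E] [Module F E] (s : X) (f : List X →₀ E)
    (N : Submodule F E) (hf : ∀ w, f w ∈ N) (w : List X) : appw F [s] f w ∈ N := by
  by_cases h : ∃ w', w' ++ [s] = w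
  · obtain ⟨w', rfl⟩ := h
    rw [appw_apply_append]
    exact hf w'
  · rw [appw, Finsupp.lmapDomain_apply, Finsupp.mapDomain_of_notMem_range]
    · exact N.zero_mem
    · rintro ⟨w', hw'⟩
      exact h ⟨w', hw'⟩

theorem Dec_vn_appw {κ' : Type} (γ : κ' → PP S D) {f : QQ S D} (hf : f ∈ vn F γ) (s : S) :
    appw F [s] f ∈ vn F γ :=
  ⟨Dec_appw_nil F s f, Dec_appw_apply F s f (rsw F γ) hf.2⟩

theorem Dec_vn_single {κ' : Type} (γ : κ' → PP S D) {x : PP S D} (hx : x ∈ rsw F γ) (s : S) :
    (Finsupp.single [s] x : QQ S D) ∈ vn F γ := by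
  classical
  refine ⟨?_, fun w => ?_⟩
  · rw [Finsupp.single_apply, if_neg (by simp)]
  · rw [Finsupp.single_apply]
    split_ifs
    · exact hx
    · exact zero_mem _

theorem Dec_g2_le (G : κ → MM S D) : rsw F (g2 F G) ≤ rsw F (g1 F G) := by
  rw [rsw, Submodule.span_le]
  rintro _ ⟨⟨k, x, y⟩, v, rfl⟩
  refine Dec_rsw_appw F _ ?_ v
  have h : g2 F G (k, x, y) = appw F [y] (g1 F G (k, x)) := by
    rw [g2, g1, appw_appw]
    rfl
  rw [h]
  exact Dec_rsw_appw F _ (Dec_mem_rsw F _ _) _

/-- The two parts of the component at `none` behave well. -/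
theorem Dec_step (G : κ → MM S D) {z : MM S D}
    (h1 : ∀ s : S, appw F [s] (z none []) ∈ rsw F (g2 F G)) (h2 : z none [] ∈ rsw F (g1 F G))
    (h3 : z none - Finsupp.single [] (z none []) ∈ rsw F (gq F G) ⊔ vn F (g1 F G))
    (o : Bool × S) : act F o z ∈ TT F G := by
  classical
  obtain ⟨b, s⟩ := o
  cases b
  · rw [act_false]
    have h4 : appw F [s] (z none) ∈ rsw F (gq F G) ⊔ vn F (g1 F G) := by
      have h5 : z none = (z none - Finsupp.single [] (z none [])) +
          Finsupp.single [] (z none []) := by rw [sub_add_cancel]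
      rw [h5, map_add]
      refine add_mem ?_ ?_
      · have h6 : rsw F (gq F G) ⊔ vn F (g1 F G) ≤
            (rsw F (gq F G) ⊔ vn F (g1 F G)).comap (appw F [s]) := by
          refine sup_le (fun f hf => ?_) (fun f hf => ?_)
          · exact Submodule.mem_sup_left (Dec_rsw_appw F _ hf _)
          · exact Submodule.mem_sup_right (Dec_vn_appw F _ hf _)
        exact h6 h3
      · rw [appw_single]
        exact Submodule.mem_sup_right (Dec_vn_single F _ h2 s)
    refine ⟨?_, ?_, fun e => ?_⟩
    · rw [Finsupp.single_eq_same, Dec_appw_nil]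
      exact zero_mem _
    · rw [Finsupp.single_eq_same, Dec_appw_nil, Finsupp.single_zero, sub_zero]
      exact h4
    · rw [Finsupp.single_apply, if_neg (by simp)]
      exact zero_mem _
  · rw [act_true]
    refine ⟨?_, ?_, fun e => ?_⟩
    · rw [Finsupp.add_apply, Finsupp.single_eq_same, Finsupp.single_apply (a := some s),
        if_neg (by simp), add_zero, Finsupp.single_eq_same]
      exact h1 s
    · rw [Finsupp.add_apply, Finsupp.single_eq_same, Finsupp.single_apply (a := some s),
        if_neg (by simp), add_zero, Finsupp.single_eq_same, sub_self]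
      exact zero_mem _
    · rw [Finsupp.add_apply, Finsupp.single_apply, if_neg (by simp), zero_add,
        Finsupp.single_apply]
      split_ifs
      · exact h3
      · exact zero_mem _

theorem Dec_closed (G : κ → MM S D) {z : MM S D} (hz : z ∈ TT F G) (o : Bool × S) :
    act F o z ∈ TT F G :=
  Dec_step F G (fun s => Dec_rsw_appw F _ hz.1 [s]) (Dec_g2_le F G hz.1) hz.2.1 o

theorem Dec_actw (G : κ → MM S D) (u : List (Bool × S)) :
    ∀ z : MM S D, z ∈ TT F G → actw F u z ∈ TT F G := by
  induction u with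
  | nil => intro z hz; exact hz
  | cons o u ih =>
    intro z hz
    exact ih _ (Dec_closed F G hz o)

theorem Dec_two (G : κ → MM S D) (k : κ) (o p : Bool × S) :
    act F p (act F o (G k)) ∈ TT F G := by
  classical
  obtain ⟨b, a⟩ := o
  cases b
  · have h0 : act F (false, a) (G k) none = gq F G (k, a) := by
      rw [act_false, Finsupp.single_eq_same]
      rfl
    have h00 : gq F G (k, a) [] = 0 := Dec_appw_nil F a _
    refine Dec_step F G (fun s => ?_) ?_ ?_ p
    · rw [h0, h00, map_zero]
      exact zero_mem _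
    · rw [h0, h00]
      exact zero_mem _
    · rw [h0, h00, Finsupp.single_zero, sub_zero]
      exact Submodule.mem_sup_left (Dec_mem_rsw F _ _)
  · have h0 : act F (true, a) (G k) none = Finsupp.single [] (g1 F G (k, a)) := by
      rw [act_true, Finsupp.add_apply, Finsupp.single_eq_same, Finsupp.single_apply (a := some a),
        if_neg (by simp), add_zero]
      rfl
    refine Dec_step F G (fun s => ?_) ?_ ?_ p
    · rw [h0, Finsupp.single_eq_same]
      have h : appw F [s] (g1 F G (k, a)) = g2 F G (k, a, s) := by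
        rw [g2, g1, appw_appw]
        rfl
      rw [h]
      exact Dec_mem_rsw F _ _
    · rw [h0, Finsupp.single_eq_same]
      exact Dec_mem_rsw F _ _
    · rw [h0, Finsupp.single_eq_same, sub_self]
      exact zero_mem _

/-- Products with words of length at least `2`.

Proof. Let `g = G k`. A word `u` over `R`, `L` is of one of the forms `β`, `β λ`, `β λ b`,
`β λ b v` with `β` a word of letters `(true, ·)`, `λ` a non empty word of letters `(false, ·)`,
`b = (true, e)`, `v` non empty (or `u = β`). By `act_true`, `act_false` (the components at `some e`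
are always lost, and after an `L` the value at `none` is `0` at `[]`):
* `u = β`, of length `≥ 2`: `single none (single [] (appw β (g none [])))`, in the `g2`-part;
* `u = λ = (false, a) :: λ'`: `single none (appw λ' (gq (k, a)))`, and `gq (k, a) [] = 0`;
* `u = β λ`, `β` and `λ` non empty: `single none (single λ (appw β (g none [])))`, with
  `appw β (g none []) ∈ rsw g1`;
* `u = λ b`: `single (some e) (appw λ' (gq (k, a)))`;
* `u = β λ b`: `single (some e) (single λ (appw β (g none [])))`;
* `u = β λ b v`: `0`. -/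
theorem dec (G : κ → MM S D) (k : κ) (u : List (Bool × S)) (hu : 2 ≤ u.length) :
    actw F u (G k) ∈ TT F G := by
  match u, hu with
  | o :: p :: v, _ => exact Dec_actw F G v _ (Dec_two F G k o p)

theorem Clw_le (G : κ → MM S D) : Clw F G ≤ Cl F G 1 ⊔ TT F G := by
  rw [Clw, Submodule.span_le]
  rintro _ ⟨k, u, rfl⟩
  by_cases hu : u.length ≤ 1
  · exact Submodule.mem_sup_left (Submodule.subset_span ⟨k, u, hu, rfl⟩)
  · exact Submodule.mem_sup_right (dec F G k u (by omega))

end Pool.Agent.W_59b51d_c25
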