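import Pool.Agent.W_59b51d_h18.Defs

/-!
# Definitions (Theorem C: the class of varieties is exactly `Π⁰₄`-complete)

Conventions: an operator word is a list of pairs `(o, x)`; `(true, x)` is right multiplication
`m ↦ m x` (`R_x`), `(false, x)` is left multiplication `m ↦ x m` (`L_x`); a word is applied from
left to right.
-/

namespace Pool.Agent.W_59b51d_c25

open Pool.Agent.W_59b51d_h18 (Poly code Multilinear vars)

/-- The algebra `A` satisfies the identities `f t = 0`, `t = 0, 1, 2, …`. -/
def Satisfies {F : Type} [Field F] (A : Type) [NonUnitalNonAssocRing A] [Module F A]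
    (f : ℕ → Poly F ℕ) : Prop :=
  ∀ (t : ℕ) (v : ℕ → A), (f t).eval v = 0

/-- The polynomial `w` is `0` in the algebra which is presented by the generators `X` and the
relators `r` in the variety of the `F`-algebras with the identities `f t = 0`: it vanishes at every
family of elements, satisfying the relators, of every algebra of the variety. -/
def Vanishes (F : Type) [Field F] (f : ℕ → Poly F ℕ) {X : Type} (r : List (Poly F X))
    (w : Poly F X) : Prop :=
  ∀ (A : Type) [NonUnitalNonAssocRing A] [Module F A] [IsScalarTower F A A]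
    [SMulCommClass F A A], Satisfies A f → ∀ a : X → A, (∀ p ∈ r, p.eval a = 0) → w.eval a = 0

/-- The algebra presented by the generators `0, …, n - 1` and the relators `r` in the variety given
by the identities `f t = 0` has solvable word problem. -/
def Solvable (F : Type) [Field F] [Primcodable F] (f : ℕ → Poly F ℕ) {n : ℕ}
    (r : List (Poly F (Fin n))) : Prop :=
  ∃ g : List (F × ℕ) → Bool, Computable g ∧
    ∀ w : Poly F (Fin n), g (w.map fun q => (q.1, code q.2)) = true ↔ Vanishes F f r w

/-- Every algebra finitely presented in the variety given by the identities `f t = 0` has solvable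
word problem. -/
def AllSolvable (F : Type) [Field F] [Primcodable F] (f : ℕ → Poly F ℕ) : Prop :=
  ∀ (n : ℕ) (r : List (Poly F (Fin n))), Solvable F f r

/-- The code of a monomial in the variables `0, 1, 2, …`. -/
def mcode : FreeMagma ℕ → ℕ
  | .of i => 2 * i
  | .mul s t => 2 * Nat.pair (mcode s) (mcode t) + 1

/-- The code of a polynomial in the variables `0, 1, 2, …`: the list of its coded terms. -/
def pcode {K : Type} (f : List (K × FreeMagma ℕ)) : List (K × ℕ) :=
  f.map fun q => (q.1, mcode q.2)

/-- The polynomial with integer coefficients as a polynomial over `F`. -/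
def poly (F : Type) [Field F] (f : List (ℤ × FreeMagma ℕ)) : Poly F ℕ :=
  f.map fun q => ((q.1 : F), q.2)

/-- The number `j` is a square (`Nat.pair 0 b = b * b`). -/
def sp (j : ℕ) : Bool := decide (j.unpair.1 = 0)

/-- The signed insertions of `x` into a list. -/
def ins {α : Type} (x : α) : List α → List (ℤ × List α)
  | [] => [(1, [x])]
  | y :: l => (1, x :: y :: l) :: (ins x l).map fun q => (-q.1, y :: q.2)

/-- The signed permutations of `0, …, a - 1`. -/
def altP : ℕ → List (ℤ × List ℕ)
  | 0 => [(1, [])]
  | a + 1 => (altP a).flatMap fun p => (ins a p.2).map fun q => (p.1 * q.1, q.2)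

/-- `q = (u + 1) ^ 2` where `u = Nat.pair n s` and `ent n s` (`n` is enumerated at stage `s`). -/
def kil (ent : ℕ → ℕ → Bool) (n q : ℕ) : Bool :=
  sp q && (decide (0 < q) && (decide ((q.unpair.2 - 1).unpair.1 = n) &&
    ent n (q.unpair.2 - 1).unpair.2))

/-- The operator word applied to a monomial. -/
def opw {X : Type} (m : FreeMagma X) (u : List (Bool × X)) : FreeMagma X :=
  u.foldl (fun m o => if o.1 then m * FreeMagma.of o.2 else FreeMagma.of o.2 * m) m

/-- The word `R_0 L_1 … L_j R_(j+1)`. -/
def w4 (j : ℕ) : List (Bool × ℕ) :=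
  (true, 0) :: (((List.range j).map fun i => (false, i + 1)) ++ [(true, j + 1)])

/-- The word `R^q L^(J-a-1) L_σ R`, where `J = (n + 1) ^ 2`, `a = n.unpair.1` and `σ` is a
permutation of `0, …, a`; the labels are `0, …, q + J`, in this order if `σ` is the identity. -/
def wk (n q : ℕ) (σ : List ℕ) : List (Bool × ℕ) :=
  ((List.range q).map fun i => (true, i)) ++
    (((List.range ((n + 1) ^ 2 - (n.unpair.1 + 1))).map fun i => (false, q + i)) ++
      ((σ.map fun i => (false, q + ((n + 1) ^ 2 - (n.unpair.1 + 1)) + i)) ++
        [(true, q + (n + 1) ^ 2)]))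

/-- The identities, as combinations of operator words; they are imposed on all products. -/
def idw (ent : ℕ → ℕ → Bool) : ℕ → List (ℤ × List (Bool × ℕ))
  | 0 => []
  | 1 => [(1, [(false, 0), (true, 1), (true, 2)])]
  | 2 => [(1, [(false, 0), (true, 1), (false, 2)])]
  | j + 3 =>
    if sp j then
      (if 0 < j ∧ ent (j.unpair.2 - 1).unpair.1 (j.unpair.2 - 1).unpair.2 = true then
        (altP ((j.unpair.2 - 1).unpair.1.unpair.1 + 1)).map fun c =>
          (c.1, wk (j.unpair.2 - 1).unpair.1 j c.2)
      else [])
    else [(1, w4 j)]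

/-- The identities, as nonassociative polynomials. -/
def fam (ent : ℕ → ℕ → Bool) (t : ℕ) : List (ℤ × FreeMagma ℕ) :=
  if t = 0 then
    [(1, (FreeMagma.of 0 * FreeMagma.of 1) * (FreeMagma.of 2 * FreeMagma.of 3))]
  else
    (idw ent t).map fun q =>
      (q.1, opw (FreeMagma.of 0 * FreeMagma.of 1) (q.2.map fun o => (o.1, o.2 + 2)))

end Pool.Agent.W_59b51d_c25
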