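import Pool.Agent.W_59b51d_c25.Defs
import Pool.Agent.W_59b51d_c25.SC

/-!
# Evaluation of coded polynomials in algebras with given structure constants
-/

namespace Pool.Agent.W_59b51d_c25

open Pool.Agent.W_59b51d_h18 (Poly code)

/-- The monomial with a given code; `mcode` is a bijection. -/
def unc (m : ℕ) : FreeMagma ℕ :=
  if h : m % 2 = 0 then .of (m / 2)
  else .mul (unc (m / 2).unpair.1) (unc (m / 2).unpair.2)
termination_by m
decreasing_by
  · have := Nat.unpair_left_le (m / 2); omega
  · have := Nat.unpair_right_le (m / 2); omega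

theorem mcode_unc (m : ℕ) : mcode (unc m) = m := by
  induction m using Nat.strong_induction_on with
  | _ m ih =>
    rw [unc]
    split_ifs with h
    · show 2 * (m / 2) = m
      omega
    · have h1 := Nat.unpair_left_le (m / 2)
      have h2 := Nat.unpair_right_le (m / 2)
      show 2 * Nat.pair (mcode (unc (m / 2).unpair.1)) (mcode (unc (m / 2).unpair.2)) + 1 = m
      rw [ih _ (by omega), ih _ (by omega), Nat.pair_unpair]
      omega

theorem Ev_unc_even (i : ℕ) : unc (2 * i) = FreeMagma.of i := by
  rw [unc, dif_pos (by omega), Nat.mul_div_cancel_left i (by omega)]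

theorem Ev_unc_odd (p q : ℕ) : unc (2 * Nat.pair p q + 1) = unc p * unc q := by
  rw [unc, dif_neg (by omega)]
  have h : (2 * Nat.pair p q + 1) / 2 = Nat.pair p q := by omega
  rw [h, Nat.unpair_pair]
  rfl

theorem unc_mcode (s : FreeMagma ℕ) : unc (mcode s) = s := by
  induction s using FreeMagma.recOnMul with
  | ih1 i => exact Ev_unc_even i
  | ih2 s t ihs iht =>
    show unc (2 * Nat.pair (mcode s) (mcode t) + 1) = s * t
    rw [Ev_unc_odd, ihs, iht]

variable {F β : Type} [Field F]

/-- The product of two combinations, from the products of the basis elements. -/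
def mulB (mul : β → β → List (F × β)) (L L' : List (F × β)) : List (F × β) :=
  L.flatMap fun q => L'.flatMap fun q' => (mul q.2 q'.2).map fun p => (q.1 * q'.1 * p.1, p.2)

/-- The value of a coded monomial. -/
def evM (mul : β → β → List (F × β)) (x : ℕ → List (F × β)) (m : ℕ) : List (F × β) :=
  if h : m % 2 = 0 then x (m / 2)
  else mulB mul (evM mul x (m / 2).unpair.1) (evM mul x (m / 2).unpair.2)
termination_by m
decreasing_by
  · have := Nat.unpair_left_le (m / 2); omega
  · have := Nat.unpair_right_le (m / 2); omega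

/-- The value of a coded polynomial. -/
def evP (mul : β → β → List (F × β)) (x : ℕ → List (F × β)) (P : List (F × ℕ)) :
    List (F × β) :=
  P.flatMap fun q => (evM mul x q.2).map fun p => (q.1 * p.1, p.2)

variable {A : Type} [NonUnitalNonAssocRing A] [Module F A] [IsScalarTower F A A]
  [SMulCommClass F A A]

/-- Bilinearity. -/
theorem sem_mulB (φ : (β →₀ F) →ₗ[F] A) (mul : β → β → List (F × β))
    (hφ : ∀ p q, φ (Finsupp.single p 1) * φ (Finsupp.single q 1) = φ (vecB (mul p q)))
    (L L' : List (F × β)) : φ (vecB (mulB mul L L')) = φ (vecB L) * φ (vecB L') := by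
  have h0 : ∀ (b : β) (c : F), Finsupp.single b c = c • Finsupp.single b (1 : F) := by
    intro b c
    rw [Finsupp.smul_single, smul_eq_mul, mul_one]
  have h1 : ∀ (q : F × β) (L' : List (F × β)),
      φ (vecB (L'.flatMap fun q' => (mul q.2 q'.2).map fun p => (q.1 * q'.1 * p.1, p.2))) =
        φ (Finsupp.single q.2 q.1) * φ (vecB L') := by
    intro q L'
    induction L' with
    | nil => rw [List.flatMap_nil, vecB_nil, map_zero, mul_zero]
    | cons q' L' ih =>
      rw [List.flatMap_cons, vecB_append, vecB_smul, map_add, ih, vecB_cons, map_add, mul_add,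
        map_smul, h0 q.2 q.1, h0 q'.2 q'.1, map_smul, map_smul, smul_mul_smul_comm, hφ]
  induction L with
  | nil =>
    rw [mulB, List.flatMap_nil, vecB_nil, map_zero, zero_mul]
  | cons q L ih =>
    rw [mulB] at ih ⊢
    rw [List.flatMap_cons, vecB_append, map_add, ih, h1, vecB_cons, map_add, add_mul]

theorem sem_evM (φ : (β →₀ F) →ₗ[F] A) (mul : β → β → List (F × β))
    (hφ : ∀ p q, φ (Finsupp.single p 1) * φ (Finsupp.single q 1) = φ (vecB (mul p q)))
    (x : ℕ → List (F × β)) (m : ℕ) :
    φ (vecB (evM mul x m)) = FreeMagma.lift (fun i => φ (vecB (x i))) (unc m) := by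
  induction m using Nat.strong_induction_on with
  | _ m ih =>
    rw [evM, unc]
    split_ifs with h
    · rfl
    · have h1 := Nat.unpair_left_le (m / 2)
      have h2 := Nat.unpair_right_le (m / 2)
      rw [sem_mulB φ mul hφ, ih _ (by omega), ih _ (by omega)]
      rfl

theorem sem_evP (φ : (β →₀ F) →ₗ[F] A) (mul : β → β → List (F × β))
    (hφ : ∀ p q, φ (Finsupp.single p 1) * φ (Finsupp.single q 1) = φ (vecB (mul p q)))
    (x : ℕ → List (F × β)) (P : List (F × ℕ)) :
    φ (vecB (evP mul x P)) =
      Poly.eval (fun i => φ (vecB (x i))) (P.map fun q => (q.1, unc q.2)) := by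
  induction P with
  | nil => rw [evP, List.flatMap_nil, vecB_nil, map_zero]; rfl
  | cons q P ih =>
    rw [evP] at ih ⊢
    rw [List.flatMap_cons, vecB_append, vecB_smul, map_add, map_smul, ih, sem_evM φ mul hφ]
    simp only [Poly.eval, List.map_cons, List.sum_cons]

/-- The code of a monomial in `n` variables is the code of a monomial in `ℕ` variables. -/
theorem lift_unc_code {n : ℕ} (s : FreeMagma (Fin n)) {B : Type} [Mul B] (a : Fin n → B)
    (a' : ℕ → B) (h : ∀ i : Fin n, a' i = a i) :
    FreeMagma.lift a' (unc (code s)) = FreeMagma.lift a s := by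
  induction s using FreeMagma.recOnMul with
  | ih1 i =>
    show FreeMagma.lift a' (unc (2 * (i : ℕ))) = a i
    rw [Ev_unc_even, ← h i]
    rfl
  | ih2 s t ihs iht =>
    show FreeMagma.lift a' (unc (2 * Nat.pair (code s) (code t) + 1)) =
      FreeMagma.lift a (s * t)
    rw [Ev_unc_odd, map_mul, map_mul, ihs, iht]

end Pool.Agent.W_59b51d_c25
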