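import Pool.Agent.W_59b51d_c25.CU
import Pool.Agent.W_59b51d_c25.Ev

/-!
# The evaluation is computable; membership in spans is decidable
-/

namespace Pool.Agent.W_59b51d_c25

open Pool.Agent.W_59b51d_h18 (computable_spn eqv eqv_iff computable_eqv vec vec_nil vec_cons spn)

variable {F α β : Type} [Field F] [Primcodable F] [Primcodable α] [Primcodable β]

theorem computable_mulB (hmul : Computable₂ fun a b : F => a * b)
    {mul : β → β → List (F × β)} (hm : Computable₂ mul) : Computable₂ (mulB mul) := by
  have h3 : Computable₂ fun (p : ((List (F × β) × List (F × β)) × (F × β)) × (F × β))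
      (r : F × β) => (p.1.2.1 * p.2.1 * r.1, r.2) := by
    refine Computable.pair ?_ (Computable.snd.comp Computable.snd)
    refine hmul.comp (hmul.comp ?_ ?_) (Computable.fst.comp Computable.snd)
    · exact Computable.fst.comp (Computable.snd.comp (Computable.fst.comp Computable.fst))
    · exact Computable.fst.comp (Computable.snd.comp Computable.fst)
  have h2 : Computable fun (p : ((List (F × β) × List (F × β)) × (F × β)) × (F × β)) =>
      mul p.1.2.2 p.2.2 :=
    hm.comp (Computable.snd.comp (Computable.snd.comp Computable.fst))
      (Computable.snd.comp Computable.snd)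
  have h4 := computable_map h2 h3
  have h5 : Computable₂ fun (p : (List (F × β) × List (F × β)) × (F × β)) (q' : F × β) =>
      (mul p.2.2 q'.2).map fun r => (p.2.1 * q'.1 * r.1, r.2) := h4
  have h6 : Computable fun (p : (List (F × β) × List (F × β)) × (F × β)) => p.1.2 :=
    Computable.snd.comp Computable.fst
  have h7 := computable_flatMap h6 h5
  have h8 : Computable₂ fun (p : List (F × β) × List (F × β)) (q : F × β) =>
      p.2.flatMap fun q' => (mul q.2 q'.2).map fun r => (q.1 * q'.1 * r.1, r.2) := h7
  have h9 : Computable fun (p : List (F × β) × List (F × β)) => p.1 := Computable.fst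
  have h10 := computable_flatMap h9 h8
  exact h10

/-- By `computable_strong`, `g a L` for a list `L` of length `n` is `x a (n / 2)` or the product of
two members of `L`. -/
theorem computable_evM (hmul : Computable₂ fun a b : F => a * b)
    {mul : β → β → List (F × β)} (hm : Computable₂ mul) {x : α → ℕ → List (F × β)}
    (hx : Computable₂ x) : Computable₂ fun a m => evM mul (x a) m := by
  have hg : Computable₂ fun (a : α) (L : List (List (F × β))) =>
      if decide (L.length % 2 = 0) = true then x a (L.length / 2)
      else mulB mul (L.getD (L.length / 2).unpair.1 []) (L.getD (L.length / 2).unpair.2 []) := by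
    unfold Computable₂
    have hl : Computable fun p : α × List (List (F × β)) => p.2.length :=
      Computable.list_length.comp Computable.snd
    have hh : Computable fun p : α × List (List (F × β)) => p.2.length / 2 :=
      (Primrec.nat_div.to_comp).comp hl (Computable.const 2)
    have hu : Computable fun p : α × List (List (F × β)) => (p.2.length / 2).unpair :=
      Computable.unpair.comp hh
    refine computable_ite ?_ ?_ ?_
    · exact (Primrec.eq (α := ℕ)).decide.to_comp.comp
        ((Primrec.nat_mod.to_comp).comp hl (Computable.const 2)) (Computable.const 0)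
    · exact hx.comp Computable.fst hh
    · refine (computable_mulB hmul hm).comp ?_ ?_
      · exact (Primrec.list_getD ([] : List (F × β))).to_comp.comp Computable.snd
          (Computable.fst.comp hu)
      · exact (Primrec.list_getD ([] : List (F × β))).to_comp.comp Computable.snd
          (Computable.snd.comp hu)
  refine computable_strong hg fun a n => ?_
  have hlen : ((List.range n).map fun m => evM mul (x a) m).length = n := by simp
  rw [hlen]
  by_cases h : n % 2 = 0
  · rw [if_pos (by simpa using h)]
    show evM mul (x a) n = _
    rw [evM, dif_pos h]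
  · rw [if_neg (by simpa using h)]
    have h1 : (n / 2).unpair.1 < n := by
      have := Nat.unpair_left_le (n / 2)
      omega
    have h2 : (n / 2).unpair.2 < n := by
      have := Nat.unpair_right_le (n / 2)
      omega
    show evM mul (x a) n = _
    rw [evM, dif_neg h]
    congr 1
    · simp [List.getD_eq_getElem?_getD, h1]
    · simp [List.getD_eq_getElem?_getD, h2]

theorem computable_evP (hmul : Computable₂ fun a b : F => a * b)
    {mul : β → β → List (F × β)} (hm : Computable₂ mul) {x : α → ℕ → List (F × β)}
    (hx : Computable₂ x) : Computable₂ fun a P => evP mul (x a) P := by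
  unfold Computable₂ evP
  refine computable_flatMap (f := fun p : α × List (F × ℕ) => p.2)
    (g := fun p q => (evM mul (x p.1) q.2).map fun r => (q.1 * r.1, r.2)) Computable.snd ?_
  unfold Computable₂
  refine computable_map
    (f := fun p : (α × List (F × ℕ)) × (F × ℕ) => evM mul (x p.1.1) p.2.2)
    (g := fun p r => (p.2.1 * r.1, r.2)) ?_ ?_
  · exact (computable_evM hmul hm hx).comp (Computable.fst.comp Computable.fst)
      (Computable.snd.comp Computable.snd)
  · refine Computable.pair ?_ (Computable.snd.comp Computable.snd)
    exact hmul.comp (Computable.fst.comp (Computable.snd.comp Computable.fst))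
      (Computable.fst.comp Computable.snd)

/-- The combinations with the basis elements encoded by natural numbers. -/
def EvComp_enc (L : List (F × β)) : List (F × ℕ) := L.map fun q => (q.1, Encodable.encode q.2)

omit [Field F] in
theorem EvComp_computable_enc : Computable (EvComp_enc (F := F) (β := β)) := by
  unfold EvComp_enc
  refine computable_map (f := fun L : List (F × β) => L)
    (g := fun _ q => (q.1, Encodable.encode q.2)) Computable.id ?_
  exact Computable.pair (Computable.fst.comp Computable.snd)
    (Computable.encode.comp (Computable.snd.comp Computable.snd))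

omit [Primcodable F] in
theorem EvComp_vec_enc (L : List (F × β)) :
    vec (EvComp_enc L) = Finsupp.lmapDomain F F (Encodable.encode (α := β)) (vecB L) := by
  induction L with
  | nil => simp [EvComp_enc, vec_nil, vecB_nil]
  | cons q L ih =>
    have h : EvComp_enc (q :: L) = (q.1, Encodable.encode q.2) :: EvComp_enc L := rfl
    rw [h, vec_cons, ih, vecB_cons, map_add]
    congr 1
    simp

omit [Primcodable F] in
theorem EvComp_inj : Function.Injective
    (Finsupp.lmapDomain F F (Encodable.encode (α := β))) :=
  Finsupp.mapDomain_injective Encodable.encode_injective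

/-- Equality of the vectors of two lists is decidable: encode the basis elements by natural numbers
and use `computable_eqv`, `eqv_iff` of `W_59b51d_h18/SComp1.lean`. -/
theorem computable_eqB (hadd : Computable₂ fun a b : F => a + b) :
    ∃ f : List (F × β) → List (F × β) → Bool, Computable₂ f ∧
      ∀ L L', f L L' = true ↔ vecB L = vecB L' := by
  refine ⟨fun L L' => eqv (EvComp_enc L) (EvComp_enc L'), ?_, fun L L' => ?_⟩
  · exact (computable_eqv hadd).comp (EvComp_computable_enc.comp Computable.fst)
      (EvComp_computable_enc.comp Computable.snd)
  · rw [eqv_iff, EvComp_vec_enc, EvComp_vec_enc]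
    exact EvComp_inj.eq_iff

/-- Membership in the span of finitely many vectors is decidable: encode the basis elements by
natural numbers (`Encodable.encode`, injective, so `Finsupp.mapDomain` is injective) and use
`computable_spn`. -/
theorem computable_spanB (hadd : Computable₂ fun a b : F => a + b)
    (hmul : Computable₂ fun a b : F => a * b) :
    ∃ f : List (F × β) × List (List (F × β)) → Bool, Computable f ∧
      ∀ p, f p = true ↔ vecB p.1 ∈ Submodule.span F {v | ∃ g ∈ p.2, v = vecB g} := by
  obtain ⟨f, hf, h⟩ := computable_spn hadd hmul
  refine ⟨fun p => f (EvComp_enc p.1, p.2.map EvComp_enc), ?_, fun p => ?_⟩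
  · refine hf.comp (Computable.pair (EvComp_computable_enc.comp Computable.fst) ?_)
    exact computable_map (f := fun p : List (F × β) × List (List (F × β)) => p.2)
      (g := fun _ L => EvComp_enc L) Computable.snd (EvComp_computable_enc.comp Computable.snd)
  · rw [h]
    have h1 : spn (p.2.map EvComp_enc) =
        (Submodule.span F {v | ∃ g ∈ p.2, v = vecB g}).map
          (Finsupp.lmapDomain F F (Encodable.encode (α := β))) := by
      unfold spn
      rw [Submodule.map_span]
      congr 1
      ext v
      constructor
      · rintro ⟨g, hg, rfl⟩
        obtain ⟨L, hL, rfl⟩ := List.mem_map.1 hg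
        exact ⟨vecB L, ⟨L, hL, rfl⟩, (EvComp_vec_enc L).symm⟩
      · rintro ⟨_, ⟨L, hL, rfl⟩, rfl⟩
        exact ⟨EvComp_enc L, List.mem_map.2 ⟨L, hL, rfl⟩, (EvComp_vec_enc L).symm⟩
    show vec (EvComp_enc p.1) ∈ spn (p.2.map EvComp_enc) ↔ _
    rw [h1, EvComp_vec_enc, Submodule.mem_map]
    constructor
    · rintro ⟨w, hw, hw'⟩
      rw [← EvComp_inj hw']
      exact hw
    · intro hw
      exact ⟨_, hw, rfl⟩

end Pool.Agent.W_59b51d_c25
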