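import Mathlib

/-!
# Multilinear combinations of operator words
-/

namespace Pool.Agent.W_59b51d_c25

/-- The operator word `u` (labels in the vector space `L`) applied to `m`. -/
def ow {F L M : Type} [Field F] [AddCommGroup L] [Module F L] [AddCommGroup M] [Module F M]
    (ρ : Bool → L →ₗ[F] M →ₗ[F] M) (u : List (Bool × L)) (m : M) : M :=
  u.foldl (fun m o => ρ o.1 o.2 m) m

section
variable {F L M : Type} [Field F] [AddCommGroup L] [Module F L] [AddCommGroup M] [Module F M]
  (ρ : Bool → L →ₗ[F] M →ₗ[F] M)

theorem MLW_cons (o : Bool × L) (u : List (Bool × L)) (m : M) :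
    ow ρ (o :: u) m = ow ρ u (ρ o.1 o.2 m) := rfl

theorem MLW_add (u : List (Bool × L)) (m m' : M) : ow ρ u (m + m') = ow ρ u m + ow ρ u m' := by
  induction u generalizing m m' with
  | nil => rfl
  | cons o u ih => rw [MLW_cons, MLW_cons, MLW_cons, map_add, ih]

theorem MLW_smul (u : List (Bool × L)) (c : F) (m : M) : ow ρ u (c • m) = c • ow ρ u m := by
  induction u generalizing m with
  | nil => rfl
  | cons o u ih => rw [MLW_cons, MLW_cons, map_smul, ih]

theorem MLW_zero (u : List (Bool × L)) : ow ρ u (0 : M) = 0 := by
  have h := MLW_smul ρ u (0 : F) (0 : M)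
  rwa [zero_smul, zero_smul] at h

/-- Values at labels which agree at the variables of the word. -/
theorem MLW_congr (u : List (Bool × ℕ)) (z z' : ℕ → L) (h : ∀ o ∈ u, z o.2 = z' o.2) (m : M) :
    ow ρ (u.map fun o => (o.1, z o.2)) m = ow ρ (u.map fun o => (o.1, z' o.2)) m := by
  have h2 : (u.map fun o => (o.1, z o.2)) = u.map fun o => (o.1, z' o.2) := by
    apply List.map_congr_left
    intro o ho
    rw [h o ho]
  rw [h2]

/-- Linearity in a variable which occurs once. -/
theorem MLW_lin (u : List (Bool × ℕ)) (z : ℕ → L) (i : ℕ) (hi : i ∈ u.map Prod.snd)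
    (hn : (u.map Prod.snd).Nodup) (m : M) :
    ∃ φ : L →ₗ[F] M, ∀ x, ow ρ (u.map fun o => (o.1, Function.update z i x o.2)) m = φ x := by
  induction u generalizing m with
  | nil => simp at hi
  | cons o u ih =>
    rw [List.map_cons, List.nodup_cons] at hn
    rw [List.map_cons, List.mem_cons] at hi
    by_cases h : i = o.2
    · have hu : i ∉ u.map Prod.snd := by rw [h]; exact hn.1
      have hc : ∀ o' ∈ u, ∀ x, Function.update z i x o'.2 = z o'.2 := by
        intro o' ho' x
        refine Function.update_of_ne ?_ x z
        rintro rfl
        exact hu (List.mem_map_of_mem ho')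
      refine ⟨{ toFun := fun x => ow ρ (u.map fun o => (o.1, z o.2)) (ρ o.1 x m)
                map_add' := fun x y => by rw [map_add, LinearMap.add_apply, MLW_add]
                map_smul' := fun c x => by
                  rw [map_smul, LinearMap.smul_apply, MLW_smul, RingHom.id_apply] }, ?_⟩
      intro x
      rw [List.map_cons, MLW_cons,
        MLW_congr ρ u (Function.update z i x) z fun o' ho' => hc o' ho' x]
      simp [h]
    · have hi' : i ∈ u.map Prod.snd := hi.resolve_left h
      obtain ⟨φ, hφ⟩ := ih hi' hn.2 (ρ o.1 (z o.2) m)
      refine ⟨φ, fun x => ?_⟩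
      rw [List.map_cons, MLW_cons, ← hφ x]
      simp only [Function.update_of_ne (Ne.symm h) x z]

/-- The combination is linear in the argument. -/
theorem MLW_arg (W : List (F × List (Bool × ℕ))) (z : ℕ → L) :
    ∃ φ : M →ₗ[F] M, ∀ m,
      (W.map fun q => q.1 • ow ρ (q.2.map fun o => (o.1, z o.2)) m).sum = φ m := by
  induction W with
  | nil => exact ⟨0, fun m => by simp⟩
  | cons q W ih =>
    obtain ⟨φ, hφ⟩ := ih
    refine ⟨{ toFun := fun m => q.1 • ow ρ (q.2.map fun o => (o.1, z o.2)) m
              map_add' := fun x y => by rw [MLW_add, smul_add]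
              map_smul' := fun c x => by
                rw [MLW_smul, RingHom.id_apply, smul_comm] } + φ, fun m => ?_⟩
    rw [List.map_cons, List.sum_cons, hφ m]
    rfl

/-- The combination is linear in every variable which occurs once in every word. -/
theorem MLW_var (W : List (F × List (Bool × ℕ))) (z : ℕ → L) (i : ℕ)
    (hW : ∀ q ∈ W, i ∈ q.2.map Prod.snd ∧ (q.2.map Prod.snd).Nodup) (m : M) :
    ∃ φ : L →ₗ[F] M, ∀ x,
      (W.map fun q => q.1 • ow ρ (q.2.map fun o => (o.1, Function.update z i x o.2)) m).sum =
        φ x := by
  induction W with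
  | nil => exact ⟨0, fun m => by simp⟩
  | cons q W ih =>
    obtain ⟨φ, hφ⟩ := ih fun q' hq' => hW q' (List.mem_cons_of_mem _ hq')
    obtain ⟨h1, h2⟩ := hW q List.mem_cons_self
    obtain ⟨ψ, hψ⟩ := MLW_lin ρ q.2 z i h1 h2 m
    refine ⟨q.1 • ψ + φ, fun x => ?_⟩
    rw [List.map_cons, List.sum_cons, hφ x, hψ x]
    rfl

end

/-- If a combination of operator words, whose labels are permutations of the same variables
`0, …, N - 1`, takes values in `K` whenever the labels and the argument are in spanning sets, then
all its values are in `K`.

Proof. For every finite set `s` of variables one shows by induction on `s` that the value is in `K`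
for all `z` with `z i ∈ B` for `i ∉ s` (labels `≥ N` do not matter, so `s = range N` suffices). For
`z i` with `i` new: each word contains the variable `i` exactly once, so the value is a linear
function of `z i` (the other values fixed, `Function.update z i x`), and `span B = ⊤`
(`Submodule.span_induction`). Finally the value is linear in `m`. If `B = ∅` then `L = 0` and the
words, which are not empty, act as `0`. -/
theorem ow_mem {F L M : Type} [Field F] [AddCommGroup L] [Module F L] [AddCommGroup M]
    [Module F M] (ρ : Bool → L →ₗ[F] M →ₗ[F] M) {B : Set L} (hB : Submodule.span F B = ⊤)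
    {C : Set M} (hC : Submodule.span F C = ⊤) (N : ℕ) (W : List (F × List (Bool × ℕ)))
    (hW : ∀ q ∈ W, (q.2.map Prod.snd).Perm (List.range N))
    (hne : B.Nonempty ∨ ∀ q ∈ W, q.2 ≠ []) (K : Submodule F M)
    (h : ∀ z : ℕ → L, (∀ i, z i ∈ B) → ∀ m ∈ C,
      (W.map fun q => q.1 • ow ρ (q.2.map fun o => (o.1, z o.2)) m).sum ∈ K)
    (z : ℕ → L) (m : M) :
    (W.map fun q => q.1 • ow ρ (q.2.map fun o => (o.1, z o.2)) m).sum ∈ K := by
  rcases B.eq_empty_or_nonempty with hB0 | ⟨b0, hb0⟩
  · subst hB0
    have hL : ∀ x : L, x = 0 := by
      intro x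
      have : x ∈ Submodule.span F (∅ : Set L) := by rw [hB]; trivial
      rwa [Submodule.span_empty, Submodule.mem_bot] at this
    have hne' : ∀ q ∈ W, q.2 ≠ [] := by
      rcases hne with h1 | h1
      · exact absurd h1 Set.not_nonempty_empty
      · exact h1
    have h0 : (W.map fun q => q.1 • ow ρ (q.2.map fun o => (o.1, z o.2)) m).sum = 0 := by
      apply List.sum_eq_zero
      intro y hy
      obtain ⟨q, hq, rfl⟩ := List.mem_map.1 hy
      obtain ⟨o, u, hou⟩ := List.exists_cons_of_ne_nil (hne' q hq)
      rw [hou, List.map_cons, MLW_cons]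
      have : ρ o.1 (z o.2) m = 0 := by rw [hL (z o.2), map_zero, LinearMap.zero_apply]
      simp only [this, MLW_zero, smul_zero]
    rw [h0]
    exact zero_mem _
  · -- the induction
    have key : ∀ n ≤ N, ∀ z : ℕ → L, (∀ i, n ≤ i → i < N → z i ∈ B) → ∀ m ∈ C,
        (W.map fun q => q.1 • ow ρ (q.2.map fun o => (o.1, z o.2)) m).sum ∈ K := by
      intro n
      induction n with
      | zero =>
        intro _ z hz m hm
        have h2 := h (fun i => if i < N then z i else b0) (fun i => by
          by_cases hi : i < N
          · simp only [hi, if_true]; exact hz i (Nat.zero_le _) hi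
          · simp only [hi, if_false]; exact hb0) m hm
        have h3 : (W.map fun q => q.1 • ow ρ (q.2.map fun o => (o.1, z o.2)) m) =
            W.map fun q => q.1 • ow ρ (q.2.map fun o =>
              (o.1, (fun i => if i < N then z i else b0) o.2)) m := by
          apply List.map_congr_left
          intro q hq
          rw [MLW_congr ρ q.2 z (fun i => if i < N then z i else b0)]
          intro o ho
          have h4 : o.2 ∈ List.range N := (hW q hq).mem_iff.1 (List.mem_map_of_mem ho)
          rw [List.mem_range] at h4
          simp [h4]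
        rw [h3]
        exact h2
      | succ n ih =>
        intro hn z hz m hm
        obtain ⟨φ, hφ⟩ := MLW_var ρ W z n (fun q hq =>
          ⟨(hW q hq).mem_iff.2 (List.mem_range.2 hn),
            (hW q hq).nodup_iff.2 List.nodup_range⟩) m
        have h1 : ∀ x : L, φ x ∈ K := by
          intro x
          have hx : x ∈ Submodule.span F B := by rw [hB]; trivial
          induction hx using Submodule.span_induction with
          | mem x hx =>
            rw [← hφ x]
            refine ih (by omega) (Function.update z n x) ?_ m hm
            intro i hi hiN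
            by_cases hin : i = n
            · subst hin; rw [Function.update_self]; exact hx
            · rw [Function.update_of_ne hin]; exact hz i (by omega) hiN
          | zero => rw [map_zero]; exact zero_mem _
          | add x y _ _ hx hy => rw [map_add]; exact add_mem hx hy
          | smul c x _ hx => rw [map_smul]; exact Submodule.smul_mem _ _ hx
        have h2 := h1 (z n)
        rw [← hφ (z n), Function.update_eq_self] at h2
        exact h2
    obtain ⟨φ, hφ⟩ := MLW_arg ρ W z
    have h1 : ∀ m : M, φ m ∈ K := by
      intro m
      have hx : m ∈ Submodule.span F C := by rw [hC]; trivial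
      induction hx using Submodule.span_induction with
      | mem m hm =>
        rw [← hφ m]
        exact key N le_rfl z (fun i hi hiN => absurd hiN (by omega)) m hm
      | zero => rw [map_zero]; exact zero_mem _
      | add x y _ _ hx hy => rw [map_add]; exact add_mem hx hy
      | smul c x _ hx => rw [map_smul]; exact Submodule.smul_mem _ _ hx
    rw [hφ m]
    exact h1 m

end Pool.Agent.W_59b51d_c25
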