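import Pool.Agent.W_59b51d_c25.Words
import Pool.Agent.W_59b51d_c25.MLW

/-!
# Values of the identities as operator words
-/

namespace Pool.Agent.W_59b51d_c25

open Pool.Agent.W_59b51d_h18 (Poly code Multilinear)

/-- The multiplications of an algebra: `ρ true x m = m x`, `ρ false x m = x m`. -/
noncomputable def rA (F A : Type) [Field F] [NonUnitalNonAssocRing A] [Module F A]
    [IsScalarTower F A A] [SMulCommClass F A A] (o : Bool) : A →ₗ[F] A →ₗ[F] A :=
  if o then (LinearMap.mul F A).flip else LinearMap.mul F A

variable {F A : Type} [Field F] [NonUnitalNonAssocRing A] [Module F A] [IsScalarTower F A A]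
  [SMulCommClass F A A]

theorem rA_true (x m : A) : rA F A true x m = m * x := by simp [rA]

theorem rA_false (x m : A) : rA F A false x m = x * m := by simp [rA]

/-- Value of an operator word. -/
theorem lift_opw {X : Type} (a : X → A) (m : FreeMagma X) (u : List (Bool × X)) :
    FreeMagma.lift a (opw m u) =
      ow (rA F A) (u.map fun o => (o.1, a o.2)) (FreeMagma.lift a m) := by
  induction u generalizing m with
  | nil => simp [opw, ow]
  | cons o u ih =>
    have h1 : opw m (o :: u) = opw (if o.1 then m * FreeMagma.of o.2 else FreeMagma.of o.2 * m) u :=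
      rfl
    have h2 : FreeMagma.lift a (if o.1 then m * FreeMagma.of o.2 else FreeMagma.of o.2 * m) =
        rA F A o.1 (a o.2) (FreeMagma.lift a m) := by
      rcases o with ⟨b, x⟩
      cases b
      · rw [rA_false]
        simp
      · rw [rA_true]
        simp
    rw [h1, ih, h2]
    rfl

theorem eval_fam_zero (ent : ℕ → ℕ → Bool) (v : ℕ → A) :
    (poly F (fam ent 0)).eval v = (v 0 * v 1) * (v 2 * v 3) := by
  simp [poly, fam, Pool.Agent.W_59b51d_h18.Poly.eval]

theorem eval_fam (ent : ℕ → ℕ → Bool) (t : ℕ) (ht : t ≠ 0) (v : ℕ → A) :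
    (poly F (fam ent t)).eval v =
      ((idw ent t).map fun q => ((q.1 : ℤ) : F) •
        ow (rA F A) (q.2.map fun o => (o.1, v (o.2 + 2))) (v 0 * v 1)).sum := by
  unfold Pool.Agent.W_59b51d_h18.Poly.eval poly fam
  rw [if_neg ht, List.map_map, List.map_map]
  congr 1
  apply List.map_congr_left
  intro q _
  simp only [Function.comp]
  rw [lift_opw (F := F), List.map_map]
  simp [Function.comp_def]

/-- The identities of `fam ent` in terms of operators; the elements `m` are products. -/
theorem satisfies_iff (ent : ℕ → ℕ → Bool) :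
    Satisfies A (fun t => poly F (fam ent t)) ↔
      (∀ x y z w : A, (x * y) * (z * w) = 0) ∧
      ∀ t ≠ 0, ∀ (x y : A) (v : ℕ → A), ((idw ent t).map fun q => ((q.1 : ℤ) : F) •
        ow (rA F A) (q.2.map fun o => (o.1, v o.2)) (x * y)).sum = 0 := by
  constructor
  · intro h
    constructor
    · intro x y z w
      have h1 := h 0 (fun n => if n = 0 then x else if n = 1 then y else if n = 2 then z else w)
      rw [eval_fam_zero] at h1
      simpa using h1
    · intro t ht x y v
      have h1 := h t (fun n => if n = 0 then x else if n = 1 then y else v (n - 2))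
      rw [eval_fam ent t ht] at h1
      simpa using h1
  · rintro ⟨h0, h1⟩ t v
    by_cases ht : t = 0
    · subst ht
      rw [eval_fam_zero]
      exact h0 _ _ _ _
    · rw [eval_fam ent t ht]
      exact h1 t ht (v 0) (v 1) (fun n => v (n + 2))

end Pool.Agent.W_59b51d_c25
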