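import Mathlib

/-!
# Free modules `D ⊗ F⟨X⟩` over a free algebra, as finitely supported functions `List X →₀ D`
-/

namespace Pool.Agent.W_59b51d_c25

/-- Right multiplication by the word `u`. -/
noncomputable def appw (F : Type) [Field F] {D X : Type} [AddCommGroup D] [Module F D]
    (u : List X) : (List X →₀ D) →ₗ[F] (List X →₀ D) :=
  Finsupp.lmapDomain D F fun w => w ++ u

/-- The functions supported on the words of length at most `m`. -/
noncomputable def dg (F D X : Type) [Field F] [AddCommGroup D] [Module F D] (m : ℕ) :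
    Submodule F (List X →₀ D) :=
  Finsupp.supported D F {w | w.length ≤ m}

/-- The functions with values in `N`. -/
def vl {F D : Type} [Field F] [AddCommGroup D] [Module F D] (X : Type) (N : Submodule F D) :
    Submodule F (List X →₀ D) where
  carrier := {f | ∀ w, f w ∈ N}
  zero_mem' := fun _ => N.zero_mem
  add_mem' := fun hf hg w => N.add_mem (hf w) (hg w)
  smul_mem' := fun c _ hf w => N.smul_mem c (hf w)

/-- The span of the right multiples of the `γ k` by words of length at most `n`. -/
noncomputable def rs (F : Type) [Field F] {D X κ : Type} [AddCommGroup D] [Module F D]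
    (γ : κ → List X →₀ D) (n : ℕ) : Submodule F (List X →₀ D) :=
  Submodule.span F {f | ∃ k, ∃ u : List X, u.length ≤ n ∧ f = appw F u (γ k)}

/-- The right submodule generated by the `γ k`. -/
noncomputable def rsw (F : Type) [Field F] {D X κ : Type} [AddCommGroup D] [Module F D]
    (γ : κ → List X →₀ D) : Submodule F (List X →₀ D) :=
  Submodule.span F {f | ∃ k, ∃ u : List X, f = appw F u (γ k)}

/-- `g t`, for `g ∈ D ⊗ F⟨X⟩` and `t ∈ F⟨X⟩`, as a linear function of `t`. -/
noncomputable def ap {F D X : Type} [Field F] [AddCommGroup D] [Module F D] (g : List X →₀ D) :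
    (List X →₀ F) →ₗ[F] (List X →₀ D) :=
  Finsupp.linearCombination F fun u => appw F u g

/-- The degree. -/
def dgr {D X : Type} [AddCommGroup D] (f : List X →₀ D) : ℕ := f.support.sup List.length

variable {F D X κ : Type} [Field F] [AddCommGroup D] [Module F D]

theorem appw_single (u w : List X) (d : D) :
    appw F u (Finsupp.single w d) = Finsupp.single (w ++ u) d := by
  simp [appw, Finsupp.mapDomain_single]

/-- Values of `appw`. -/
theorem appw_apply_append (u w : List X) (f : List X →₀ D) : appw F u f (w ++ u) = f w := by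
  rw [appw, Finsupp.lmapDomain_apply]
  exact Finsupp.mapDomain_apply (List.append_left_injective u) f w

theorem appw_nil (f : List X →₀ D) : appw F [] f = f := by
  simp only [appw, List.append_nil, Finsupp.lmapDomain_apply]
  exact Finsupp.mapDomain_id

theorem appw_appw (u v : List X) (f : List X →₀ D) :
    appw F v (appw F u f) = appw F (u ++ v) f := by
  simp only [appw, Finsupp.lmapDomain_apply, ← Finsupp.mapDomain_comp]
  congr 1
  funext w
  simp

theorem mem_dg_iff {m : ℕ} {f : List X →₀ D} : f ∈ dg F D X m ↔ dgr f ≤ m := by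
  rw [dg, Finsupp.mem_supported, dgr, Finset.sup_le_iff]
  rfl

theorem mem_dg {m : ℕ} {f : List X →₀ D} :
    f ∈ dg F D X m ↔ ∀ w : List X, m < w.length → f w = 0 := by
  rw [dg, Finsupp.mem_supported]
  constructor
  · intro h w hw
    by_contra hne
    have := h (Finsupp.mem_support_iff.2 hne)
    simp only [Set.mem_ofPred_eq] at this
    omega
  · intro h w hw
    by_contra hne
    simp only [Set.mem_ofPred_eq, not_le] at hne
    exact (Finsupp.mem_support_iff.1 hw) (h w hne)

theorem dg_mono {m m' : ℕ} (h : m ≤ m') : dg F D X m ≤ dg F D X m' := fun f hf => by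
  rw [mem_dg] at hf ⊢
  exact fun w hw => hf w (lt_of_le_of_lt h hw)

theorem appw_mem_dg {m : ℕ} {f : List X →₀ D} (hf : f ∈ dg F D X m) (u : List X) :
    appw F u f ∈ dg F D X (m + u.length) := by
  have h1 : appw F u f ∈ (Finsupp.supported D F {w : List X | w.length ≤ m}).map
      (Finsupp.lmapDomain D F fun w : List X => w ++ u) := ⟨f, hf, rfl⟩
  rw [Finsupp.lmapDomain_supported] at h1
  refine Finsupp.supported_mono ?_ h1
  rintro _ ⟨w, hw, rfl⟩
  have hw' : w.length ≤ m := hw
  simp only [Set.mem_ofPred_eq, List.length_append]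
  omega

theorem FM_appw_zero {u w : List X} (f : List X →₀ D) (h : ∀ v, w ≠ v ++ u) :
    appw F u f w = 0 := by
  rw [appw, Finsupp.lmapDomain_apply]
  refine Finsupp.mapDomain_notin_range _ _ ?_
  rintro ⟨v, hv⟩
  exact h v hv.symm

theorem appw_mem_vl {N : Submodule F D} {f : List X →₀ D} (hf : f ∈ vl X N) (u : List X) :
    appw F u f ∈ vl X N := by
  intro w
  by_cases h : ∃ v, w = v ++ u
  · obtain ⟨v, rfl⟩ := h
    rw [appw_apply_append]
    exact hf v
  · push Not at h
    rw [FM_appw_zero f h]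
    exact N.zero_mem

theorem rs_mono (γ : κ → List X →₀ D) {m m' : ℕ} (h : m ≤ m') : rs F γ m ≤ rs F γ m' := by
  refine Submodule.span_mono ?_
  rintro f ⟨k, u, hu, rfl⟩
  exact ⟨k, u, hu.trans h, rfl⟩

theorem rs_le_rsw (γ : κ → List X →₀ D) (m : ℕ) : rs F γ m ≤ rsw F γ := by
  refine Submodule.span_mono ?_
  rintro f ⟨k, u, hu, rfl⟩
  exact ⟨k, u, rfl⟩

theorem mem_rsw_exists (γ : κ → List X →₀ D) {f : List X →₀ D} (h : f ∈ rsw F γ) :
    ∃ n, f ∈ rs F γ n := by
  unfold rsw at h
  induction h using Submodule.span_induction with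
  | mem x hx =>
    obtain ⟨k, u, rfl⟩ := hx
    exact ⟨u.length, Submodule.subset_span ⟨k, u, le_rfl, rfl⟩⟩
  | zero => exact ⟨0, Submodule.zero_mem _⟩
  | add x y _ _ hx hy =>
    obtain ⟨n, hn⟩ := hx
    obtain ⟨m, hm⟩ := hy
    exact ⟨max n m, Submodule.add_mem _ (rs_mono γ (le_max_left _ _) hn)
      (rs_mono γ (le_max_right _ _) hm)⟩
  | smul c x _ hx =>
    obtain ⟨n, hn⟩ := hx
    exact ⟨n, Submodule.smul_mem _ c hn⟩

theorem rsw_le_vl {γ : κ → List X →₀ D} {N : Submodule F D} (h : ∀ k, γ k ∈ vl X N) :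
    rsw F γ ≤ vl X N := by
  refine Submodule.span_le.2 ?_
  rintro f ⟨k, u, rfl⟩
  exact appw_mem_vl (h k) u

theorem FM_appw_mem_rs {γ : κ → List X →₀ D} {c : ℕ} {f : List X →₀ D} (hf : f ∈ rs F γ c)
    (u : List X) : appw F u f ∈ rs F γ (c + u.length) := by
  unfold rs at hf
  induction hf using Submodule.span_induction with
  | mem x hx =>
    obtain ⟨k, v, hv, rfl⟩ := hx
    rw [appw_appw]
    refine Submodule.subset_span ⟨k, v ++ u, ?_, rfl⟩
    rw [List.length_append]
    omega
  | zero => rw [map_zero]; exact Submodule.zero_mem _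
  | add x y _ _ hx hy => rw [map_add]; exact Submodule.add_mem _ hx hy
  | smul a x _ hx => rw [map_smul]; exact Submodule.smul_mem _ a hx

theorem FM_appw_mem_rsw {γ : κ → List X →₀ D} {f : List X →₀ D} (hf : f ∈ rsw F γ)
    (u : List X) : appw F u f ∈ rsw F γ := by
  obtain ⟨n, hn⟩ := mem_rsw_exists γ hf
  exact rs_le_rsw γ _ (FM_appw_mem_rs hn u)

/-- If all `γ k` are in `rs F γ' c`, then `rs F γ n ≤ rs F γ' (n + c)`. -/
theorem rs_le_rs {κ' : Type} {γ : κ → List X →₀ D} {γ' : κ' → List X →₀ D} {c : ℕ}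
    (h : ∀ k, γ k ∈ rs F γ' c) (n : ℕ) : rs F γ n ≤ rs F γ' (n + c) := by
  refine Submodule.span_le.2 ?_
  rintro f ⟨k, u, hu, rfl⟩
  exact rs_mono γ' (by omega) (FM_appw_mem_rs (h k) u)

theorem rsw_le_rsw {κ' : Type} {γ : κ → List X →₀ D} {γ' : κ' → List X →₀ D} {c : ℕ}
    (h : ∀ k, γ k ∈ rs F γ' c) : rsw F γ ≤ rsw F γ' := by
  refine Submodule.span_le.2 ?_
  rintro f ⟨k, u, rfl⟩
  exact rs_le_rsw γ' _ (FM_appw_mem_rs (h k) u)

/-- A finite family: the degrees are bounded. -/
theorem exists_rs_le_dg [Finite κ] (γ : κ → List X →₀ D) :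
    ∃ c, ∀ n, rs F γ n ≤ dg F D X (n + c) := by
  obtain ⟨c, hc⟩ : ∃ c, ∀ k, dgr (γ k) ≤ c := by
    obtain ⟨c, hc⟩ := (Set.finite_range fun k => dgr (γ k)).bddAbove
    exact ⟨c, fun k => hc ⟨k, rfl⟩⟩
  refine ⟨c, fun n => Submodule.span_le.2 ?_⟩
  rintro f ⟨k, u, hu, rfl⟩
  exact dg_mono (by omega) (appw_mem_dg (mem_dg_iff.2 (hc k)) u)

theorem FM_ap_single (g : List X →₀ D) (u : List X) (c : F) :
    ap g (Finsupp.single u c) = c • appw F u g := by
  rw [ap, Finsupp.linearCombination_single]

theorem FM_sum_single [Fintype κ] [DecidableEq κ] (γ : κ → List X →₀ D) (k : κ)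
    (s : List X →₀ F) : ∑ i, ap (γ i) ((Pi.single k s : κ → List X →₀ F) i) = ap (γ k) s := by
  rw [Finset.sum_eq_single k]
  · rw [Pi.single_eq_same]
  · intro i _ hi
    rw [Pi.single_eq_of_ne hi, map_zero]
  · intro h
    exact absurd (Finset.mem_univ k) h

theorem mem_rsw_iff [Fintype κ] (γ : κ → List X →₀ D) (f : List X →₀ D) :
    f ∈ rsw F γ ↔ ∃ t : κ → List X →₀ F, f = ∑ k, ap (γ k) (t k) := by
  classical
  constructor
  · intro h
    unfold rsw at h
    induction h using Submodule.span_induction with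
    | mem x hx =>
      obtain ⟨k, u, rfl⟩ := hx
      refine ⟨Pi.single k (Finsupp.single u 1), ?_⟩
      rw [FM_sum_single, FM_ap_single, one_smul]
    | zero => exact ⟨0, by simp⟩
    | add x y _ _ hx hy =>
      obtain ⟨t, ht⟩ := hx
      obtain ⟨t', ht'⟩ := hy
      exact ⟨t + t', by simp [ht, ht', Finset.sum_add_distrib]⟩
    | smul c x _ hx =>
      obtain ⟨t, ht⟩ := hx
      exact ⟨c • t, by simp [ht, Finset.smul_sum]⟩
  · rintro ⟨t, rfl⟩
    refine Submodule.sum_mem _ fun k _ => ?_
    rw [ap, Finsupp.linearCombination_apply, Finsupp.sum]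
    exact Submodule.sum_mem _ fun u _ => Submodule.smul_mem _ _
      (Submodule.subset_span ⟨k, u, rfl⟩)

theorem mem_rs_iff [Fintype κ] (γ : κ → List X →₀ D) (n : ℕ) (f : List X →₀ D) :
    f ∈ rs F γ n ↔ ∃ t : κ → List X →₀ F, (∀ k, t k ∈ dg F F X n) ∧ f = ∑ k, ap (γ k) (t k) := by
  classical
  constructor
  · intro h
    unfold rs at h
    induction h using Submodule.span_induction with
    | mem x hx =>
      obtain ⟨k, u, hu, rfl⟩ := hx
      refine ⟨Pi.single k (Finsupp.single u 1), fun i => ?_, ?_⟩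
      · by_cases hi : i = k
        · subst hi
          rw [Pi.single_eq_same]
          exact Finsupp.single_mem_supported F (1 : F) hu
        · rw [Pi.single_eq_of_ne hi]
          exact Submodule.zero_mem _
      · rw [FM_sum_single, FM_ap_single, one_smul]
    | zero => exact ⟨0, fun k => Submodule.zero_mem _, by simp⟩
    | add x y _ _ hx hy =>
      obtain ⟨t, h1, ht⟩ := hx
      obtain ⟨t', h1', ht'⟩ := hy
      exact ⟨t + t', fun k => Submodule.add_mem _ (h1 k) (h1' k),
        by simp [ht, ht', Finset.sum_add_distrib]⟩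
    | smul c x _ hx =>
      obtain ⟨t, h1, ht⟩ := hx
      exact ⟨c • t, fun k => Submodule.smul_mem _ c (h1 k), by simp [ht, Finset.smul_sum]⟩
  · rintro ⟨t, h1, rfl⟩
    refine Submodule.sum_mem _ fun k _ => ?_
    rw [ap, Finsupp.linearCombination_apply, Finsupp.sum]
    refine Submodule.sum_mem _ fun u hu => Submodule.smul_mem _ _
      (Submodule.subset_span ⟨k, u, ?_, rfl⟩)
    by_contra hn
    exact Finsupp.mem_support_iff.1 hu (mem_dg.1 (h1 k) u (by omega))

theorem mapRange_ap {E : Type} [AddCommGroup E] [Module F E] (p : D →ₗ[F] E)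
    (g : List X →₀ D) (t : List X →₀ F) :
    Finsupp.mapRange.linearMap p (ap g t) = ap (Finsupp.mapRange.linearMap p g) t := by
  induction t using Finsupp.induction_linear with
  | zero => simp
  | add s t hs ht => rw [map_add, map_add, map_add, hs, ht]
  | single u c =>
    rw [FM_ap_single, FM_ap_single, map_smul]
    congr 1
    ext w
    rw [Finsupp.mapRange.linearMap_apply, Finsupp.mapRange_apply]
    by_cases h : ∃ v, w = v ++ u
    · obtain ⟨v, rfl⟩ := h
      rw [appw_apply_append, appw_apply_append, Finsupp.mapRange.linearMap_apply,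
        Finsupp.mapRange_apply]
    · push Not at h
      rw [FM_appw_zero _ h, FM_appw_zero _ h, map_zero]

theorem FM_appw_ap (g : List X →₀ D) (s : List X →₀ F) (u : List X) :
    appw F u (ap g s) = ap g (appw F u s) := by
  induction s using Finsupp.induction_linear with
  | zero => simp
  | add s t hs ht => rw [map_add, map_add, map_add, map_add, hs, ht]
  | single v c => rw [FM_ap_single, map_smul, appw_appw, appw_single, FM_ap_single]

/-- `g (s t) = (g s) t`. -/
theorem ap_ap (g : List X →₀ D) (s t : List X →₀ F) : ap (ap g s) t = ap g (ap s t) := by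
  induction t using Finsupp.induction_linear with
  | zero => simp
  | add t t' ht ht' => rw [map_add, map_add, map_add, ht, ht']
  | single u c => rw [FM_ap_single, FM_ap_single, map_smul, FM_appw_ap]

end Pool.Agent.W_59b51d_c25
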