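import Pool.Agent.W_59b51d_c25.FM

/-!
# The weak algorithm: one step
-/

namespace Pool.Agent.W_59b51d_c25

theorem FMCut_ap_apply {F D X : Type} [Field F] [AddCommGroup D] [Module F D]
    (f : List X →₀ D) (t : List X →₀ F) (v : List X) :
    (ap f t) v = ∑ j ∈ Finset.range (v.length + 1), t (v.drop j) • f (v.take j) := by
  classical
  induction t using Finsupp.induction_linear with
  | zero => simp
  | add s t hs ht =>
    simp only [map_add, Finsupp.add_apply, hs, ht, add_smul, Finset.sum_add_distrib]
  | single u c =>
    rw [ap, Finsupp.linearCombination_single, Finsupp.smul_apply]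
    by_cases h : u <:+ v
    · obtain ⟨w, rfl⟩ := h
      rw [appw_apply_append]
      rw [Finset.sum_eq_single w.length]
      · simp
      · intro j hj hne
        have hlen : (w ++ u).drop j ≠ u := by
          intro he
          have := congrArg List.length he
          simp only [List.length_drop, List.length_append] at this
          simp only [Finset.mem_range, List.length_append] at hj
          omega
        rw [Finsupp.single_eq_of_ne hlen, zero_smul]
      · intro hn
        exfalso
        apply hn
        simp only [Finset.mem_range, List.length_append]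
        omega
    · have h1 : appw F u f v = 0 := by
        rw [appw, Finsupp.lmapDomain_apply]
        apply Finsupp.mapDomain_of_notMem_range
        rintro ⟨w, hw⟩
        exact h ⟨w, hw⟩
      rw [h1, smul_zero]
      symm
      apply Finset.sum_eq_zero
      intro j _
      have hlen : v.drop j ≠ u := by
        intro he
        apply h
        rw [← he]
        exact List.drop_suffix j v
      rw [Finsupp.single_eq_of_ne hlen, zero_smul]

theorem FMCut_eval {F D X : Type} [Field F] [AddCommGroup D] [Module F D]
    (f : List X →₀ D) (t : List X →₀ F) (v : List X) (d : ℕ) (hd : d ≤ v.length)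
    (hf : ∀ w : List X, d < w.length → f w = 0)
    (ht : ∀ u : List X, v.length < u.length + d → t u = 0) :
    (ap f t) v = t (v.drop d) • f (v.take d) := by
  rw [FMCut_ap_apply, Finset.sum_eq_single d]
  · intro j hj hne
    simp only [Finset.mem_range] at hj
    rcases lt_or_gt_of_ne hne with h | h
    · rw [ht _ (by rw [List.length_drop]; omega), zero_smul]
    · rw [hf _ (by rw [List.length_take]; omega), smul_zero]
  · intro hn
    exfalso
    apply hn
    simp only [Finset.mem_range]
    omega

theorem FMCut_eval_zero {F D X : Type} [Field F] [AddCommGroup D] [Module F D]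
    (f : List X →₀ D) (t : List X →₀ F) (v : List X) (d : ℕ)
    (hf : ∀ w : List X, d < w.length → f w = 0)
    (ht : ∀ u : List X, v.length ≤ u.length + d → t u = 0) :
    (ap f t) v = 0 := by
  rw [FMCut_ap_apply]
  apply Finset.sum_eq_zero
  intro j hj
  simp only [Finset.mem_range] at hj
  rcases le_or_gt j d with h | h
  · rw [ht _ (by rw [List.length_drop]; omega), zero_smul]
  · rw [hf _ (by rw [List.length_take]; omega), smul_zero]

theorem FMCut_dgr_zero {D X : Type} [AddCommGroup D] (f : List X →₀ D) (w : List X)
    (h : dgr f < w.length) : f w = 0 := by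
  by_contra hne
  have : w.length ≤ dgr f := Finset.le_sup (f := List.length) (Finsupp.mem_support_iff.2 hne)
  omega

theorem FMCut_dgr_exists {D X : Type} [AddCommGroup D] (f : List X →₀ D) (h : f ≠ 0) :
    ∃ w, f w ≠ 0 ∧ w.length = dgr f := by
  have hne : f.support.Nonempty := Finsupp.support_nonempty_iff.2 h
  obtain ⟨w, hw, he⟩ := Finset.exists_mem_eq_sup f.support hne List.length
  exact ⟨w, Finsupp.mem_support_iff.1 hw, he.symm⟩

/-- Either the family `η` is independent with degrees, or one of its non zero members can be
replaced by one of smaller degree (or by `0`).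

Proof. Assume that the first alternative fails: `∑ ap (η k) (t k) ∈ dg m` but `t k₀ ∉ dg m`,
`η k₀ ≠ 0`. Replace `t k` by `0` if `η k = 0`. Let `M` be the maximum of `dgr (η k) + dgr (t k)` over
all `k` with `η k ≠ 0`, `t k ≠ 0`; then `M > m`. Let `h k` be the part of degree `d k := dgr (η k)`
of `η k` and `a k` the part of degree `M - d k` of `t k` (`0` if `η k = 0` or `d k > M`). The part
of degree `M` of the sum is `∑ ap (h k) (a k) = 0`, and some `a k ≠ 0`. Among the `k` with
`a k ≠ 0` choose `i` with `d i` maximal, and a word `w` in the support of `a i`; `w` has length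
`M - d i`, the smallest length of the words in the `a k`. The map `cut : f ↦ (v ↦ f (v ++ w))`
(`Finsupp.comapDomain`) satisfies `cut (ap (h k) (a k)) = ap (h k) (cut (a k))` (a word
`v ++ u`, `u` in the support of `a k`, so `|u| ≥ |w|`, ends with `w` iff `u` does), and
`cut (a i) = single [] (a i w)`. So with `b k := (a i w)⁻¹ • cut (a k)` for `k ≠ i` and `b i := 0`:
`h i + ∑ ap (h k) (b k) = 0`, and `b k` is homogeneous of degree `d i - d k`. Hence
`η i + ∑ ap (η k) (b k)` has degree `≤ d i`, and its part of degree `d i` is `0`. -/
theorem fa_step {F E X κ : Type} [Field F] [AddCommGroup E] [Module F E] [Fintype κ]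
    [DecidableEq κ] (η : κ → List X →₀ E) :
    (∀ (t : κ → List X →₀ F) (m : ℕ), (∑ k, ap (η k) (t k)) ∈ dg F E X m →
      ∀ k, η k ≠ 0 → t k ∈ dg F F X m) ∨
    ∃ (i : κ) (b : κ → List X →₀ F), b i = 0 ∧ η i ≠ 0 ∧
      (η i + ∑ k, ap (η k) (b k) = 0 ∨
        dgr (η i + ∑ k, ap (η k) (b k)) < dgr (η i)) := by
  classical
  by_contra hcon
  rw [not_or] at hcon
  obtain ⟨h1, h2⟩ := hcon
  apply h2
  push Not at h1
  obtain ⟨t, m, hS, k₀, hk₀, htk₀⟩ := h1
  rw [mem_dg] at hS
  have ht0 : t k₀ ≠ 0 := by
    intro h
    apply htk₀
    rw [h]
    exact Submodule.zero_mem _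
  have hm0 : m < dgr (t k₀) := by
    rw [mem_dg_iff] at htk₀
    omega
  -- the maximum
  set K : Finset κ := Finset.univ.filter fun k => η k ≠ 0 ∧ t k ≠ 0 with hK
  have hk0K : k₀ ∈ K := by simp [hK, hk₀, ht0]
  obtain ⟨k₁, hk₁K, hk₁max⟩ := Finset.exists_max_image K (fun k => dgr (η k) + dgr (t k))
    ⟨k₀, hk0K⟩
  set M : ℕ := dgr (η k₁) + dgr (t k₁) with hM
  have hmM : m < M := by
    have := hk₁max k₀ hk0K
    omega
  -- high words vanish
  have hhigh : ∀ k, η k ≠ 0 → ∀ u : List X, M < u.length + dgr (η k) → t k u = 0 := by
    intro k hk u hu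
    by_contra hne
    have htk : t k ≠ 0 := by
      intro h
      rw [h] at hne
      exact hne rfl
    have h3 := hk₁max k (by simp [hK, hk, htk])
    have h4 : u.length ≤ dgr (t k) :=
      Finset.le_sup (f := List.length) (Finsupp.mem_support_iff.2 hne)
    omega
  -- the choice of `i`
  set L : Finset κ := Finset.univ.filter fun k =>
    η k ≠ 0 ∧ ∃ u : List X, u.length + dgr (η k) = M ∧ t k u ≠ 0 with hL
  have hk1L : k₁ ∈ L := by
    simp only [hK, Finset.mem_filter, Finset.mem_univ, true_and] at hk₁K
    obtain ⟨w, hw, hwl⟩ := FMCut_dgr_exists (t k₁) hk₁K.2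
    simp only [hL, Finset.mem_filter, Finset.mem_univ, true_and]
    exact ⟨hk₁K.1, w, by omega, hw⟩
  obtain ⟨i, hiL, himax⟩ := Finset.exists_max_image L (fun k => dgr (η k)) ⟨k₁, hk1L⟩
  simp only [hL, Finset.mem_filter, Finset.mem_univ, true_and] at hiL
  obtain ⟨hηi, w, hwl, hwt⟩ := hiL
  set c : F := t i w with hc
  have hbig : ∀ k, η k ≠ 0 → dgr (η i) < dgr (η k) → ∀ u : List X,
      u.length + dgr (η k) = M → t k u = 0 := by
    intro k hk hd u hu
    by_contra hne
    have := himax k (by
      simp only [hL, Finset.mem_filter, Finset.mem_univ, true_and]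
      exact ⟨hk, u, hu, hne⟩)
    omega
  -- the new coefficients
  let b : κ → List X →₀ F := fun k =>
    if k ≠ i ∧ η k ≠ 0 then
      (c⁻¹ • Finsupp.comapDomain (fun u => u ++ w) (t k)
        (List.append_left_injective w).injOn).filter fun u => u.length + dgr (η k) = dgr (η i)
    else 0
  have hb : ∀ k u, b k u = if k ≠ i ∧ η k ≠ 0 ∧ u.length + dgr (η k) = dgr (η i) then
      c⁻¹ * t k (u ++ w) else 0 := by
    intro k u
    simp only [b]
    by_cases h3 : k ≠ i ∧ η k ≠ 0
    · rw [if_pos h3, Finsupp.filter_apply]
      by_cases h4 : u.length + dgr (η k) = dgr (η i)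
      · rw [if_pos h4, if_pos ⟨h3.1, h3.2, h4⟩]
        simp [Finsupp.comapDomain_apply]
      · rw [if_neg h4, if_neg (fun h => h4 h.2.2)]
    · rw [if_neg h3, if_neg (fun h => h3 ⟨h.1, h.2.1⟩)]
      rfl
  have hlow : ∀ v : List X, dgr (η i) ≤ v.length → (η i + ∑ k, ap (η k) (b k)) v = 0 := by
    intro v hv
    rw [Finsupp.add_apply, Finsupp.finsetSum_apply]
    rcases hv.lt_or_eq with hv | hv
    · rw [FMCut_dgr_zero _ _ hv, zero_add]
      apply Finset.sum_eq_zero
      intro k _
      apply FMCut_eval_zero (η k) (b k) v (dgr (η k)) (fun w hw => FMCut_dgr_zero _ _ hw)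
      intro u hu
      rw [hb, if_neg]
      rintro ⟨-, -, h⟩
      omega
    · -- compare with the sum at `v ++ w`
      have hlen : (v ++ w).length = M := by
        rw [List.length_append]
        omega
      have hS0 := hS (v ++ w) (by omega)
      rw [Finsupp.finsetSum_apply] at hS0
      have hterm : ∀ k, (ap (η k) (t k)) (v ++ w) =
          c • ((if k = i then η i v else 0) + (ap (η k) (b k)) v) := by
        intro k
        by_cases hk : η k = 0
        · have hki : k ≠ i := by
            rintro rfl
            exact hηi hk
          have e1 : (ap (η k) (t k)) (v ++ w) = 0 := by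
            rw [FMCut_ap_apply]
            apply Finset.sum_eq_zero
            intro j _
            rw [hk]
            simp
          have e2 : (ap (η k) (b k)) v = 0 := by
            rw [FMCut_ap_apply]
            apply Finset.sum_eq_zero
            intro j _
            rw [hk]
            simp
          rw [e1, e2, if_neg hki]
          simp
        · rcases le_or_gt (dgr (η k)) (dgr (η i)) with hle | hgt
          · rw [FMCut_eval (η k) (t k) (v ++ w) (dgr (η k)) (by omega)
              (fun w hw => FMCut_dgr_zero _ _ hw)
              (fun u hu => hhigh k hk u (by omega))]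
            rw [FMCut_eval (η k) (b k) v (dgr (η k)) (by omega)
              (fun w hw => FMCut_dgr_zero _ _ hw)
              (fun u hu => by
                rw [hb, if_neg]
                rintro ⟨-, -, h⟩
                omega)]
            rw [List.drop_append_of_le_length (by omega), List.take_append_of_le_length (by omega)]
            by_cases hki : k = i
            · subst hki
              rw [if_pos rfl, hb, if_neg (fun h => h.1 rfl), zero_smul, add_zero]
              rw [hv, List.drop_length, List.take_length, List.nil_append]
            · rw [if_neg hki, hb, if_pos ⟨hki, hk, by rw [List.length_drop]; omega⟩, zero_add,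
                smul_smul, ← mul_assoc, mul_inv_cancel₀ hwt, one_mul]
          · have hki : k ≠ i := by
              rintro rfl
              exact lt_irrefl _ hgt
            have e1 : (ap (η k) (t k)) (v ++ w) = 0 := by
              apply FMCut_eval_zero (η k) (t k) (v ++ w) (dgr (η k))
                (fun w hw => FMCut_dgr_zero _ _ hw)
              intro u hu
              rw [hlen] at hu
              rcases hu.lt_or_eq with hu | hu
              · exact hhigh k hk u hu
              · exact hbig k hk hgt u hu.symm
            have e2 : (ap (η k) (b k)) v = 0 := by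
              apply FMCut_eval_zero (η k) (b k) v (dgr (η k))
                (fun w hw => FMCut_dgr_zero _ _ hw)
              intro u hu
              rw [hb, if_neg]
              rintro ⟨-, -, h⟩
              omega
            rw [e1, e2, if_neg hki]
            simp
      rw [Finset.sum_congr rfl (fun k _ => hterm k), ← Finset.smul_sum,
        Finset.sum_add_distrib, Finset.sum_ite_eq' Finset.univ i, if_pos (Finset.mem_univ i)] at hS0
      exact (smul_eq_zero.1 hS0).resolve_left hwt
  refine ⟨i, b, ?_, hηi, ?_⟩
  · ext u
    rw [hb, if_neg (fun h => h.1 rfl)]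
    rfl
  · by_cases hz : η i + ∑ k, ap (η k) (b k) = 0
    · exact Or.inl hz
    · right
      obtain ⟨v, hv, hvl⟩ := FMCut_dgr_exists _ hz
      by_contra hge
      exact hv (hlow v (by omega))

end Pool.Agent.W_59b51d_c25
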