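import Pool.Agent.W_59b51d_c25.GDefs
import Pool.Agent.W_59b51d_c25.BDBasis

/-!
# Bounded membership in the ideal
-/

namespace Pool.Agent.W_59b51d_c25

open Pool.Agent.W_59b51d_h18 (Poly code Multilinear)

variable {F : Type} [Field F] {d n : ℕ}

/-- The elements with words of length at most `m`. -/
noncomputable def GBound_bd (π : Fin d → List (F × Fin n)) (m : ℕ) : Submodule F (GA π) :=
  (Finsupp.supported F F {q : NB d (Fin n) | ∀ p, q = Sum.inr p →
    p.2.1.length ≤ m ∧ p.2.2.1.length ≤ m}).comap (SC.val _)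

theorem GBound_mem (π : Fin d → List (F × Fin n)) (m : ℕ) (z : GA π) :
    z ∈ GBound_bd π m ↔ ∀ p : MB (Fin n) (Fin d × Fin d), SC.val _ z (Sum.inr p) ≠ 0 →
      p.2.1.length ≤ m ∧ p.2.2.1.length ≤ m := by
  unfold GBound_bd
  rw [Submodule.mem_comap, Finsupp.mem_supported]
  constructor
  · intro h p hp
    exact h (Finsupp.mem_support_iff.2 hp) p rfl
  · intro h q hq p hp
    subst hp
    exact h p (Finsupp.mem_support_iff.1 hq)

theorem GBound_mono (π : Fin d → List (F × Fin n)) {m m' : ℕ} (h : m ≤ m') :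
    GBound_bd π m ≤ GBound_bd π m' := by
  intro z hz
  rw [GBound_mem] at hz ⊢
  intro p hp
  have := hz p hp
  omega

theorem GBound_exists (π : Fin d → List (F × Fin n)) (z : GA π) : ∃ m, z ∈ GBound_bd π m := by
  classical
  refine ⟨(SC.val _ z).support.sup fun q => Sum.elim (fun _ => 0)
    (fun p : MB (Fin n) (Fin d × Fin d) => p.2.1.length + p.2.2.1.length) q, ?_⟩
  rw [GBound_mem]
  intro p hp
  have h1 := Finset.le_sup (f := fun q : NB d (Fin n) => Sum.elim (fun _ => 0)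
    (fun p : MB (Fin n) (Fin d × Fin d) => p.2.1.length + p.2.2.1.length) q)
    (Finsupp.mem_support_iff.2 hp)
  simp only [Sum.elim_inr] at h1
  omega

theorem GBound_list (π : Fin d → List (F × Fin n)) (L : List (GA π)) :
    ∃ m, ∀ z ∈ L, z ∈ GBound_bd π m := by
  induction L with
  | nil => exact ⟨0, by simp⟩
  | cons z L ih =>
    obtain ⟨m, hm⟩ := ih
    obtain ⟨m', hm'⟩ := GBound_exists π z
    refine ⟨max m m', ?_⟩
    intro x hx
    rcases List.mem_cons.1 hx with rfl | hx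
    · exact GBound_mono π (le_max_right _ _) hm'
    · exact GBound_mono π (le_max_left _ _) (hm x hx)

theorem GBound_inM (π : Fin d → List (F × Fin n)) (y : MB (Fin n) (Fin d × Fin d) →₀ F)
    (p : MB (Fin n) (Fin d × Fin d)) : SC.val _ (inM π y) (Sum.inr p) = y p :=
  Finsupp.mapDomain_apply Sum.inr_injective y p

theorem GBound_ClB {κ S ι : Type} (G : κ → (MB S ι →₀ F)) {a b : ℕ} (h : a ≤ b) :
    ClB F G a ≤ ClB F G b := by
  apply Submodule.span_mono
  rintro z ⟨k, u, hu, rfl⟩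
  exact ⟨k, u, hu.trans h, rfl⟩

theorem GBound_KBt {S ι : Type} (ent : ℕ → ℕ → Bool) {a b : ℕ} (h : a ≤ b) :
    KBt F S ι ent a ≤ KBt F S ι ent b := by
  apply Submodule.span_mono
  rintro z ⟨L, hL, L', hL', hz⟩
  exact ⟨L, hL.trans h, L', hL'.trans h, hz⟩

/-- Bounded membership in the ideal: `z = ∑ c p • rhat p + inM y`, where `y` is bounded as `z` and
the `rhat p` are; apply `bd_basis` to `y`. -/
theorem II_bound (π : Fin d → List (F × Fin n)) (ent : ℕ → ℕ → Bool)
    (r : List (Poly F (Fin d))) :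
    ∃ C, ∀ m σ, (∀ n' q, n'.unpair.1 < n → (n' + 1) ^ 2 ≤ (m + C) ^ 2 →
        kil ent n' q = true → ∃ q' ≤ σ, kil ent n' q' = true) →
      ∀ z : GA π, (∀ p : MB (Fin n) (Fin d × Fin d), SC.val _ z (Sum.inr p) ≠ 0 →
          p.2.1.length ≤ m ∧ p.2.2.1.length ≤ m) →
        (z ∈ II π ent r ↔ z ∈ Submodule.span F {z | ∃ p ∈ r, z = rhat π p} ⊔
          (ClB F (GG π r) (C * ((m + C) ^ 2 + σ + 1)) ⊔
            KBt F (Fin n) (Fin d × Fin d) ent (C * ((m + C) ^ 2 + σ + 1))).map (inM π)) := by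
  obtain ⟨C1, h1⟩ := bd_basis F (S := Fin n) (ι := Fin d × Fin d) ent (GG π r)
  obtain ⟨C0, h0⟩ := GBound_list π (r.map (rhat π))
  refine ⟨C0 + C1, fun m σ hσ z hz => ⟨fun h => ?_, fun h => ?_⟩⟩
  · unfold II at h
    obtain ⟨s, hs, w, hw, rfl⟩ := Submodule.mem_sup.1 h
    obtain ⟨y, hy, rfl⟩ := hw
    have hs' : s ∈ GBound_bd π (m + C0) := by
      refine (Submodule.span_le.2 ?_) hs
      rintro x ⟨p, hp, rfl⟩
      exact GBound_mono π (Nat.le_add_left _ _) (h0 _ (List.mem_map.2 ⟨p, hp, rfl⟩))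
    have hz' : s + inM π y ∈ GBound_bd π (m + C0) :=
      GBound_mono π (Nat.le_add_right _ _) ((GBound_mem π m _).2 hz)
    have hy' : inM π y ∈ GBound_bd π (m + C0) := by
      have := Submodule.sub_mem _ hz' hs'
      rwa [add_sub_cancel_left] at this
    have hyb : y ∈ bdg F (Fin n) (Fin d × Fin d) (m + C0) := by
      unfold bdg
      rw [Finsupp.mem_supported]
      intro p hp
      rw [GBound_mem] at hy'
      apply hy' p
      rw [GBound_inM]
      exact Finsupp.mem_support_iff.1 hp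
    have h2 := h1 (m + C0) σ (fun n' q hn hle hk => hσ n' q (by simpa using hn)
      (by rw [← add_assoc]; exact hle) hk) y hyb hy
    refine Submodule.mem_sup.2 ⟨s, hs, inM π y, ⟨y, ?_, rfl⟩, rfl⟩
    have hC : C1 * ((m + C0 + C1) ^ 2 + σ + 1) ≤
        (C0 + C1) * ((m + (C0 + C1)) ^ 2 + σ + 1) := by
      rw [← add_assoc m C0 C1]
      exact Nat.mul_le_mul_right _ (Nat.le_add_left _ _)
    have h3 := sup_le_sup (GBound_ClB (GG π r) hC)
      (GBound_KBt (F := F) (S := Fin n) (ι := Fin d × Fin d) ent hC)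
    exact h3 h2
  · unfold II
    have h3 : ClB F (GG π r) ((C0 + C1) * ((m + (C0 + C1)) ^ 2 + σ + 1)) ⊔
        KBt F (Fin n) (Fin d × Fin d) ent ((C0 + C1) * ((m + (C0 + C1)) ^ 2 + σ + 1)) ≤
        ClBw F (GG π r) ⊔ KB F (Fin n) (Fin d × Fin d) ent := by
      refine sup_le_sup ?_ ?_
      · apply Submodule.span_mono
        rintro z ⟨k, u, -, rfl⟩
        exact ⟨k, u, rfl⟩
      · apply Submodule.span_mono
        rintro z ⟨L, -, L', -, hz⟩
        exact ⟨L, L', hz⟩
    have h4 := sup_le_sup (le_refl (Submodule.span F {z | ∃ p ∈ r, z = rhat π p}))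
      (Submodule.map_mono (f := inM π) h3)
    exact h4 h

end Pool.Agent.W_59b51d_c25
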