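import Pool.Agent.W_59b51d_c25.MBDefs
import Pool.Agent.W_59b51d_c25.CU

/-!
# Computable spanning lists
-/

namespace Pool.Agent.W_59b51d_c25

variable {F : Type} [Field F] [Primcodable F]

private theorem GClL_actB_eq {S ι : Type} (o : Bool × S) (m : MB S ι) :
    actB o m = bif m.1.isSome then none else
      bif o.1 then
        (bif m.2.1.head?.isSome then some (some o.2, m.2.1, m.2.2.1, m.2.2.2)
          else some (none, m.2.1, m.2.2.1 ++ [o.2], m.2.2.2))
      else some (none, m.2.1 ++ [o.2], m.2.2.1, m.2.2.2) := by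
  obtain ⟨o1, o2⟩ := o
  obtain ⟨e, l, b, i⟩ := m
  cases e <;> cases l <;> cases o1 <;> rfl

private theorem GClL_actB (n d : ℕ) :
    Primrec₂ (actB : Bool × Fin n → MB (Fin n) (Fin d × Fin d) →
      Option (MB (Fin n) (Fin d × Fin d))) := by
  have o1 : Primrec fun p : (Bool × Fin n) × MB (Fin n) (Fin d × Fin d) => p.1.1 :=
    Primrec.fst.comp Primrec.fst
  have o2 : Primrec fun p : (Bool × Fin n) × MB (Fin n) (Fin d × Fin d) => p.1.2 :=
    Primrec.snd.comp Primrec.fst
  have m1 : Primrec fun p : (Bool × Fin n) × MB (Fin n) (Fin d × Fin d) => p.2.1 :=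
    Primrec.fst.comp Primrec.snd
  have m2 : Primrec fun p : (Bool × Fin n) × MB (Fin n) (Fin d × Fin d) => p.2.2.1 :=
    Primrec.fst.comp (Primrec.snd.comp Primrec.snd)
  have m3 : Primrec fun p : (Bool × Fin n) × MB (Fin n) (Fin d × Fin d) => p.2.2.2.1 :=
    Primrec.fst.comp (Primrec.snd.comp (Primrec.snd.comp Primrec.snd))
  have m4 : Primrec fun p : (Bool × Fin n) × MB (Fin n) (Fin d × Fin d) => p.2.2.2.2 :=
    Primrec.snd.comp (Primrec.snd.comp (Primrec.snd.comp Primrec.snd))
  have ol : Primrec fun p : (Bool × Fin n) × MB (Fin n) (Fin d × Fin d) => [p.1.2] :=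
    Primrec.list_cons.comp o2 (Primrec.const [])
  have key : Primrec fun p : (Bool × Fin n) × MB (Fin n) (Fin d × Fin d) =>
      bif p.2.1.isSome then none else
      bif p.1.1 then
        (bif p.2.2.1.head?.isSome then some (some p.1.2, p.2.2.1, p.2.2.2.1, p.2.2.2.2)
          else some (none, p.2.2.1, p.2.2.2.1 ++ [p.1.2], p.2.2.2.2))
      else some (none, p.2.2.1 ++ [p.1.2], p.2.2.2.1, p.2.2.2.2) := by
    refine Primrec.cond (Primrec.option_isSome.comp m1) (Primrec.const none) ?_
    refine Primrec.cond o1 ?_ ?_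
    · refine Primrec.cond (Primrec.option_isSome.comp (Primrec.list_head?.comp m2)) ?_ ?_
      · exact Primrec.option_some.comp (Primrec.pair (Primrec.option_some.comp o2)
          (Primrec.pair m2 (Primrec.pair m3 m4)))
      · exact Primrec.option_some.comp (Primrec.pair (Primrec.const none)
          (Primrec.pair m2 (Primrec.pair (Primrec.list_append.comp m3 ol) m4)))
    · exact Primrec.option_some.comp (Primrec.pair (Primrec.const none)
          (Primrec.pair (Primrec.list_append.comp m2 ol) (Primrec.pair m3 m4)))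
  exact key.of_eq fun p => (GClL_actB_eq p.1 p.2).symm

/-- The operator on lists of pairs. -/
private def GClL_op {S ι : Type} (o : Bool × S) (g : List (F × MB S ι)) : List (F × MB S ι) :=
  g.filterMap fun q => (actB o q.2).map fun b => (q.1, b)

omit [Primcodable F] in
private theorem GClL_vecB_op {S ι : Type} (o : Bool × S) (g : List (F × MB S ι)) :
    vecB (GClL_op o g) = actBL F o (vecB g) := by
  induction g with
  | nil => simp [GClL_op, vecB]
  | cons q g ih =>
    have h1 : actBL F o (Finsupp.single q.2 q.1) = q.1 • osg F (actB o q.2) := by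
      rw [actBL, Finsupp.linearCombination_single]
    rw [vecB_cons, map_add, ← ih, h1]
    cases h : actB o q.2 with
    | none =>
      have h2 : GClL_op o (q :: g) = GClL_op o g := by
        simp [GClL_op, h]
      rw [h2]
      simp [osg]
    | some b =>
      have h2 : GClL_op o (q :: g) = (q.1, b) :: GClL_op o g := by
        simp [GClL_op, h]
      rw [h2, vecB_cons]
      simp [osg]

/-- The recursion. -/
private def GClL_L {S ι : Type} (ops : List (Bool × S)) (L0 : List (List (F × MB S ι)))
    (m : ℕ) : List (List (F × MB S ι)) :=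
  Nat.rec L0 (fun _ IH => L0 ++ IH.flatMap fun g => ops.map fun o => GClL_op o g) m

omit [Primcodable F] in
private theorem GClL_actw {S ι : Type} (u : List (Bool × S)) (o : Bool × S) (z : MB S ι →₀ F) :
    actwB F (u ++ [o]) z = actBL F o (actwB F u z) := by
  induction u generalizing z with
  | nil => rfl
  | cons a u ih =>
    show actwB F (u ++ [o]) (actBL F a z) = actBL F o (actwB F u (actBL F a z))
    exact ih _

omit [Primcodable F] in
private theorem GClL_mem {S ι κ : Type} (ops : List (Bool × S)) (hops : ∀ o, o ∈ ops)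
    (L0 : List (List (F × MB S ι))) (G : κ → (MB S ι →₀ F))
    (h0 : ∀ v, (∃ g ∈ L0, v = vecB g) ↔ ∃ k, v = G k) (m : ℕ) (v : MB S ι →₀ F) :
    (∃ g ∈ GClL_L ops L0 m, v = vecB g) ↔
      ∃ k, ∃ u : List (Bool × S), u.length ≤ m ∧ v = actwB F u (G k) := by
  induction m generalizing v with
  | zero =>
    constructor
    · intro h
      obtain ⟨k, hk⟩ := (h0 v).1 h
      exact ⟨k, [], le_rfl, hk⟩
    · rintro ⟨k, u, hu, hv⟩
      have h1 : u = [] := List.length_eq_zero_iff.1 (Nat.le_zero.1 hu)
      subst h1
      exact (h0 v).2 ⟨k, hv⟩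
  | succ m ih =>
    have hL : GClL_L ops L0 (m + 1) =
      L0 ++ (GClL_L ops L0 m).flatMap fun g => ops.map fun o => GClL_op o g := rfl
    rw [hL]
    constructor
    · rintro ⟨g, hg, hv⟩
      rcases List.mem_append.1 hg with h1 | h1
      · obtain ⟨k, hk⟩ := (h0 v).1 ⟨g, h1, hv⟩
        exact ⟨k, [], Nat.zero_le _, hk⟩
      · obtain ⟨g', hg', h2⟩ := List.mem_flatMap.1 h1
        obtain ⟨o, -, rfl⟩ := List.mem_map.1 h2
        obtain ⟨k, u, hu, h3⟩ := (ih (vecB g')).1 ⟨g', hg', rfl⟩
        refine ⟨k, u ++ [o], ?_, ?_⟩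
        · rw [List.length_append]
          exact Nat.succ_le_succ hu
        · rw [GClL_actw, ← h3, hv, GClL_vecB_op]
    · rintro ⟨k, u, hu, hv⟩
      rcases List.eq_nil_or_concat u with h1 | ⟨u', o, h1⟩
      · subst h1
        obtain ⟨g, hg, h2⟩ := (h0 v).2 ⟨k, hv⟩
        exact ⟨g, List.mem_append_left _ hg, h2⟩
      · subst h1
        have h2 : u'.length ≤ m := by
          rw [List.concat_eq_append, List.length_append] at hu
          exact Nat.le_of_succ_le_succ hu
        obtain ⟨g, hg, h3⟩ := (ih (actwB F u' (G k))).2 ⟨k, u', h2, rfl⟩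
        refine ⟨GClL_op o g, List.mem_append_right _ (List.mem_flatMap.2
          ⟨g, hg, List.mem_map.2 ⟨o, hops o, rfl⟩⟩), ?_⟩
        rw [GClL_vecB_op, ← h3, hv, List.concat_eq_append, GClL_actw]

/-- `ClB F G n` is spanned by a computable list of vectors: `L 0` is a list of the `G k`
(`exists_vecB`), `L (n + 1)` is `L 0` together with the images of the members of `L n` under the
operators `(o, s)` (`List.filterMap` with `actB`). -/
theorem exists_clL {κ : Type} [Finite κ] (n d : ℕ)
    (G : κ → (MB (Fin n) (Fin d × Fin d) →₀ F)) :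
    ∃ L : ℕ → List (List (F × MB (Fin n) (Fin d × Fin d))), Computable L ∧
      ∀ m, Submodule.span F {v | ∃ g ∈ L m, v = vecB g} = ClB F G m := by
  classical
  have := Fintype.ofFinite κ
  choose g0 hg0 using fun k => exists_vecB (G k)
  let L0 : List (List (F × MB (Fin n) (Fin d × Fin d))) := (Finset.univ : Finset κ).toList.map g0
  let ops : List (Bool × Fin n) := (Finset.univ : Finset (Bool × Fin n)).toList
  refine ⟨GClL_L ops L0, ?_, ?_⟩
  · have hstep : Computable₂ fun (_ : ℕ) (p : ℕ × List (List (F × MB (Fin n) (Fin d × Fin d)))) =>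
        L0 ++ p.2.flatMap fun g => ops.map fun o => GClL_op o g := by
      refine Computable.list_append.comp (Computable.const L0) ?_
      refine computable_flatMap (Computable.snd.comp Computable.snd) ?_
      refine computable_map (Computable.const ops) ?_
      refine computable_filterMap (Computable.snd.comp Computable.fst) ?_
      refine Computable.option_map ((GClL_actB n d).to_comp.comp
        (Computable.snd.comp Computable.fst) (Computable.snd.comp Computable.snd)) ?_
      exact (Computable.pair (Computable.fst.comp (Computable.snd.comp Computable.fst))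
        Computable.snd)
    exact (Computable.nat_rec Computable.id (Computable.const L0) hstep)
  · intro m
    unfold ClB
    congr 1
    ext v
    refine GClL_mem ops (fun o => by simp [ops]) L0 G (fun v => ?_) m v
    constructor
    · rintro ⟨g, hg, hv⟩
      obtain ⟨k, -, rfl⟩ := List.mem_map.1 hg
      exact ⟨k, hv.trans (hg0 k)⟩
    · rintro ⟨k, hk⟩
      exact ⟨g0 k, List.mem_map.2 ⟨k, by simp, rfl⟩, hk.trans (hg0 k).symm⟩

end Pool.Agent.W_59b51d_c25
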