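import Pool.Agent.W_59b51d_c25.GKill

/-!
# Completeness of the normal form
-/

namespace Pool.Agent.W_59b51d_c25

open Pool.Agent.W_59b51d_h18 (Poly code Multilinear)

variable {F : Type} [Field F] {d : ℕ} {S : Type} (π : Fin d → List (F × S))

theorem GComp_actwB_append {ι : Type} (u v : List (Bool × S)) (m : MB S ι →₀ F) :
    actwB F (u ++ v) m = actwB F v (actwB F u m) := by
  induction u generalizing m with
  | nil => rfl
  | cons o u ih =>
    rw [List.cons_append]
    change actwB F (u ++ v) (actBL F o m) = actwB F v (actwB F u (actBL F o m))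
    exact ih _

theorem GComp_ClBw_act {ι κ : Type} (G : κ → (MB S ι →₀ F)) (o : Bool × S)
    {m : MB S ι →₀ F} (hm : m ∈ ClBw F G) : actBL F o m ∈ ClBw F G := by
  unfold ClBw at hm ⊢
  induction hm using Submodule.span_induction with
  | mem z hz =>
    obtain ⟨k, u, rfl⟩ := hz
    refine Submodule.subset_span ⟨k, u ++ [o], ?_⟩
    rw [GComp_actwB_append]
    rfl
  | zero => rw [map_zero]; exact zero_mem _
  | add x y _ _ hx hy => rw [map_add]; exact add_mem hx hy
  | smul c x _ hx => rw [map_smul]; exact Submodule.smul_mem _ _ hx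

/-- The module part of the ideal is closed under the operators. -/
theorem GComp_rho {ι κ : Type} (ent : ℕ → ℕ → Bool) (G : κ → (MB S ι →₀ F)) (o : Bool)
    (L : S →₀ F) {m : MB S ι →₀ F} (hm : m ∈ ClBw F G ⊔ KB F S ι ent) :
    rho F o L m ∈ ClBw F G ⊔ KB F S ι ent := by
  have key : ∀ s : S, actBL F (o, s) m ∈ ClBw F G ⊔ KB F S ι ent := by
    intro s
    obtain ⟨a, ha, b, hb, rfl⟩ := Submodule.mem_sup.1 hm
    rw [map_add, actBL_KB F ent (o, s) hb, add_zero]
    exact Submodule.mem_sup_left (GComp_ClBw_act G (o, s) ha)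
  induction L using Finsupp.induction_linear with
  | zero => rw [map_zero, LinearMap.zero_apply]; exact zero_mem _
  | add f g hf hg => rw [map_add, LinearMap.add_apply]; exact add_mem hf hg
  | single s c =>
    have h : rho F o (Finsupp.single s c) m = c • actBL F (o, s) m := by
      rw [← rho_single, ← LinearMap.smul_apply, ← map_smul, Finsupp.smul_single, smul_eq_mul,
        mul_one]
    rw [h]
    exact Submodule.smul_mem _ _ (key s)

/-- `inM` of the module part. -/
theorem GComp_inM_mem (ent : ℕ → ℕ → Bool) (r : List (Poly F (Fin d)))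
    {m : MB S (Fin d × Fin d) →₀ F}
    (hm : m ∈ ClBw F (GG π r) ⊔ KB F S (Fin d × Fin d) ent) : inM π m ∈ II π ent r :=
  Submodule.mem_sup_right (Submodule.mem_map_of_mem hm)

theorem GComp_GG_mem (ent : ℕ → ℕ → Bool) (r : List (Poly F (Fin d)))
    (k : Fin r.length × Fin d × Bool) :
    GG π r k ∈ ClBw F (GG π r) ⊔ KB F S (Fin d × Fin d) ent :=
  Submodule.mem_sup_left (Submodule.subset_span ⟨k, [], rfl⟩)

theorem GComp_mul_rhat (ent : ℕ → ℕ → Bool) (r : List (Poly F (Fin d)))
    (hπ : ∀ p ∈ r, lab π (rhat π p) = 0) (p : Poly F (Fin d)) (hp : p ∈ r) (x : GA π) :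
    x * rhat π p ∈ II π ent r ∧ rhat π p * x ∈ II π ent r := by
  obtain ⟨k, hk, rfl⟩ := List.getElem_of_mem hp
  obtain ⟨c, m, rfl⟩ := exists_decomp π x
  constructor
  · rw [add_mul, inM_mul, hπ _ hp, map_zero, LinearMap.zero_apply, map_zero, add_zero,
      Finset.sum_mul]
    refine Submodule.sum_mem _ fun i _ => ?_
    rw [smul_mul_assoc]
    refine Submodule.smul_mem _ _ ?_
    have h := inM_GG π r (⟨k, hk⟩, i, false)
    simp only [Bool.false_eq_true, if_false, Fin.getElem_fin] at h
    rw [← h]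
    exact GComp_inM_mem π ent r (GComp_GG_mem π ent r _)
  · rw [mul_add, mul_inM, hπ _ hp, map_zero, LinearMap.zero_apply, map_zero, add_zero,
      Finset.mul_sum]
    refine Submodule.sum_mem _ fun i _ => ?_
    rw [mul_smul_comm]
    refine Submodule.smul_mem _ _ ?_
    have h := inM_GG π r (⟨k, hk⟩, i, true)
    simp only [if_true, Fin.getElem_fin] at h
    rw [← h]
    exact GComp_inM_mem π ent r (GComp_GG_mem π ent r _)

/-- `II` is an ideal: `rhat p * gx i` and `gx i * rhat p` are the `inM (GG …)` (`inM_GG`),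
`rhat p * inM m = inM (rho false (lab (rhat p)) m) = 0`; `ClBw` is closed under `actBL`, kills are
mapped to `0` (`actBL_KB`); decompose the other factor by `exists_decomp`, resp. use `lab`. -/
theorem II_mul (ent : ℕ → ℕ → Bool) (r : List (Poly F (Fin d)))
    (hπ : ∀ p ∈ r, lab π (rhat π p) = 0) :
    (∀ x, ∀ y ∈ II π ent r, x * y ∈ II π ent r) ∧ ∀ x ∈ II π ent r, ∀ y, x * y ∈ II π ent r := by
  have key : ∀ y ∈ II π ent r, ∀ x : GA π, x * y ∈ II π ent r ∧ y * x ∈ II π ent r := by
    intro y hy x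
    obtain ⟨s, hs, z, hz, rfl⟩ := Submodule.mem_sup.1 hy
    obtain ⟨m, hm, rfl⟩ := hz
    have h1 : x * s ∈ II π ent r ∧ s * x ∈ II π ent r := by
      clear hy hm
      induction hs using Submodule.span_induction with
      | mem z hz =>
        obtain ⟨p, hp, rfl⟩ := hz
        exact GComp_mul_rhat π ent r hπ p hp x
      | zero => rw [mul_zero, zero_mul]; exact ⟨zero_mem _, zero_mem _⟩
      | add a b _ _ ha hb =>
        rw [mul_add, add_mul]
        exact ⟨add_mem ha.1 hb.1, add_mem ha.2 hb.2⟩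
      | smul c a _ ha =>
        rw [mul_smul_comm, smul_mul_assoc]
        exact ⟨Submodule.smul_mem _ _ ha.1, Submodule.smul_mem _ _ ha.2⟩
    rw [mul_add, add_mul, mul_inM, inM_mul]
    exact ⟨add_mem h1.1 (GComp_inM_mem π ent r (GComp_rho ent _ _ _ hm)),
      add_mem h1.2 (GComp_inM_mem π ent r (GComp_rho ent _ _ _ hm))⟩
  exact ⟨fun x y hy => (key y hy x).1, fun x hx y => (key x hx y).2⟩

/-- By `Vanishes.mem_ideal`, `II_mul`, `ident_mem`. -/
theorem complete (ent : ℕ → ℕ → Bool) (r : List (Poly F (Fin d)))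
    (hπ : ∀ p ∈ r, lab π (rhat π p) = 0) (w : Poly F (Fin d))
    (h : Vanishes F (fun t => poly F (fam ent t)) r w) : w.eval (gx π) ∈ II π ent r := by
  refine h.mem_ideal (II π ent r) (II_mul π ent r hπ).1 (II_mul π ent r hπ).2 ?_ (gx π) ?_
  · intro t v
    obtain ⟨m, hm, hmv⟩ := ident_mem π ent t v
    rw [← hmv]
    exact GComp_inM_mem π ent r (Submodule.mem_sup_right hm)
  · intro p hp
    exact Submodule.mem_sup_left (Submodule.subset_span ⟨p, hp, rfl⟩)

end Pool.Agent.W_59b51d_c25
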