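import Pool.Agent.W_59b51d_c25.Defs

/-!
# Vanishing and ideals
-/

namespace Pool.Agent.W_59b51d_c25

open Pool.Agent.W_59b51d_h18 (Poly code Multilinear)

section Quot_section

variable {F : Type} [Field F] {A : Type} [NonUnitalNonAssocRing A] [Module F A]

/-- The quotient module. -/
def Quot_A (I : Submodule F A) : Type := A ⧸ I

noncomputable instance Quot_acg (I : Submodule F A) : AddCommGroup (Quot_A I) :=
  inferInstanceAs (AddCommGroup (A ⧸ I))

noncomputable instance Quot_mod (I : Submodule F A) : Module F (Quot_A I) :=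
  inferInstanceAs (Module F (A ⧸ I))

/-- The projection. -/
noncomputable def Quot_mk (I : Submodule F A) : A →ₗ[F] Quot_A I := I.mkQ

theorem Quot_surj (I : Submodule F A) : Function.Surjective (Quot_mk I) :=
  Submodule.mkQ_surjective _

theorem Quot_zero (I : Submodule F A) {x : A} : Quot_mk I x = 0 ↔ x ∈ I :=
  Submodule.Quotient.mk_eq_zero _

variable [IsScalarTower F A A] [SMulCommClass F A A]

/-- The product with a fixed left factor. -/
noncomputable def Quot_left (I : Submodule F A) (hl : ∀ x, ∀ y ∈ I, x * y ∈ I) :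
    A →ₗ[F] Quot_A I →ₗ[F] Quot_A I where
  toFun x := I.liftQ (Quot_mk I ∘ₗ LinearMap.mul F A x) (by
    intro y hy
    rw [LinearMap.mem_ker, LinearMap.comp_apply, Quot_zero, LinearMap.mul_apply']
    exact hl x y hy)
  map_add' x x' := by
    refine LinearMap.ext fun z => ?_
    obtain ⟨y, rfl⟩ := Quot_surj I z
    change Quot_mk I ((x + x') * y) = Quot_mk I (x * y) + Quot_mk I (x' * y)
    rw [add_mul, map_add]
  map_smul' c x := by
    refine LinearMap.ext fun z => ?_
    obtain ⟨y, rfl⟩ := Quot_surj I z
    change Quot_mk I ((c • x) * y) = c • Quot_mk I (x * y)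
    rw [smul_mul_assoc, map_smul]

/-- The product. -/
noncomputable def Quot_mul (I : Submodule F A) (hl : ∀ x, ∀ y ∈ I, x * y ∈ I)
    (hr : ∀ x ∈ I, ∀ y, x * y ∈ I) : Quot_A I →ₗ[F] Quot_A I →ₗ[F] Quot_A I :=
  I.liftQ (Quot_left I hl) (by
    intro x hx
    rw [LinearMap.mem_ker]
    refine LinearMap.ext fun z => ?_
    obtain ⟨y, rfl⟩ := Quot_surj I z
    change Quot_mk I (x * y) = 0
    rw [Quot_zero]
    exact hr x hx y)

theorem Quot_mul_mk (I : Submodule F A) (hl : ∀ x, ∀ y ∈ I, x * y ∈ I)
    (hr : ∀ x ∈ I, ∀ y, x * y ∈ I) (x y : A) :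
    Quot_mul I hl hr (Quot_mk I x) (Quot_mk I y) = Quot_mk I (x * y) := rfl

/-- The quotient ring. -/
@[reducible] noncomputable def Quot_ring (I : Submodule F A) (hl : ∀ x, ∀ y ∈ I, x * y ∈ I)
    (hr : ∀ x ∈ I, ∀ y, x * y ∈ I) : NonUnitalNonAssocRing (Quot_A I) :=
  { Quot_acg I with
    mul := fun x y => Quot_mul I hl hr x y
    left_distrib := fun x y z => map_add (Quot_mul I hl hr x) y z
    right_distrib := fun x y z => by
      change Quot_mul I hl hr (x + y) z = Quot_mul I hl hr x z + Quot_mul I hl hr y z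
      rw [map_add, LinearMap.add_apply]
    zero_mul := fun x => by
      change Quot_mul I hl hr 0 x = 0
      rw [map_zero, LinearMap.zero_apply]
    mul_zero := fun x => map_zero (Quot_mul I hl hr x) }

end Quot_section

/-- A polynomial which vanishes in the presented algebra has its value in every ideal `I` of an
algebra `A` which contains the values of the identities and of the relators.

Proof. The quotient of `A` by the ideal `I` (compare `W_59b51d_h18/SQuot.lean`: take the quotient
module `A ⧸ I` with the product induced by `LinearMap.mul F A` by two uses of `Submodule.liftQ`) is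
an algebra of the variety; a family `v : ℕ → A ⧸ I` lifts to `A`, and `Poly.eval` commutes with
the projection. -/
theorem Vanishes.mem_ideal {F : Type} [Field F] {f : ℕ → Poly F ℕ} {X : Type}
    {r : List (Poly F X)} {w : Poly F X} (h : Vanishes F f r w) {A : Type}
    [NonUnitalNonAssocRing A] [Module F A] [IsScalarTower F A A] [SMulCommClass F A A]
    (I : Submodule F A) (hl : ∀ x, ∀ y ∈ I, x * y ∈ I) (hr : ∀ x ∈ I, ∀ y, x * y ∈ I)
    (hf : ∀ (t : ℕ) (v : ℕ → A), (f t).eval v ∈ I) (a : X → A) (ha : ∀ p ∈ r, p.eval a ∈ I) :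
    w.eval a ∈ I := by
  let R : NonUnitalNonAssocRing (Quot_A I) := Quot_ring I hl hr
  have h1 : IsScalarTower F (Quot_A I) (Quot_A I) := ⟨fun c x y => by
    change Quot_mul I hl hr (c • x) y = c • Quot_mul I hl hr x y
    rw [map_smul, LinearMap.smul_apply]⟩
  have h2 : SMulCommClass F (Quot_A I) (Quot_A I) :=
    ⟨fun c x y => (map_smul (Quot_mul I hl hr x) c y).symm⟩
  have hlift : ∀ {Y : Type} (v : Y → A) (m : FreeMagma Y),
      FreeMagma.lift (fun i => Quot_mk I (v i)) m = Quot_mk I (FreeMagma.lift v m) := by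
    intro Y v m
    induction m using FreeMagma.rec with
    | of i => rfl
    | mul s t hs ht =>
      change FreeMagma.lift (fun i => Quot_mk I (v i)) s *
        FreeMagma.lift (fun i => Quot_mk I (v i)) t =
          Quot_mk I (FreeMagma.lift v s * FreeMagma.lift v t)
      rw [hs, ht, ← Quot_mul_mk I hl hr]
      rfl
  have heval : ∀ {Y : Type} (v : Y → A) (p : Poly F Y),
      p.eval (fun i => Quot_mk I (v i)) = Quot_mk I (p.eval v) := by
    intro Y v p
    unfold Pool.Agent.W_59b51d_h18.Poly.eval
    induction p with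
    | nil => simp
    | cons q p ih =>
      rw [List.map_cons, List.map_cons, List.sum_cons, List.sum_cons, map_add, ← ih, hlift,
        map_smul]
  have h3 : Satisfies (Quot_A I) f := by
    intro t v
    obtain ⟨v', hv'⟩ : ∃ v' : ℕ → A, v = fun i => Quot_mk I (v' i) := by
      choose g hg using Quot_surj I
      exact ⟨fun i => g (v i), funext fun i => (hg (v i)).symm⟩
    rw [hv', heval, Quot_zero]
    exact hf t v'
  have h4 := h (Quot_A I) h3 (fun i => Quot_mk I (a i)) (fun p hp => by
    rw [heval, Quot_zero]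
    exact ha p hp)
  rw [heval, Quot_zero] at h4
  exact h4

end Pool.Agent.W_59b51d_c25
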