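import Pool.Agent.W_59b51d_c25.MBDefs
import Pool.Agent.W_59b51d_c25.MLW
import Pool.Agent.W_59b51d_c25.Quot

/-!
# The algebra `V ⊕ M`

`V` has the basis `Fin d` (the generators), `M` the basis `MB S (Fin d × Fin d)`. The label of the
generator `i` is the combination `π i` of elements of `S`.
-/

namespace Pool.Agent.W_59b51d_c25

open Pool.Agent.W_59b51d_h18 (Poly code Multilinear)

/-- The basis. -/
abbrev NB (d : ℕ) (S : Type) : Type := Fin d ⊕ MB S (Fin d × Fin d)

/-- The products of the basis elements. -/
def mulG {F : Type} [Field F] {d : ℕ} {S : Type} (π : Fin d → List (F × S)) :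
    NB d S → NB d S → List (F × NB d S)
  | .inl i, .inl j => [(1, .inr (none, [], [], (i, j)))]
  | .inr m, .inl j => (π j).filterMap fun q => (actB (true, q.2) m).map fun m' => (q.1, .inr m')
  | .inl i, .inr m => (π i).filterMap fun q => (actB (false, q.2) m).map fun m' => (q.1, .inr m')
  | .inr _, .inr _ => []

variable {F : Type} [Field F] {d : ℕ} {S : Type} (π : Fin d → List (F × S))

/-- The algebra. -/
abbrev GA : Type := SC fun p q : NB d S => vecB (mulG π p q)

/-- The generators. -/
noncomputable def gx (i : Fin d) : GA π := SC.b _ (.inl i)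

/-- The inclusion of `M`. -/
noncomputable def inM : (MB S (Fin d × Fin d) →₀ F) →ₗ[F] GA π :=
  SC.of _ ∘ₗ Finsupp.lmapDomain F F Sum.inr

/-- The label of an element. -/
noncomputable def lab : GA π →ₗ[F] (S →₀ F) :=
  (Finsupp.linearCombination F (Sum.elim (fun i => vecB (π i)) fun _ => 0)) ∘ₗ SC.val _

theorem lab_gx (i : Fin d) : lab π (gx π i) = vecB (π i) := by
  simp only [lab, gx, LinearMap.comp_apply]
  change Finsupp.linearCombination F _ (Finsupp.single (Sum.inl i) (1 : F)) = _
  simp

theorem GDefs_inM_single (m : MB S (Fin d × Fin d)) (c : F) :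
    inM π (Finsupp.single m c) = c • SC.b (fun p q : NB d S => vecB (mulG π p q)) (.inr m) := by
  simp only [inM, LinearMap.comp_apply, Finsupp.lmapDomain_apply, Finsupp.mapDomain_single]
  exact SC.of_single _ _ _

theorem GDefs_lab_inr (m : MB S (Fin d × Fin d)) :
    lab π (SC.b (fun p q : NB d S => vecB (mulG π p q)) (.inr m)) = 0 := by
  simp only [lab, LinearMap.comp_apply]
  change Finsupp.linearCombination F _ (Finsupp.single (Sum.inr m) (1 : F)) = _
  simp

/-- Induction over the basis. -/
theorem GDefs_induction {P : GA π → Prop} (h0 : P 0) (hadd : ∀ x y, P x → P y → P (x + y))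
    (hs : ∀ (c : F) (p : NB d S), P (c • SC.b (fun p q : NB d S => vecB (mulG π p q)) p))
    (x : GA π) : P x := by
  have h : ∀ f : NB d S →₀ F, P (SC.of (fun p q : NB d S => vecB (mulG π p q)) f) := by
    intro f
    induction f using Finsupp.induction_linear with
    | zero => rw [map_zero]; exact h0
    | add f g hf hg => rw [map_add]; exact hadd _ _ hf hg
    | single p c =>
      rw [SC.of_single]
      exact hs c p
  exact h (SC.val _ x)

/-- Rules for the products: by bilinearity it suffices to check them on the basis elements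
(`SC.b_mul_b`). -/
theorem gx_mul_gx (i j : Fin d) :
    gx π i * gx π j = inM π (Finsupp.single (none, [], [], (i, j)) 1) := by
  have h : vecB (mulG π (.inl i) (.inl j)) =
      (Finsupp.single (Sum.inr (none, [], [], (i, j))) 1 : NB d S →₀ F) := by
    simp [mulG, vecB_cons, vecB_nil]
  rw [GDefs_inM_single, one_smul, gx, gx, SC.b_mul_b, h, SC.of_single, one_smul]

theorem GDefs_filterMap (o : Bool) (m : MB S (Fin d × Fin d)) (L : List (F × S)) :
    SC.of (fun p q : NB d S => vecB (mulG π p q))
      (vecB (L.filterMap fun q => (actB (o, q.2) m).map fun m' => (q.1, Sum.inr m'))) =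
      inM π (rho F o (vecB L) (Finsupp.single m 1)) := by
  induction L with
  | nil => simp [vecB_nil]
  | cons q L ih =>
    rw [vecB_cons, map_add, LinearMap.add_apply, map_add, ← ih]
    have h1 : rho F o (Finsupp.single q.2 q.1) (Finsupp.single m (1 : F)) =
        q.1 • osg F (actB (o, q.2) m) := by
      have h2 : (Finsupp.single q.2 q.1 : S →₀ F) = q.1 • Finsupp.single q.2 1 := by
        rw [Finsupp.smul_single, smul_eq_mul, mul_one]
      rw [h2, map_smul, LinearMap.smul_apply, rho_single, actBL_single]
    rw [h1, map_smul]
    cases h3 : actB (o, q.2) m with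
    | none =>
      rw [List.filterMap_cons_none (by simp [h3])]
      simp [osg]
    | some m' =>
      rw [List.filterMap_cons_some (b := (q.1, Sum.inr m')) (by simp [h3]), vecB_cons, map_add]
      congr 1
      simp only [osg]
      rw [GDefs_inM_single, one_smul, SC.of_single]

theorem inM_mul (m : MB S (Fin d × Fin d) →₀ F) (x : GA π) :
    inM π m * x = inM π (rho F true (lab π x) m) := by
  induction m using Finsupp.induction_linear with
  | zero => rw [map_zero, map_zero, map_zero, zero_mul]
  | add f g hf hg => rw [map_add, add_mul, hf, hg, map_add, map_add]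
  | single m c =>
    have h2 : (Finsupp.single m c : MB S (Fin d × Fin d) →₀ F) = c • Finsupp.single m 1 := by
      rw [Finsupp.smul_single, smul_eq_mul, mul_one]
    rw [h2, map_smul, map_smul, map_smul, smul_mul_assoc]
    congr 1
    rw [GDefs_inM_single, one_smul]
    refine GDefs_induction π (P := fun x => SC.b _ (.inr m) * x =
      inM π (rho F true (lab π x) (Finsupp.single m 1))) ?_ ?_ ?_ x
    · rw [mul_zero, map_zero, map_zero, LinearMap.zero_apply, map_zero]
    · intro x y hx hy
      rw [mul_add, hx, hy, map_add, map_add, LinearMap.add_apply, map_add]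
    · intro c p
      rw [mul_smul_comm, map_smul, map_smul, LinearMap.smul_apply, map_smul]
      congr 1
      rw [SC.b_mul_b]
      cases p with
      | inl j =>
        have h3 := lab_gx π j
        rw [gx] at h3
        rw [h3, ← GDefs_filterMap]
        rfl
      | inr m' =>
        have h4 : SC.of (fun p q : NB d S => vecB (mulG π p q)) 0 = 0 := map_zero _
        rw [GDefs_lab_inr, map_zero, LinearMap.zero_apply, map_zero, ← h4]
        rfl

theorem mul_inM (m : MB S (Fin d × Fin d) →₀ F) (x : GA π) :
    x * inM π m = inM π (rho F false (lab π x) m) := by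
  induction m using Finsupp.induction_linear with
  | zero => rw [map_zero, map_zero, map_zero, mul_zero]
  | add f g hf hg => rw [map_add, mul_add, hf, hg, map_add, map_add]
  | single m c =>
    have h2 : (Finsupp.single m c : MB S (Fin d × Fin d) →₀ F) = c • Finsupp.single m 1 := by
      rw [Finsupp.smul_single, smul_eq_mul, mul_one]
    rw [h2, map_smul, map_smul, map_smul, mul_smul_comm]
    congr 1
    rw [GDefs_inM_single, one_smul]
    refine GDefs_induction π (P := fun x => x * SC.b _ (.inr m) =
      inM π (rho F false (lab π x) (Finsupp.single m 1))) ?_ ?_ ?_ x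
    · rw [zero_mul, map_zero, map_zero, LinearMap.zero_apply, map_zero]
    · intro x y hx hy
      rw [add_mul, hx, hy, map_add, map_add, LinearMap.add_apply, map_add]
    · intro c p
      rw [smul_mul_assoc, map_smul, map_smul, LinearMap.smul_apply, map_smul]
      congr 1
      rw [SC.b_mul_b]
      cases p with
      | inl j =>
        have h3 := lab_gx π j
        rw [gx] at h3
        rw [h3, ← GDefs_filterMap]
        rfl
      | inr m' =>
        have h4 : SC.of (fun p q : NB d S => vecB (mulG π p q)) 0 = 0 := map_zero _
        rw [GDefs_lab_inr, map_zero, LinearMap.zero_apply, map_zero, ← h4]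
        rfl

/-- Every element is the sum of a combination of the generators and of an element of `M`. -/
theorem exists_decomp (x : GA π) : ∃ (c : Fin d → F) (m : MB S (Fin d × Fin d) →₀ F),
    x = ∑ i, c i • gx π i + inM π m := by
  refine GDefs_induction π (P := fun x => ∃ (c : Fin d → F) (m : MB S (Fin d × Fin d) →₀ F),
    x = ∑ i, c i • gx π i + inM π m) ?_ ?_ ?_ x
  · exact ⟨0, 0, by simp⟩
  · rintro x y ⟨c, m, rfl⟩ ⟨c', m', rfl⟩
    refine ⟨c + c', m + m', ?_⟩
    simp only [Pi.add_apply, add_smul, Finset.sum_add_distrib, map_add]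
    abel
  · intro c p
    cases p with
    | inl j =>
      refine ⟨Pi.single j c, 0, ?_⟩
      rw [map_zero, add_zero, Finset.sum_eq_single j]
      · rw [Pi.single_eq_same]; rfl
      · intro i _ hi
        rw [Pi.single_eq_of_ne hi, zero_smul]
      · intro h
        exact absurd (Finset.mem_univ j) h
    | inr m =>
      refine ⟨0, Finsupp.single m c, ?_⟩
      rw [GDefs_inM_single]
      simp

/-- All products are in `M`. -/
theorem mul_mem (x y : GA π) : x * y ∈ LinearMap.range (inM π) := by
  obtain ⟨c, m, rfl⟩ := exists_decomp π x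
  rw [add_mul, inM_mul]
  refine add_mem ?_ (LinearMap.mem_range_self _ _)
  rw [Finset.sum_mul]
  refine Submodule.sum_mem _ fun i _ => ?_
  rw [smul_mul_assoc]
  refine Submodule.smul_mem _ _ ?_
  obtain ⟨c', m', rfl⟩ := exists_decomp π y
  rw [mul_add, mul_inM]
  refine add_mem ?_ (LinearMap.mem_range_self _ _)
  rw [Finset.mul_sum]
  refine Submodule.sum_mem _ fun j _ => ?_
  rw [mul_smul_comm, gx_mul_gx]
  exact Submodule.smul_mem _ _ (LinearMap.mem_range_self _ _)

theorem lab_inM (m : MB S (Fin d × Fin d) →₀ F) : lab π (inM π m) = 0 := by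
  induction m using Finsupp.induction_linear with
  | zero => rw [map_zero, map_zero]
  | add f g hf hg => rw [map_add, map_add, hf, hg, add_zero]
  | single m c => rw [GDefs_inM_single, map_smul, GDefs_lab_inr, smul_zero]

theorem inM_injective : Function.Injective (inM π) := by
  intro f g h
  exact Finsupp.mapDomain_injective Sum.inr_injective (SC.of_injective _ h)

/-- The value of a polynomial at the generators. -/
noncomputable def rhat (p : Poly F (Fin d)) : GA π := p.eval (gx π)

/-- The products of the relators with the generators: `k = (i, j, o)` with `i` the number of the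
relator, `j` the number of the generator. -/
noncomputable def GG (r : List (Poly F (Fin d))) (k : Fin r.length × Fin d × Bool) :
    MB S (Fin d × Fin d) →₀ F :=
  Finsupp.comapDomain Sum.inr
    (SC.val _ (if k.2.2 then rhat π r[k.1] * gx π k.2.1 else gx π k.2.1 * rhat π r[k.1]))
    (Sum.inr_injective.injOn)

theorem GDefs_comap (z : GA π) (hz : z ∈ LinearMap.range (inM π)) :
    inM π (Finsupp.comapDomain Sum.inr (SC.val _ z) (Sum.inr_injective.injOn)) = z := by
  obtain ⟨m, rfl⟩ := hz
  congr 1
  ext p
  rw [Finsupp.comapDomain_apply]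
  exact Finsupp.mapDomain_apply Sum.inr_injective m p

theorem inM_GG (r : List (Poly F (Fin d))) (k : Fin r.length × Fin d × Bool) :
    inM π (GG π r k) =
      if k.2.2 then rhat π r[k.1] * gx π k.2.1 else gx π k.2.1 * rhat π r[k.1] := by
  have h : (if k.2.2 then rhat π r[k.1] * gx π k.2.1 else gx π k.2.1 * rhat π r[k.1]) ∈
      LinearMap.range (inM π) := by
    split_ifs
    · exact mul_mem π _ _
    · exact mul_mem π _ _
  exact GDefs_comap π _ h

/-- The ideal of the presented algebra. -/
noncomputable def II (ent : ℕ → ℕ → Bool) (r : List (Poly F (Fin d))) : Submodule F (GA π) :=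
  Submodule.span F {z | ∃ p ∈ r, z = rhat π p} ⊔
    (ClBw F (GG π r) ⊔ KB F S (Fin d × Fin d) ent).map (inM π)

end Pool.Agent.W_59b51d_c25
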