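import Pool.Agent.W_59b51d_c25.MBDefs

/-!
# Kills are values of the identities
-/

namespace Pool.Agent.W_59b51d_c25

variable (F : Type) [Field F] {S ι : Type}

theorem GKg_append (u v : List (Bool × S)) (m : MB S ι →₀ F) :
    actwB F (u ++ v) m = actwB F v (actwB F u m) := by
  induction u generalizing m with
  | nil => rfl
  | cons o u ih => exact ih _

theorem GKg_cons (o : Bool × S) (u : List (Bool × S)) (m : MB S ι →₀ F) :
    actwB F (o :: u) m = actwB F u (actBL F o m) := rfl

theorem GKg_R (ys b : List S) (i : ι) :
    actwB F (ys.map fun y => (true, y)) (Finsupp.single ((none, [], b, i) : MB S ι) 1) =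
      Finsupp.single (none, [], b ++ ys, i) 1 := by
  induction ys generalizing b with
  | nil => rw [List.append_nil]; rfl
  | cons y ys ih =>
    rw [List.map_cons, GKg_cons, actBL_single]
    have h := ih (b ++ [y])
    rw [List.append_assoc] at h
    exact h

theorem GKg_L (xs l b : List S) (i : ι) :
    actwB F (xs.map fun y => (false, y)) (Finsupp.single ((none, l, b, i) : MB S ι) 1) =
      Finsupp.single (none, l ++ xs, b, i) 1 := by
  induction xs generalizing l with
  | nil => rw [List.append_nil]; rfl
  | cons y ys ih =>
    rw [List.map_cons, GKg_cons, actBL_single]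
    have h := ih (l ++ [y])
    rw [List.append_assoc] at h
    cases l with
    | nil => exact h
    | cons x l => exact h

theorem GKg_E (e : S) (l b : List S) (i : ι) (hl : l ≠ []) :
    actwB F [(true, e)] (Finsupp.single ((none, l, b, i) : MB S ι) 1) =
      Finsupp.single (some e, l, b, i) 1 := by
  rw [GKg_cons, actBL_single]
  cases l with
  | nil => exact absurd rfl hl
  | cons x l => rfl

theorem GKg_ins_ne {α : Type} (x : α) (l : List α) : ∀ q ∈ ins x l, q.2 ≠ [] := by
  cases l with
  | nil =>
    intro q hq
    simp only [ins, List.mem_singleton] at hq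
    subst hq
    simp
  | cons y l =>
    intro q hq
    simp only [ins, List.mem_cons, List.mem_map] at hq
    rcases hq with rfl | ⟨r, -, rfl⟩ <;> simp

theorem GKg_ins_mem {α : Type} (x : α) (l : List α) :
    ∀ q ∈ ins x l, ∀ y ∈ q.2, y = x ∨ y ∈ l := by
  induction l with
  | nil =>
    intro q hq y hy
    simp only [ins, List.mem_singleton] at hq
    subst hq
    left
    simpa using hy
  | cons z l ih =>
    intro q hq y hy
    simp only [ins, List.mem_cons, List.mem_map] at hq
    rcases hq with rfl | ⟨r, hr, rfl⟩
    · simp only [List.mem_cons] at hy ⊢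
      tauto
    · simp only [List.mem_cons] at hy ⊢
      rcases hy with rfl | hy
      · tauto
      · have := ih r hr y hy
        tauto

theorem GKg_altP_lt (a : ℕ) : ∀ c ∈ altP a, ∀ y ∈ c.2, y < a := by
  induction a with
  | zero =>
    intro c hc y hy
    simp only [altP, List.mem_singleton] at hc
    subst hc
    simp at hy
  | succ a ih =>
    intro c hc y hy
    simp only [altP, List.mem_flatMap, List.mem_map] at hc
    obtain ⟨p, hp, q, hq, rfl⟩ := hc
    rcases GKg_ins_mem a p.2 q hq y hy with h | h
    · omega
    · have := ih p hp y h
      omega

theorem GKg_altP_ne (a : ℕ) : ∀ c ∈ altP (a + 1), c.2 ≠ [] := by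
  intro c hc
  simp only [altP, List.mem_flatMap, List.mem_map] at hc
  obtain ⟨p, hp, q, hq, rfl⟩ := hc
  exact GKg_ins_ne a p.2 q hq

theorem GKg_range (z : ℕ → S) (l : List S) (s : ℕ)
    (h : ∀ (m : ℕ) (hm : m < l.length), z (s + m) = l[m]) (o : Bool) :
    (List.range l.length).map (fun m => ((o, z (s + m)) : Bool × S)) =
      l.map fun y => (o, y) := by
  apply List.ext_getElem
  · simp
  · intro m h1 h2
    simp only [List.getElem_map, List.getElem_range]
    rw [h]

/-- Every kill generator is a value of an identity at a basis element `(none, [], b, i)`: for `k1`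
split `b = b' ++ [x]`, `t = l.length + 3`; for `k2` split `b = b' ++ b''` with `b''.length = q`,
`t = q + 3`. -/
theorem kill_gen (ent : ℕ → ℕ → Bool) {L L' : ℕ} {f : MB S ι →₀ F} (hf : KGenB F ent L L' f) :
    ∃ (t : ℕ) (z : ℕ → S) (b : List S) (i : ι), t ≠ 0 ∧
      f = ((idw ent t).map fun q => ((q.1 : ℤ) : F) •
        actwB F (q.2.map fun o => (o.1, z o.2)) (Finsupp.single (none, [], b, i) 1)).sum := by
  cases hf with
  | k1 e l b i hb hl =>
    have hb0 : b ≠ [] := by
      intro h
      rw [h] at hb
      simp at hb
    have hl0 : l ≠ [] := by
      intro h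
      rw [h] at hl
      simp [sp] at hl
    obtain ⟨b', x, rfl⟩ : ∃ b' x, b = b' ++ [x] := ⟨_, _, (List.dropLast_append_getLast hb0).symm⟩
    refine ⟨l.length + 3, fun m => if m = 0 then x else
      if h : m - 1 < l.length then l[m - 1] else e, b', i, by omega, ?_⟩
    have hidw : idw ent (l.length + 3) = [(1, w4 l.length)] := by
      simp only [idw, hl, Bool.false_eq_true, if_false]
    rw [hidw, List.map_singleton, List.sum_singleton]
    simp only [w4, Int.cast_one, one_smul, List.map_cons, List.map_append, List.map_map,
      List.map_nil, Function.comp_def]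
    rw [GKg_cons, GKg_append]
    have h0 : actBL F (true, if True then x else if h : 0 - 1 < l.length then l[0 - 1] else e)
        (Finsupp.single ((none, [], b', i) : MB S ι) 1) =
        Finsupp.single (none, [], b' ++ [x], i) 1 := by
      rw [if_pos trivial, actBL_single]
      rfl
    rw [h0]
    have h1 : (List.range l.length).map (fun m => ((false, if m + 1 = 0 then x else
        if h : m + 1 - 1 < l.length then l[m + 1 - 1] else e) : Bool × S)) =
        l.map fun y => (false, y) := by
      apply List.ext_getElem
      · simp
      · intro m h1 h2
        have h3 : m < l.length := by simpa using h1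
        simp [h3]
    rw [h1, GKg_L, List.nil_append]
    have h2 : (if l.length + 1 = 0 then x else if h : l.length + 1 - 1 < l.length then
        l[l.length + 1 - 1] else e) = e := by
      simp
    rw [h2, GKg_E F e l _ i hl0]
  | k2 e n q pre z0 b i hk hq hpre =>
    have hk' := hk
    simp only [kil, Bool.and_eq_true, decide_eq_true_eq] at hk'
    obtain ⟨hsp, hq0, hn, hent⟩ := hk'
    refine ⟨q + 3, fun m => if h : m < q then b[b.length - q + m]'(by omega) else
      if h : m - q < pre.length then pre[m - q] else
      if m = q + (n + 1) ^ 2 then e else z0 (m - q - pre.length), b.take (b.length - q), i,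
      by omega, ?_⟩
    have hidw : idw ent (q + 3) = (altP (n.unpair.1 + 1)).map fun c => (c.1, wk n q c.2) := by
      have hc : 0 < q ∧ ent (q.unpair.2 - 1).unpair.1 (q.unpair.2 - 1).unpair.2 = true := by
        rw [hn]
        exact ⟨hq0, hent⟩
      simp only [idw]
      rw [if_pos hsp, if_pos hc, hn]
    rw [hidw, List.map_map]
    congr 1
    apply List.map_congr_left
    intro c hc
    have hlt := GKg_altP_lt _ c hc
    have hne := GKg_altP_ne _ c hc
    have hJ : (n + 1) ^ 2 - (n.unpair.1 + 1) = pre.length := by omega
    simp only [Function.comp_def]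
    simp only [wk, List.map_append, List.map_map, List.map_cons, List.map_nil, Function.comp_def]
    rw [hJ, GKg_append, GKg_append, GKg_append]
    have h1 : (List.range q).map (fun m => ((true, if h : m < q then
        b[b.length - q + m]'(by omega) else
        if h : m - q < pre.length then pre[m - q] else
        if m = q + (n + 1) ^ 2 then e else z0 (m - q - pre.length)) : Bool × S)) =
        (b.drop (b.length - q)).map fun y => (true, y) := by
      apply List.ext_getElem
      · simp; omega
      · intro m h1 h2
        have h3 : m < q := by simpa using h1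
        simp [h3]
    rw [h1, GKg_R, List.take_append_drop]
    have h2 : (List.range pre.length).map (fun m => ((false, if h : q + m < q then
        b[b.length - q + (q + m)]'(by omega) else
        if h : q + m - q < pre.length then pre[q + m - q] else
        if q + m = q + (n + 1) ^ 2 then e else z0 (q + m - q - pre.length)) : Bool × S)) =
        pre.map fun y => (false, y) := by
      apply List.ext_getElem
      · simp
      · intro m h1 h2
        have h3 : m < pre.length := by simpa using h1
        have h4 : ¬ q + m < q := by omega
        simp [h3]
    rw [h2, GKg_L, List.nil_append]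
    have h3 : c.2.map (fun m => ((false, if h : q + pre.length + m < q then
        b[b.length - q + (q + pre.length + m)]'(by omega) else
        if h : q + pre.length + m - q < pre.length then pre[q + pre.length + m - q] else
        if q + pre.length + m = q + (n + 1) ^ 2 then e else
          z0 (q + pre.length + m - q - pre.length)) : Bool × S)) =
        (c.2.map z0).map fun y => (false, y) := by
      rw [List.map_map]
      apply List.map_congr_left
      intro m hm
      have h4 := hlt m hm
      have h5 : ¬ q + pre.length + m < q := by omega
      have h6 : ¬ q + pre.length + m - q < pre.length := by omega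
      have h7 : ¬ q + pre.length + m = q + (n + 1) ^ 2 := by omega
      have h8 : q + pre.length + m - q - pre.length = m := by omega
      rw [dif_neg h5, dif_neg h6, if_neg h7, h8]
      rfl
    rw [h3, GKg_L]
    have h4 : (if h : q + (n + 1) ^ 2 < q then
        b[b.length - q + (q + (n + 1) ^ 2)]'(by omega) else
        if h : q + (n + 1) ^ 2 - q < pre.length then pre[q + (n + 1) ^ 2 - q] else
        if True then e else
          z0 (q + (n + 1) ^ 2 - q - pre.length)) = e := by
      have h5 : ¬ q + (n + 1) ^ 2 < q := by omega
      have h6 : ¬ q + (n + 1) ^ 2 - q < pre.length := by omega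
      rw [dif_neg h5, dif_neg h6, if_pos trivial]
    rw [h4, GKg_E F e _ _ i (by simp [hne]), Finsupp.smul_single, smul_eq_mul, mul_one]

end Pool.Agent.W_59b51d_c25
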