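import Pool.Agent.W_59b51d_c25.MBDefs

/-!
# Values of the identities are kills
-/

namespace Pool.Agent.W_59b51d_c25

variable (F : Type) [Field F] {S ι : Type}

/-- The action of a word on a basis element; `none` is `0`. -/
def GKv_act : List (Bool × S) → MB S ι → Option (MB S ι)
  | [], m => some m
  | o :: u, m => (actB o m).bind (GKv_act u)

theorem GKv_actwB_zero (u : List (Bool × S)) : actwB F u (0 : MB S ι →₀ F) = 0 := map_zero _

theorem GKv_actwB (u : List (Bool × S)) (m : MB S ι) :
    actwB F u (Finsupp.single m 1) = osg F (GKv_act u m) := by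
  induction u generalizing m with
  | nil => rfl
  | cons o u ih =>
    change actwB F u (actBL F o (Finsupp.single m 1)) = _
    rw [actBL_single]
    cases h : actB o m with
    | none => simp [GKv_act, h, osg]
    | some m' => simp [GKv_act, h, osg, ih]

theorem GKv_act_append (u v : List (Bool × S)) (m : MB S ι) :
    GKv_act (u ++ v) m = (GKv_act u m).bind (GKv_act v) := by
  induction u generalizing m with
  | nil => simp [GKv_act]
  | cons o u ih =>
    rw [List.cons_append, GKv_act, GKv_act]
    cases h : actB o m with
    | none => simp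
    | some m' => simp [ih]

theorem GKv_actL (s : S) (l b : List S) (i : ι) :
    actB (false, s) (none, l, b, i) = some (none, l ++ [s], b, i) := by
  cases l <;> simp [actB]

theorem GKv_actR (s : S) (b : List S) (i : ι) :
    actB (true, s) (none, [], b, i) = some (none, [], b ++ [s], i) := by
  simp [actB]

theorem GKv_actR' (s x : S) (l b : List S) (i : ι) :
    actB (true, s) (none, x :: l, b, i) = some (some s, x :: l, b, i) := by
  simp [actB]

theorem GKv_actS (o : Bool × S) (e : S) (l b : List S) (i : ι) :
    actB o (some e, l, b, i) = none := by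
  simp [actB]

theorem GKv_Lw (w l b : List S) (i : ι) :
    GKv_act (w.map fun s => (false, s)) (none, l, b, i) = some (none, l ++ w, b, i) := by
  induction w generalizing l with
  | nil => simp [GKv_act]
  | cons s w ih => simp [GKv_act, GKv_actL, ih]

theorem GKv_Rw (w b : List S) (i : ι) :
    GKv_act (w.map fun s => (true, s)) (none, [], b, i) = some (none, [], b ++ w, i) := by
  induction w generalizing b with
  | nil => simp [GKv_act]
  | cons s w ih => simp [GKv_act, GKv_actR, ih]

/-- A nonempty word kills `(some e, l, b, i)`. -/
theorem GKv_some (u : List (Bool × S)) (hu : u ≠ []) (e : S) (l b : List S) (i : ι) :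
    GKv_act u (some e, l, b, i) = none := by
  cases u with
  | nil => exact absurd rfl hu
  | cons o u => simp [GKv_act, GKv_actS]

/-- A word which starts with `R` and has length at least `2` kills `(none, x :: l, b, i)`. -/
theorem GKv_RL (s : S) (u : List (Bool × S)) (hu : u ≠ []) (x : S) (l b : List S) (i : ι) :
    GKv_act ((true, s) :: u) (none, x :: l, b, i) = none := by
  rw [GKv_act, GKv_actR']
  exact GKv_some u hu s (x :: l) b i

/-- The value of a word `R^b' L^l R_e`. -/
theorem GKv_full (b' : List S) (l : List S) (hl : l ≠ []) (e : S) (b : List S) (i : ι) :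
    GKv_act ((b'.map fun s => (true, s)) ++ ((l.map fun s => (false, s)) ++ [(true, e)]))
      (none, [], b, i) = some (some e, l, b ++ b', i) := by
  rw [GKv_act_append, GKv_Rw, Option.bind_some, GKv_act_append, GKv_Lw, Option.bind_some,
    List.nil_append]
  cases l with
  | nil => exact absurd rfl hl
  | cons x l => rfl

/-- The word `R^b' L^l R_e` with `b' ≠ []` kills the other basis elements. -/
theorem GKv_full_zero (b' : List S) (hb : b' ≠ []) (l : List S) (e : S)
    (m : MB S ι) (hm : ∀ b i, m ≠ (none, [], b, i)) :
    GKv_act ((b'.map fun s => (true, s)) ++ ((l.map fun s => (false, s)) ++ [(true, e)])) m =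
      none := by
  obtain ⟨o, k, b, i⟩ := m
  cases b' with
  | nil => exact absurd rfl hb
  | cons s b' =>
    cases o with
    | some f => exact GKv_some _ (by simp) _ _ _ _
    | none =>
      cases k with
      | nil => exact absurd rfl (hm b i)
      | cons x k =>
        rw [List.map_cons, List.cons_append]
        exact GKv_RL _ _ (by simp) _ _ _ _

theorem GKv_ins_length {α : Type} (x : α) (l : List α) :
    ∀ q ∈ ins x l, q.2.length = l.length + 1 := by
  induction l with
  | nil => simp [ins]
  | cons y l ih =>
    intro q hq
    rw [ins, List.mem_cons, List.mem_map] at hq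
    rcases hq with rfl | ⟨p, hp, rfl⟩
    · simp
    · simp [ih p hp]

theorem GKv_altP_length (a : ℕ) : ∀ c ∈ altP a, c.2.length = a := by
  induction a with
  | zero => simp [altP]
  | succ a ih =>
    intro c hc
    rw [altP, List.mem_flatMap] at hc
    obtain ⟨p, hp, hc⟩ := hc
    rw [List.mem_map] at hc
    obtain ⟨q, hq, rfl⟩ := hc
    change q.2.length = a + 1
    rw [GKv_ins_length a p.2 q hq, ih p hp]

theorem GKv_wk (n q J a : ℕ) (hJ : (n + 1) ^ 2 = J) (ha : n.unpair.1 + 1 = a) (z : ℕ → S)
    (σ : List ℕ) : ((wk n q σ).map fun o => (o.1, z o.2)) =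
      (((List.range q).map z).map fun s => (true, s)) ++
      (((((List.range (J - a)).map fun i => z (q + i)) ++
        (σ.map fun i => z (q + (J - a) + i))).map fun s => (false, s)) ++
        [(true, z (q + J))]) := by
  simp [wk, hJ, ha, Function.comp_def]

theorem GKv_sum_zero {α : Type} (L : List α) (f : α → (MB S ι →₀ F)) (h : ∀ c ∈ L, f c = 0) :
    (L.map f).sum = 0 := by
  rw [List.map_congr_left h]
  simp

theorem GKv_sq (ent : ℕ → ℕ → Bool) (n q J a : ℕ) (hJ : (n + 1) ^ 2 = J)
    (ha : n.unpair.1 + 1 = a) (hk : kil ent n q = true) (hq : 0 < q) (z : ℕ → S) (m : MB S ι) :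
    (((altP a).map fun c => (c.1, wk n q c.2)).map fun p => ((p.1 : ℤ) : F) •
      actwB F (p.2.map fun o => (o.1, z o.2)) (Finsupp.single m 1)).sum ∈ KB F S ι ent := by
  rw [List.map_map]
  by_cases hm : ∃ b i, m = (none, [], b, i)
  · obtain ⟨b, i, rfl⟩ := hm
    have haJ : a ≤ J := by
      have h1 : n.unpair.1 ≤ n := Nat.unpair_left_le n
      nlinarith
    have key : ((altP a).map ((fun p : ℤ × List (Bool × ℕ) => ((p.1 : ℤ) : F) •
        actwB F (p.2.map fun o => (o.1, z o.2))
          (Finsupp.single ((none, [], b, i) : MB S ι) 1)) ∘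
        fun c : ℤ × List ℕ => (c.1, wk n q c.2))) =
        ((altP a).map fun c => Finsupp.single
          ((some (z (q + J)), ((List.range (J - a)).map fun i => z (q + i)) ++
            c.2.map (fun i => z (q + (J - a) + i)), b ++ (List.range q).map z, i) : MB S ι)
          ((c.1 : ℤ) : F)) := by
      apply List.map_congr_left
      intro c hc
      have hlen : c.2.length = a := GKv_altP_length a c hc
      have hne : ((List.range (J - a)).map fun i => z (q + i)) ++
          (c.2.map fun i => z (q + (J - a) + i)) ≠ [] := by
        intro h0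
        have h1 := congrArg List.length h0
        simp only [List.length_append, List.length_map, List.length_range, List.length_nil,
          hlen] at h1
        omega
      simp only [Function.comp_apply]
      rw [GKv_wk n q J a hJ ha z c.2, GKv_actwB, GKv_full _ _ hne, osg, Finsupp.smul_single,
        smul_eq_mul, mul_one]
    rw [key]
    apply Submodule.subset_span
    refine ⟨J, (b ++ (List.range q).map z).length, ?_⟩
    have h := KGenB.k2 (F := F) (ent := ent) (z (q + J)) n q
      ((List.range (J - a)).map fun i => z (q + i)) (fun i => z (q + (J - a) + i))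
      (b ++ (List.range q).map z) i hk (by simp)
      (by simp only [List.length_map, List.length_range]; omega)
    rw [hJ, ha] at h
    exact h
  · have h0 : ((altP a).map ((fun p : ℤ × List (Bool × ℕ) => ((p.1 : ℤ) : F) •
        actwB F (p.2.map fun o => (o.1, z o.2)) (Finsupp.single m 1)) ∘
        fun c : ℤ × List ℕ => (c.1, wk n q c.2))).sum = 0 := by
      apply GKv_sum_zero
      intro c hc
      simp only [Function.comp_apply]
      rw [GKv_wk n q J a hJ ha z c.2, GKv_actwB, GKv_full_zero]
      · simp [osg]
      · intro h0
        have h1 := congrArg List.length h0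
        simp at h1
        omega
      · intro b i h
        exact hm ⟨b, i, h⟩
    rw [h0]
    exact zero_mem _

theorem GKv_w4 (ent : ℕ → ℕ → Bool) (j : ℕ) (hj : sp j = false) (z : ℕ → S) (m : MB S ι) :
    ((([(1, w4 j)] : List (ℤ × List (Bool × ℕ)))).map fun q => ((q.1 : ℤ) : F) •
      actwB F (q.2.map fun o => (o.1, z o.2)) (Finsupp.single m 1)).sum ∈ KB F S ι ent := by
  have hj0 : j ≠ 0 := by
    rintro rfl
    simp [sp] at hj
  have hw : ((w4 j).map fun o => (o.1, z o.2)) =
      ([z 0].map fun s => (true, s)) ++
      ((((List.range j).map fun i => z (i + 1)).map fun s => (false, s)) ++ [(true, z (j + 1))]) := by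
    simp [w4, Function.comp_def]
  have hs : ((([(1, w4 j)] : List (ℤ × List (Bool × ℕ)))).map fun q => ((q.1 : ℤ) : F) •
      actwB F (q.2.map fun o => (o.1, z o.2)) (Finsupp.single m 1)).sum =
      actwB F ((w4 j).map fun o => (o.1, z o.2)) (Finsupp.single m 1) := by
    simp
  rw [hs, hw, GKv_actwB]
  by_cases hm : ∃ b i, m = (none, [], b, i)
  · obtain ⟨b, i, rfl⟩ := hm
    rw [GKv_full]
    · apply Submodule.subset_span
      refine ⟨j, (b ++ [z 0]).length, ?_⟩
      have h := KGenB.k1 (F := F) (ent := ent) (z (j + 1)) ((List.range j).map fun i => z (i + 1))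
        (b ++ [z 0]) i (by simp) (by simpa using hj)
      simpa [osg] using h
    · intro h0
      have h1 := congrArg List.length h0
      simp at h1
      exact hj0 h1
  · rw [GKv_full_zero]
    · exact zero_mem _
    · simp
    · intro b i h
      exact hm ⟨b, i, h⟩

/-- The value of an identity at basis elements is a kill.

Proof. `t = 0`: empty. `t = 1, 2`: `LRR`, `LRL` are `0` on every basis element. `t = j + 3`, `j` not
a square: the value is `0` unless `m = (none, [], b, i)`; then it is
`single (some e, l, b ++ [x], i) 1` with `l.length = j`: `k1`. `j` a square, `n`, `s` with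
`ent n s = true`, `j = (Nat.pair n s + 1) ^ 2 ≥ 1`: the same with the words `wk n j σ`: only
`m = (none, [], b, i)` gives something, namely `k2` with `q = j`, `b ++ b'`, `b'.length = j`
(the labels in `wk n j c.2`: `z` of `0, …, j - 1` is the word `b'`, then come the word `pre` and the
word `c.2.map z'`, `z' i = z (j + ((n + 1) ^ 2 - (n.unpair.1 + 1)) + i)`). -/
theorem kill_val (ent : ℕ → ℕ → Bool) (t : ℕ) (z : ℕ → S) (m : MB S ι) :
    ((idw ent t).map fun q => ((q.1 : ℤ) : F) •
      actwB F (q.2.map fun o => (o.1, z o.2)) (Finsupp.single m 1)).sum ∈ KB F S ι ent := by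
  match t with
  | 0 => simp [idw]
  | 1 =>
    have h : GKv_act ([(false, z 0), (true, z 1), (true, z 2)] : List (Bool × S)) m = none := by
      obtain ⟨o, k, b, i⟩ := m
      cases o with
      | some f => exact GKv_some _ (by simp) _ _ _ _
      | none => cases k <;> simp [GKv_act, actB]
    simp [idw, GKv_actwB, h, osg]
  | 2 =>
    have h : GKv_act ([(false, z 0), (true, z 1), (false, z 2)] : List (Bool × S)) m = none := by
      obtain ⟨o, k, b, i⟩ := m
      cases o with
      | some f => exact GKv_some _ (by simp) _ _ _ _
      | none => cases k <;> simp [GKv_act, actB]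
    simp [idw, GKv_actwB, h, osg]
  | j + 3 =>
    by_cases hj : sp j = true
    · by_cases he : 0 < j ∧ ent (j.unpair.2 - 1).unpair.1 (j.unpair.2 - 1).unpair.2 = true
      · have hid : idw ent (j + 3) =
            (altP ((j.unpair.2 - 1).unpair.1.unpair.1 + 1)).map fun c =>
              (c.1, wk (j.unpair.2 - 1).unpair.1 j c.2) := by
          rw [idw, if_pos hj, if_pos he]
        rw [hid]
        exact GKv_sq F ent (j.unpair.2 - 1).unpair.1 j _ _ rfl rfl
          (by
            simp only [kil, Bool.and_eq_true, decide_eq_true_eq]
            exact ⟨hj, he.1, trivial, he.2⟩) he.1 z m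
      · have hid : idw ent (j + 3) = [] := by
          rw [idw, if_pos hj, if_neg he]
        simp [hid]
    · have hid : idw ent (j + 3) = [(1, w4 j)] := by
        rw [idw, if_neg hj]
      rw [hid]
      exact GKv_w4 F ent j (by simpa using hj) z m

end Pool.Agent.W_59b51d_c25
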