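import Pool.Agent.W_59b51d_c25.GDefs
import Pool.Agent.W_59b51d_c25.GKv
import Pool.Agent.W_59b51d_c25.GKg
import Pool.Agent.W_59b51d_c25.EvFam

/-!
# Kills and identities
-/

namespace Pool.Agent.W_59b51d_c25

open Pool.Agent.W_59b51d_h18 (Poly code Multilinear)

variable (F : Type) [Field F] {S ι : Type}

theorem GKill_span_single (β : Type) :
    Submodule.span F (Set.range fun s : β => Finsupp.single s (1 : F)) = ⊤ := by
  rw [eq_top_iff]
  intro f _
  induction f using Finsupp.induction_linear with
  | zero => exact zero_mem _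
  | add f g hf hg => exact add_mem (hf trivial) (hg trivial)
  | single b c =>
    have h : Finsupp.single b c = c • Finsupp.single b (1 : F) := by simp
    rw [h]
    exact Submodule.smul_mem _ _ (Submodule.subset_span ⟨b, rfl⟩)

theorem GKill_ow_single (u : List (Bool × ℕ)) (y : ℕ → (S →₀ F)) (z : ℕ → S)
    (hy : ∀ i, Finsupp.single (z i) (1 : F) = y i) (m : MB S ι →₀ F) :
    ow (rho F) (u.map fun o => (o.1, y o.2)) m =
      actwB F (u.map fun o => (o.1, z o.2)) m := by
  induction u generalizing m with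
  | nil => rfl
  | cons o u ih =>
    have h1 : ow (rho F) ((o :: u).map fun o => (o.1, y o.2)) m =
        ow (rho F) (u.map fun o => (o.1, y o.2)) (rho F o.1 (y o.2) m) := rfl
    rw [h1, ← hy o.2, rho_single, ih]
    rfl

/-- The words of the identities are not empty. -/
theorem GKill_ne_nil (ent : ℕ → ℕ → Bool) (t : ℕ) : ∀ q ∈ idw ent t, q.2 ≠ [] := by
  intro q hq
  match t, hq with
  | 0, hq => simp [idw] at hq
  | 1, hq =>
    simp only [idw, List.mem_singleton] at hq
    subst hq
    simp
  | 2, hq =>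
    simp only [idw, List.mem_singleton] at hq
    subst hq
    simp
  | j + 3, hq =>
    simp only [idw] at hq
    split_ifs at hq
    · obtain ⟨c, _, rfl⟩ := List.mem_map.1 hq
      simp [wk]
    · simp at hq
    · rw [List.mem_singleton] at hq
      subst hq
      simp [w4]

/-- The value of an identity at arbitrary labels and an arbitrary argument, by `ow_mem`, `idw_perm`
and `kill_val`. -/
theorem kill_rho (ent : ℕ → ℕ → Bool) (t : ℕ) (z : ℕ → (S →₀ F)) (m : MB S ι →₀ F) :
    ((idw ent t).map fun q => ((q.1 : ℤ) : F) •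
      ow (rho F) (q.2.map fun o => (o.1, z o.2)) m).sum ∈ KB F S ι ent := by
  obtain ⟨N, hN⟩ := idw_perm ent t
  have key := ow_mem (rho F (S := S) (ι := ι)) (GKill_span_single F S)
    (GKill_span_single F (MB S ι)) N
    ((idw ent t).map fun q => (((q.1 : ℤ) : F), q.2)) ?_ (Or.inr ?_) (KB F S ι ent) ?_ z m
  · rw [List.map_map] at key
    exact key
  · intro q hq
    obtain ⟨q', hq', rfl⟩ := List.mem_map.1 hq
    exact hN q' hq'
  · intro q hq
    obtain ⟨q', hq', rfl⟩ := List.mem_map.1 hq
    exact GKill_ne_nil ent t q' hq'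
  · intro z' hz' m' hm'
    obtain ⟨m0, rfl⟩ := hm'
    choose z0 hz0 using hz'
    have h := kill_val F ent t z0 m0
    rw [List.map_map]
    have h2 : (idw ent t).map ((fun q : F × List (Bool × ℕ) =>
          q.1 • ow (rho F) (q.2.map fun o => (o.1, z' o.2)) (Finsupp.single m0 (1 : F))) ∘
          fun q : ℤ × List (Bool × ℕ) => (((q.1 : ℤ) : F), q.2)) =
        (idw ent t).map fun q => ((q.1 : ℤ) : F) •
          actwB F (q.2.map fun o => (o.1, z0 o.2)) (Finsupp.single m0 1) := by
      apply List.map_congr_left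
      intro q _
      change ((q.1 : ℤ) : F) • ow (rho F) (q.2.map fun o => (o.1, z' o.2)) _ = _
      rw [GKill_ow_single F q.2 z' z0 hz0]
    rw [h2]
    exact h

/-- The operators map kills to `0`. -/
theorem actBL_KB (ent : ℕ → ℕ → Bool) (o : Bool × S) {m : MB S ι →₀ F}
    (hm : m ∈ KB F S ι ent) : actBL F o m = 0 := by
  have h0 : ∀ (e : S) (l b : List S) (i : ι) (c : F),
      actBL F o (Finsupp.single ((some e, l, b, i) : MB S ι) c) = 0 := by
    intro e l b i c
    have h : Finsupp.single ((some e, l, b, i) : MB S ι) c =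
        c • Finsupp.single ((some e, l, b, i) : MB S ι) (1 : F) := by simp
    rw [h, map_smul, actBL_single]
    change c • osg F none = 0
    rw [osg, smul_zero]
  unfold KB at hm
  induction hm using Submodule.span_induction with
  | mem x hx =>
    obtain ⟨L, L', h⟩ := hx
    cases h with
    | k1 e l b i h1 h2 => exact h0 e l b i 1
    | k2 e n q pre z b i h1 h2 h3 =>
      rw [map_list_sum, List.map_map]
      apply List.sum_eq_zero
      intro y hy
      obtain ⟨c, _, rfl⟩ := List.mem_map.1 hy
      exact h0 e _ b i _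
  | zero => exact map_zero _
  | add x y _ _ hx hy => rw [map_add, hx, hy, add_zero]
  | smul c x _ hx => rw [map_smul, hx, smul_zero]

variable {F} {d : ℕ} (π : Fin d → List (F × S))

theorem GKill_ow_inM (u : List (Bool × ℕ)) (v : ℕ → GA π) (m : MB S (Fin d × Fin d) →₀ F) :
    ow (rA F (GA π)) (u.map fun o => (o.1, v (o.2 + 2))) (inM π m) =
      inM π (ow (rho F) (u.map fun o => (o.1, lab π (v (o.2 + 2)))) m) := by
  induction u generalizing m with
  | nil => rfl
  | cons o u ih =>
    have h1 : ow (rA F (GA π)) ((o :: u).map fun o => (o.1, v (o.2 + 2))) (inM π m) =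
        ow (rA F (GA π)) (u.map fun o => (o.1, v (o.2 + 2)))
          (rA F (GA π) o.1 (v (o.2 + 2)) (inM π m)) := rfl
    have h2 : ow (rho F) ((o :: u).map fun o => (o.1, lab π (v (o.2 + 2)))) m =
        ow (rho F) (u.map fun o => (o.1, lab π (v (o.2 + 2))))
          (rho F o.1 (lab π (v (o.2 + 2))) m) := rfl
    have h3 : rA F (GA π) o.1 (v (o.2 + 2)) (inM π m) =
        inM π (rho F o.1 (lab π (v (o.2 + 2))) m) := by
      obtain ⟨o1, o2⟩ := o
      cases o1 with
      | true => exact (rA_true _ _).trans (inM_mul π m _)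
      | false => exact (rA_false _ _).trans (mul_inM π m _)
    rw [h1, h2, h3, ih]

/-- The values of the identities in the algebra `GA π`, by `mul_mem`, `inM_mul`, `mul_inM`,
`eval_fam_zero`, `eval_fam` and `kill_rho`. -/
theorem ident_mem (ent : ℕ → ℕ → Bool) (t : ℕ) (v : ℕ → GA π) :
    (poly F (fam ent t)).eval v ∈ (KB F S (Fin d × Fin d) ent).map (inM π) := by
  by_cases ht : t = 0
  · subst ht
    rw [eval_fam_zero]
    obtain ⟨m, hm⟩ := mul_mem π (v 0) (v 1)
    obtain ⟨m', hm'⟩ := mul_mem π (v 2) (v 3)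
    rw [← hm, ← hm', inM_mul, lab_inM, map_zero, LinearMap.zero_apply, map_zero]
    exact zero_mem _
  · rw [eval_fam ent t ht]
    obtain ⟨m, hm⟩ := mul_mem π (v 0) (v 1)
    rw [← hm]
    refine ⟨_, kill_rho F ent t (fun i => lab π (v (i + 2))) m, ?_⟩
    rw [map_list_sum, List.map_map]
    congr 1
    apply List.map_congr_left
    intro q _
    change inM π (((q.1 : ℤ) : F) • ow (rho F) (q.2.map fun o => (o.1, lab π (v (o.2 + 2)))) m) = _
    rw [map_smul, GKill_ow_inM]

end Pool.Agent.W_59b51d_c25
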