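import Pool.Agent.W_59b51d_c25.MBDefs
import Pool.Agent.W_59b51d_c25.CU
import Pool.Agent.W_59b51d_c25.Alt

/-!
# Computable spanning lists
-/

namespace Pool.Agent.W_59b51d_c25

variable {F : Type} [Field F] [Primcodable F]

/-- The words of length `k`. -/
def GKillL_W (n k : ℕ) : List (List (Fin n)) :=
  Nat.rec [[]] (fun _ IH => IH.flatMap fun w => (List.finRange n).map fun s => s :: w) k

theorem GKillL_W_mem (n k : ℕ) (w : List (Fin n)) : w ∈ GKillL_W n k ↔ w.length = k := by
  induction k generalizing w with
  | zero =>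
    have h : GKillL_W n 0 = [[]] := rfl
    rw [h, List.mem_singleton, List.length_eq_zero_iff]
  | succ k ih =>
    have h : GKillL_W n (k + 1) =
      (GKillL_W n k).flatMap fun w => (List.finRange n).map fun s => s :: w := rfl
    rw [h, List.mem_flatMap]
    constructor
    · rintro ⟨w', hw', h2⟩
      obtain ⟨s, -, rfl⟩ := List.mem_map.1 h2
      rw [List.length_cons, (ih w').1 hw']
    · intro hw
      cases w with
      | nil => simp at hw
      | cons s w' =>
        refine ⟨w', (ih w').2 (Nat.succ_injective hw), List.mem_map.2 ⟨s, List.mem_finRange s, rfl⟩⟩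

theorem GKillL_W_comp (n : ℕ) : Computable (GKillL_W n) := by
  have hstep : Computable₂ fun (_ : ℕ) (p : ℕ × List (List (Fin n))) =>
      p.2.flatMap fun w => (List.finRange n).map fun s => s :: w := by
    refine computable_flatMap (Computable.snd.comp Computable.snd) ?_
    refine computable_map (Computable.const _) ?_
    exact Computable.list_cons.comp Computable.snd (Computable.snd.comp Computable.fst)
  exact Computable.nat_rec Computable.id (Computable.const [[]]) hstep

/-- The words of length at most `B`. -/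
def GKillL_U (n B : ℕ) : List (List (Fin n)) := (List.range (B + 1)).flatMap (GKillL_W n)

theorem GKillL_U_mem (n B : ℕ) (w : List (Fin n)) : w ∈ GKillL_U n B ↔ w.length ≤ B := by
  unfold GKillL_U
  rw [List.mem_flatMap]
  constructor
  · rintro ⟨k, hk, hw⟩
    rw [(GKillL_W_mem n k w).1 hw]
    exact Nat.lt_succ_iff.1 (List.mem_range.1 hk)
  · intro h
    exact ⟨w.length, List.mem_range.2 (Nat.lt_succ_iff.2 h), (GKillL_W_mem n _ w).2 rfl⟩

theorem GKillL_R_comp : Computable fun B : ℕ => List.range (B + 1) :=
  Primrec.list_range.to_comp.comp Computable.succ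

theorem GKillL_U_comp (n : ℕ) : Computable (GKillL_U n) :=
  computable_flatMap GKillL_R_comp ((GKillL_W_comp n).comp Computable.snd)

/-- The product of two lists. -/
def GKillL_pr {α β : Type} (l : List α) (m : List β) : List (α × β) :=
  l.flatMap fun a => m.map fun b => (a, b)

theorem GKillL_pr_mem {α β : Type} (l : List α) (m : List β) (p : α × β) :
    p ∈ GKillL_pr l m ↔ p.1 ∈ l ∧ p.2 ∈ m := by
  unfold GKillL_pr
  rw [List.mem_flatMap]
  constructor
  · rintro ⟨a, ha, h⟩
    obtain ⟨b, hb, rfl⟩ := List.mem_map.1 h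
    exact ⟨ha, hb⟩
  · rintro ⟨ha, hb⟩
    exact ⟨p.1, ha, List.mem_map.2 ⟨p.2, hb, rfl⟩⟩

theorem GKillL_pr_comp {α β γ : Type} [Primcodable α] [Primcodable β] [Primcodable γ]
    {f : γ → List α} {g : γ → List β} (hf : Computable f) (hg : Computable g) :
    Computable fun c => GKillL_pr (f c) (g c) := by
  refine computable_flatMap hf ?_
  refine computable_map (hg.comp Computable.fst) ?_
  exact Computable.pair (Computable.snd.comp Computable.fst) Computable.snd

/-- All the pairs `(e, i)`. -/
noncomputable def GKillL_E (n d : ℕ) : List (Fin n × Fin d × Fin d) :=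
  (Finset.univ : Finset (Fin n × Fin d × Fin d)).toList

/-- The first condition. -/
def GKillL_c1 {n d : ℕ} (t : (Fin n × Fin d × Fin d) × List (Fin n) × List (Fin n)) : Bool :=
  decide (1 ≤ t.2.2.length) && !(sp t.2.1.length)

/-- The first value. -/
def GKillL_v1 (F : Type) [Field F] {n d : ℕ}
    (t : (Fin n × Fin d × Fin d) × List (Fin n) × List (Fin n)) :
    List (F × MB (Fin n) (Fin d × Fin d)) :=
  [(1, (some t.1.1, t.2.1, t.2.2, t.1.2))]

/-- The parameters `((e, i), n₀, q, pre, z, b)`. -/
abbrev GKillL_P (n d : ℕ) : Type :=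
  (Fin n × Fin d × Fin d) × ℕ × ℕ × List (Fin n) × List (Fin n) × List (Fin n)

/-- The second condition. -/
def GKillL_c2 {n d : ℕ} (ent : ℕ → ℕ → Bool) (B : ℕ) (t : GKillL_P n d) : Bool :=
  kil ent t.2.1 t.2.2.1 && (decide ((t.2.1 + 1) * (t.2.1 + 1) ≤ B) &&
    (decide (t.2.2.1 ≤ t.2.2.2.2.2.length) &&
      (decide (t.2.2.2.1.length + (t.2.1.unpair.1 + 1) = (t.2.1 + 1) * (t.2.1 + 1)) &&
        decide (t.2.2.2.2.1.length = t.2.1.unpair.1 + 1))))

/-- The second value. -/
def GKillL_v2 (F : Type) [Field F] {n d : ℕ} (t : GKillL_P n d) :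
    List (F × MB (Fin n) (Fin d × Fin d)) :=
  (altP (t.2.1.unpair.1 + 1)).map fun c => ((bif (c.1 == 1) then (1 : F) else -1),
    (some t.1.1, t.2.2.2.1 ++ c.2.filterMap fun j => t.2.2.2.2.1[j]?, t.2.2.2.2.2, t.1.2))

theorem GKillL_c1_comp (n d : ℕ) : Computable (GKillL_c1 (n := n) (d := d)) := by
  have hl : Computable fun t : (Fin n × Fin d × Fin d) × List (Fin n) × List (Fin n) =>
      t.2.1.length := Computable.list_length.comp (Computable.fst.comp Computable.snd)
  have hb : Computable fun t : (Fin n × Fin d × Fin d) × List (Fin n) × List (Fin n) =>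
      t.2.2.length := Computable.list_length.comp (Computable.snd.comp Computable.snd)
  exact Primrec.and.to_comp.comp (Primrec.nat_le.decide.to_comp.comp (Computable.const 1) hb)
    (Primrec.not.to_comp.comp (computable_sp.comp hl))

theorem GKillL_v1_comp (n d : ℕ) : Computable (GKillL_v1 F (n := n) (d := d)) := by
  refine Computable.list_cons.comp (Computable.pair (Computable.const 1)
    (Computable.pair (Computable.option_some.comp (Computable.fst.comp Computable.fst))
      (Computable.pair (Computable.fst.comp Computable.snd)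
        (Computable.pair (Computable.snd.comp Computable.snd)
          (Computable.snd.comp Computable.fst))))) (Computable.const [])

theorem GKillL_kil0 {ent : ℕ → ℕ → Bool} (hent : Computable₂ ent) :
    Computable fun p : ℕ × ℕ × ℕ => ent p.2.1 p.2.2 := by
  have h := Computable₂.comp (α := ℕ × ℕ × ℕ) (f := ent) (g := fun p => p.2.1)
    (h := fun p => p.2.2) hent (Computable.fst.comp Computable.snd)
    (Computable.snd.comp Computable.snd)
  exact h

theorem GKillL_kil1 {ent : ℕ → ℕ → Bool} (hent : Computable₂ ent) :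
    Computable fun p : ℕ × ℕ × ℕ => kil ent p.2.1 p.2.2 := by
  have h := @computable_kil ℕ _ (fun _ => ent) (GKillL_kil0 hent)
  exact h

theorem GKillL_kil2 : Computable fun p : ℕ × ℕ => ((0, p) : ℕ × ℕ × ℕ) := by
  have h := Computable.pair (Computable.const (α := ℕ × ℕ) 0) (Computable.id (α := ℕ × ℕ))
  exact h

theorem GKillL_kil {ent : ℕ → ℕ → Bool} (hent : Computable₂ ent) : Computable₂ (kil ent) := by
  have h := Computable.comp (GKillL_kil1 hent) GKillL_kil2
  exact h

theorem GKillL_c2_comp (n d : ℕ) {ent : ℕ → ℕ → Bool} (hent : Computable₂ ent) :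
    Computable₂ (GKillL_c2 (n := n) (d := d) ent) := by
  have t0 : Computable fun p : ℕ × GKillL_P n d => p.2.2 := Computable.snd.comp Computable.snd
  have hn : Computable fun p : ℕ × GKillL_P n d => p.2.2.1 := Computable.fst.comp t0
  have t1 : Computable fun p : ℕ × GKillL_P n d => p.2.2.2 := Computable.snd.comp t0
  have hq : Computable fun p : ℕ × GKillL_P n d => p.2.2.2.1 := Computable.fst.comp t1
  have t2 : Computable fun p : ℕ × GKillL_P n d => p.2.2.2.2 := Computable.snd.comp t1
  have hpre : Computable fun p : ℕ × GKillL_P n d => p.2.2.2.2.1.length :=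
    Computable.list_length.comp (Computable.fst.comp t2)
  have t3 : Computable fun p : ℕ × GKillL_P n d => p.2.2.2.2.2 := Computable.snd.comp t2
  have hz : Computable fun p : ℕ × GKillL_P n d => p.2.2.2.2.2.1.length :=
    Computable.list_length.comp (Computable.fst.comp t3)
  have hb : Computable fun p : ℕ × GKillL_P n d => p.2.2.2.2.2.2.length :=
    Computable.list_length.comp (Computable.snd.comp t3)
  have hk : Computable fun p : ℕ × GKillL_P n d => kil ent p.2.2.1 p.2.2.2.1 :=
    (GKillL_kil hent).comp hn hq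
  have hs : Computable fun p : ℕ × GKillL_P n d => p.2.2.1 + 1 := Computable.succ.comp hn
  have hss : Computable fun p : ℕ × GKillL_P n d => (p.2.2.1 + 1) * (p.2.2.1 + 1) :=
    Primrec.nat_mul.to_comp.comp hs hs
  have ha : Computable fun p : ℕ × GKillL_P n d => p.2.2.1.unpair.1 + 1 :=
    Computable.succ.comp (Computable.fst.comp (Computable.unpair.comp hn))
  refine Primrec.and.to_comp.comp hk (Primrec.and.to_comp.comp
    (Primrec.nat_le.decide.to_comp.comp hss Computable.fst) (Primrec.and.to_comp.comp
      (Primrec.nat_le.decide.to_comp.comp hq hb) (Primrec.and.to_comp.comp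
        (Primrec.eq.decide.to_comp.comp (Primrec.nat_add.to_comp.comp hpre ha) hss)
        (Primrec.eq.decide.to_comp.comp hz ha))))

theorem GKillL_v2_comp (n d : ℕ) : Computable (GKillL_v2 F (n := n) (d := d)) := by
  have hn : Computable fun t : GKillL_P n d => t.2.1 := Computable.fst.comp Computable.snd
  have ha : Computable fun t : GKillL_P n d => t.2.1.unpair.1 + 1 :=
    Computable.succ.comp (Computable.fst.comp (Computable.unpair.comp hn))
  refine computable_map (primrec_altP.to_comp.comp ha) ?_
  have t2 : Computable fun p : GKillL_P n d × (ℤ × List ℕ) => p.1.2.2.2 :=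
    Computable.snd.comp (Computable.snd.comp (Computable.snd.comp Computable.fst))
  have t3 : Computable fun p : GKillL_P n d × (ℤ × List ℕ) => p.1.2.2.2.2 :=
    Computable.snd.comp t2
  have hsg : Computable fun p : GKillL_P n d × (ℤ × List ℕ) =>
      (bif (p.2.1 == 1) then (1 : F) else -1) := by
    refine Computable.cond ?_ (Computable.const 1) (Computable.const (-1))
    exact (Primrec.beq.to_comp.comp (Computable.fst.comp Computable.snd) (Computable.const 1))
  refine Computable.pair hsg (Computable.pair (Computable.option_some.comp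
    (Computable.fst.comp (Computable.fst.comp Computable.fst))) (Computable.pair ?_
      (Computable.pair (Computable.snd.comp t3)
        (Computable.snd.comp (Computable.fst.comp Computable.fst)))))
  refine Computable.list_append.comp (Computable.fst.comp t2) ?_
  refine computable_filterMap (Computable.snd.comp Computable.snd) ?_
  exact Computable.list_getElem?.comp
    (Computable.fst.comp (t3.comp Computable.fst)) Computable.snd

/-- The list. -/
noncomputable def GKillL_L (F : Type) [Field F] (n d : ℕ) (ent : ℕ → ℕ → Bool) (B : ℕ) :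
    List (List (F × MB (Fin n) (Fin d × Fin d))) :=
  ((GKillL_pr (GKillL_E n d) (GKillL_pr (GKillL_U n B) (GKillL_U n B))).filter
      GKillL_c1).map (GKillL_v1 F) ++
    ((GKillL_pr (GKillL_E n d) (GKillL_pr (List.range (B + 1)) (GKillL_pr (List.range (B + 1))
      (GKillL_pr (GKillL_U n B) (GKillL_pr (GKillL_U n B) (GKillL_U n B)))))).filter
        (GKillL_c2 ent B)).map (GKillL_v2 F)

theorem GKillL_L_comp (n d : ℕ) {ent : ℕ → ℕ → Bool} (hent : Computable₂ ent) :
    Computable (GKillL_L F n d ent) := by
  have hU := GKillL_U_comp n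
  have hR := GKillL_R_comp
  have hE : Computable fun _ : ℕ => GKillL_E n d := Computable.const _
  refine Computable.list_append.comp ?_ ?_
  · refine computable_map ?_ ((GKillL_v1_comp n d).comp Computable.snd)
    exact computable_filter (GKillL_pr_comp hE (GKillL_pr_comp hU hU))
      ((GKillL_c1_comp n d).comp Computable.snd)
  · refine computable_map ?_ ((GKillL_v2_comp n d).comp Computable.snd)
    exact computable_filter (GKillL_pr_comp hE (GKillL_pr_comp hR (GKillL_pr_comp hR
      (GKillL_pr_comp hU (GKillL_pr_comp hU hU))))) (GKillL_c2_comp n d hent)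

omit [Primcodable F] in
theorem GKillL_vecB_v1 {n d : ℕ}
    (t : (Fin n × Fin d × Fin d) × List (Fin n) × List (Fin n)) :
    vecB (GKillL_v1 F t) = Finsupp.single (some t.1.1, t.2.1, t.2.2, t.1.2) 1 := by
  simp [GKillL_v1, vecB]

theorem GKillL_filterMap {S : Type} (z : ℕ → S) (zl : List S)
    (h : ∀ j < zl.length, zl[j]? = some (z j)) (l : List ℕ) (hl : ∀ j ∈ l, j < zl.length) :
    (l.filterMap fun j => zl[j]?) = l.map z := by
  induction l with
  | nil => rfl
  | cons a l ih =>
    rw [List.filterMap_cons_some (b := z a) (h a (hl a (by simp))), List.map_cons,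
      ih fun j hj => hl j (by simp [hj])]

omit [Primcodable F] in
theorem GKillL_vecB_v2 {n d : ℕ} (t : GKillL_P n d) (z : ℕ → Fin n)
    (hz : ∀ j < t.2.2.2.2.1.length, t.2.2.2.2.1[j]? = some (z j))
    (hl : t.2.2.2.2.1.length = t.2.1.unpair.1 + 1) :
    vecB (GKillL_v2 F t) = ((altP (t.2.1.unpair.1 + 1)).map fun c =>
        Finsupp.single (some t.1.1, t.2.2.2.1 ++ c.2.map z, t.2.2.2.2.2, t.1.2)
          ((c.1 : ℤ) : F)).sum := by
  unfold vecB GKillL_v2
  rw [List.map_map]
  congr 1
  apply List.map_congr_left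
  intro c hc
  have h1 : (bif (c.1 == 1) then (1 : F) else -1) = ((c.1 : ℤ) : F) := by
    rcases altP_coef _ c hc with h | h
    · rw [h]; simp
    · rw [h]; simp
  have h2 : (c.2.filterMap fun j => t.2.2.2.2.1[j]?) = c.2.map z := by
    refine GKillL_filterMap z _ hz _ fun j hj => ?_
    have h3 := (altP_perm _ c hc).mem_iff.1 hj
    rw [hl]
    exact List.mem_range.1 h3
  simp only [Function.comp]
  rw [h1, h2]

omit [Primcodable F] in
theorem GKillL_mem (n d : ℕ) (ent : ℕ → ℕ → Bool) (B : ℕ)
    (v : MB (Fin n) (Fin d × Fin d) →₀ F) :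
    (∃ g ∈ GKillL_L F n d ent B, v = vecB g) ↔ ∃ L ≤ B, ∃ L' ≤ B, KGenB F ent L L' v := by
  unfold GKillL_L
  constructor
  · rintro ⟨g, hg, rfl⟩
    rcases List.mem_append.1 hg with h1 | h1
    · obtain ⟨t, ht, rfl⟩ := List.mem_map.1 h1
      obtain ⟨h2, h3⟩ := List.mem_filter.1 ht
      rw [GKillL_pr_mem, GKillL_pr_mem, GKillL_U_mem, GKillL_U_mem] at h2
      obtain ⟨-, hl, hb⟩ := h2
      unfold GKillL_c1 at h3
      simp only [Bool.and_eq_true, decide_eq_true_eq, Bool.not_eq_true'] at h3
      rw [GKillL_vecB_v1]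
      exact ⟨_, hl, _, hb, KGenB.k1 _ _ _ _ h3.1 h3.2⟩
    · obtain ⟨t, ht, rfl⟩ := List.mem_map.1 h1
      obtain ⟨h2, h3⟩ := List.mem_filter.1 ht
      rw [GKillL_pr_mem, GKillL_pr_mem, GKillL_pr_mem, GKillL_pr_mem, GKillL_pr_mem,
        GKillL_U_mem, GKillL_U_mem, GKillL_U_mem] at h2
      obtain ⟨-, -, -, -, -, hb⟩ := h2
      unfold GKillL_c2 at h3
      simp only [Bool.and_eq_true, decide_eq_true_eq] at h3
      obtain ⟨hk, hB, hq, hpre, hz⟩ := h3
      rw [← sq] at hB hpre
      have hne : t.2.2.2.2.1 ≠ [] := by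
        intro h
        rw [h] at hz
        simp at hz
      rw [GKillL_vecB_v2 t (fun j => (t.2.2.2.2.1[j]?).getD (t.2.2.2.2.1.head hne)) ?_ hz]
      · exact ⟨_, hB, _, hb, KGenB.k2 _ _ _ _ _ _ _ hk hq hpre⟩
      · intro j hj
        rw [List.getElem?_eq_getElem hj, Option.getD_some]
  · rintro ⟨L, hL, L', hL', h⟩
    cases h with
    | k1 e l b i h1 h2 =>
      refine ⟨GKillL_v1 F ((e, i), l, b), List.mem_append_left _ (List.mem_map.2 ⟨_, ?_, rfl⟩),
        (GKillL_vecB_v1 ((e, i), l, b)).symm⟩
      refine List.mem_filter.2 ⟨?_, ?_⟩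
      · rw [GKillL_pr_mem, GKillL_pr_mem, GKillL_U_mem, GKillL_U_mem]
        exact ⟨by simp [GKillL_E], hL, hL'⟩
      · unfold GKillL_c1
        simp only [Bool.and_eq_true, decide_eq_true_eq, Bool.not_eq_true']
        exact ⟨h1, h2⟩
    | k2 e m q pre z b i h1 h2 h3 =>
      have hlen : ((List.range (m.unpair.1 + 1)).map z).length = m.unpair.1 + 1 := by
        rw [List.length_map, List.length_range]
      refine ⟨GKillL_v2 F ((e, i), m, q, pre, (List.range (m.unpair.1 + 1)).map z, b),
        List.mem_append_right _ (List.mem_map.2 ⟨_, ?_, rfl⟩), ?_⟩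
      · refine List.mem_filter.2 ⟨?_, ?_⟩
        · rw [GKillL_pr_mem, GKillL_pr_mem, GKillL_pr_mem, GKillL_pr_mem, GKillL_pr_mem,
            GKillL_U_mem, GKillL_U_mem, GKillL_U_mem]
          have h4 : m ≤ B := by
            have : m ≤ (m + 1) ^ 2 := by nlinarith
            exact this.trans hL
          refine ⟨by simp [GKillL_E], List.mem_range.2 (Nat.lt_succ_iff.2 h4),
            List.mem_range.2 (Nat.lt_succ_iff.2 (h2.trans hL')), ?_, ?_, hL'⟩
          · change pre.length ≤ B
            omega
          · change ((List.range (m.unpair.1 + 1)).map z).length ≤ B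
            omega
        · unfold GKillL_c2
          simp only [Bool.and_eq_true, decide_eq_true_eq]
          refine ⟨h1, ?_, h2, ?_, hlen⟩
          · rw [← sq]; exact hL
          · rw [← sq]; exact h3
      · refine (GKillL_vecB_v2 ((e, i), m, q, pre, (List.range (m.unpair.1 + 1)).map z, b) z
          (fun j hj => ?_) hlen).symm
        change j < ((List.range (m.unpair.1 + 1)).map z).length at hj
        change ((List.range (m.unpair.1 + 1)).map z)[j]? = some (z j)
        rw [List.getElem?_eq_getElem hj]
        simp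

/-- `KBt F _ _ ent B` is spanned by a computable list of vectors. All words over `Fin n` of length
at most `B` are listed; for `k1` the generators with `1 ≤ b.length`, `sp l.length = false`; for `k2`
one runs over `n₀ ≤ B`, `q ≤ B` with `(n₀ + 1) ^ 2 ≤ B` and `kil ent n₀ q = true` (`computable_kil`),
the words `pre` of length `(n₀ + 1) ^ 2 - (n₀.unpair.1 + 1)`, the words `z` of length
`n₀.unpair.1 + 1` and `b` of length between `q` and `B`; the coefficient `c.1 = ±1` is mapped to `F`
by a case distinction; `c.2.map z` is `c.2.filterMap (z[·]?)`. (`q ≤ b.length ≤ B`.) -/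
theorem exists_killL (n d : ℕ) {ent : ℕ → ℕ → Bool} (hent : Computable₂ ent) :
    ∃ L : ℕ → List (List (F × MB (Fin n) (Fin d × Fin d))), Computable L ∧
      ∀ B, Submodule.span F {v | ∃ g ∈ L B, v = vecB g} =
        KBt F (Fin n) (Fin d × Fin d) ent B := by
  refine ⟨GKillL_L F n d ent, GKillL_L_comp n d hent, fun B => ?_⟩
  unfold KBt
  congr 1
  ext v
  exact GKillL_mem n d ent B v

end Pool.Agent.W_59b51d_c25
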