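import Pool.Agent.W_59b51d_c25.GSound
import Pool.Agent.W_59b51d_c25.GComp

/-!
# The labels of the generators; the normal form theorem
-/

namespace Pool.Agent.W_59b51d_c25

open Pool.Agent.W_59b51d_h18 (Poly code Multilinear)

variable {F : Type} [Field F] {d : ℕ}

/-- Let `U` be the span of the linear parts of the relators in `V = Fin d →₀ F`; take a basis of
`V ⧸ U`, indexed by `Fin n`, `π i` the coordinates of the class of `single i 1` (as a list,
`exists_vecB`), and `sec` a linear section of the projection. -/
theorem exists_pi (r : List (Poly F (Fin d))) :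
    ∃ (n : ℕ) (π : Fin d → List (F × Fin n)) (sec : Fin n → (Fin d →₀ F)),
      (∀ p ∈ r, Finsupp.linearCombination F (fun i => vecB (π i)) (linp p) = 0) ∧
      ∀ i, Finsupp.single i 1 - Finsupp.linearCombination F sec (vecB (π i)) ∈
        Submodule.span F {v | ∃ p ∈ r, v = linp p} := by
  set U : Submodule F (Fin d →₀ F) := Submodule.span F {v | ∃ p ∈ r, v = linp p} with hU
  let b : Module.Basis (Fin (Module.finrank F ((Fin d →₀ F) ⧸ U))) F ((Fin d →₀ F) ⧸ U) :=
    Module.finBasis F _
  choose π hπ using fun i : Fin d => exists_vecB (b.repr (U.mkQ (Finsupp.single i (1 : F))))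
  choose sec hsec using fun s => U.mkQ_surjective (b s)
  have h1 : Finsupp.linearCombination F (fun i => vecB (π i)) =
      b.repr.toLinearMap ∘ₗ U.mkQ := by
    refine Finsupp.lhom_ext' fun i => LinearMap.ext_ring ?_
    rw [LinearMap.comp_apply, Finsupp.lsingle_apply, Finsupp.linearCombination_single, one_smul,
      hπ]
    rfl
  refine ⟨_, π, sec, fun p hp => ?_, fun i => ?_⟩
  · have h2 : U.mkQ (linp p) = 0 := by
      rw [Submodule.mkQ_apply, Submodule.Quotient.mk_eq_zero]
      exact Submodule.subset_span ⟨p, hp, rfl⟩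
    rw [h1, LinearMap.comp_apply, h2, map_zero]
  · have h3 : U.mkQ ∘ₗ Finsupp.linearCombination F sec = b.repr.symm.toLinearMap := by
      refine Finsupp.lhom_ext' fun s => LinearMap.ext_ring ?_
      rw [LinearMap.comp_apply, LinearMap.comp_apply, Finsupp.lsingle_apply,
        Finsupp.linearCombination_single, one_smul, hsec, LinearMap.comp_apply,
        Finsupp.lsingle_apply]
      exact (b.repr_symm_single_one s).symm
    have h4 : U.mkQ (Finsupp.single i 1 - Finsupp.linearCombination F sec (vecB (π i))) = 0 := by
      rw [map_sub, sub_eq_zero]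
      have h5 := LinearMap.congr_fun h3 (vecB (π i))
      rw [LinearMap.comp_apply] at h5
      rw [h5, hπ]
      exact (b.repr.symm_apply_apply _).symm
    rwa [Submodule.mkQ_apply, Submodule.Quotient.mk_eq_zero] at h4

theorem lab_rhat {S : Type} (π : Fin d → List (F × S)) (p : Poly F (Fin d)) :
    lab π (rhat π p) = Finsupp.linearCombination F (fun i => vecB (π i)) (linp p) := by
  unfold rhat linp Poly.eval
  rw [map_list_sum, map_list_sum, List.map_map, List.map_map]
  congr 1
  refine List.map_congr_left fun q _ => ?_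
  obtain ⟨c, m⟩ := q
  cases m with
  | of i =>
    simp only [Function.comp_apply]
    rw [map_smul, Finsupp.linearCombination_single]
    congr 1
    exact lab_gx π i
  | mul u v =>
    simp only [Function.comp_apply, map_zero]
    rw [map_smul]
    have h : FreeMagma.lift (gx π) (u.mul v) =
        FreeMagma.lift (gx π) u * FreeMagma.lift (gx π) v := map_mul (FreeMagma.lift (gx π)) u v
    obtain ⟨m, hm⟩ := mul_mem π (FreeMagma.lift (gx π) u) (FreeMagma.lift (gx π) v)
    rw [h, ← hm, lab_inM, smul_zero]

/-- The normal form theorem. -/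
theorem normal_form (r : List (Poly F (Fin d))) :
    ∃ (n : ℕ) (π : Fin d → List (F × Fin n)), ∀ (ent : ℕ → ℕ → Bool) (w : Poly F (Fin d)),
      Vanishes F (fun t => poly F (fam ent t)) r w ↔ w.eval (gx π) ∈ II π ent r := by
  obtain ⟨n, π, sec, h1, h2⟩ := exists_pi r
  refine ⟨n, π, fun ent w => ⟨fun h => complete π ent r (fun p hp => ?_) w h,
    fun h => sound π ent r sec h2 w h⟩⟩
  rw [lab_rhat]
  exact h1 p hp

end Pool.Agent.W_59b51d_c25
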