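import Pool.Agent.W_59b51d_c25.MMDefs

/-!
# Properties of the kills
-/

namespace Pool.Agent.W_59b51d_c25

/-- `sp j` holds exactly for the squares (`Nat.pair 0 b = b * b`). -/
theorem sp_iff (j : ℕ) : sp j = true ↔ ∃ b, j = b ^ 2 := by
  have hp : ∀ b : ℕ, Nat.pair 0 b = b ^ 2 := by
    intro b
    unfold Nat.pair
    rcases Nat.eq_zero_or_pos b with h | h
    · subst h; rfl
    · rw [if_pos h]; ring
  unfold sp
  rw [decide_eq_true_iff]
  constructor
  · intro h
    refine ⟨j.unpair.2, ?_⟩
    rw [← hp, ← h, Nat.pair_unpair]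
  · rintro ⟨b, rfl⟩
    rw [← hp, Nat.unpair_pair]

theorem KQ_unpair_sq (b : ℕ) : (b ^ 2).unpair = (0, b) := by
  have hp : Nat.pair 0 b = b ^ 2 := by
    unfold Nat.pair
    rcases Nat.eq_zero_or_pos b with h | h
    · subst h; rfl
    · rw [if_pos h]; ring
  rw [← hp, Nat.unpair_pair]

/-- Properties of `kil`. -/
theorem kil_iff (ent : ℕ → ℕ → Bool) (n q : ℕ) :
    kil ent n q = true ↔ ∃ s, ent n s = true ∧ q = (Nat.pair n s + 1) ^ 2 := by
  unfold kil
  simp only [Bool.and_eq_true, decide_eq_true_eq, sp_iff]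
  constructor
  · rintro ⟨⟨b, rfl⟩, h0, h1, h2⟩
    rw [KQ_unpair_sq] at h1 h2
    have hb : 0 < b := by
      rcases Nat.eq_zero_or_pos b with h | h
      · subst h; exact absurd h0 (by norm_num)
      · exact h
    refine ⟨(b - 1).unpair.2, h2, ?_⟩
    have h3 : Nat.pair n (b - 1).unpair.2 = b - 1 := by
      conv_rhs => rw [← Nat.pair_unpair (b - 1)]
      rw [← h1]
    rw [h3, Nat.sub_add_cancel hb]
  · rintro ⟨s, h1, rfl⟩
    refine ⟨⟨_, rfl⟩, by positivity, ?_⟩
    rw [KQ_unpair_sq]
    simp only [Nat.add_sub_cancel, Nat.unpair_pair]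
    exact ⟨trivial, h1⟩

theorem KQ_ins_len {α : Type} (x : α) : ∀ (l : List α), ∀ q ∈ ins x l, q.2.length = l.length + 1
  | [], q, h => by
    simp only [ins, List.mem_singleton] at h
    subst h
    rfl
  | y :: l, q, h => by
    simp only [ins, List.mem_cons, List.mem_map] at h
    rcases h with rfl | ⟨p, hp, rfl⟩
    · rfl
    · simp [KQ_ins_len x l p hp]

theorem KQ_altP_len : ∀ (a : ℕ), ∀ c ∈ altP a, c.2.length = a
  | 0, c, h => by
    simp only [altP, List.mem_singleton] at h
    subst h
    rfl
  | a + 1, c, h => by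
    simp only [altP, List.mem_flatMap, List.mem_map] at h
    obtain ⟨p, hp, q, hq, rfl⟩ := h
    show q.2.length = a + 1
    rw [KQ_ins_len a p.2 q hq, KQ_altP_len a p hp]

theorem KQ_sum_ne {X D : Type} [AddCommGroup D] {ι : Type} (L : List ι) (g : ι → X →₀ D)
    (w : X) (h : (L.map g).sum w ≠ 0) : ∃ c ∈ L, g c w ≠ 0 := by
  induction L with
  | nil => exact absurd rfl h
  | cons a l ih =>
    by_cases ha : g a w = 0
    · rw [List.map_cons, List.sum_cons, Finsupp.add_apply, ha, zero_add] at h
      obtain ⟨c, hc, h'⟩ := ih h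
      exact ⟨c, List.mem_cons_of_mem _ hc, h'⟩
    · exact ⟨a, List.mem_cons_self, ha⟩

theorem KQ_single_ne {X D : Type} [AddCommGroup D] {x w : X} {d : D}
    (h : Finsupp.single x d w ≠ 0) : x = w := by
  classical
  rw [Finsupp.single_apply] at h
  by_contra hne
  rw [if_neg hne] at h
  exact h rfl

variable (F : Type) [Field F] {S D : Type} [AddCommGroup D] [Module F D]

theorem KQ_gen_len (ent : ℕ → ℕ → Bool) {f : QQ S D} (hf : KGen ent f) :
    ∃ N, 0 < N ∧ ∀ w, f w ≠ 0 → w.length = N := by
  cases hf with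
  | k1 l b d hb hl =>
    refine ⟨l.length, ?_, fun w hw => by rw [KQ_single_ne hw]⟩
    rcases Nat.eq_zero_or_pos l.length with h | h
    · rw [h] at hl
      exact absurd ((sp_iff 0).2 ⟨0, rfl⟩) (by rw [hl]; decide)
    · exact h
  | k2 n q pre z b d hk hq hp =>
    refine ⟨(n + 1) ^ 2, by positivity, fun w hw => ?_⟩
    obtain ⟨c, hc, h'⟩ := KQ_sum_ne _ _ _ hw
    rw [← KQ_single_ne h', List.length_append, List.length_map, KQ_altP_len _ c hc, hp]

theorem KQ_gen_nil (ent : ℕ → ℕ → Bool) {f : QQ S D} (hf : KGen ent f) (w : List S) :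
    f w [] = 0 := by
  classical
  cases hf with
  | k1 l b d hb hl =>
    rw [Finsupp.single_apply]
    split_ifs
    · rw [Finsupp.single_apply, if_neg]
      rintro rfl
      exact absurd hb (by simp)
    · rfl
  | k2 n q pre z b d hk hq hp =>
    have hb : b ≠ [] := by
      rintro rfl
      obtain ⟨s, -, rfl⟩ := (kil_iff ent n q).1 hk
      have : 0 < (Nat.pair n s + 1) ^ 2 := by positivity
      simp only [List.length_nil] at hq
      omega
    generalize altP (n.unpair.1 + 1) = L
    induction L with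
    | nil => rfl
    | cons c l ih =>
      rw [List.map_cons, List.sum_cons, Finsupp.add_apply, Finsupp.add_apply, ih, add_zero,
        Finsupp.single_apply]
      split_ifs
      · rw [Finsupp.single_apply, if_neg hb]
      · rfl

/-- A kill generator is homogeneous in the `L`-word: restriction to the `L`-words of length
satisfying a condition maps it to itself or to `0` (`Finsupp.filter`). -/
theorem KQ_filter (ent : ℕ → ℕ → Bool) (p : ℕ → Prop) [DecidablePred p] {f : QQ S D}
    (hf : f ∈ KQ F ent) : f.filter (fun w => p w.length) ∈ KQ F ent := by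
  induction hf using Submodule.span_induction with
  | mem f hf =>
    obtain ⟨N, -, hN⟩ := KQ_gen_len ent hf
    by_cases hp : p N
    · have : f.filter (fun w => p w.length) = f := by
        ext1 w
        by_cases hw : f w = 0
        · rw [Finsupp.filter_apply, hw, ite_self]
        · rw [Finsupp.filter_apply, if_pos (by rw [hN w hw]; exact hp)]
      rw [this]
      exact Submodule.subset_span hf
    · have : f.filter (fun w => p w.length) = 0 := by
        ext1 w
        by_cases hw : f w = 0
        · rw [Finsupp.filter_apply, hw, ite_self, Finsupp.zero_apply]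
        · rw [Finsupp.filter_apply, if_neg (by rw [hN w hw]; exact hp), Finsupp.zero_apply]
      rw [this]
      exact zero_mem _
  | zero => rw [Finsupp.filter_zero]; exact zero_mem _
  | add f g _ _ hf hg => rw [Finsupp.filter_add]; exact add_mem hf hg
  | smul c f _ hf => rw [Finsupp.filter_smul]; exact Submodule.smul_mem _ c hf

/-- The kills have values which vanish at the empty `R`-word (`1 ≤ b.length`; in `k2` we have
`0 < q ≤ b.length`), and vanish at the empty `L`-word. -/
theorem KQ_apply_nil (ent : ℕ → ℕ → Bool) {f : QQ S D} (hf : f ∈ KQ F ent) :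
    f [] = 0 ∧ ∀ w, f w [] = 0 := by
  induction hf using Submodule.span_induction with
  | mem f hf =>
    refine ⟨?_, KQ_gen_nil ent hf⟩
    obtain ⟨N, hN0, hN⟩ := KQ_gen_len ent hf
    by_contra h
    have := hN [] h
    simp only [List.length_nil] at this
    omega
  | zero => exact ⟨rfl, fun _ => rfl⟩
  | add f g _ _ hf hg => exact ⟨by simp [hf.1, hg.1], fun w => by simp [hf.2 w, hg.2 w]⟩
  | smul c f _ hf => exact ⟨by simp [hf.1], fun w => by simp [hf.2 w]⟩

/-- Values which vanish at `[]`, at `L`-words whose length is not a square, are killed. -/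
theorem mem_KQ_of_nonsq (ent : ℕ → ℕ → Bool) (f : QQ S D) (h1 : ∀ w, f w ≠ 0 → sp w.length = false)
    (h2 : ∀ w, f w [] = 0) : f ∈ KQ F ent := by
  rw [← Finsupp.sum_single f]
  refine Submodule.sum_mem _ fun w hw => ?_
  have hs : Finsupp.single w (f w) =
      ∑ v ∈ (f w).support, Finsupp.single w (Finsupp.single v (f w v)) := by
    conv_lhs => rw [← Finsupp.sum_single (f w)]
    rw [Finsupp.sum]
    exact map_sum (Finsupp.singleAddHom w : (List S →₀ D) →+ (List S →₀ (List S →₀ D))) _ _
  rw [hs]
  refine Submodule.sum_mem _ fun v hv => Submodule.subset_span (KGen.k1 w v _ ?_ ?_)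
  · rcases v with - | ⟨a, v⟩
    · exact absurd (h2 w) (Finsupp.mem_support_iff.1 hv)
    · simp
  · exact h1 w (Finsupp.mem_support_iff.1 hw)

end Pool.Agent.W_59b51d_c25
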