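import Pool.Agent.W_59b51d_c25.CU
import Pool.Agent.W_59b51d_c25.KQ

/-!
# The thresholds are bounded by a computable function
-/

namespace Pool.Agent.W_59b51d_c25

theorem GSigma_dec {ent : ℕ → ℕ → Bool}
    (hX : ∀ a, ∃ g : ℕ → Bool, Computable g ∧
      ∀ i, g i = true ↔ ∃ s, ent (Nat.pair a i) s = true) (N : ℕ) :
    ∃ D : ℕ → Bool, Computable D ∧
      ∀ n : ℕ, n.unpair.1 < N → (D n = true ↔ ∃ s, ent n s = true) := by
  induction N with
  | zero => exact ⟨fun _ => false, Computable.const _, fun n hn => absurd hn (Nat.not_lt_zero _)⟩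
  | succ N ih =>
    obtain ⟨D, hD, hD'⟩ := ih
    obtain ⟨g, hg, hg'⟩ := hX N
    refine ⟨fun n => bif decide (n.unpair.1 = N) then g n.unpair.2 else D n, ?_, ?_⟩
    · have h1 : Computable fun n : ℕ => n.unpair.1 :=
        (Primrec.fst.comp Primrec.unpair).to_comp
      have h2 : Computable fun n : ℕ => n.unpair.2 :=
        (Primrec.snd.comp Primrec.unpair).to_comp
      have h3 : Computable fun n : ℕ => decide (n.unpair.1 = N) := by
        have : PrimrecPred fun n : ℕ => n.unpair.1 = N :=
          PrimrecRel.comp Primrec.eq (Primrec.fst.comp Primrec.unpair) (Primrec.const N)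
        exact this.decide.to_comp
      exact Computable.cond h3 (hg.comp h2) hD
    · intro n hn
      by_cases h : n.unpair.1 = N
      · simp only [h, decide_true, cond_true]
        rw [hg' n.unpair.2]
        have : Nat.pair N n.unpair.2 = n := by
          rw [← h, Nat.pair_unpair]
        rw [this]
      · simp only [h, decide_false, cond_false]
        exact hD' n (by omega)

/-- If all the sets `X_a` are computable, then the thresholds are bounded by a computable function.

Proof. Induction on `N` gives a computable `D : ℕ → Bool` with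
`n.unpair.1 < N → (D n = true ↔ ∃ s, ent n s = true)`. The function
`h n :=` some `s` with `(!(D n && decide (n.unpair.1 < N)) || ent n s) = true` is computable
(`computable_find`). Put `σ J := ∑ n ∈ range (J + 1), (Nat.pair n (h n) + 1) ^ 2` (a `foldl`);
`kil_iff`. -/
theorem exists_sigma {ent : ℕ → ℕ → Bool} (hent : Computable₂ ent)
    (hX : ∀ a, ∃ g : ℕ → Bool, Computable g ∧
      ∀ i, g i = true ↔ ∃ s, ent (Nat.pair a i) s = true) (N : ℕ) :
    ∃ σ : ℕ → ℕ, Computable σ ∧ ∀ J n q, n.unpair.1 < N → (n + 1) ^ 2 ≤ J →
      kil ent n q = true → ∃ q' ≤ σ J, kil ent n q' = true := by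
  obtain ⟨D, hD, hD'⟩ := GSigma_dec hX N
  have h1 : Computable fun n : ℕ => decide (n.unpair.1 < N) := by
    have : PrimrecPred fun n : ℕ => n.unpair.1 < N :=
      PrimrecRel.comp Primrec.nat_lt (Primrec.fst.comp Primrec.unpair) (Primrec.const N)
    exact this.decide.to_comp
  have hp : Computable₂ fun (n s : ℕ) => (!(D n && decide (n.unpair.1 < N)) || ent n s) := by
    have hor : Computable₂ or := Primrec.or.to_comp
    have hand : Computable₂ and := Primrec.and.to_comp
    have hnot : Computable not := Primrec.not.to_comp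
    refine hor.comp (hnot.comp (hand.comp (hD.comp Computable.fst) (h1.comp Computable.fst))) ?_
    exact hent.comp Computable.fst Computable.snd
  obtain ⟨h, hh, hh'⟩ := computable_find hp (by
    intro n
    by_cases hc : (D n && decide (n.unpair.1 < N)) = true
    · have hc' := hc
      simp only [Bool.and_eq_true, decide_eq_true_eq] at hc'
      obtain ⟨s, hs⟩ := (hD' n hc'.2).1 hc'.1
      exact ⟨s, by simp [hs]⟩
    · exact ⟨0, by
        have : (D n && decide (n.unpair.1 < N)) = false := by simpa using hc
        simp [this]⟩)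
  let w : ℕ → ℕ := fun n => (Nat.pair n (h n) + 1) ^ 2
  have hw : Computable w := by
    have hpair : Computable fun n : ℕ => Nat.pair n (h n) :=
      (Primrec₂.natPair.to_comp).comp Computable.id hh
    have hs : Computable fun n : ℕ => Nat.pair n (h n) + 1 := Computable.succ.comp hpair
    have hmul : Computable₂ ((· * ·) : ℕ → ℕ → ℕ) := Primrec.nat_mul.to_comp
    have := hmul.comp hs hs
    refine this.of_eq fun n => ?_
    simp only [w]
    ring
  let σ : ℕ → ℕ := fun J => Nat.rec (w 0) (fun j r => r + w (j + 1)) J
  have hσ : Computable σ := by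
    have hadd : Computable₂ ((· + ·) : ℕ → ℕ → ℕ) := Primrec.nat_add.to_comp
    refine Computable.nat_rec (f := fun J : ℕ => J) (g := fun _ : ℕ => w 0)
      (h := fun _ (p : ℕ × ℕ) => p.2 + w (p.1 + 1)) Computable.id (Computable.const _) ?_
    refine hadd.comp (Computable.snd.comp Computable.snd) ?_
    exact hw.comp (Computable.succ.comp (Computable.fst.comp Computable.snd))
  have hσ' : ∀ J n, n ≤ J → w n ≤ σ J := by
    intro J
    induction J with
    | zero =>
      intro n hn
      have : n = 0 := by omega
      subst this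
      exact le_refl _
    | succ J ih =>
      intro n hn
      have e : σ (J + 1) = σ J + w (J + 1) := rfl
      rcases Nat.lt_or_ge n (J + 1) with h' | h'
      · have := ih n (by omega)
        omega
      · have : n = J + 1 := by omega
        subst this
        omega
  refine ⟨σ, hσ, ?_⟩
  intro J n q hn hJ hk
  obtain ⟨s, hs, -⟩ := (kil_iff ent n q).1 hk
  have hDn : D n = true := (hD' n hn).2 ⟨s, hs⟩
  have h2 := hh' n
  simp only [hDn, hn, decide_true, Bool.and_self, Bool.not_true, Bool.false_or] at h2
  refine ⟨w n, hσ' J n ?_, ?_⟩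
  · have : n ≤ (n + 1) ^ 2 := by nlinarith
    omega
  · exact (kil_iff ent n (w n)).2 ⟨h n, h2, rfl⟩

end Pool.Agent.W_59b51d_c25
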