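import Pool.Agent.W_59b51d_c25.GPi
import Pool.Agent.W_59b51d_c25.GClL
import Pool.Agent.W_59b51d_c25.GKillL
import Pool.Agent.W_59b51d_c25.GSigma
import Pool.Agent.W_59b51d_c25.GBound
import Pool.Agent.W_59b51d_c25.EvComp

/-!
# The solvable side
-/

namespace Pool.Agent.W_59b51d_c25

open Pool.Agent.W_59b51d_h18 (Poly code Multilinear)

theorem GSolve_actB_eq {S ι : Type} (o : Bool × S) (m : MB S ι) :
    actB o m = bif m.1.isSome then none else
      bif o.1 then
        (bif m.2.1.head?.isSome then some (some o.2, m.2.1, m.2.2.1, m.2.2.2)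
          else some (none, m.2.1, m.2.2.1 ++ [o.2], m.2.2.2))
      else some (none, m.2.1 ++ [o.2], m.2.2.1, m.2.2.2) := by
  obtain ⟨o1, o2⟩ := o
  obtain ⟨e, l, b, i⟩ := m
  cases e <;> cases l <;> cases o1 <;> rfl

theorem GSolve_actB (n d : ℕ) :
    Primrec₂ (actB : Bool × Fin n → MB (Fin n) (Fin d × Fin d) →
      Option (MB (Fin n) (Fin d × Fin d))) := by
  have o1 : Primrec fun p : (Bool × Fin n) × MB (Fin n) (Fin d × Fin d) => p.1.1 :=
    Primrec.fst.comp Primrec.fst
  have o2 : Primrec fun p : (Bool × Fin n) × MB (Fin n) (Fin d × Fin d) => p.1.2 :=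
    Primrec.snd.comp Primrec.fst
  have m1 : Primrec fun p : (Bool × Fin n) × MB (Fin n) (Fin d × Fin d) => p.2.1 :=
    Primrec.fst.comp Primrec.snd
  have m2 : Primrec fun p : (Bool × Fin n) × MB (Fin n) (Fin d × Fin d) => p.2.2.1 :=
    Primrec.fst.comp (Primrec.snd.comp Primrec.snd)
  have m3 : Primrec fun p : (Bool × Fin n) × MB (Fin n) (Fin d × Fin d) => p.2.2.2.1 :=
    Primrec.fst.comp (Primrec.snd.comp (Primrec.snd.comp Primrec.snd))
  have m4 : Primrec fun p : (Bool × Fin n) × MB (Fin n) (Fin d × Fin d) => p.2.2.2.2 :=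
    Primrec.snd.comp (Primrec.snd.comp (Primrec.snd.comp Primrec.snd))
  have ol : Primrec fun p : (Bool × Fin n) × MB (Fin n) (Fin d × Fin d) => [p.1.2] :=
    Primrec.list_cons.comp o2 (Primrec.const [])
  have key : Primrec fun p : (Bool × Fin n) × MB (Fin n) (Fin d × Fin d) =>
      bif p.2.1.isSome then none else
      bif p.1.1 then
        (bif p.2.2.1.head?.isSome then some (some p.1.2, p.2.2.1, p.2.2.2.1, p.2.2.2.2)
          else some (none, p.2.2.1, p.2.2.2.1 ++ [p.1.2], p.2.2.2.2))
      else some (none, p.2.2.1 ++ [p.1.2], p.2.2.2.1, p.2.2.2.2) := by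
    refine Primrec.cond (Primrec.option_isSome.comp m1) (Primrec.const none) ?_
    refine Primrec.cond o1 ?_ ?_
    · refine Primrec.cond (Primrec.option_isSome.comp (Primrec.list_head?.comp m2)) ?_ ?_
      · exact Primrec.option_some.comp (Primrec.pair (Primrec.option_some.comp o2)
          (Primrec.pair m2 (Primrec.pair m3 m4)))
      · exact Primrec.option_some.comp (Primrec.pair (Primrec.const none)
          (Primrec.pair m2 (Primrec.pair (Primrec.list_append.comp m3 ol) m4)))
    · exact Primrec.option_some.comp (Primrec.pair (Primrec.const none)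
          (Primrec.pair (Primrec.list_append.comp m2 ol) (Primrec.pair m3 m4)))
  exact key.of_eq fun p => (GSolve_actB_eq p.1 p.2).symm

variable {F : Type} [Field F] {d n : ℕ}

variable [Primcodable F]

/-- The action of a label is computable. -/
theorem GSolve_act (π : Fin d → List (F × Fin n)) (o : Bool) :
    Computable₂ fun (i : Fin d) (m : MB (Fin n) (Fin d × Fin d)) =>
      (π i).filterMap fun q => (actB (o, q.2) m).map fun m' =>
        ((q.1, Sum.inr m') : F × NB d (Fin n)) := by
  have hπ : Computable fun p : Fin d × MB (Fin n) (Fin d × Fin d) => π p.1 :=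
    (Primrec.dom_finite π).to_comp.comp Computable.fst
  refine computable_filterMap hπ ?_
  have h1 : Computable fun p : (Fin d × MB (Fin n) (Fin d × Fin d)) × (F × Fin n) =>
      actB (o, p.2.2) p.1.2 :=
    (GSolve_actB n d).to_comp.comp
      ((Computable.const o).pair (Computable.snd.comp Computable.snd))
      (Computable.snd.comp Computable.fst)
  refine Computable.option_map h1 ?_
  exact ((Computable.fst.comp (Computable.snd.comp Computable.fst)).pair
    (Computable.sumInr.comp Computable.snd)).to₂

/-- Multiplication of the basis elements is computable (`Fin d` is finite: `Primrec.dom_finite`). -/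
theorem computable_mulG (π : Fin d → List (F × Fin n)) : Computable₂ (mulG π) := by
  have h : Computable fun p : NB d (Fin n) × NB d (Fin n) =>
      Sum.casesOn (motive := fun _ => List (F × NB d (Fin n))) p.1
        (fun i => Sum.casesOn (motive := fun _ => List (F × NB d (Fin n))) p.2
          (fun j => [((1 : F), Sum.inr (none, [], [], (i, j)))])
          (fun m => (π i).filterMap fun q => (actB (false, q.2) m).map fun m' =>
            (q.1, Sum.inr m')))
        (fun m => Sum.casesOn (motive := fun _ => List (F × NB d (Fin n))) p.2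
          (fun j => (π j).filterMap fun q => (actB (true, q.2) m).map fun m' =>
            (q.1, Sum.inr m'))
          (fun _ => [])) := by
    refine Computable.sumCasesOn Computable.fst ?_ ?_
    · refine Computable.sumCasesOn (Computable.snd.comp Computable.fst) ?_ ?_
      · refine (Computable.list_cons.comp ((Computable.const (1 : F)).pair
          (Computable.sumInr.comp ((Computable.const none).pair ((Computable.const []).pair
            ((Computable.const []).pair ((Computable.snd.comp Computable.fst).pair
              Computable.snd)))))) (Computable.const [])).to₂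
      · exact (GSolve_act π false).comp (Computable.snd.comp Computable.fst) Computable.snd
    · refine Computable.sumCasesOn (Computable.snd.comp Computable.fst) ?_ ?_
      · exact (GSolve_act π true).comp Computable.snd (Computable.snd.comp Computable.fst)
      · exact Computable.const _
  refine h.of_eq fun p => ?_
  obtain ⟨a, b⟩ := p
  cases a <;> cases b <;> rfl

/-- The length of a basis element. -/
def GSolve_len (p : NB d (Fin n)) : ℕ :=
  Sum.casesOn (motive := fun _ => ℕ) p (fun _ => 0) fun m => m.2.1.length + m.2.2.1.length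

theorem GSolve_len_comp : Computable (GSolve_len : NB d (Fin n) → ℕ) := by
  unfold GSolve_len
  refine Computable.sumCasesOn Computable.id (Computable.const 0) ?_
  have h1 : Computable fun p : NB d (Fin n) × MB (Fin n) (Fin d × Fin d) => p.2.2.1.length :=
    Computable.list_length.comp (Computable.fst.comp (Computable.snd.comp Computable.snd))
  have h2 : Computable fun p : NB d (Fin n) × MB (Fin n) (Fin d × Fin d) => p.2.2.2.1.length :=
    Computable.list_length.comp
      (Computable.fst.comp (Computable.snd.comp (Computable.snd.comp Computable.snd)))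
  exact (Primrec.nat_add.to_comp.comp h1 h2)

/-- A computable bound of the lengths. -/
theorem GSolve_bound : ∃ g : List (F × NB d (Fin n)) → ℕ, Computable g ∧
    ∀ L, ∀ q ∈ L, GSolve_len q.2 ≤ g L := by
  have hp : Computable₂ fun (L : List (F × NB d (Fin n))) (m : ℕ) =>
      L.all fun q => decide (GSolve_len q.2 ≤ m) := by
    refine computable_all Computable.fst ?_
    exact (Primrec.nat_le.decide.to_comp.comp
      (GSolve_len_comp.comp (Computable.snd.comp Computable.snd))
      (Computable.snd.comp Computable.fst))
  obtain ⟨g, hg, hg'⟩ := computable_find hp (by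
    intro L
    induction L with
    | nil => exact ⟨0, rfl⟩
    | cons q L ih =>
      obtain ⟨m, hm⟩ := ih
      refine ⟨m + GSolve_len q.2, ?_⟩
      rw [List.all_eq_true] at hm ⊢
      intro x hx
      rw [decide_eq_true_eq]
      rcases List.mem_cons.1 hx with rfl | hx
      · omega
      · have := hm x hx
        rw [decide_eq_true_eq] at this
        omega)
  refine ⟨g, hg, fun L q hq => ?_⟩
  have := hg' L
  rw [List.all_eq_true] at this
  simpa using this q hq

omit [Primcodable F] in
theorem GSolve_mem {β : Type} (L : List (F × β)) (p : β) (h : vecB L p ≠ 0) :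
    ∃ q ∈ L, q.2 = p := by
  classical
  induction L with
  | nil => exact absurd rfl h
  | cons q L ih =>
    by_cases hq : q.2 = p
    · exact ⟨q, List.mem_cons_self, hq⟩
    · rw [vecB_cons, Finsupp.add_apply, Finsupp.single_eq_of_ne (Ne.symm hq), zero_add] at h
      obtain ⟨q', hq', h'⟩ := ih h
      exact ⟨q', List.mem_cons_of_mem _ hq', h'⟩

omit [Primcodable F] in
theorem GSolve_vecB_map {β γ : Type} (f : β → γ) (L : List (F × β)) :
    vecB (L.map fun q => (q.1, f q.2)) = Finsupp.lmapDomain F F f (vecB L) := by
  induction L with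
  | nil => simp [vecB_nil]
  | cons q L ih =>
    rw [List.map_cons, vecB_cons, vecB_cons, map_add, ih, Finsupp.lmapDomain_apply,
      Finsupp.lmapDomain_apply, Finsupp.mapDomain_single]

/-- The value of a coded polynomial at the generators. -/
theorem GSolve_eval (hmul : Computable₂ fun a b : F => a * b) (π : Fin d → List (F × Fin n)) :
    ∃ e : List (F × ℕ) → List (F × NB d (Fin n)), Computable e ∧
      ∀ w : Poly F (Fin d), SC.of (fun p q : NB d (Fin n) => vecB (mulG π p q))
        (vecB (e (w.map fun q => (q.1, code q.2)))) = w.eval (gx π) := by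
  let x : Unit → ℕ → List (F × NB d (Fin n)) := fun _ i =>
    if h : i < d then [((1 : F), Sum.inl ⟨i, h⟩)] else []
  have hx : Computable₂ x := by
    have h1 : Computable fun p : Unit × ℕ => (List.ofFn fun i : Fin d =>
        [((1 : F), (Sum.inl i : NB d (Fin n)))])[p.2]? :=
      Primrec.list_getElem?.to_comp.comp (Computable.const _) Computable.snd
    refine (Computable.option_getD h1 (Computable.const [])).of_eq fun p => ?_
    by_cases h : p.2 < d
    · simp [x, h]
    · simp [x, h]
  refine ⟨fun P => evP (mulG π) (x ()) P,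
    (computable_evP hmul (computable_mulG π) hx).comp (Computable.const ()) Computable.id, ?_⟩
  intro w
  rw [sem_evP (SC.of (fun p q : NB d (Fin n) => vecB (mulG π p q))) (mulG π) ?_ (x ()), List.map_map]
  · unfold Poly.eval
    rw [List.map_map]
    congr 1
    refine List.map_congr_left fun q _ => ?_
    simp only [Function.comp_apply]
    congr 1
    refine lift_unc_code q.2 (gx π) _ fun i => ?_
    simp only [x, i.isLt, dif_pos, vecB_cons, vecB_nil, add_zero, Fin.eta]
    rw [SC.of_single, one_smul]
    rfl
  · intro p q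
    rw [SC.of_single, SC.of_single, one_smul, one_smul, SC.b_mul_b]

/-- The decision procedure: compute `z := evP (mulG π) x w`, where `x i := [(1, inl i)]` for
`i < d` (`sem_evP` with `φ = SC.of _`, `lift_unc_code`), a bound `m` of the lengths of the words in
the terms of `z`, `B := C * ((m + C) ^ 2 + σ ((m + C) ^ 2) + 1)`, the lists of `exists_clL` and
`exists_killL` mapped by `Sum.inr` and a list of the `rhat p`; then decide by
`computable_spanB`. -/
theorem solve (hadd : Computable₂ fun a b : F => a + b) (hmul : Computable₂ fun a b : F => a * b)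
    {ent : ℕ → ℕ → Bool} (hent : Computable₂ ent)
    (hσ : ∀ N, ∃ σ : ℕ → ℕ, Computable σ ∧ ∀ J n q, n.unpair.1 < N → (n + 1) ^ 2 ≤ J →
      kil ent n q = true → ∃ q' ≤ σ J, kil ent n q' = true)
    (r : List (Poly F (Fin d))) : Solvable F (fun t => poly F (fam ent t)) r := by
  obtain ⟨n, π, hnf⟩ := normal_form r
  obtain ⟨e, he, he'⟩ := GSolve_eval hmul π
  obtain ⟨g, hg, hg'⟩ := GSolve_bound (F := F) (d := d) (n := n)
  obtain ⟨C, hC⟩ := II_bound π ent r
  obtain ⟨σ, hσc, hσ'⟩ := hσ n
  obtain ⟨L1, hL1, hL1'⟩ := exists_clL n d (GG π r)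
  obtain ⟨L2, hL2, hL2'⟩ := exists_killL (F := F) n d hent
  obtain ⟨f, hf, hf'⟩ := computable_spanB (F := F) (β := NB d (Fin n)) hadd hmul
  choose g0 hg0 using fun p : Poly F (Fin d) =>
    exists_vecB (SC.val (fun p q : NB d (Fin n) => vecB (mulG π p q)) (rhat π p))
  let B : ℕ → ℕ := fun m => C * ((m + C) ^ 2 + σ ((m + C) ^ 2) + 1)
  have hB : Computable B := by
    have hadd' : Computable₂ ((· + ·) : ℕ → ℕ → ℕ) := Primrec.nat_add.to_comp
    have hmul' : Computable₂ ((· * ·) : ℕ → ℕ → ℕ) := Primrec.nat_mul.to_comp
    have h1 : Computable fun m : ℕ => m + C := hadd'.comp Computable.id (Computable.const C)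
    have h2 : Computable fun m : ℕ => (m + C) ^ 2 := by
      refine (hmul'.comp h1 h1).of_eq fun m => ?_
      exact (pow_two _).symm
    have h3 : Computable fun m : ℕ => (m + C) ^ 2 + σ ((m + C) ^ 2) + 1 :=
      Computable.succ.comp (hadd'.comp h2 (hσc.comp h2))
    exact hmul'.comp (Computable.const C) h3
  let up : List (F × MB (Fin n) (Fin d × Fin d)) → List (F × NB d (Fin n)) :=
    fun g => g.map fun q => (q.1, Sum.inr q.2)
  have hup : Computable up := by
    refine computable_map Computable.id ?_
    exact ((Computable.fst.comp Computable.snd).pair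
      (Computable.sumInr.comp (Computable.snd.comp Computable.snd))).to₂
  let T : ℕ → List (List (F × NB d (Fin n))) := fun b => r.map g0 ++ (L1 b ++ L2 b).map up
  have hT : Computable T := by
    refine Computable.list_append.comp (Computable.const (r.map g0)) ?_
    refine computable_map (Computable.list_append.comp hL1 hL2) ?_
    exact (hup.comp Computable.snd).to₂
  have hspan : ∀ b, (Submodule.span F {v | ∃ g ∈ T b, v = vecB g}).map
      (SC.of (fun p q : NB d (Fin n) => vecB (mulG π p q))) =
      Submodule.span F {z | ∃ p ∈ r, z = rhat π p} ⊔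
        (ClB F (GG π r) b ⊔ KBt F (Fin n) (Fin d × Fin d) ent b).map (inM π) := by
    intro b
    rw [← hL1' b, ← hL2' b, ← Submodule.span_union, Submodule.map_span, Submodule.map_span,
      ← Submodule.span_union]
    congr 1
    ext v
    constructor
    · rintro ⟨u, ⟨g, hg, rfl⟩, rfl⟩
      rcases List.mem_append.1 hg with h1 | h1
      · obtain ⟨p, hp, rfl⟩ := List.mem_map.1 h1
        left
        refine ⟨p, hp, ?_⟩
        rw [hg0, SC.of_val]
      · obtain ⟨g', hg', rfl⟩ := List.mem_map.1 h1
        right
        refine ⟨vecB g', ?_, ?_⟩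
        · rcases List.mem_append.1 hg' with h2 | h2
          · exact Or.inl ⟨g', h2, rfl⟩
          · exact Or.inr ⟨g', h2, rfl⟩
        · rw [inM, LinearMap.comp_apply, ← GSolve_vecB_map]
    · rintro (⟨p, hp, rfl⟩ | ⟨u, hu, rfl⟩)
      · refine ⟨vecB (g0 p), ⟨g0 p, List.mem_append_left _ (List.mem_map.2 ⟨p, hp, rfl⟩), rfl⟩, ?_⟩
        rw [hg0, SC.of_val]
      · have hu' : ∃ g' ∈ L1 b ++ L2 b, u = vecB g' := by
          rcases hu with ⟨g', h2, h3⟩ | ⟨g', h2, h3⟩
          · exact ⟨g', List.mem_append_left _ h2, h3⟩
          · exact ⟨g', List.mem_append_right _ h2, h3⟩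
        obtain ⟨g', h2, rfl⟩ := hu'
        refine ⟨vecB (up g'), ⟨up g', List.mem_append_right _ (List.mem_map.2 ⟨g', h2, rfl⟩),
          rfl⟩, ?_⟩
        rw [inM, LinearMap.comp_apply, ← GSolve_vecB_map]
  refine ⟨fun P => f (e P, T (B (g (e P)))), ?_, ?_⟩
  · exact hf.comp (he.pair (hT.comp (hB.comp (hg.comp he))))
  · intro w
    rw [hf', hnf ent w, ← he' w]
    set zl := e (w.map fun q => (q.1, code q.2)) with hzl
    have hb := hC (g zl) (σ ((g zl + C) ^ 2)) (fun n' q h1 h2 h3 => hσ' _ n' q h1 h2 h3)
      (SC.of (fun p q : NB d (Fin n) => vecB (mulG π p q)) (vecB zl)) (by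
        intro p hp
        rw [SC.val_of] at hp
        obtain ⟨q, hq, hq'⟩ := GSolve_mem zl (Sum.inr p) hp
        have := hg' zl q hq
        rw [hq'] at this
        change p.2.1.length + p.2.2.1.length ≤ g zl at this
        omega)
    rw [hb, ← hspan]
    constructor
    · intro h
      exact Submodule.mem_map_of_mem h
    · rintro ⟨u, hu, h⟩
      rwa [SC.of_injective _ h] at hu

/-- The solvable side. -/
theorem good (hadd : Computable₂ fun a b : F => a + b) (hmul : Computable₂ fun a b : F => a * b)
    {ent : ℕ → ℕ → Bool} (hent : Computable₂ ent)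
    (hX : ∀ a, ∃ g : ℕ → Bool, Computable g ∧
      ∀ i, g i = true ↔ ∃ s, ent (Nat.pair a i) s = true) :
    AllSolvable F (fun t => poly F (fam ent t)) :=
  fun _ r => solve hadd hmul hent (exists_sigma hent hX) r

end Pool.Agent.W_59b51d_c25
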