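import Pool.Agent.W_59b51d_c25.GDefs

/-!
# The homomorphism from `GA π`
-/

namespace Pool.Agent.W_59b51d_c25

open Pool.Agent.W_59b51d_h18 (Poly code Multilinear)

section GTheta_aux

variable {S A : Type} [NonUnitalNonAssocRing A]

/-- The right multiplications by the `c s`, `s ∈ b`, applied to `z`. -/
def GTheta_r (c : S → A) (b : List S) (z : A) : A := b.foldl (fun x s => x * c s) z

/-- The left multiplications by the `c s`, `s ∈ l`, applied to `z`. -/
def GTheta_l (c : S → A) (l : List S) (z : A) : A := l.foldl (fun x s => c s * x) z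

theorem GTheta_r_prod (c : S → A) (b : List S) (u v : A) :
    ∃ x y, GTheta_r c b (u * v) = x * y := by
  induction b generalizing u v with
  | nil => exact ⟨u, v, rfl⟩
  | cons s b ih => exact ih (u * v) (c s)

theorem GTheta_l_prod (c : S → A) (l : List S) (u v : A) :
    ∃ x y, GTheta_l c l (u * v) = x * y := by
  induction l generalizing u v with
  | nil => exact ⟨u, v, rfl⟩
  | cons s l ih => exact ih (c s) (u * v)

theorem GTheta_l_prod3 (c : S → A) (l : List S) (t u v : A) :
    ∃ w x y, GTheta_l c l (t * (u * v)) = w * (x * y) := by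
  induction l generalizing t u v with
  | nil => exact ⟨t, u, v, rfl⟩
  | cons s l ih => exact ih (c s) t (u * v)

theorem GTheta_r_append (c : S → A) (b : List S) (s : S) (z : A) :
    GTheta_r c (b ++ [s]) z = GTheta_r c b z * c s := by
  simp [GTheta_r]

theorem GTheta_l_append (c : S → A) (l : List S) (s : S) (z : A) :
    GTheta_l c (l ++ [s]) z = c s * GTheta_l c l z := by
  simp [GTheta_l]

/-- The value of a basis element of `M`. -/
def GTheta_v {ι : Type} (a : ι → A) (c : S → A) : MB S (ι × ι) → A
  | (none, l, b, i) => GTheta_l c l (GTheta_r c b (a i.1 * a i.2))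
  | (some _, [], _, _) => 0
  | (some e, s :: l, b, i) => GTheta_l c (s :: l) (GTheta_r c b (a i.1 * a i.2)) * c e

theorem GTheta_v_prod {ι : Type} (a : ι → A) (c : S → A) (m : MB S (ι × ι)) :
    ∃ x y, GTheta_v a c m = x * y := by
  match m with
  | (none, l, b, i) =>
    obtain ⟨x, y, h⟩ := GTheta_r_prod c b (a i.1) (a i.2)
    obtain ⟨x', y', h'⟩ := GTheta_l_prod c l x y
    exact ⟨x', y', by rw [GTheta_v, h, h']⟩
  | (some _, [], _, _) => exact ⟨0, 0, by rw [GTheta_v, mul_zero]⟩
  | (some e, s :: l, b, i) => exact ⟨_, _, rfl⟩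

variable {F : Type} [Field F] [Module F A]

theorem GTheta_v_true {ι : Type} (a : ι → A) (c : S → A)
    (h3 : ∀ x y s t u : A, ((s * (x * y)) * t) * u = 0) (s : S) (m : MB S (ι × ι)) :
    Finsupp.linearCombination F (GTheta_v a c) (osg F (actB (true, s) m)) =
      GTheta_v a c m * c s := by
  match m with
  | (some _, [], _, _) => simp [actB, osg, GTheta_v]
  | (some e, s' :: l, b, i) =>
    obtain ⟨x, y, h⟩ := GTheta_r_prod c b (a i.1) (a i.2)
    obtain ⟨w, x', y', h'⟩ := GTheta_l_prod3 c l (c s') x y
    have h1 : GTheta_l c (s' :: l) (GTheta_r c b (a i.1 * a i.2)) = w * (x' * y') := by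
      rw [h]; exact h'
    simp only [actB, osg, map_zero, GTheta_v, h1, h3]
  | (none, [], b, i) =>
    simp only [actB, osg, if_true, Finsupp.linearCombination_single, one_smul, GTheta_v,
      GTheta_r_append]
    rfl
  | (none, s' :: l, b, i) =>
    simp only [actB, osg, if_true, Finsupp.linearCombination_single, one_smul, GTheta_v]

theorem GTheta_v_false {ι : Type} (a : ι → A) (c : S → A)
    (h4 : ∀ x y s t u : A, u * ((s * (x * y)) * t) = 0) (s : S) (m : MB S (ι × ι)) :
    Finsupp.linearCombination F (GTheta_v a c) (osg F (actB (false, s) m)) =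
      c s * GTheta_v a c m := by
  match m with
  | (some _, [], _, _) => simp [actB, osg, GTheta_v]
  | (some e, s' :: l, b, i) =>
    obtain ⟨x, y, h⟩ := GTheta_r_prod c b (a i.1) (a i.2)
    obtain ⟨w, x', y', h'⟩ := GTheta_l_prod3 c l (c s') x y
    have h1 : GTheta_l c (s' :: l) (GTheta_r c b (a i.1 * a i.2)) = w * (x' * y') := by
      rw [h]; exact h'
    simp only [actB, osg, map_zero, GTheta_v, h1, h4]
  | (none, [], b, i) =>
    simp only [actB, osg, Bool.false_eq_true, if_false, Finsupp.linearCombination_single,
      one_smul, GTheta_v]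
    rfl
  | (none, s' :: l, b, i) =>
    simp only [actB, osg, Bool.false_eq_true, if_false, Finsupp.linearCombination_single,
      one_smul, GTheta_v, GTheta_l_append]

end GTheta_aux

variable {F : Type} [Field F] {d : ℕ} {S : Type} (π : Fin d → List (F × S))
variable {A : Type} [NonUnitalNonAssocRing A] [Module F A] [IsScalarTower F A A]
  [SMulCommClass F A A]

/-- The homomorphism from `GA π` to an algebra in which the generator `i` acts on the products like
the combination `π i` of the elements `c s`.

Proof. `Θ` on the basis: `inl i ↦ a i`; `inr (e, l, b, (i, j))` is the operator word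
`b.map (true, ·) ++ l.map (false, ·) ++ (the letter (true, e))`, with the labels `c s`, applied to
`a i * a j`, but `inr (some e, [], b, (i, j)) ↦ 0`. The rules for `actBL` are checked on the basis
(`h3`, `h4` for the elements `(some e, l, b, i)`, `l ≠ []`). Multiplicativity: on the basis, by
`h1`, `h2` and the rules. -/
theorem exists_theta (a : Fin d → A) (c : S → A) (h0 : ∀ x y z w : A, (x * y) * (z * w) = 0)
    (h1 : ∀ i x y, (x * y) * a i = (x * y) * Finsupp.linearCombination F c (vecB (π i)))
    (h2 : ∀ i x y, a i * (x * y) = Finsupp.linearCombination F c (vecB (π i)) * (x * y))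
    (h3 : ∀ x y s t u : A, ((s * (x * y)) * t) * u = 0)
    (h4 : ∀ x y s t u : A, u * ((s * (x * y)) * t) = 0) :
    ∃ Θ : GA π →ₗ[F] A, (∀ i, Θ (gx π i) = a i) ∧
      (∀ m s, Θ (inM π (actBL F (true, s) m)) = Θ (inM π m) * c s) ∧
      (∀ m s, Θ (inM π (actBL F (false, s) m)) = c s * Θ (inM π m)) ∧
      (∀ (b : List S) (i : Fin d × Fin d), ∃ x y : A,
        Θ (inM π (Finsupp.single (none, [], b, i) 1)) = x * y) ∧
      ∀ x y, Θ (x * y) = Θ x * Θ y := by
  let Θ : GA π →ₗ[F] A :=
    Finsupp.linearCombination F (Sum.elim a (GTheta_v a c)) ∘ₗ SC.val _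
  have hg : ∀ i, Θ (gx π i) = a i := by
    intro i
    change Finsupp.linearCombination F (Sum.elim a (GTheta_v a c))
      (Finsupp.single (Sum.inl i) (1 : F)) = a i
    rw [Finsupp.linearCombination_single, one_smul, Sum.elim_inl]
  have hM : ∀ m, Θ (inM π m) = Finsupp.linearCombination F (GTheta_v a c) m := by
    intro m
    change Finsupp.linearCombination F (Sum.elim a (GTheta_v a c)) (Finsupp.mapDomain Sum.inr m)
      = _
    rw [Finsupp.linearCombination_mapDomain]
    rfl
  have hMs : ∀ m, Θ (inM π (Finsupp.single m 1)) = GTheta_v a c m := by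
    intro m
    rw [hM, Finsupp.linearCombination_single, one_smul]
  have hT : ∀ m s, Θ (inM π (actBL F (true, s) m)) = Θ (inM π m) * c s := by
    intro m s
    rw [hM, hM]
    induction m using Finsupp.induction_linear with
    | zero => rw [map_zero, map_zero, zero_mul]
    | add f g hf hg => rw [map_add, map_add, map_add, add_mul, hf, hg]
    | single p k =>
      have hp : Finsupp.single p k = k • Finsupp.single p (1 : F) := by
        rw [Finsupp.smul_single, smul_eq_mul, mul_one]
      rw [hp, map_smul, map_smul, map_smul, smul_mul_assoc, actBL_single,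
        GTheta_v_true a c h3, Finsupp.linearCombination_single, one_smul]
  have hF : ∀ m s, Θ (inM π (actBL F (false, s) m)) = c s * Θ (inM π m) := by
    intro m s
    rw [hM, hM]
    induction m using Finsupp.induction_linear with
    | zero => rw [map_zero, map_zero, mul_zero]
    | add f g hf hg => rw [map_add, map_add, map_add, mul_add, hf, hg]
    | single p k =>
      have hp : Finsupp.single p k = k • Finsupp.single p (1 : F) := by
        rw [Finsupp.smul_single, smul_eq_mul, mul_one]
      rw [hp, map_smul, map_smul, map_smul, mul_smul_comm, actBL_single,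
        GTheta_v_false a c h4, Finsupp.linearCombination_single, one_smul]
  have hrT : ∀ (ℓ : S →₀ F) m, Θ (inM π (rho F true ℓ m)) =
      Θ (inM π m) * Finsupp.linearCombination F c ℓ := by
    intro ℓ m
    induction ℓ using Finsupp.induction_linear with
    | zero => rw [map_zero, map_zero, LinearMap.zero_apply, map_zero, map_zero, mul_zero]
    | add f g hf hg => rw [map_add, LinearMap.add_apply, map_add, map_add, map_add, mul_add,
        hf, hg]
    | single p k =>
      have hp : Finsupp.single p k = k • Finsupp.single p (1 : F) := by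
        rw [Finsupp.smul_single, smul_eq_mul, mul_one]
      rw [hp, map_smul, map_smul, LinearMap.smul_apply, map_smul, map_smul, mul_smul_comm,
        rho_single, hT, Finsupp.linearCombination_single, one_smul]
  have hrF : ∀ (ℓ : S →₀ F) m, Θ (inM π (rho F false ℓ m)) =
      Finsupp.linearCombination F c ℓ * Θ (inM π m) := by
    intro ℓ m
    induction ℓ using Finsupp.induction_linear with
    | zero => rw [map_zero, map_zero, LinearMap.zero_apply, map_zero, map_zero, zero_mul]
    | add f g hf hg => rw [map_add, LinearMap.add_apply, map_add, map_add, map_add, add_mul,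
        hf, hg]
    | single p k =>
      have hp : Finsupp.single p k = k • Finsupp.single p (1 : F) := by
        rw [Finsupp.smul_single, smul_eq_mul, mul_one]
      rw [hp, map_smul, map_smul, LinearMap.smul_apply, map_smul, map_smul, smul_mul_assoc,
        rho_single, hF, Finsupp.linearCombination_single, one_smul]
  have hbr : ∀ m : MB S (Fin d × Fin d),
      SC.b (fun p q : NB d S => vecB (mulG π p q)) (Sum.inr m) =
        inM π (Finsupp.single m 1) := by
    intro m
    change Finsupp.single (Sum.inr m) (1 : F) = Finsupp.mapDomain Sum.inr (Finsupp.single m 1)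
    rw [Finsupp.mapDomain_single]
  have hbas : ∀ p q : NB d S, Θ (SC.b (fun p q : NB d S => vecB (mulG π p q)) p *
      SC.b (fun p q : NB d S => vecB (mulG π p q)) q) =
      Θ (SC.b (fun p q : NB d S => vecB (mulG π p q)) p) *
        Θ (SC.b (fun p q : NB d S => vecB (mulG π p q)) q) := by
    intro p q
    match p, q with
    | .inl i, .inl j =>
      change Θ (gx π i * gx π j) = Θ (gx π i) * Θ (gx π j)
      rw [gx_mul_gx, hMs, hg, hg]
      rfl
    | .inl i, .inr m =>
      rw [hbr]
      change Θ (gx π i * _) = Θ (gx π i) * _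
      obtain ⟨x, y, hxy⟩ := GTheta_v_prod a c m
      rw [mul_inM, hrF, lab_gx, hg, hMs, hxy, h2]
    | .inr m, .inl i =>
      rw [hbr]
      change Θ (_ * gx π i) = _ * Θ (gx π i)
      obtain ⟨x, y, hxy⟩ := GTheta_v_prod a c m
      rw [inM_mul, hrT, lab_gx, hg, hMs, hxy, h1]
    | .inr m, .inr m' =>
      rw [hbr, hbr]
      obtain ⟨x, y, hxy⟩ := GTheta_v_prod a c m
      obtain ⟨x', y', hxy'⟩ := GTheta_v_prod a c m'
      rw [inM_mul, lab_inM, map_zero, LinearMap.zero_apply, map_zero, map_zero, hMs, hMs, hxy,
        hxy', h0]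
  refine ⟨Θ, hg, hT, hF, ?_, ?_⟩
  · intro b i
    rw [hMs]
    exact GTheta_v_prod a c _
  · intro x y
    have hx : x ∈ Submodule.span F
        (Set.range (SC.b (fun p q : NB d S => vecB (mulG π p q)))) := by
      rw [SC.span_b]; trivial
    have hy : y ∈ Submodule.span F
        (Set.range (SC.b (fun p q : NB d S => vecB (mulG π p q)))) := by
      rw [SC.span_b]; trivial
    induction hx using Submodule.span_induction with
    | mem x hx =>
      obtain ⟨p, rfl⟩ := hx
      induction hy using Submodule.span_induction with
      | mem y hy => obtain ⟨q, rfl⟩ := hy; exact hbas p q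
      | zero => rw [mul_zero, map_zero, mul_zero]
      | add u v _ _ hu hv => rw [mul_add, map_add, map_add, mul_add, hu, hv]
      | smul k u _ hu => rw [mul_smul_comm, map_smul, map_smul, mul_smul_comm, hu]
    | zero => rw [zero_mul, map_zero, zero_mul]
    | add u v _ _ hu hv => rw [add_mul, map_add, map_add, add_mul, hu, hv]
    | smul k u _ hu => rw [smul_mul_assoc, map_smul, map_smul, smul_mul_assoc, hu]

end Pool.Agent.W_59b51d_c25
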