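import Pool.Agent.W_59b51d_c25.GKill
import Pool.Agent.W_59b51d_c25.GTheta

/-!
# Soundness of the normal form
-/

namespace Pool.Agent.W_59b51d_c25

open Pool.Agent.W_59b51d_h18 (Poly code Multilinear)

variable {F : Type} [Field F] {d : ℕ} {S : Type} (π : Fin d → List (F × S))
variable {A : Type} [NonUnitalNonAssocRing A] [Module F A] [IsScalarTower F A A]
  [SMulCommClass F A A]

/-- The linear part of a polynomial. -/
noncomputable def linp (p : Poly F (Fin d)) : Fin d →₀ F :=
  (p.map fun q => match q.2 with
    | .of i => Finsupp.single i q.1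
    | .mul _ _ => 0).sum

theorem GSound_lin (p : Poly F (Fin d)) (a : Fin d → A)
    (h0 : ∀ x y z w : A, (x * y) * (z * w) = 0) (x y : A) :
    (x * y) * p.eval a = (x * y) * Finsupp.linearCombination F a (linp p) ∧
      p.eval a * (x * y) = Finsupp.linearCombination F a (linp p) * (x * y) := by
  unfold Pool.Agent.W_59b51d_h18.Poly.eval linp
  induction p with
  | nil => simp
  | cons q p ih =>
    obtain ⟨c, m⟩ := q
    simp only [List.map_cons, List.sum_cons, map_add, mul_add, add_mul]
    rw [ih.1, ih.2]
    cases m with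
    | of i =>
      simp [FreeMagma.lift_of, Finsupp.linearCombination_single]
    | mul s t =>
      have h1 : FreeMagma.lift a (s.mul t) = FreeMagma.lift a s * FreeMagma.lift a t := rfl
      simp only [h1, map_zero, mul_zero, zero_mul, mul_smul_comm, smul_mul_assoc, h0, smul_zero]
      exact ⟨trivial, trivial⟩

/-- In a metabelian algebra, if `p.eval a = 0`, the linear part of `p` multiplies all products to
`0` (the rest of `p` is a sum of products). -/
theorem linp_mul (p : Poly F (Fin d)) (a : Fin d → A) (h0 : ∀ x y z w : A, (x * y) * (z * w) = 0)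
    (hp : p.eval a = 0) (x y : A) :
    (x * y) * Finsupp.linearCombination F a (linp p) = 0 ∧
      Finsupp.linearCombination F a (linp p) * (x * y) = 0 := by
  obtain ⟨h1, h2⟩ := GSound_lin p a h0 x y
  rw [hp] at h1 h2
  rw [mul_zero] at h1
  rw [zero_mul] at h2
  exact ⟨h1.symm, h2.symm⟩

theorem GSound_span (r : List (Poly F (Fin d))) (a : Fin d → A)
    (h0 : ∀ x y z w : A, (x * y) * (z * w) = 0) (hr : ∀ p ∈ r, p.eval a = 0)
    {f : Fin d →₀ F} (hf : f ∈ Submodule.span F {v | ∃ p ∈ r, v = linp p}) (x y : A) :
    (x * y) * Finsupp.linearCombination F a f = 0 ∧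
      Finsupp.linearCombination F a f * (x * y) = 0 := by
  induction hf using Submodule.span_induction with
  | mem f hf =>
    obtain ⟨p, hp, rfl⟩ := hf
    exact linp_mul p a h0 (hr p hp) x y
  | zero => simp
  | add f g _ _ hf hg =>
    rw [map_add, mul_add, add_mul, hf.1, hf.2, hg.1, hg.2, add_zero]
    exact ⟨rfl, rfl⟩
  | smul c f _ hf =>
    rw [map_smul, mul_smul_comm, smul_mul_assoc, hf.1, hf.2, smul_zero]
    exact ⟨rfl, rfl⟩

omit [IsScalarTower F A A] [SMulCommClass F A A] in
theorem GSound_lc (a : Fin d → A) (sec : S → (Fin d →₀ F)) (ℓ : S →₀ F) :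
    Finsupp.linearCombination F (fun s => Finsupp.linearCombination F a (sec s)) ℓ =
      Finsupp.linearCombination F a (Finsupp.linearCombination F sec ℓ) := by
  induction ℓ using Finsupp.induction_linear with
  | zero => simp
  | add f g hf hg => rw [map_add, map_add, map_add, hf, hg]
  | single s c => simp

omit [IsScalarTower F A A] [SMulCommClass F A A] in
theorem GSound_eval (Θ : GA π →ₗ[F] A) (a : Fin d → A) (hg : ∀ i, Θ (gx π i) = a i)
    (hmul : ∀ x y, Θ (x * y) = Θ x * Θ y) (p : Poly F (Fin d)) :
    Θ (p.eval (gx π)) = p.eval a := by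
  have hm : ∀ m : FreeMagma (Fin d), Θ (FreeMagma.lift (gx π) m) = FreeMagma.lift a m := by
    intro m
    induction m using FreeMagma.rec with
    | of i => exact hg i
    | mul s t hs ht =>
      change Θ (FreeMagma.lift (gx π) s * FreeMagma.lift (gx π) t) =
        FreeMagma.lift a s * FreeMagma.lift a t
      rw [hmul, hs, ht]
  unfold Pool.Agent.W_59b51d_h18.Poly.eval
  induction p with
  | nil => simp
  | cons q p ih => rw [List.map_cons, List.map_cons, List.sum_cons, List.sum_cons, map_add, ih,
      map_smul, hm]

theorem GSound_word (Θ : GA π →ₗ[F] A) (c : S → A)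
    (hT : ∀ m s, Θ (inM π (actBL F (true, s) m)) = Θ (inM π m) * c s)
    (hF : ∀ m s, Θ (inM π (actBL F (false, s) m)) = c s * Θ (inM π m))
    (u : List (Bool × S)) (m : MB S (Fin d × Fin d) →₀ F) :
    Θ (inM π (actwB F u m)) = ow (rA F A) (u.map fun o => (o.1, c o.2)) (Θ (inM π m)) := by
  induction u generalizing m with
  | nil => rfl
  | cons o u ih =>
    rw [GKg_cons, ih]
    have h1 : ow (rA F A) ((o :: u).map fun o => (o.1, c o.2)) (Θ (inM π m)) =
        ow (rA F A) (u.map fun o => (o.1, c o.2)) (rA F A o.1 (c o.2) (Θ (inM π m))) := rfl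
    rw [h1]
    congr 1
    obtain ⟨o1, o2⟩ := o
    cases o1 with
    | true => exact (hT m o2).trans (rA_true _ _).symm
    | false => exact (hF m o2).trans (rA_false _ _).symm

/-- Put `c s := ∑ sec s i • a i`. `exists_theta` applies by `linp_mul` and `hsec`. `Θ` maps the
relators to `0`, hence `GG` and `ClBw`, and the kills by `kill_gen` and the identities of `A`
(`satisfies_iff`); `Θ (w.eval (gx π)) = w.eval a`. -/
theorem sound (ent : ℕ → ℕ → Bool) (r : List (Poly F (Fin d))) (sec : S → (Fin d →₀ F))
    (hsec : ∀ i, Finsupp.single i 1 - Finsupp.linearCombination F sec (vecB (π i)) ∈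
      Submodule.span F {v | ∃ p ∈ r, v = linp p})
    (w : Poly F (Fin d)) (hw : w.eval (gx π) ∈ II π ent r) :
    Vanishes F (fun t => poly F (fam ent t)) r w := by
  intro A _ _ _ _ hS a hr
  obtain ⟨h0, hid⟩ := (satisfies_iff ent).1 hS
  have h3 : ∀ x y s t u : A, ((s * (x * y)) * t) * u = 0 := by
    intro x y s t u
    have h := hid 1 one_ne_zero x y (fun n => if n = 0 then s else if n = 1 then t else u)
    simp only [idw, List.map_cons, List.map_nil, List.sum_cons, List.sum_nil, add_zero,
      Int.cast_one, one_smul, ow] at h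
    simpa [rA_true, rA_false] using h
  have h4 : ∀ x y s t u : A, u * ((s * (x * y)) * t) = 0 := by
    intro x y s t u
    have h := hid 2 two_ne_zero x y (fun n => if n = 0 then s else if n = 1 then t else u)
    simp only [idw, List.map_cons, List.map_nil, List.sum_cons, List.sum_nil, add_zero,
      Int.cast_one, one_smul, ow] at h
    simpa [rA_true, rA_false] using h
  have key : ∀ (i : Fin d) (x y : A),
      (x * y) * a i = (x * y) * Finsupp.linearCombination F
        (fun s => Finsupp.linearCombination F a (sec s)) (vecB (π i)) ∧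
      a i * (x * y) = Finsupp.linearCombination F
        (fun s => Finsupp.linearCombination F a (sec s)) (vecB (π i)) * (x * y) := by
    intro i x y
    have h := GSound_span r a h0 hr (hsec i) x y
    rw [map_sub, Finsupp.linearCombination_single, one_smul, mul_sub, sub_mul] at h
    rw [GSound_lc]
    exact ⟨sub_eq_zero.1 h.1, sub_eq_zero.1 h.2⟩
  obtain ⟨Θ, hg, hT, hF, hprod, hmul⟩ := exists_theta π a
    (fun s => Finsupp.linearCombination F a (sec s)) h0 (fun i x y => (key i x y).1)
    (fun i x y => (key i x y).2) h3 h4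
  have hw1 := GSound_word π Θ _ hT hF
  have hle : II π ent r ≤ LinearMap.ker Θ := by
    unfold II
    refine sup_le ?_ ?_
    · rw [Submodule.span_le]
      rintro z ⟨p, hp, rfl⟩
      change Θ (rhat π p) = 0
      rw [rhat, GSound_eval π Θ a hg hmul]
      exact hr p hp
    · rw [Submodule.map_le_iff_le_comap]
      refine sup_le ?_ ?_
      · unfold ClBw
        rw [Submodule.span_le]
        rintro z ⟨k, u, rfl⟩
        change Θ (inM π (actwB F u (GG π r k))) = 0
        have h5 : Θ (inM π (GG π r k)) = 0 := by
          have h6 : Θ (rhat π r[k.1]) = 0 := by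
            rw [rhat, GSound_eval π Θ a hg hmul]
            exact hr _ (List.getElem_mem _)
          rw [inM_GG]
          split_ifs
          · rw [hmul, h6, zero_mul]
          · rw [hmul, h6, mul_zero]
        rw [hw1, h5]
        exact MLW_zero _ _
      · unfold KB
        rw [Submodule.span_le]
        rintro z ⟨L, L', hz⟩
        obtain ⟨t, z0, b, i, ht, rfl⟩ := kill_gen F ent hz
        obtain ⟨x, y, hxy⟩ := hprod b i
        change Θ (inM π _) = 0
        rw [map_list_sum, map_list_sum, List.map_map, List.map_map]
        have h7 := hid t ht x y (fun n => Finsupp.linearCombination F a (sec (z0 n)))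
        rw [← h7]
        congr 1
        apply List.map_congr_left
        intro q _
        change Θ (inM π (((q.1 : ℤ) : F) • actwB F (q.2.map fun o => (o.1, z0 o.2)) _)) = _
        rw [map_smul, map_smul, hw1, hxy, List.map_map]
        rfl
  have h8 : Θ (w.eval (gx π)) = 0 := hle hw
  rw [GSound_eval π Θ a hg hmul] at h8
  exact h8

end Pool.Agent.W_59b51d_c25
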