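import Pool.Agent.W_59b51d_c25.MMDefs

/-!
# Bounded elements of the submodule generated by `G`
-/

namespace Pool.Agent.W_59b51d_c25

variable (F : Type) [Field F] {S D κ : Type} [AddCommGroup D] [Module F D]

theorem Lift_actw_append (u v : List (Bool × S)) (z : MM S D) :
    actw F (u ++ v) z = actw F v (actw F u z) := by
  induction u generalizing z with
  | nil => rfl
  | cons o u ih =>
    show actw F (u ++ v) (act F o z) = actw F v (actw F u (act F o z))
    exact ih _

/-- The submodules `Cl` and the operators. -/
theorem Lift_act_mem (G : κ → MM S D) (n : ℕ) (o : Bool × S) {z : MM S D}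
    (hz : z ∈ Cl F G n) : act F o z ∈ Cl F G (n + 1) := by
  have h : Cl F G n ≤ (Cl F G (n + 1)).comap (act F o) := by
    refine Submodule.span_le.2 ?_
    rintro f ⟨k, u, hu, rfl⟩
    refine Submodule.subset_span ⟨k, u ++ [o], ?_, ?_⟩
    · rw [List.length_append, List.length_singleton]
      omega
    · rw [Lift_actw_append]
      rfl
  exact h hz

/-- Only `z none` matters. -/
theorem Lift_true {z : MM S D} {p : PP S D} (hz : z none = Finsupp.single [] p) (s : S) :
    act F (true, s) z = Finsupp.single none (Finsupp.single [] (appw F [s] p)) := by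
  have h0 := add_zero (Finsupp.single none (Finsupp.single [] (appw F [s] p)) : MM S D)
  rw [act_true, hz, Finsupp.single_eq_same, sub_self, Finsupp.single_zero]
  exact h0

theorem Lift_true_none {z : MM S D} (s : S) :
    act F (true, s) z none = Finsupp.single [] (appw F [s] (z none [])) := by
  classical
  have h0 := add_zero (Finsupp.single [] (appw F [s] (z none [])) : QQ S D)
  rw [act_true, Finsupp.add_apply, Finsupp.single_eq_same, Finsupp.single_apply,
    if_neg (by simp)]
  exact h0

theorem Lift_truew (u : List S) {z : MM S D} {p : PP S D} (hz : z none = Finsupp.single [] p) :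
    actw F (u.map fun s => (true, s)) z none = Finsupp.single [] (appw F u p) := by
  induction u generalizing z p with
  | nil =>
    rw [appw_nil]
    exact hz
  | cons s u ih =>
    show actw F (u.map fun s => (true, s)) (act F (true, s) z) none = _
    have h1 : act F (true, s) z none = Finsupp.single [] (appw F [s] p) := by
      rw [Lift_true F hz, Finsupp.single_eq_same]
    rw [ih h1, appw_appw]
    rfl

theorem Lift_truew' (u : List S) (p : PP S D) :
    actw F (u.map fun s => (true, s))
      (Finsupp.single none (Finsupp.single [] p) : MM S D) =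
      Finsupp.single none (Finsupp.single [] (appw F u p)) := by
  induction u generalizing p with
  | nil =>
    rw [appw_nil]
    rfl
  | cons s u ih =>
    show actw F (u.map fun s => (true, s)) (act F (true, s) _) = _
    rw [Lift_true F (Finsupp.single_eq_same), ih, appw_appw]
    rfl

theorem Lift_falsew (u : List S) (q : QQ S D) :
    actw F (u.map fun s => (false, s)) (Finsupp.single none q : MM S D) =
      Finsupp.single none (appw F u q) := by
  induction u generalizing q with
  | nil =>
    rw [appw_nil]
    rfl
  | cons s u ih =>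
    show actw F (u.map fun s => (false, s)) (act F (false, s) _) = _
    rw [act_false, Finsupp.single_eq_same, ih, appw_appw]
    rfl

theorem Lift_falsew' (w : List S) (hw : w ≠ []) {z : MM S D} {p : PP S D}
    (hz : z none = Finsupp.single [] p) :
    actw F (w.map fun s => (false, s)) z = Finsupp.single none (Finsupp.single w p) := by
  rcases w with - | ⟨s, w⟩
  · exact absurd rfl hw
  · show actw F (w.map fun s => (false, s)) (act F (false, s) z) = _
    rw [act_false, hz, Lift_falsew, appw_single, appw_single]
    rfl

/-- If `y []` vanishes, then `R_e` moves `y` to the component `e`. -/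
theorem Lift_last {y : QQ S D} (hy : y [] = 0) (e : S) :
    act F (true, e) (Finsupp.single none y : MM S D) = Finsupp.single (some e) y := by
  have h1 : y - 0 = y := sub_zero y
  have h0 := zero_add (Finsupp.single (some e) (y - 0) : MM S D)
  rw [act_true, Finsupp.single_eq_same, hy, map_zero, Finsupp.single_zero, Finsupp.single_zero]
  exact h0.trans (by rw [h1])

theorem Lift_gq_nil (G : κ → MM S D) (h : ℕ) {y : QQ S D} (hy : y ∈ rs F (gq F G) h) :
    y [] = 0 := by
  have h1 : rs F (gq F G) h ≤ LinearMap.ker (Finsupp.lapply (R := F) (M := PP S D) ([] : List S)) := by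
    refine Submodule.span_le.2 ?_
    rintro f ⟨⟨k, a⟩, u, hu, rfl⟩
    rw [SetLike.mem_coe, LinearMap.mem_ker, Finsupp.lapply_apply, gq, appw_appw]
    refine FM_appw_zero _ fun v hv => ?_
    have := congrArg List.length hv
    simp at this
  exact h1 hy

/-- The word is `(true, a), (true, b)` and then the letters `(true, ·)` of the word of length at
most `h`. -/
theorem lift_a (G : κ → MM S D) (h : ℕ) (y : PP S D) (hy : y ∈ rs F (g2 F G) h) :
    Finsupp.single none (Finsupp.single [] y) ∈ Cl F G (h + 2) := by
  have h1 : rs F (g2 F G) h ≤ (Cl F G (h + 2)).comap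
      ((Finsupp.lsingle none : QQ S D →ₗ[F] MM S D) ∘ₗ
        (Finsupp.lsingle [] : PP S D →ₗ[F] QQ S D)) := by
    refine Submodule.span_le.2 ?_
    rintro f ⟨⟨k, a, b⟩, u, hu, rfl⟩
    refine Submodule.subset_span ⟨k, (true, a) :: (true, b) :: u.map fun s => (true, s), ?_, ?_⟩
    · simp only [List.length_cons, List.length_map]
      omega
    · show Finsupp.single none (Finsupp.single [] (appw F u (g2 F G (k, a, b)))) =
        actw F (u.map fun s => (true, s)) (act F (true, b) (act F (true, a) (G k)))
      rw [Lift_true F (Lift_true_none F a), Lift_truew', appw_appw, appw_appw, g2, appw_appw]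
      rfl
  exact h1 hy

theorem lift_b (G : κ → MM S D) (h : ℕ) (y : QQ S D) (hy : y ∈ rs F (gq F G) h) :
    Finsupp.single none y ∈ Cl F G (h + 1) := by
  have h1 : rs F (gq F G) h ≤ (Cl F G (h + 1)).comap
      (Finsupp.lsingle none : QQ S D →ₗ[F] MM S D) := by
    refine Submodule.span_le.2 ?_
    rintro f ⟨⟨k, a⟩, u, hu, rfl⟩
    refine Submodule.subset_span ⟨k, (false, a) :: u.map fun s => (false, s), ?_, ?_⟩
    · simp only [List.length_cons, List.length_map]
      omega
    · show Finsupp.single none (appw F u (gq F G (k, a))) =
        actw F (u.map fun s => (false, s)) (act F (false, a) (G k))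
      rw [act_false, Lift_falsew]
      rfl
  exact h1 hy

theorem lift_c (G : κ → MM S D) (h : ℕ) (y : QQ S D) (hy : y ∈ rs F (gq F G) h) (e : S) :
    Finsupp.single (some e) y ∈ Cl F G (h + 2) := by
  rw [← Lift_last F (Lift_gq_nil F G h hy) e]
  exact Lift_act_mem F G (h + 1) _ (lift_b F G h y hy)

/-- The word is `(true, a)`, the letters `(true, ·)` of the word of length at most `h`, and the
letters `(false, ·)` of `w`. -/
theorem lift_d (G : κ → MM S D) (h : ℕ) (y : PP S D) (hy : y ∈ rs F (g1 F G) h) (w : List S)
    (hw : w ≠ []) : Finsupp.single none (Finsupp.single w y) ∈ Cl F G (h + 1 + w.length) := by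
  have h1 : rs F (g1 F G) h ≤ (Cl F G (h + 1 + w.length)).comap
      ((Finsupp.lsingle none : QQ S D →ₗ[F] MM S D) ∘ₗ
        (Finsupp.lsingle w : PP S D →ₗ[F] QQ S D)) := by
    refine Submodule.span_le.2 ?_
    rintro f ⟨⟨k, a⟩, u, hu, rfl⟩
    refine Submodule.subset_span ⟨k, ((true, a) :: u.map fun s => (true, s)) ++
      w.map fun s => (false, s), ?_, ?_⟩
    · simp only [List.length_append, List.length_cons, List.length_map]
      omega
    · rw [Lift_actw_append]
      show Finsupp.single none (Finsupp.single w (appw F u (g1 F G (k, a)))) =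
        actw F (w.map fun s => (false, s))
          (actw F (u.map fun s => (true, s)) (act F (true, a) (G k)))
      rw [Lift_falsew' F w hw (Lift_truew F u (Lift_true_none F a))]
      rfl
  exact h1 hy

theorem lift_e (G : κ → MM S D) (h : ℕ) (y : PP S D) (hy : y ∈ rs F (g1 F G) h) (w : List S)
    (hw : w ≠ []) (e : S) :
    Finsupp.single (some e) (Finsupp.single w y) ∈ Cl F G (h + 2 + w.length) := by
  classical
  have h0 : (Finsupp.single w y : QQ S D) [] = 0 := by
    rw [Finsupp.single_apply, if_neg hw]
  rw [← Lift_last F h0 e]
  have h1 := Lift_act_mem F G (h + 1 + w.length) (true, e) (lift_d F G h y hy w hw)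
  have h2 : h + 1 + w.length + 1 = h + 2 + w.length := by omega
  rwa [h2] at h1

end Pool.Agent.W_59b51d_c25
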