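import Pool.Agent.W_59b51d_c25.Defs
import Pool.Agent.W_59b51d_c25.FM

/-!
# The module `M = D ⊗ (F⟨R⟩ ⊕ F⟨R⟩ ⊗ F⟨L⟩ ⊕ …)`

An element of `MM S D` is a family, indexed by `Option S`, of elements of
`QQ S D = (D ⊗ F⟨R⟩) ⊗ F⟨L⟩`, which are functions of the `L`-word with values in the functions of the
`R`-word: `single none (single l (single b d))` stands for `d R_b L_l` and
`single (some e) (single l (single b d))`, `l ≠ []`, stands for `d R_b L_l R_e`.
-/

namespace Pool.Agent.W_59b51d_c25

/-- `D ⊗ F⟨R⟩`. -/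
abbrev PP (S D : Type) [AddCommGroup D] : Type := List S →₀ D

/-- `(D ⊗ F⟨R⟩) ⊗ F⟨L⟩`. -/
abbrev QQ (S D : Type) [AddCommGroup D] : Type := List S →₀ (List S →₀ D)

/-- The module. -/
abbrev MM (S D : Type) [AddCommGroup D] : Type := Option S →₀ (List S →₀ (List S →₀ D))

variable (F : Type) [Field F] {S D : Type} [AddCommGroup D] [Module F D]

/-- The operators. -/
noncomputable def act (o : Bool × S) : MM S D →ₗ[F] MM S D :=
  if o.1 then
    Finsupp.lsingle none ∘ₗ Finsupp.lsingle [] ∘ₗ appw F [o.2] ∘ₗ Finsupp.lapply [] ∘ₗ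
        Finsupp.lapply none +
      Finsupp.lsingle (some o.2) ∘ₗ (LinearMap.id - Finsupp.lsingle [] ∘ₗ Finsupp.lapply []) ∘ₗ
        Finsupp.lapply none
  else Finsupp.lsingle none ∘ₗ appw F [o.2] ∘ₗ Finsupp.lapply none

/-- The action of a word. -/
noncomputable def actw : List (Bool × S) → MM S D →ₗ[F] MM S D
  | [] => LinearMap.id
  | o :: u => actw u ∘ₗ act F o

/-- The span of the images of the `G k` under the words of length at most `n`. -/
noncomputable def Cl {κ : Type} (G : κ → MM S D) (n : ℕ) : Submodule F (MM S D) :=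
  Submodule.span F {z | ∃ k, ∃ u : List (Bool × S), u.length ≤ n ∧ z = actw F u (G k)}

/-- The submodule generated by the `G k`. -/
noncomputable def Clw {κ : Type} (G : κ → MM S D) : Submodule F (MM S D) :=
  Submodule.span F {z | ∃ k, ∃ u : List (Bool × S), z = actw F u (G k)}

theorem act_true (s : S) (z : MM S D) : act F (true, s) z =
    Finsupp.single none (Finsupp.single [] (appw F [s] (z none []))) +
      Finsupp.single (some s) (z none - Finsupp.single [] (z none [])) := by
  simp [act]

theorem act_false (s : S) (z : MM S D) :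
    act F (false, s) z = Finsupp.single none (appw F [s] (z none)) := by
  simp [act]

theorem Cl_mono {κ : Type} (G : κ → MM S D) {m n : ℕ} (h : m ≤ n) : Cl F G m ≤ Cl F G n := by
  refine Submodule.span_mono ?_
  rintro f ⟨k, u, hu, rfl⟩
  exact ⟨k, u, hu.trans h, rfl⟩

/-- `G k R_x R_y`, the part without `L`. -/
noncomputable def g2 {κ : Type} (G : κ → MM S D) (p : κ × S × S) : PP S D :=
  appw F [p.2.1, p.2.2] (G p.1 none [])

/-- `G k R_x`, the part without `L`. -/
noncomputable def g1 {κ : Type} (G : κ → MM S D) (p : κ × S) : PP S D :=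
  appw F [p.2] (G p.1 none [])

/-- `G k L_x`. -/
noncomputable def gq {κ : Type} (G : κ → MM S D) (p : κ × S) : QQ S D :=
  appw F [p.2] (G p.1 none)

/-- Functions of the `L`-word with values in the right submodule generated by the `g k`, and `0` at
the empty word. -/
def vn {κ : Type} (g : κ → PP S D) : Submodule F (QQ S D) where
  carrier := {f | f [] = 0 ∧ ∀ w, f w ∈ rsw F g}
  zero_mem' := ⟨rfl, fun _ => zero_mem _⟩
  add_mem' := fun hf hg => ⟨by simp [hf.1, hg.1], fun w => add_mem (hf.2 w) (hg.2 w)⟩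
  smul_mem' := fun c _ hf => ⟨by simp [hf.1], fun w => Submodule.smul_mem _ c (hf.2 w)⟩

/-- The same with bounds: of degree at most `B` in the `L`-word, with values in `rs F g B`. -/
def vnb {κ : Type} (g : κ → PP S D) (B : ℕ) : Submodule F (QQ S D) where
  carrier := {f | f [] = 0 ∧ (∀ w : List S, B < w.length → f w = 0) ∧ ∀ w, f w ∈ rs F g B}
  zero_mem' := ⟨rfl, fun _ _ => rfl, fun _ => zero_mem _⟩
  add_mem' := fun hf hg => ⟨by simp [hf.1, hg.1], fun w hw => by
    simp [hf.2.1 w hw, hg.2.1 w hw], fun w => add_mem (hf.2.2 w) (hg.2.2 w)⟩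
  smul_mem' := fun c _ hf => ⟨by simp [hf.1], fun w hw => by simp [hf.2.1 w hw],
    fun w => Submodule.smul_mem _ c (hf.2.2 w)⟩

/-- Both words have length at most `m`. -/
def qdg (S D : Type) [AddCommGroup D] [Module F D] (m : ℕ) : Submodule F (QQ S D) where
  carrier := {f | ∀ w v : List S, f w v ≠ 0 → w.length ≤ m ∧ v.length ≤ m}
  zero_mem' := fun _ _ h => absurd rfl h
  add_mem' := fun {f g} hf hg w v h => by
    by_cases h1 : f w v = 0
    · refine hg w v fun h2 => h ?_
      rw [Finsupp.add_apply, Finsupp.add_apply, h1, h2, add_zero]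
    · exact hf w v h1
  smul_mem' := fun c f hf w v h => hf w v fun h1 => h (by
    rw [Finsupp.smul_apply, Finsupp.smul_apply, h1, smul_zero])

/-- Generators of the kills, for a fixed last operator `R_e`. -/
inductive KGen (ent : ℕ → ℕ → Bool) : QQ S D → Prop
  | k1 (l b : List S) (d : D) : 1 ≤ b.length → sp l.length = false →
      KGen ent (Finsupp.single l (Finsupp.single b d))
  | k2 (n q : ℕ) (pre : List S) (z : ℕ → S) (b : List S) (d : D) : kil ent n q = true →
      q ≤ b.length → pre.length + (n.unpair.1 + 1) = (n + 1) ^ 2 →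
      KGen ent (((altP (n.unpair.1 + 1)).map fun c =>
        Finsupp.single (pre ++ c.2.map z) (Finsupp.single b (c.1 • d))).sum)

/-- The kills, for a fixed last operator `R_e`. -/
noncomputable def KQ (ent : ℕ → ℕ → Bool) : Submodule F (QQ S D) :=
  Submodule.span F {f | KGen ent f}

/-- The kills. -/
def KM (ent : ℕ → ℕ → Bool) : Submodule F (MM S D) where
  carrier := {z | z none = 0 ∧ ∀ e : S, z (some e) ∈ (KQ F ent : Submodule F (QQ S D))}
  zero_mem' := ⟨rfl, fun _ => zero_mem _⟩
  add_mem' := fun hf hg => ⟨by simp [hf.1, hg.1], fun w => add_mem (hf.2 w) (hg.2 w)⟩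
  smul_mem' := fun c _ hf => ⟨by simp [hf.1], fun w => Submodule.smul_mem _ c (hf.2 w)⟩

/-- All words have length at most `m`. -/
def mdg (S D : Type) [AddCommGroup D] [Module F D] (m : ℕ) : Submodule F (MM S D) where
  carrier := {z | ∀ e, z e ∈ qdg F S D m}
  zero_mem' := fun _ => zero_mem _
  add_mem' := fun hf hg e => add_mem (hf e) (hg e)
  smul_mem' := fun c _ hf e => Submodule.smul_mem _ c (hf e)

end Pool.Agent.W_59b51d_c25
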