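import Pool.Agent.W_59b51d_c25.StA

/-!
# The computable case
-/

namespace Pool.Agent.W_59b51d_c25

theorem StB_down {K : ℕ → ℕ → Bool} {R : ℕ → ℕ → ℕ → Bool} {n u v s : ℕ} (huv : u < v)
    (h : stg K R (Nat.pair n v) s = true) : stg K R (Nat.pair n u) s = true := by
  unfold stg at h ⊢
  rw [Nat.unpair_pair] at h ⊢
  simp only [Bool.or_eq_true, Bool.and_eq_true, decide_eq_true_eq] at h ⊢
  rcases h with h | ⟨_, h⟩
  · exact Or.inl (huv.trans h)
  · exact Or.inl (h ▸ huv)

theorem StB_col (K : ℕ → ℕ → Bool) (R : ℕ → ℕ → ℕ → Bool) (n : ℕ) :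
    ∃ t : Option ℕ, ∀ v, (Option.casesOn t true (fun x => decide (v < x)) : Bool) = true ↔
      ∃ s, stg K R (Nat.pair n v) s = true := by
  classical
  by_cases hall : ∀ v, ∃ s, stg K R (Nat.pair n v) s = true
  · exact ⟨none, fun v => ⟨fun _ => hall v, fun _ => rfl⟩⟩
  · push Not at hall
    have hex : ∃ v, ¬ ∃ s, stg K R (Nat.pair n v) s = true := by
      obtain ⟨v, hv⟩ := hall
      exact ⟨v, fun ⟨s, hs⟩ => hv s hs⟩
    refine ⟨some (Nat.find hex), fun v => ?_⟩
    show decide (v < Nat.find hex) = true ↔ _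
    rw [decide_eq_true_eq]
    constructor
    · intro h
      exact not_not.1 (Nat.find_min hex h)
    · rintro ⟨s, hs⟩
      by_contra h
      rcases Nat.lt_or_ge (Nat.find hex) v with h1 | h1
      · exact Nat.find_spec hex ⟨s, StB_down h1 hs⟩
      · have h2 : v = Nat.find hex := le_antisymm h1 (not_lt.1 h)
        exact Nat.find_spec hex ⟨s, h2 ▸ hs⟩

/-- If some `b` works, the set is computable: the columns `n ≥ b` are full and each of the finitely
many columns `n < b` is full or an initial segment (`{v | v < L}` or `{v | v ≤ L}` where `L` is the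
maximum of `cnt n`), so a finite table of type `List (Option ℕ)` decides. -/
theorem stg_computable (K : ℕ → ℕ → Bool)
    (hK : ∀ n s s', s ≤ s' → K n s = true → K n s' = true) (R : ℕ → ℕ → ℕ → Bool)
    (h : ∃ b, ∀ c, ∃ d, R b c d = true) :
    ∃ g : ℕ → Bool, Computable g ∧ ∀ i, g i = true ↔ ∃ s, stg K R i s = true := by
  obtain ⟨b, hb⟩ := h
  choose T hT using StB_col K R
  let tb : List (Option ℕ) := (List.range b).map T
  have hg : Primrec fun i : ℕ => (Option.casesOn (tb.getD i.unpair.1 none) true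
      (fun x => decide (i.unpair.2 < x)) : Bool) := by
    refine Primrec.option_casesOn ?_ (Primrec.const true) ?_
    · exact (Primrec.list_getD none).comp (Primrec.const tb) (Primrec.fst.comp Primrec.unpair)
    · exact (Primrec.nat_lt.comp (Primrec.snd.comp (Primrec.unpair.comp Primrec.fst))
        Primrec.snd).decide
  refine ⟨_, hg.to_comp, fun i => ?_⟩
  show (Option.casesOn (tb.getD i.unpair.1 none) true
      (fun x => decide (i.unpair.2 < x)) : Bool) = true ↔ _
  rcases Nat.lt_or_ge i.unpair.1 b with h1 | h1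
  · have h2 : tb.getD i.unpair.1 none = T i.unpair.1 := by
      simp [tb, List.getD, h1]
    rw [h2, hT i.unpair.1 i.unpair.2, Nat.pair_unpair]
  · have h2 : tb.getD i.unpair.1 none = none := by
      have h3 : tb.length ≤ i.unpair.1 := by simpa [tb] using h1
      rw [List.getD, List.getElem?_eq_none h3]
      rfl
    rw [h2]
    refine ⟨fun _ => ?_, fun _ => rfl⟩
    obtain ⟨s, hs⟩ := (cnt_unbounded R i.unpair.1).2 ⟨b, h1, hb⟩ (i.unpair.2 + 1)
    refine ⟨s, ?_⟩
    unfold stg
    rw [Bool.or_eq_true, decide_eq_true_eq]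
    exact Or.inl hs

end Pool.Agent.W_59b51d_c25
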