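import Pool.Agent.W_59b51d_c25.StDefs

/-!
# The stages are computable
-/

namespace Pool.Agent.W_59b51d_c25

open Pool.Agent.W_59b51d_h18 (SComp1_foldl)

/-- The step of the fold which computes the length of `takeWhile`. -/
def StE_step (c : Bool) (s : ℕ × Bool) : ℕ × Bool :=
  if (s.2 && c) = true then (s.1 + 1, true) else (s.1, false)

theorem StE_false {β : Type} (p : β → Bool) (l : List β) (n : ℕ) :
    l.foldl (fun s b => StE_step (p b) s) (n, false) = (n, false) := by
  induction l with
  | nil => rfl
  | cons b l ih => simpa [StE_step] using ih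

theorem StE_true {β : Type} (p : β → Bool) (l : List β) (n : ℕ) :
    (l.foldl (fun s b => StE_step (p b) s) (n, true)).1 = n + (l.takeWhile p).length := by
  induction l generalizing n with
  | nil => rfl
  | cons b l ih =>
    cases hb : p b with
    | true =>
      have h1 := ih (n + 1)
      simp only [List.foldl_cons, StE_step, hb, Bool.and_self, if_true, List.takeWhile_cons,
        List.length_cons]
      simp only [StE_step] at h1
      rw [h1]
      omega
    | false =>
      have h1 := StE_false p l n
      simp only [List.foldl_cons, StE_step, hb, Bool.and_false, List.takeWhile_cons,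
        List.length_nil, Bool.false_eq_true, if_false, Nat.add_zero]
      simp only [StE_step] at h1
      rw [h1]

theorem StE_prog {α : Type} [Primcodable α] {R : α → ℕ → ℕ → Bool}
    (hR : Computable fun p : α × ℕ × ℕ => R p.1 p.2.1 p.2.2) :
    Computable fun p : α × ℕ => prog (R p.1) p.2 := by
  have h0 : Computable₂ fun (q : (α × ℕ) × ℕ) (d : ℕ) => R q.1.1 q.2 d :=
    (hR.comp ((Computable.fst.comp (Computable.fst.comp Computable.fst)).pair
      ((Computable.snd.comp Computable.fst).pair Computable.snd))).to₂
  have hr : Computable fun q : (α × ℕ) × ℕ => List.range q.1.2 :=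
    Primrec.list_range.to_comp.comp (Computable.snd.comp Computable.fst)
  have h1 : Computable fun q : (α × ℕ) × ℕ =>
      (List.range q.1.2).any fun d => R q.1.1 q.2 d := computable_any hr h0
  have h2 : Computable₂ fun (a : α × ℕ) (q : (ℕ × Bool) × ℕ) =>
      StE_step ((List.range a.2).any fun d => R a.1 q.2 d) q.1 := by
    have hc1 : Computable fun z : (α × ℕ) × ((ℕ × Bool) × ℕ) => z.2.1.2 :=
      Computable.snd.comp (Computable.fst.comp Computable.snd)
    have hc2 : Computable fun z : (α × ℕ) × ((ℕ × Bool) × ℕ) =>
        ((List.range z.1.2).any fun d => R z.1.1 z.2.2 d) := by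
      have hg : Computable fun z : (α × ℕ) × ((ℕ × Bool) × ℕ) => (z.1, z.2.2) :=
        Computable.fst.pair (Computable.snd.comp Computable.snd)
      have h := h1.comp hg
      exact h
    have hc : Computable fun z : (α × ℕ) × ((ℕ × Bool) × ℕ) =>
        (z.2.1.2 && ((List.range z.1.2).any fun d => R z.1.1 z.2.2 d)) :=
      Computable₂.comp (f := fun x y : Bool => x && y) Primrec.and.to_comp hc1 hc2
    have hA : Computable fun z : (α × ℕ) × ((ℕ × Bool) × ℕ) => (z.2.1.1 + 1, true) :=
      (Computable.succ.comp (Computable.fst.comp (Computable.fst.comp Computable.snd))).pair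
        (Computable.const true)
    have hB : Computable fun z : (α × ℕ) × ((ℕ × Bool) × ℕ) => (z.2.1.1, false) :=
      (Computable.fst.comp (Computable.fst.comp Computable.snd)).pair (Computable.const false)
    have hi : Computable fun z : (α × ℕ) × ((ℕ × Bool) × ℕ) =>
        StE_step ((List.range z.1.2).any fun d => R z.1.1 z.2.2 d) z.2.1 :=
      (computable_ite hc hA hB).of_eq fun z => rfl
    exact hi.to₂
  have h3 := SComp1_foldl (f := fun a : α × ℕ => List.range a.2)
    (g := fun _ : α × ℕ => ((0 : ℕ), true))
    (h := fun (a : α × ℕ) (q : (ℕ × Bool) × ℕ) =>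
      StE_step ((List.range a.2).any fun d => R a.1 q.2 d) q.1)
    (Primrec.list_range.to_comp.comp Computable.snd) (Computable.const ((0 : ℕ), true)) h2
  refine (Computable.fst.comp h3).of_eq fun a => ?_
  have h4 := StE_true (fun c => (List.range a.2).any fun d => R a.1 c d) (List.range a.2) 0
  rw [Nat.zero_add] at h4
  exact h4

/-- `cnt` is computable, uniformly in a parameter. -/
theorem computable_cnt {α : Type} [Primcodable α] {R : α → ℕ → ℕ → ℕ → Bool}
    (hR : Computable fun p : α × ℕ × ℕ × ℕ => R p.1 p.2.1 p.2.2.1 p.2.2.2) :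
    Computable fun p : α × ℕ × ℕ => cnt (R p.1) p.2.1 p.2.2 := by
  have h0 : Computable fun p : (α × ℕ) × ℕ × ℕ => R p.1.1 p.1.2 p.2.1 p.2.2 :=
    hR.comp ((Computable.fst.comp Computable.fst).pair
      ((Computable.snd.comp Computable.fst).pair Computable.snd))
  have h1 := StE_prog (α := α × ℕ) (R := fun p c d => R p.1 p.2 c d) h0
  have h2 : Computable₂ fun (a : α × ℕ × ℕ) (q : ℕ × ℕ) =>
      max q.1 (prog (R a.1 q.2) a.2.2) := by
    have hg : Computable fun z : (α × ℕ × ℕ) × (ℕ × ℕ) => ((z.1.1, z.2.2), z.1.2.2) :=
      ((Computable.fst.comp Computable.fst).pair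
        (Computable.snd.comp Computable.snd)).pair
          (Computable.snd.comp (Computable.snd.comp Computable.fst))
    have hp : Computable fun z : (α × ℕ × ℕ) × (ℕ × ℕ) => prog (R z.1.1 z.2.2) z.1.2.2 := by
      have h := h1.comp hg
      exact h
    have hm : Computable fun z : (α × ℕ × ℕ) × (ℕ × ℕ) => z.2.1 :=
      Computable.fst.comp Computable.snd
    exact (Computable₂.comp (f := fun x y : ℕ => max x y) Primrec.nat_max.to_comp hm hp).to₂
  have h3 := SComp1_foldl (f := fun a : α × ℕ × ℕ => List.range (a.2.1 + 1))
    (g := fun _ : α × ℕ × ℕ => (0 : ℕ))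
    (h := fun (a : α × ℕ × ℕ) (q : ℕ × ℕ) => max q.1 (prog (R a.1 q.2) a.2.2))
    (Primrec.list_range.to_comp.comp
      (Computable.succ.comp (Computable.fst.comp Computable.snd)))
    (Computable.const 0) h2
  exact h3

end Pool.Agent.W_59b51d_c25
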