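import Pool.Agent.W_59b51d_c25.StA
import Pool.Agent.W_59b51d_c25.StE

/-!
# The case which is not computable
-/

namespace Pool.Agent.W_59b51d_c25

/-- Membership in the column `n`. -/
theorem StC_mem (K : ℕ → ℕ → Bool) (R : ℕ → ℕ → ℕ → Bool) (n v : ℕ) :
    (∃ s, stg K R (Nat.pair n v) s = true) ↔
      (∃ s, v < cnt R n s) ∨ ∃ s, K n s = true ∧ v = cnt R n s := by
  simp only [stg, Nat.unpair_pair, Bool.or_eq_true, Bool.and_eq_true, decide_eq_true_eq]
  constructor
  · rintro ⟨s, hs | hs⟩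
    · exact Or.inl ⟨s, hs⟩
    · exact Or.inr ⟨s, hs⟩
  · rintro (⟨s, hs⟩ | ⟨s, hs⟩)
    · exact ⟨s, Or.inl hs⟩
    · exact ⟨s, Or.inr hs⟩

/-- The maximum of `cnt R n` exists. -/
theorem StC_max (R : ℕ → ℕ → ℕ → Bool) (h : ∀ b, ∃ c, ∀ d, R b c d = false) (n : ℕ) :
    ∃ L, (∀ s, cnt R n s ≤ L) ∧ ∃ s₀, ∀ s, s₀ ≤ s → cnt R n s = L := by
  have hb : ¬ ∀ p, ∃ s, p ≤ cnt R n s := by
    rw [cnt_unbounded]
    rintro ⟨b, -, hb⟩
    obtain ⟨c, hc⟩ := h b
    obtain ⟨d, hd⟩ := hb c
    rw [hc d] at hd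
    exact Bool.noConfusion hd
  push Not at hb
  classical
  have hex : ∃ p, ∀ s, cnt R n s < p := hb
  obtain ⟨hmax, hmin⟩ : (∀ s, cnt R n s < Nat.find hex) ∧
      ∀ m < Nat.find hex, ¬ ∀ s, cnt R n s < m :=
    ⟨Nat.find_spec hex, fun m hm => Nat.find_min hex hm⟩
  have hpos : 0 < Nat.find hex := lt_of_le_of_lt (Nat.zero_le _) (hmax 0)
  have h2 := hmin (Nat.find hex - 1) (by omega)
  push Not at h2
  obtain ⟨s₀, hs₀⟩ := h2
  refine ⟨Nat.find hex - 1, fun s => by have := hmax s; omega, s₀, fun s hs => ?_⟩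
  have h3 := cnt_mono R n hs
  have h4 := hmax s
  omega

/-- The test of the first search is computable. -/
theorem StC_hp {g : ℕ → Bool} (hgc : Computable g) : Computable₂ fun n v : ℕ =>
    (!g (Nat.pair n v) && (decide (v = 0) || g (Nat.pair n (v - 1)))) := by
  have a1 : Computable fun p : ℕ × ℕ => Nat.pair p.1 p.2 := Primrec₂.natPair.to_comp
  have a2 : Computable fun p : ℕ × ℕ => g (Nat.pair p.1 p.2) := hgc.comp a1
  have a3 : Computable fun p : ℕ × ℕ => g (Nat.pair p.1 (p.2 - 1)) := by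
    have h := a2.comp (Computable.pair (Computable.fst (α := ℕ) (β := ℕ))
      (Computable.pred.comp Computable.snd))
    exact h.of_eq fun p => rfl
  have a4 : Computable fun p : ℕ × ℕ => decide (p.2 = 0) :=
    (Primrec.eq.decide.comp Primrec.snd (Primrec.const 0)).to_comp
  have a5 : Computable fun p : ℕ × ℕ =>
      (decide (p.2 = 0) || g (Nat.pair p.1 (p.2 - 1))) := by
    have h := Primrec.or.to_comp.comp a4 a3
    exact h.of_eq fun p => rfl
  have a6 : Computable fun p : ℕ × ℕ => !g (Nat.pair p.1 p.2) := by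
    have h := Primrec.not.to_comp.comp a2
    exact h.of_eq fun p => rfl
  have h := Primrec.and.to_comp.comp a6 a5
  exact h.of_eq fun p => rfl

/-- The test of the second search is computable. -/
theorem StC_hq {R : ℕ → ℕ → ℕ → Bool}
    (hR : Computable fun p : ℕ × ℕ × ℕ => R p.1 p.2.1 p.2.2) {f : ℕ → ℕ} (hfc : Computable f)
    {K : ℕ → ℕ → Bool} (hKc : Computable₂ K) :
    Computable₂ fun n s : ℕ => (decide (cnt R n s = f n) || K n s) := by
  have hcnt : Computable fun p : Unit × ℕ × ℕ => cnt R p.2.1 p.2.2 :=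
    computable_cnt (α := Unit) (R := fun _ => R) (hR.comp Computable.snd)
  have hcnt' : Computable fun p : ℕ × ℕ => cnt R p.1 p.2 := by
    have h := hcnt.comp (Computable.pair (Computable.const (α := ℕ × ℕ) ()) Computable.id)
    exact h.of_eq fun p => rfl
  have h0 : Computable fun p : ℕ × ℕ => f p.1 := hfc.comp Computable.fst
  have h1 : Computable fun p : ℕ × ℕ => decide (cnt R p.1 p.2 = f p.1) := by
    have h := Primrec.eq.decide.to_comp.comp hcnt' h0
    exact h.of_eq fun p => rfl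
  have h := Primrec.or.to_comp.comp h1 hKc
  exact h.of_eq fun p => rfl

/-- If no `b` works and the set `X` of the `i` with `∃ s, stg K R i s = true` is computable, then
`K` is computable: for given `n` let `v` be the least number with `Nat.pair n v ∉ X`; it is
`L = max cnt n` if `n` is not in `K` and `L + 1` otherwise. Search for `s` with `cnt n s = v` (then
`n` is not in `K`) or `K n s = true`; exactly one of the two searches succeeds
(`computable_find`). -/
theorem stg_not_computable (K : ℕ → ℕ → Bool) (hKc : Computable₂ K)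
    (hK : ∀ n s s', s ≤ s' → K n s = true → K n s' = true)
    (hKn : ¬ ∃ g : ℕ → Bool, Computable g ∧ ∀ n, g n = true ↔ ∃ s, K n s = true)
    (R : ℕ → ℕ → ℕ → Bool)
    (hR : Computable fun p : ℕ × ℕ × ℕ => R p.1 p.2.1 p.2.2)
    (h : ∀ b, ∃ c, ∀ d, R b c d = false) :
    ¬ ∃ g : ℕ → Bool, Computable g ∧ ∀ i, g i = true ↔ ∃ s, stg K R i s = true := by
  rintro ⟨g, hgc, hg⟩
  -- columns
  have hcol1 : ∀ n L s₀, (∀ s, cnt R n s ≤ L) → (∀ s, s₀ ≤ s → cnt R n s = L) →
      (∃ s, K n s = true) → ∀ v, g (Nat.pair n v) = true ↔ v ≤ L := by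
    intro n L s₀ h1 h2 hs v
    rw [hg, StC_mem]
    constructor
    · rintro (⟨s, hv⟩ | ⟨s, -, hv⟩)
      · have := h1 s
        omega
      · have := h1 s
        omega
    · intro hv
      obtain ⟨s₁, hs₁⟩ := hs
      rcases Nat.lt_or_ge v L with hlt | hge
      · exact Or.inl ⟨s₀, by rw [h2 s₀ le_rfl]; exact hlt⟩
      · refine Or.inr ⟨max s₀ s₁, hK n s₁ _ (le_max_right _ _) hs₁, ?_⟩
        rw [h2 _ (le_max_left _ _)]
        omega
  have hcol2 : ∀ n L s₀, (∀ s, cnt R n s ≤ L) → (∀ s, s₀ ≤ s → cnt R n s = L) →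
      (¬ ∃ s, K n s = true) → ∀ v, g (Nat.pair n v) = true ↔ v < L := by
    intro n L s₀ h1 h2 hs v
    rw [hg, StC_mem]
    constructor
    · rintro (⟨s, hv⟩ | ⟨s, hk, -⟩)
      · have := h1 s
        omega
      · exact absurd ⟨s, hk⟩ hs
    · intro hv
      exact Or.inl ⟨s₀, by rw [h2 s₀ le_rfl]; exact hv⟩
  -- the least number outside the column
  obtain ⟨f, hfc, hf⟩ := computable_find (StC_hp hgc) (by
    intro n
    obtain ⟨L, h1, s₀, h2⟩ := StC_max R h n
    by_cases hs : ∃ s, K n s = true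
    · refine ⟨L + 1, ?_⟩
      have e1 : g (Nat.pair n (L + 1)) = false := by
        rw [Bool.eq_false_iff, Ne, hcol1 n L s₀ h1 h2 hs]
        omega
      have e2 : g (Nat.pair n L) = true := (hcol1 n L s₀ h1 h2 hs L).2 le_rfl
      simp [e1, e2]
    · refine ⟨L, ?_⟩
      have e1 : g (Nat.pair n L) = false := by
        rw [Bool.eq_false_iff, Ne, hcol2 n L s₀ h1 h2 hs]
        omega
      rcases Nat.eq_zero_or_pos L with h0 | h0
      · subst h0
        simp [e1]
      · have e2 : g (Nat.pair n (L - 1)) = true := by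
          rw [hcol2 n L s₀ h1 h2 hs]
          omega
        simp [e1, e2])
  have hf1 : ∀ n, g (Nat.pair n (f n)) = false ∧ (f n = 0 ∨ g (Nat.pair n (f n - 1)) = true) := by
    intro n
    have := hf n
    simpa using this
  -- the second search
  obtain ⟨t, htc, ht⟩ := computable_find (StC_hq hR hfc hKc) (by
    intro n
    obtain ⟨L, h1, s₀, h2⟩ := StC_max R h n
    by_cases hs : ∃ s, K n s = true
    · obtain ⟨s, hs⟩ := hs
      exact ⟨s, by simp [hs]⟩
    · refine ⟨s₀, ?_⟩
      have hfL : f n = L := by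
        obtain ⟨e1, e2⟩ := hf1 n
        rw [Bool.eq_false_iff, Ne, hcol2 n L s₀ h1 h2 hs] at e1
        rw [hcol2 n L s₀ h1 h2 hs] at e2
        omega
      rw [h2 s₀ le_rfl, hfL]
      simp)
  refine hKn ⟨fun n => K n (t n), hKc.comp Computable.id htc, fun n => ?_⟩
  constructor
  · intro hn
    exact ⟨t n, hn⟩
  · intro hs
    obtain ⟨L, h1, s₀, h2⟩ := StC_max R h n
    have hfL : f n = L + 1 := by
      obtain ⟨e1, e2⟩ := hf1 n
      rw [Bool.eq_false_iff, Ne, hcol1 n L s₀ h1 h2 hs] at e1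
      rw [hcol1 n L s₀ h1 h2 hs] at e2
      omega
    have h3 := ht n
    have h4 := h1 (t n)
    have h5 : cnt R n (t n) ≠ f n := by omega
    simpa [h5] using h3

end Pool.Agent.W_59b51d_c25
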