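import Pool.Agent.W_59b51d_c25.StK
import Pool.Agent.W_59b51d_c25.StB
import Pool.Agent.W_59b51d_c25.StC

/-!
# The sets `X_a`
-/

namespace Pool.Agent.W_59b51d_c25

theorem Stage_comp (K : ℕ → ℕ → Bool) (hKc : Computable₂ K) (R : ℕ → ℕ → ℕ → ℕ → ℕ → Bool)
    (hR : Computable fun p : ℕ × ℕ × ℕ × ℕ × ℕ => R p.1 p.2.1 p.2.2.1 p.2.2.2.1 p.2.2.2.2) :
    Computable fun q : (ℕ × ℕ) × (ℕ × ℕ) × ℕ => stg K (R q.1.1 q.1.2) (Nat.pair q.2.1.1 q.2.1.2) q.2.2 := by
  have hR' : Computable fun p : (ℕ × ℕ) × ℕ × ℕ × ℕ => R p.1.1 p.1.2 p.2.1 p.2.2.1 p.2.2.2 :=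
    (hR.comp (g := fun p : (ℕ × ℕ) × ℕ × ℕ × ℕ => (p.1.1, p.1.2, p.2))
      (Computable.pair (Computable.fst.comp Computable.fst)
      (Computable.pair (Computable.snd.comp Computable.fst) Computable.snd))).of_eq fun _ => rfl
  have hcnt := computable_cnt (α := ℕ × ℕ) (R := fun q b c d => R q.1 q.2 b c d) hR'
  have hn : Computable fun q : (ℕ × ℕ) × (ℕ × ℕ) × ℕ => q.2.1.1 :=
    Computable.fst.comp (Computable.fst.comp Computable.snd)
  have hv : Computable fun q : (ℕ × ℕ) × (ℕ × ℕ) × ℕ => q.2.1.2 :=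
    Computable.snd.comp (Computable.fst.comp Computable.snd)
  have hs : Computable fun q : (ℕ × ℕ) × (ℕ × ℕ) × ℕ => q.2.2 :=
    Computable.snd.comp Computable.snd
  have hc : Computable fun q : (ℕ × ℕ) × (ℕ × ℕ) × ℕ => cnt (R q.1.1 q.1.2) q.2.1.1 q.2.2 :=
    (hcnt.comp (g := fun q : (ℕ × ℕ) × (ℕ × ℕ) × ℕ => (q.1, q.2.1.1, q.2.2))
      (Computable.pair Computable.fst (Computable.pair hn hs))).of_eq fun _ => rfl
  have hlt : Computable₂ fun a b : ℕ => decide (a < b) := (Primrec.nat_lt.decide).to_comp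
  have heq : Computable₂ fun a b : ℕ => decide (a = b) := (Primrec.eq.decide).to_comp
  have hKp : Computable fun q : (ℕ × ℕ) × (ℕ × ℕ) × ℕ => K q.2.1.1 q.2.2 := hKc.comp hn hs
  have h1 : Computable fun q : (ℕ × ℕ) × (ℕ × ℕ) × ℕ =>
      decide (q.2.1.2 < cnt (R q.1.1 q.1.2) q.2.1.1 q.2.2) := hlt.comp hv hc
  have h2 : Computable fun q : (ℕ × ℕ) × (ℕ × ℕ) × ℕ =>
      decide (q.2.1.2 = cnt (R q.1.1 q.1.2) q.2.1.1 q.2.2) := heq.comp hv hc
  refine ((Primrec.or.to_comp).comp h1 ((Primrec.and.to_comp).comp hKp h2)).of_eq fun q => ?_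
  simp [stg]

/-- The enumerations used in the main theorem. -/
theorem exists_ent (R : ℕ → ℕ → ℕ → ℕ → ℕ → Bool)
    (hR : Computable fun p : ℕ × ℕ × ℕ × ℕ × ℕ => R p.1 p.2.1 p.2.2.1 p.2.2.2.1 p.2.2.2.2) :
    ∃ ent : ℕ → ℕ → ℕ → Bool, (Computable fun p : ℕ × ℕ × ℕ => ent p.1 p.2.1 p.2.2) ∧
      ∀ k a, (∃ g : ℕ → Bool, Computable g ∧
        ∀ i, g i = true ↔ ∃ s, ent k (Nat.pair a i) s = true) ↔
          ∃ b, ∀ c, ∃ d, R k a b c d = true := by
  obtain ⟨K, hKc, hK, hKn⟩ := exists_K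
  refine ⟨fun k m s => stg K (R k m.unpair.1) m.unpair.2 s, ?_, ?_⟩
  · have hm : Computable fun p : ℕ × ℕ × ℕ => p.2.1.unpair :=
      Computable.unpair.comp (Computable.fst.comp Computable.snd)
    have hi : Computable fun p : ℕ × ℕ × ℕ => p.2.1.unpair.2.unpair :=
      Computable.unpair.comp (Computable.snd.comp hm)
    have hs : Computable fun p : ℕ × ℕ × ℕ => p.2.2 := Computable.snd.comp Computable.snd
    refine ((Stage_comp K hKc R hR).comp
      (g := fun p : ℕ × ℕ × ℕ => ((p.1, p.2.1.unpair.1), (p.2.1.unpair.2.unpair, p.2.2)))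
      (Computable.pair (Computable.pair Computable.fst (Computable.fst.comp hm))
        (Computable.pair hi hs))).of_eq fun p => ?_
    rw [Nat.pair_unpair]
  · intro k a
    simp only [Nat.unpair_pair]
    constructor
    · intro hg
      by_contra hb
      push Not at hb
      refine stg_not_computable K hKc hK hKn (R k a) ?_ ?_ hg
      · exact (hR.comp (g := fun p : ℕ × ℕ × ℕ => (k, a, p)) (Computable.pair (Computable.const k)
          (Computable.pair (Computable.const a) Computable.id))).of_eq fun _ => rfl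
      · intro b
        obtain ⟨c, hc⟩ := hb b
        exact ⟨c, fun d => by simpa using hc d⟩
    · intro hb
      exact stg_computable K hK (R k a) hb

end Pool.Agent.W_59b51d_c25
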