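import Pool.Agent.W_59b51d_c25.UDefs

/-!
# The upper bound: computability
-/

namespace Pool.Agent.W_59b51d_c25

open Pool.Agent.W_59b51d_h18 (Poly code SComp1_foldl)

variable {F : Type} [Field F] [Primcodable F]

theorem UComp_lv_step (n m : ℕ) : lv n m =
    (fun (n : ℕ) (L : List Bool) => if L.length % 2 = 0 then decide (L.length / 2 < n)
      else L.getD (L.length / 2).unpair.1 true && L.getD (L.length / 2).unpair.2 true) n
      ((List.range m).map (lv n)) := by
  have h1 := Nat.unpair_left_le (m / 2)
  have h2 := Nat.unpair_right_le (m / 2)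
  rw [lv]
  simp only [List.length_map, List.length_range]
  by_cases h : m % 2 = 0
  · simp [h]
  · have h3 : (m / 2).unpair.1 < m := by omega
    have h4 : (m / 2).unpair.2 < m := by omega
    simp [h, h3, h4, List.getD_eq_getElem?_getD]

theorem computable_lv : Computable₂ lv := by
  refine computable_strong (g := fun (n : ℕ) (L : List Bool) =>
    if L.length % 2 = 0 then decide (L.length / 2 < n)
      else L.getD (L.length / 2).unpair.1 true && L.getD (L.length / 2).unpair.2 true) ?_
      UComp_lv_step
  refine Primrec.to_comp (α := ℕ × List Bool) ?_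
  have hl : Primrec fun p : ℕ × List Bool => p.2.length := Primrec.list_length.comp Primrec.snd
  have hd : Primrec fun p : ℕ × List Bool => p.2.length / 2 :=
    Primrec.nat_div.comp hl (Primrec.const 2)
  have hu : Primrec fun p : ℕ × List Bool => (p.2.length / 2).unpair := Primrec.unpair.comp hd
  refine Primrec.ite ?_ ?_ ?_
  · exact Primrec.eq.comp (Primrec.nat_mod.comp hl (Primrec.const 2)) (Primrec.const 0)
  · exact (Primrec.nat_lt.comp hd Primrec.fst).decide
  · exact Primrec.and.comp
      ((Primrec.list_getD true).comp Primrec.snd (Primrec.fst.comp hu))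
      ((Primrec.list_getD true).comp Primrec.snd (Primrec.snd.comp hu))

theorem UComp_mulN : Computable₂ (mulN (F := F)) := by
  refine Primrec.to_comp (α := ℕ × ℕ) ?_
  exact Primrec.list_cons.comp ((Primrec.const (1 : F)).pair
    (Primrec.succ.comp (Primrec.nat_mul.comp (Primrec.const 2)
      (Primrec₂.natPair.comp Primrec.fst Primrec.snd)))) (Primrec.const [])

theorem UComp_opN (hmul : Computable₂ fun a b : F => a * b) :
    Computable₂ (opN (F := F)) := by
  have h := computable_mulB hmul (UComp_mulN (F := F))
  have hs : Computable fun p : List (F × ℕ) × Bool × ℕ => [((1 : F), p.2.2)] := by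
    refine Primrec.to_comp ?_
    exact Primrec.list_cons.comp ((Primrec.const (1 : F)).pair
      (Primrec.snd.comp Primrec.snd)) (Primrec.const [])
  exact computable_ite (Computable.fst.comp Computable.snd) (h.comp Computable.fst hs)
    (h.comp hs Computable.fst)

/-- `computable_evP` with the parameter `σ`, `computable_mulB`, `SComp1_foldl`; `Sum.casesOn`. -/
theorem computable_cval {α : Type} [Primcodable α] (hmul : Computable₂ fun a b : F => a * b)
    {f : α → ℕ → List (F × ℕ)} (hf : Computable₂ f) :
    Computable fun p : α × List (List (F × ℕ)) × Cq F => cval (f p.1) p.2.1 p.2.2 := by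
  have hx : Computable₂ fun (σ : List (List (F × ℕ))) (i : ℕ) => σ.getD i [] :=
    (Primrec.list_getD []).to_comp
  have hev := computable_evP hmul (UComp_mulN (F := F)) hx
  have hg : Computable fun p : α × List (List (F × ℕ)) × Cq F =>
      (Sum.casesOn (motive := fun _ => List (F × ℕ)) p.2.2.1 (fun i => p.2.1.getD i [])
        (fun q => evP mulN (fun i => q.2.getD i []) (f p.1 q.1))) := by
    refine Computable.sumCasesOn
      (f := fun p : α × List (List (F × ℕ)) × Cq F => p.2.2.1)
      (g := fun p i => p.2.1.getD i [])
      (h := fun p q => evP mulN (fun i => q.2.getD i []) (f p.1 q.1)) ?_ ?_ ?_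
    · exact Computable.fst.comp (Computable.snd.comp Computable.snd)
    · exact (hx.comp (Computable.fst.comp (Computable.snd.comp Computable.fst))
        Computable.snd).to₂
    · exact (hev.comp (Computable.snd.comp Computable.snd)
        (hf.comp (Computable.fst.comp Computable.fst) (Computable.fst.comp Computable.snd))).to₂
  have hl : Computable fun p : α × List (List (F × ℕ)) × Cq F => p.2.2.2 :=
    Computable.snd.comp (Computable.snd.comp Computable.snd)
  have hh : Computable₂ fun (_ : α × List (List (F × ℕ)) × Cq F)
      (q : List (F × ℕ) × (Bool × ℕ)) => opN q.1 q.2 :=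
    ((UComp_opN hmul).comp (Computable.fst.comp Computable.snd)
      (Computable.snd.comp Computable.snd)).to₂
  have h1 := SComp1_foldl hl hg hh
  refine h1.of_eq ?_
  rintro ⟨k, rc, c | c, l⟩ <;> rfl

/-- The test whether `D` is a witness for `L`. -/
theorem computable_test {α : Type} [Primcodable α] (hadd : Computable₂ fun a b : F => a + b)
    (hmul : Computable₂ fun a b : F => a * b) {f : α → ℕ → List (F × ℕ)} (hf : Computable₂ f) :
    ∃ T : α × List (List (F × ℕ)) × List (F × ℕ) × List (F × Cq F) → Bool, Computable T ∧
      ∀ k rc L D, T (k, rc, L, D) = true ↔ vecB (combN (f k) rc D) = vecB L := by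
  obtain ⟨e, he, h⟩ := computable_eqB (β := ℕ) hadd
  have h1 : Computable₂ fun (r : (α × List (List (F × ℕ)) × List (F × ℕ) × List (F × Cq F)) ×
      (F × Cq F)) (q : F × ℕ) => (r.2.1 * q.1, q.2) := by
    exact ((hmul.comp (Computable.fst.comp (Computable.snd.comp Computable.fst))
      (Computable.fst.comp Computable.snd)).pair (Computable.snd.comp Computable.snd)).to₂
  have k1 : Computable fun (r : (α × List (List (F × ℕ)) × List (F × ℕ) × List (F × Cq F)) ×
      (F × Cq F)) => r.1.1 := Computable.fst.comp Computable.fst
  have k2 : Computable fun (r : (α × List (List (F × ℕ)) × List (F × ℕ) × List (F × Cq F)) ×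
      (F × Cq F)) => r.1.2.1 := Computable.fst.comp (Computable.snd.comp Computable.fst)
  have k3 : Computable fun (r : (α × List (List (F × ℕ)) × List (F × ℕ) × List (F × Cq F)) ×
      (F × Cq F)) => r.2.2 := Computable.snd.comp Computable.snd
  have k4 := k1.pair (k2.pair k3)
  have h2 : Computable fun (r : (α × List (List (F × ℕ)) × List (F × ℕ) × List (F × Cq F)) ×
      (F × Cq F)) => cval (f r.1.1) r.1.2.1 r.2.2 := by
    have k5 := (computable_cval hmul hf).comp k4
    exact k5
  have h4 : Computable fun (r : (α × List (List (F × ℕ)) × List (F × ℕ) × List (F × Cq F)) ×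
      (F × Cq F)) => (cval (f r.1.1) r.1.2.1 r.2.2).map fun q => (r.2.1 * q.1, q.2) :=
    computable_map h2 h1
  have h5 : Computable₂ fun (p : α × List (List (F × ℕ)) × List (F × ℕ) × List (F × Cq F))
      (d : F × Cq F) => (cval (f p.1) p.2.1 d.2).map fun q => (d.1 * q.1, q.2) := h4
  have h6 : Computable fun p : α × List (List (F × ℕ)) × List (F × ℕ) × List (F × Cq F) =>
      p.2.2.2 := Computable.snd.comp (Computable.snd.comp Computable.snd)
  have h3 : Computable fun p : α × List (List (F × ℕ)) × List (F × ℕ) × List (F × Cq F) =>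
      combN (f p.1) p.2.1 p.2.2.2 := computable_flatMap h6 h5
  have h7 : Computable fun p : α × List (List (F × ℕ)) × List (F × ℕ) × List (F × Cq F) =>
      p.2.2.1 := Computable.fst.comp (Computable.snd.comp Computable.snd)
  exact ⟨fun p => e (combN (f p.1) p.2.1 p.2.2.2) p.2.2.1, he.comp h3 h7, fun k rc L D => h _ _⟩

end Pool.Agent.W_59b51d_c25
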