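import Pool.Agent.W_59b51d_c25.UDefs

/-!
# The upper bound: presentations with finitely many generators
-/

namespace Pool.Agent.W_59b51d_c25

open Pool.Agent.W_59b51d_h18 (Poly code)

variable {F : Type} [Field F]

theorem UFin_code_of {n : ℕ} (i : Fin n) : code (FreeMagma.of i) = 2 * (i : ℕ) := rfl

theorem UFin_code_mul {n : ℕ} (s t : FreeMagma (Fin n)) :
    code (FreeMagma.mul s t) = 2 * Nat.pair (code s) (code t) + 1 := rfl

theorem UFin_lv_even {n m : ℕ} (h : m % 2 = 0) : lv n m = decide (m / 2 < n) := by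
  rw [lv, dif_pos h]

theorem UFin_lv_odd {n m : ℕ} (h : ¬ m % 2 = 0) :
    lv n m = (lv n (m / 2).unpair.1 && lv n (m / 2).unpair.2) := by
  rw [lv, dif_neg h]

theorem lv_iff (n m : ℕ) : lv n m = true ↔ ∃ s : FreeMagma (Fin n), code s = m := by
  induction m using Nat.strong_induction_on with
  | _ m ih =>
    by_cases h : m % 2 = 0
    · rw [UFin_lv_even h, decide_eq_true_iff]
      constructor
      · intro h1
        refine ⟨.of ⟨m / 2, h1⟩, ?_⟩
        rw [UFin_code_of]
        change 2 * (m / 2) = m
        omega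
      · rintro ⟨s, hs⟩
        cases s with
        | of i =>
          have h1 := UFin_code_of i
          have h2 := i.isLt
          change code (FreeMagma.of i) = m at hs
          omega
        | mul s t =>
          have h1 := UFin_code_mul s t
          change code (FreeMagma.mul s t) = m at hs
          omega
    · have ha : (m / 2).unpair.1 < m := by
        have := Nat.unpair_left_le (m / 2)
        omega
      have hb : (m / 2).unpair.2 < m := by
        have := Nat.unpair_right_le (m / 2)
        omega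
      rw [UFin_lv_odd h, Bool.and_eq_true, ih _ ha, ih _ hb]
      constructor
      · rintro ⟨⟨s, hs⟩, ⟨t, ht⟩⟩
        refine ⟨.mul s t, ?_⟩
        rw [UFin_code_mul, hs, ht, Nat.pair_unpair]
        omega
      · rintro ⟨s, hs⟩
        cases s with
        | of i =>
          have h1 := UFin_code_of i
          change code (FreeMagma.of i) = m at hs
          omega
        | mul s t =>
          have h1 := UFin_code_mul s t
          change code (FreeMagma.mul s t) = m at hs
          have h2 : m / 2 = Nat.pair (code s) (code t) := by omega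
          rw [h2, Nat.unpair_pair]
          exact ⟨⟨s, rfl⟩, ⟨t, rfl⟩⟩

/-- The codes of a polynomial. -/
def UFin_c {n : ℕ} (p : Poly F (Fin n)) : List (F × ℕ) := p.map fun q => (q.1, code q.2)

theorem UFin_eval {A : Type} [NonUnitalNonAssocRing A] [Module F A] {n : ℕ}
    (p : Poly F (Fin n)) (a : Fin n → A) (a' : ℕ → A) (h : ∀ i : Fin n, a' i = a i) :
    Poly.eval a' (upoly (UFin_c p)) = Poly.eval a p := by
  unfold Poly.eval upoly UFin_c
  rw [List.map_map, List.map_map]
  congr 1
  refine List.map_congr_left fun q _ => ?_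
  change q.1 • FreeMagma.lift a' (unc (code q.2)) = q.1 • FreeMagma.lift a q.2
  rw [lift_unc_code q.2 a a' h]

/-- Free generators can be added: extend `a : Fin n → A` by `0`, resp. restrict `a : ℕ → A`
(`lift_unc_code`). -/
theorem vanishes_iff_vanN (f : ℕ → Poly F ℕ) {n : ℕ} (r : List (Poly F (Fin n)))
    (w : Poly F (Fin n)) :
    Vanishes F f r w ↔ VanN F f (r.map fun p => p.map fun q => (q.1, code q.2))
      (w.map fun q => (q.1, code q.2)) := by
  change Vanishes F f r w ↔ Vanishes F f ((r.map UFin_c).map upoly) (upoly (UFin_c w))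
  constructor
  · intro h A _ _ _ _ hA a' ha'
    rw [UFin_eval w (fun i => a' i) a' fun _ => rfl]
    refine h A hA _ fun p hp => ?_
    rw [← UFin_eval p (fun i => a' i) a' fun _ => rfl]
    exact ha' _ (List.mem_map_of_mem (List.mem_map_of_mem hp))
  · intro h A _ _ _ _ hA a ha
    obtain ⟨a', h1⟩ : ∃ a' : ℕ → A, ∀ i : Fin n, a' i = a i :=
      ⟨fun k => if hk : k < n then a ⟨k, hk⟩ else 0, fun i => dif_pos i.isLt⟩
    rw [← UFin_eval w a a' h1]
    refine h A hA a' fun p hp => ?_
    obtain ⟨p1, hp1, rfl⟩ := List.mem_map.1 hp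
    obtain ⟨p2, hp2, rfl⟩ := List.mem_map.1 hp1
    rw [UFin_eval p2 a a' h1]
    exact ha p2 hp2

theorem UFin_lv_of_lt {n m : ℕ} (h : m < n) : lv n m = true := by
  induction m using Nat.strong_induction_on with
  | _ m ih =>
    by_cases h0 : m % 2 = 0
    · rw [UFin_lv_even h0, decide_eq_true_iff]
      omega
    · have ha : (m / 2).unpair.1 < m := by
        have := Nat.unpair_left_le (m / 2)
        omega
      have hb : (m / 2).unpair.2 < m := by
        have := Nat.unpair_right_le (m / 2)
        omega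
      rw [UFin_lv_odd h0, ih _ ha (ha.trans h), ih _ hb (hb.trans h)]
      rfl

theorem UFin_lv_mono {n n' m : ℕ} (hn : n ≤ n') (h : lv n m = true) : lv n' m = true := by
  induction m using Nat.strong_induction_on with
  | _ m ih =>
    by_cases h0 : m % 2 = 0
    · rw [UFin_lv_even h0, decide_eq_true_iff] at h ⊢
      omega
    · have ha : (m / 2).unpair.1 < m := by
        have := Nat.unpair_left_le (m / 2)
        omega
      have hb : (m / 2).unpair.2 < m := by
        have := Nat.unpair_right_le (m / 2)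
        omega
      rw [UFin_lv_odd h0, Bool.and_eq_true] at h ⊢
      exact ⟨ih _ ha h.1, ih _ hb h.2⟩

omit [Field F] in
/-- A coded polynomial whose variables are less than `n` is the code of a polynomial. -/
theorem UFin_exists_c {n : ℕ} (L : List (F × ℕ)) (h : ∀ q ∈ L, lv n q.2 = true) :
    ∃ p : Poly F (Fin n), UFin_c p = L := by
  induction L with
  | nil => exact ⟨[], rfl⟩
  | cons q L ih =>
    obtain ⟨p, hp⟩ := ih fun q' hq' => h q' (List.mem_cons_of_mem _ hq')
    obtain ⟨s, hs⟩ := (lv_iff n q.2).1 (h q List.mem_cons_self)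
    refine ⟨(q.1, s) :: p, ?_⟩
    change (q.1, code s) :: UFin_c p = q :: L
    rw [hp, hs]

omit [Field F] in
theorem UFin_exists_cs {n : ℕ} (rc : List (List (F × ℕ)))
    (h : ∀ L ∈ rc, ∀ q ∈ L, lv n q.2 = true) :
    ∃ r : List (Poly F (Fin n)), r.map UFin_c = rc := by
  induction rc with
  | nil => exact ⟨[], rfl⟩
  | cons L rc ih =>
    obtain ⟨r, hr⟩ := ih fun L' hL' => h L' (List.mem_cons_of_mem _ hL')
    obtain ⟨p, hp⟩ := UFin_exists_c L (h L List.mem_cons_self)
    refine ⟨p :: r, ?_⟩
    rw [List.map_cons, hp, hr]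

omit [Field F] in
theorem UFin_bound (L : List (F × ℕ)) : ∃ N : ℕ, ∀ q ∈ L, q.2 < N := by
  induction L with
  | nil => exact ⟨0, fun q hq => absurd hq List.not_mem_nil⟩
  | cons q L ih =>
    obtain ⟨N, hN⟩ := ih
    refine ⟨max N (q.2 + 1), fun q' hq' => ?_⟩
    rcases List.mem_cons.1 hq' with rfl | h1
    · exact lt_of_lt_of_le (Nat.lt_succ_self _) (le_max_right _ _)
    · exact lt_of_lt_of_le (hN q' h1) (le_max_left _ _)

omit [Field F] in
theorem UFin_bounds (rc : List (List (F × ℕ))) : ∃ N : ℕ, ∀ L ∈ rc, ∀ q ∈ L, q.2 < N := by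
  induction rc with
  | nil => exact ⟨0, fun q hq => absurd hq List.not_mem_nil⟩
  | cons L rc ih =>
    obtain ⟨N, hN⟩ := ih
    obtain ⟨M, hM⟩ := UFin_bound L
    refine ⟨max N M, fun L' hL' q hq => ?_⟩
    rcases List.mem_cons.1 hL' with rfl | h1
    · exact lt_of_lt_of_le (hM q hq) (le_max_right _ _)
    · exact lt_of_lt_of_le (hN L' h1 q hq) (le_max_left _ _)

/-- All finitely presented algebras have solvable word problem, in terms of codes. `→`: given `n`,
`rc` let `n' ≥ n` be larger than all variables in `rc`; by `lv_iff` `rc` is the list of the codes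
of `r : List (Poly F (Fin n'))`, and the program for `r` works for all `L` with variables `< n`
(`lv n m → lv n' m`). `←`: take `rc` the codes of `r`. -/
theorem allSolvable_iff [Primcodable F] (f : ℕ → Poly F ℕ) :
    AllSolvable F f ↔ ∀ (n : ℕ) (rc : List (List (F × ℕ))),
      ∃ g : List (F × ℕ) → Bool, Computable g ∧
        ∀ L : List (F × ℕ), (∀ q ∈ L, lv n q.2 = true) → (g L = true ↔ VanN F f rc L) := by
  constructor
  · intro h n rc
    obtain ⟨N, hN⟩ := UFin_bounds rc
    obtain ⟨r, hr⟩ := UFin_exists_cs (n := max n N) rc fun L hL q hq =>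
      UFin_lv_of_lt (lt_of_lt_of_le (hN L hL q hq) (le_max_right _ _))
    obtain ⟨g, hg, hg1⟩ := h (max n N) r
    refine ⟨g, hg, fun L hL => ?_⟩
    obtain ⟨w, hw⟩ := UFin_exists_c (n := max n N) L fun q hq =>
      UFin_lv_mono (le_max_left _ _) (hL q hq)
    have h1 := (hg1 w).trans (vanishes_iff_vanN f r w)
    change g (UFin_c w) = true ↔ VanN F f (r.map UFin_c) (UFin_c w) at h1
    rw [hw, hr] at h1
    exact h1
  · intro h n r
    obtain ⟨g, hg, hg1⟩ := h n (r.map UFin_c)
    refine ⟨g, hg, fun w => ?_⟩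
    refine (hg1 (UFin_c w) fun q hq => ?_).trans (vanishes_iff_vanN f r w).symm
    obtain ⟨q1, _, rfl⟩ := List.mem_map.1 hq
    exact (lv_iff n _).2 ⟨q1.2, rfl⟩

end Pool.Agent.W_59b51d_c25
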