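import Pool.Agent.W_59b51d_c25.UVan
import Pool.Agent.W_59b51d_c25.UFin
import Pool.Agent.W_59b51d_c25.UComp

/-!
# The upper bound
-/

namespace Pool.Agent.W_59b51d_c25

open Pool.Agent.W_59b51d_h18 (Poly code)

open Encodable
open Nat.Partrec (Code)

/-- `(n, rc)` -/
abbrev Upper_Q (F : Type) : Type := ℕ × List (List (F × ℕ))

/-- `(L, u)` -/
abbrev Upper_W (F : Type) : Type := List (F × ℕ) × List (F × Cq F)

/-- `(s, D)` -/
abbrev Upper_S (F : Type) : Type := ℕ × List (F × Cq F)

/-- the innermost test: `q = (n, rc)`, `b` a program, `r = (L, u)`, `s = (steps, D)` -/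
def Upper_B {F : Type} [Primcodable F]
    (T : ℕ × List (List (F × ℕ)) × List (F × ℕ) × List (F × Cq F) → Bool) (k : ℕ)
    (q : Upper_Q F) (b : ℕ) (r : Upper_W F) (s : Upper_S F) : Bool :=
  !(r.1.all fun t => lv q.1 t.2) ||
    ((decide (Code.evaln s.1 (Denumerable.ofNat Code b) (encode r.1) = some 1) &&
        T (k, q.2, r.1, s.2)) ||
      (decide (Code.evaln s.1 (Denumerable.ofNat Code b) (encode r.1) = some 0) &&
        !T (k, q.2, r.1, r.2)))

/-- the relation -/
def Upper_R {F : Type} [Primcodable F]
    (T : ℕ × List (List (F × ℕ)) × List (F × ℕ) × List (F × Cq F) → Bool)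
    (k a b c d : ℕ) : Bool :=
  Upper_B T k ((decode (α := Upper_Q F) a).getD (0, [])) b
    ((decode (α := Upper_W F) c).getD ([], [])) ((decode (α := Upper_S F) d).getD (0, []))

theorem Upper_compB {F : Type} [Field F] [Primcodable F]
    {T : ℕ × List (List (F × ℕ)) × List (F × ℕ) × List (F × Cq F) → Bool} (hT : Computable T)
    {α : Type} [Primcodable α] {k : α → ℕ} {q : α → Upper_Q F} {b : α → ℕ} {r : α → Upper_W F}
    {s : α → Upper_S F} (hk : Computable k) (hq : Computable q) (hb : Computable b)
    (hr : Computable r) (hs : Computable s) :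
    Computable fun p => Upper_B T (k p) (q p) (b p) (r p) (s p) := by
  have e1 : Computable fun p : α =>
      Code.evaln (s p).1 (Denumerable.ofNat Code (b p)) (encode (r p).1) := by
    have h1 : Computable fun p : α => (((s p).1, Denumerable.ofNat Code (b p)), encode (r p).1) :=
      ((Computable.fst.comp hs).pair ((Computable.ofNat Code).comp hb)).pair
        (Computable.encode.comp (Computable.fst.comp hr))
    exact Code.primrec_evaln.to_comp.comp h1
  have l1 : Computable fun p : α => ((r p).1.all fun t => lv (q p).1 t.2) := by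
    refine computable_all (Computable.fst.comp hr) ?_
    exact computable_lv.comp ((Computable.fst.comp hq).comp Computable.fst)
        (Computable.snd.comp Computable.snd)
  have t1 : Computable fun p : α => T (k p, (q p).2, (r p).1, (s p).2) := by
    have h1 : Computable fun p : α => (k p, (q p).2, (r p).1, (s p).2) :=
      hk.pair ((Computable.snd.comp hq).pair ((Computable.fst.comp hr).pair
        (Computable.snd.comp hs)))
    exact hT.comp h1
  have t2 : Computable fun p : α => T (k p, (q p).2, (r p).1, (r p).2) := by
    have h1 : Computable fun p : α => (k p, (q p).2, (r p).1, (r p).2) :=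
      hk.pair ((Computable.snd.comp hq).pair ((Computable.fst.comp hr).pair
        (Computable.snd.comp hr)))
    exact hT.comp h1
  have hdec : ∀ v : ℕ, Computable fun p : α =>
      decide (Code.evaln (s p).1 (Denumerable.ofNat Code (b p)) (encode (r p).1) = some v) := by
    intro v
    exact (Primrec.eq (α := Option ℕ)).decide.to_comp.comp e1 (Computable.const (some v))
  exact Primrec.or.to_comp.comp (Primrec.not.to_comp.comp l1)
    (Primrec.or.to_comp.comp (Primrec.and.to_comp.comp (hdec 1) t1)
      (Primrec.and.to_comp.comp (hdec 0) (Primrec.not.to_comp.comp t2)))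

theorem Upper_compR {F : Type} [Field F] [Primcodable F]
    {T : ℕ × List (List (F × ℕ)) × List (F × ℕ) × List (F × Cq F) → Bool} (hT : Computable T) :
    Computable fun p : ℕ × ℕ × ℕ × ℕ × ℕ => Upper_R T p.1 p.2.1 p.2.2.1 p.2.2.2.1 p.2.2.2.2 := by
  have c2 : Computable fun p : ℕ × ℕ × ℕ × ℕ × ℕ => p.2.1 := Computable.fst.comp Computable.snd
  have c3 : Computable fun p : ℕ × ℕ × ℕ × ℕ × ℕ => p.2.2.1 :=
    Computable.fst.comp (Computable.snd.comp Computable.snd)
  have c4 : Computable fun p : ℕ × ℕ × ℕ × ℕ × ℕ => p.2.2.2.1 :=
    Computable.fst.comp (Computable.snd.comp (Computable.snd.comp Computable.snd))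
  have c5 : Computable fun p : ℕ × ℕ × ℕ × ℕ × ℕ => p.2.2.2.2 :=
    Computable.snd.comp (Computable.snd.comp (Computable.snd.comp Computable.snd))
  have d2 : Computable fun p : ℕ × ℕ × ℕ × ℕ × ℕ =>
      (decode (α := Upper_Q F) p.2.1).getD (0, []) :=
    Computable.option_getD (Computable.decode.comp c2) (Computable.const _)
  have d4 : Computable fun p : ℕ × ℕ × ℕ × ℕ × ℕ =>
      (decode (α := Upper_W F) p.2.2.2.1).getD ([], []) :=
    Computable.option_getD (Computable.decode.comp c4) (Computable.const _)
  have d5 : Computable fun p : ℕ × ℕ × ℕ × ℕ × ℕ =>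
      (decode (α := Upper_S F) p.2.2.2.2).getD (0, []) :=
    Computable.option_getD (Computable.decode.comp c5) (Computable.const _)
  exact Upper_compB hT Computable.fst d2 c3 d4 d5

/-- The upper bound.

Proof. Let `a` code `(n, rc)`, `b` a program `e` (`Nat.Partrec.Code`, `Denumerable`), `c` a pair
`(L, u)` with `u : List (F × Cq F)`, `d` a pair `(s, D)` with `D : List (F × Cq F)`
(`Encodable.decode`; if `a` or `c` is not a code let `R := true`, if `d` is not a code let
`R := false`). Let `R k a b c d` say: not all variables of `L` are `< n`, or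
(`evaln s e (encode L) = some (encode true)` and `D` is a witness: `computable_test`) or
(`evaln s e (encode L) = some (encode false)` and `u` is not a witness). Then
`∀ c, ∃ d, R k a b c d` says that `e` computes, for all `L` with variables `< n`, whether `L`
vanishes (`vanN_iff`): if `e` halts on `L` with `true`, some `D` is a witness; if it halts with
`false`, no `u` is one. If `g` is a computable function as in `allSolvable_iff`, a code of `g`
(`Nat.Partrec.Code.exists_code`) is such an `e`; conversely, if `e` is such a program, define `g L`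
as the value of `e` at `L` if all variables of `L` are `< n` and `false` otherwise: it is total, so
computable. -/
theorem upper (F : Type) [Field F] [Primcodable F] (hadd : Computable₂ fun a b : F => a + b)
    (hmul : Computable₂ fun a b : F => a * b) (f : ℕ → ℕ → Poly F ℕ)
    (hf : Computable₂ fun k t => pcode (f k t)) :
    ∃ R : ℕ → ℕ → ℕ → ℕ → ℕ → Bool,
      (Computable fun p : ℕ × ℕ × ℕ × ℕ × ℕ => R p.1 p.2.1 p.2.2.1 p.2.2.2.1 p.2.2.2.2) ∧
      ∀ k, AllSolvable F (f k) ↔ ∀ a, ∃ b, ∀ c, ∃ d, R k a b c d = true := by
  obtain ⟨T, hT, hTs⟩ := computable_test (α := ℕ) hadd hmul hf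
  refine ⟨Upper_R T, Upper_compR hT, fun k => ?_⟩
  rw [allSolvable_iff]
  constructor
  · intro h a
    set q : Upper_Q F := (decode (α := Upper_Q F) a).getD (0, []) with hq
    obtain ⟨g, hg, hgs⟩ := h q.1 q.2
    obtain ⟨e, he⟩ := Code.exists_code.1 hg
    refine ⟨encode e, fun c => ?_⟩
    set r : Upper_W F := (decode (α := Upper_W F) c).getD ([], []) with hr
    have hev : encode (g r.1) ∈ Code.eval e (encode r.1) := by
      rw [he]
      simp
    obtain ⟨s, hs⟩ := Code.evaln_complete.1 hev
    have hval : ∀ D : List (F × Cq F), Upper_B T k q (encode e) r (s, D) = true →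
        ∃ d, Upper_R T k a (encode e) c d = true := by
      intro D hD
      refine ⟨encode ((s, D) : Upper_S F), ?_⟩
      unfold Upper_R
      rw [encodek, Option.getD_some, ← hq, ← hr]
      exact hD
    by_cases hl : ∀ t ∈ r.1, lv q.1 t.2 = true
    · have h1 := hgs r.1 hl
      have hs' : Code.evaln s e (encode r.1) = some (encode (g r.1)) := hs
      cases hb : g r.1 with
      | true =>
        rw [hb, encode_true] at hs'
        obtain ⟨D, hD⟩ := (vanN_iff (f k) q.2 r.1).1 (h1.1 hb)
        refine hval D ?_
        unfold Upper_B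
        have h2 := (hTs k q.2 r.1 D).2 hD
        simp only [Denumerable.ofNat_encode, hs', h2]
        simp
      | false =>
        rw [hb, encode_false] at hs'
        refine hval [] ?_
        unfold Upper_B
        have h2 : T (k, q.2, r.1, r.2) = false := by
          rw [Bool.eq_false_iff]
          intro h3
          have h4 := h1.2 ((vanN_iff (f k) q.2 r.1).2 ⟨r.2, (hTs k q.2 r.1 r.2).1 h3⟩)
          rw [hb] at h4
          exact absurd h4 (by simp)
        simp only [Denumerable.ofNat_encode, hs', h2]
        simp
    · refine hval [] ?_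
      unfold Upper_B
      have h3 : (r.1.all fun t => lv q.1 t.2) = false := by
        rw [Bool.eq_false_iff]
        intro h4
        rw [List.all_eq_true] at h4
        exact hl h4
      rw [h3]
      simp
  · intro h n rc
    obtain ⟨b, hb⟩ := h (encode ((n, rc) : Upper_Q F))
    have key : ∀ L : List (F × ℕ), (∀ q ∈ L, lv n q.2 = true) → ∀ u : List (F × Cq F),
        ∃ (s : ℕ) (D : List (F × Cq F)),
          (Code.evaln s (Denumerable.ofNat Code b) (encode L) = some 1 ∧
            vecB (combN (fun t => pcode (f k t)) rc D) = vecB L) ∨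
          (Code.evaln s (Denumerable.ofNat Code b) (encode L) = some 0 ∧
            ¬ vecB (combN (fun t => pcode (f k t)) rc u) = vecB L) := by
      intro L hL u
      obtain ⟨d, hd⟩ := hb (encode ((L, u) : Upper_W F))
      unfold Upper_R at hd
      rw [encodek, encodek, Option.getD_some, Option.getD_some] at hd
      set s : Upper_S F := (decode (α := Upper_S F) d).getD (0, []) with hs
      unfold Upper_B at hd
      have h3 : (L.all fun t => lv n t.2) = true := by
        rw [List.all_eq_true]
        exact hL
      simp only [h3, Bool.not_true, Bool.false_or, Bool.or_eq_true, Bool.and_eq_true,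
        decide_eq_true_eq, Bool.not_eq_true'] at hd
      refine ⟨s.1, s.2, ?_⟩
      rcases hd with ⟨h4, h5⟩ | ⟨h4, h5⟩
      · exact Or.inl ⟨h4, (hTs k rc L s.2).1 h5⟩
      · refine Or.inr ⟨h4, fun h6 => ?_⟩
        rw [(hTs k rc L u).2 h6] at h5
        exact absurd h5 (by simp)
    classical
    refine ⟨fun L => decide ((∀ q ∈ L, lv n q.2 = true) ∧ VanN F (f k) rc L), ?_, ?_⟩
    · have hp : Partrec fun L : List (F × ℕ) =>
          cond (L.all fun t => lv n t.2)
            ((Code.eval (Denumerable.ofNat Code b) (encode L)).map fun v => decide (v = 1))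
            (Part.some false) := by
        refine Partrec.cond ?_ ?_ ?_
        · exact computable_all Computable.id (computable_lv.comp (Computable.const n)
            (Computable.snd.comp Computable.snd))
        · refine Partrec.map ?_ ?_
          · exact Code.eval_part.comp (Computable.const _) Computable.encode
          · exact (Primrec.eq (α := ℕ)).decide.to_comp.comp Computable.snd (Computable.const 1)
        · exact Computable.partrec (Computable.const false)
      refine Partrec.of_eq_tot hp fun L => ?_
      cases h3 : (L.all fun t => lv n t.2) with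
      | false =>
        rw [cond_false, Part.mem_some_iff, decide_eq_false_iff_not]
        rintro ⟨h4, -⟩
        rw [Bool.eq_false_iff] at h3
        exact h3 (List.all_eq_true.2 h4)
      | true =>
        have hL : ∀ q ∈ L, lv n q.2 = true := List.all_eq_true.1 h3
        rw [cond_true, Part.mem_map_iff]
        by_cases hV : VanN F (f k) rc L
        · obtain ⟨D0, hD0⟩ := (vanN_iff (f k) rc L).1 hV
          obtain ⟨s, D, ⟨h4, -⟩ | ⟨-, h5⟩⟩ := key L hL D0
          · refine ⟨1, Code.evaln_complete.2 ⟨s, h4⟩, ?_⟩
            have h5 : decide ((∀ q ∈ L, lv n q.2 = true) ∧ VanN F (f k) rc L) = true :=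
              decide_eq_true ⟨hL, hV⟩
            rw [h5]
            rfl
          · exact absurd hD0 h5
        · obtain ⟨s, D, ⟨-, h4⟩ | ⟨h4, -⟩⟩ := key L hL []
          · exact absurd ((vanN_iff (f k) rc L).2 ⟨D, h4⟩) hV
          · refine ⟨0, Code.evaln_complete.2 ⟨s, h4⟩, ?_⟩
            have h5 : decide ((∀ q ∈ L, lv n q.2 = true) ∧ VanN F (f k) rc L) = false :=
              decide_eq_false fun h5 => hV h5.2
            rw [h5]
            rfl
    · intro L hL
      rw [decide_eq_true_iff]
      exact ⟨fun h => h.2, fun h => ⟨hL, h⟩⟩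

end Pool.Agent.W_59b51d_c25
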