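import Pool.Agent.W_59b51d_c25.GSolve
import Pool.Agent.W_59b51d_c25.Bad
import Pool.Agent.W_59b51d_c25.Stage
import Pool.Agent.W_59b51d_c25.Upper

/-!
# The class is exactly `Π⁰₄`-complete
-/

namespace Pool.Agent.W_59b51d_c25

open Pool.Agent.W_59b51d_h18 (Poly code Multilinear)

theorem lower (R : ℕ → ℕ → ℕ → ℕ → ℕ → Bool)
    (hR : Computable fun p : ℕ × ℕ × ℕ × ℕ × ℕ => R p.1 p.2.1 p.2.2.1 p.2.2.2.1 p.2.2.2.2) :
    ∃ f : ℕ → ℕ → List (ℤ × FreeMagma ℕ), (Computable₂ fun k t => pcode (f k t)) ∧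
      (∀ k, f k 0 = [(1, (FreeMagma.of 0 * FreeMagma.of 1) * (FreeMagma.of 2 * FreeMagma.of 3))]) ∧
      (∀ k t, ∀ q ∈ f k t, (q.1 = 1 ∨ q.1 = -1) ∧ Multilinear q.2 ∧ t ≤ q.2.length) ∧
      ∀ (F : Type) [Field F] [Primcodable F], (Computable₂ fun a b : F => a + b) →
        (Computable₂ fun a b : F => a * b) → ∀ k,
        (AllSolvable F (fun t => poly F (f k t)) ↔ ∀ a, ∃ b, ∀ c, ∃ d, R k a b c d = true) := by
  obtain ⟨ent, he, h⟩ := exists_ent R hR
  have he2 : ∀ k, Computable₂ (ent k) := fun k =>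
    he.comp ((Computable.const k).pair (Computable.fst.pair Computable.snd))
  refine ⟨fun k t => fam (ent k) t, computable_fam he, fun k => rfl,
    fun k t => fam_prop (ent k) t, ?_⟩
  intro F _ _ hadd hmul k
  constructor
  · intro h1 a
    exact (h k a).1 (bad (ent k) h1 a)
  · intro h1
    exact good hadd hmul (he2 k) fun a => (h k a).2 (h1 a)

end Pool.Agent.W_59b51d_c25
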