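import Pool.Agent.W_59b51d_c25.StDefs

/-!
# Monotonicity and unboundedness
-/

namespace Pool.Agent.W_59b51d_c25

theorem StA_tw {α : Type} (P : α → Bool) (l : List α) : ∀ n : ℕ,
    (n ≤ (l.takeWhile P).length ↔ n ≤ l.length ∧ ∀ i (h : i < l.length), i < n → P (l[i]) = true) := by
  induction l with
  | nil => intro n; simp
  | cons a l ih =>
    intro n
    rcases n with _ | n
    · simp
    · by_cases ha : P a = true
      · rw [List.takeWhile_cons_of_pos ha]
        simp only [List.length_cons, Nat.add_le_add_iff_right]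
        rw [ih n]
        constructor
        · rintro ⟨h1, h2⟩
          refine ⟨h1, ?_⟩
          intro i hi hin
          rcases i with _ | i
          · simpa using ha
          · simpa using h2 i (by simpa using hi) (by omega)
        · rintro ⟨h1, h2⟩
          refine ⟨h1, ?_⟩
          intro i hi hin
          have := h2 (i + 1) (by omega) (by omega)
          simpa using this
      · rw [List.takeWhile_cons_of_neg ha]
        constructor
        · intro h; simp at h
        · rintro ⟨_, h2⟩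
          have := h2 0 (by simp) (by omega)
          exact absurd (by simpa using this) ha

theorem StA_prog (R : ℕ → ℕ → Bool) (s p : ℕ) :
    p ≤ prog R s ↔ p ≤ s ∧ ∀ c < p, ∃ d < s, R c d = true := by
  unfold prog
  rw [StA_tw]
  simp only [List.length_range, List.getElem_range, List.any_eq_true, List.mem_range]
  constructor
  · rintro ⟨h1, h2⟩
    exact ⟨h1, fun c hc => h2 c (by omega) hc⟩
  · rintro ⟨h1, h2⟩
    exact ⟨h1, fun c _ hc => h2 c hc⟩

theorem prog_mono (R : ℕ → ℕ → Bool) : Monotone (prog R) := by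
  intro s t hst
  rw [StA_prog]
  obtain ⟨h1, h2⟩ := (StA_prog R s (prog R s)).mp le_rfl
  refine ⟨h1.trans hst, fun c hc => ?_⟩
  obtain ⟨d, hd, hR⟩ := h2 c hc
  exact ⟨d, lt_of_lt_of_le hd hst, hR⟩

/-- `prog` is unbounded iff for all `c` there is `d` with `R c d`. -/
theorem prog_unbounded (R : ℕ → ℕ → Bool) :
    (∀ p, ∃ s, p ≤ prog R s) ↔ ∀ c, ∃ d, R c d = true := by
  constructor
  · intro h c
    obtain ⟨s, hs⟩ := h (c + 1)
    obtain ⟨_, h2⟩ := (StA_prog R s (c + 1)).mp hs
    obtain ⟨d, _, hd⟩ := h2 c (Nat.lt_succ_self c)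
    exact ⟨d, hd⟩
  · intro h p
    choose f hf using h
    refine ⟨max p ((Finset.range p).sup f + 1), ?_⟩
    rw [StA_prog]
    refine ⟨le_max_left _ _, fun c hc => ⟨f c, ?_, hf c⟩⟩
    have : f c ≤ (Finset.range p).sup f := Finset.le_sup (Finset.mem_range.mpr hc)
    exact lt_of_lt_of_le (Nat.lt_succ_of_le this) (le_max_right _ _)

theorem StA_foldl (g : ℕ → ℕ) (l : List ℕ) : ∀ (m p : ℕ),
    (p ≤ l.foldl (fun m b => max m (g b)) m ↔ p ≤ m ∨ ∃ b ∈ l, p ≤ g b) := by
  induction l with
  | nil => intro m p; simp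
  | cons a l ih =>
    intro m p
    rw [List.foldl_cons, ih]
    simp only [le_max_iff, List.mem_cons, exists_eq_or_imp]
    tauto

theorem StA_cnt (R : ℕ → ℕ → ℕ → Bool) (n s p : ℕ) :
    p ≤ cnt R n s ↔ p = 0 ∨ ∃ b ≤ n, p ≤ prog (R b) s := by
  unfold cnt
  rw [StA_foldl]
  simp only [Nat.le_zero, List.mem_range, Nat.lt_succ_iff]

theorem cnt_mono (R : ℕ → ℕ → ℕ → Bool) (n : ℕ) : Monotone (cnt R n) := by
  intro s t hst
  rw [StA_cnt]
  rcases (StA_cnt R n s (cnt R n s)).mp le_rfl with h | ⟨b, hb, h⟩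
  · exact Or.inl h
  · exact Or.inr ⟨b, hb, h.trans (prog_mono (R b) hst)⟩

/-- `cnt R n` is unbounded iff some `b ≤ n` satisfies: for all `c` there is `d` with `R b c d`. -/
theorem cnt_unbounded (R : ℕ → ℕ → ℕ → Bool) (n : ℕ) :
    (∀ p, ∃ s, p ≤ cnt R n s) ↔ ∃ b ≤ n, ∀ c, ∃ d, R b c d = true := by
  constructor
  · intro h
    by_contra hcon
    push Not at hcon
    have hb : ∀ b, b ≤ n → ∃ p, ∀ s, prog (R b) s < p := by
      intro b hb
      by_contra hc
      push Not at hc
      obtain ⟨c, hc'⟩ := hcon b hb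
      obtain ⟨d, hd⟩ := (prog_unbounded (R b)).mp hc c
      exact hc' d hd
    choose! f hf using hb
    obtain ⟨s, hs⟩ := h ((Finset.range (n + 1)).sup f + 1)
    rcases (StA_cnt R n s _).mp hs with h0 | ⟨b, hbn, h1⟩
    · omega
    · have h2 : f b ≤ (Finset.range (n + 1)).sup f :=
        Finset.le_sup (Finset.mem_range.mpr (Nat.lt_succ_of_le hbn))
      have h3 := hf b hbn s
      omega
  · rintro ⟨b, hb, h⟩ p
    obtain ⟨s, hs⟩ := (prog_unbounded (R b)).mpr h p
    exact ⟨s, (StA_cnt R n s p).mpr (Or.inr ⟨b, hb, hs⟩)⟩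

end Pool.Agent.W_59b51d_c25
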