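import Pool.Agent.W_59b51d_c25.CU

/-!
# The sets `X_a`
-/

namespace Pool.Agent.W_59b51d_c25

/-- For all `c < p` there is `d < s` with `R c d`; the largest such `p ≤ s`. -/
def prog (R : ℕ → ℕ → Bool) (s : ℕ) : ℕ :=
  ((List.range s).takeWhile fun c => (List.range s).any fun d => R c d).length

/-- The maximum of `prog (R b) s` for `b ≤ n`. -/
def cnt (R : ℕ → ℕ → ℕ → Bool) (n s : ℕ) : ℕ :=
  (List.range (n + 1)).foldl (fun m b => max m (prog (R b) s)) 0

/-- The stages of `X_a`, for fixed `a`: `i = Nat.pair n v` enters if `v < cnt n s`, or `n ∈ K_s` and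
`v = cnt n s`. -/
def stg (K : ℕ → ℕ → Bool) (R : ℕ → ℕ → ℕ → Bool) (i s : ℕ) : Bool :=
  decide (i.unpair.2 < cnt R i.unpair.1 s) ||
    (K i.unpair.1 s && decide (i.unpair.2 = cnt R i.unpair.1 s))

end Pool.Agent.W_59b51d_c25
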