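import Pool.Agent.W_59b51d_c25.StDefs

/-!
# A halting problem with monotone stages
-/

namespace Pool.Agent.W_59b51d_c25

open Nat.Partrec (Code)

/-- the stages of the halting problem -/
def StK_K (n s : ℕ) : Bool := (Code.evaln s (Denumerable.ofNat Code n) 0).isSome

theorem StK_computable : Computable₂ StK_K := by
  have h1 : Primrec fun a : (ℕ × Code) × ℕ => Code.evaln a.1.1 a.1.2 a.2 := Code.primrec_evaln
  have h2 : Primrec fun p : ℕ × ℕ => ((p.2, Denumerable.ofNat Code p.1), 0) :=
    (Primrec.snd.pair ((Primrec.ofNat Code).comp Primrec.fst)).pair (Primrec.const 0)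
  have h3 : Primrec fun p : ℕ × ℕ => Code.evaln p.2 (Denumerable.ofNat Code p.1) 0 := h1.comp h2
  exact (Primrec.option_isSome.comp h3).to_comp

theorem StK_iff (c : Code) :
    (∃ s, StK_K (Encodable.encode c) s = true) ↔ (Code.eval c 0).Dom := by
  unfold StK_K
  rw [Denumerable.ofNat_encode, Part.dom_iff_mem]
  constructor
  · rintro ⟨s, hs⟩
    obtain ⟨x, hx⟩ := Option.isSome_iff_exists.1 hs
    exact ⟨x, Code.evaln_complete.2 ⟨s, hx⟩⟩
  · rintro ⟨x, hx⟩
    obtain ⟨s, hs⟩ := Code.evaln_complete.1 hx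
    exact ⟨s, Option.isSome_iff_exists.2 ⟨x, hs⟩⟩

/-- A recursively enumerable set which is not computable, with monotone stages: the halting problem
(`Nat.Partrec.Code.evaln`, `ComputablePred.halting_problem`). -/
theorem exists_K : ∃ K : ℕ → ℕ → Bool, Computable₂ K ∧
    (∀ n s s', s ≤ s' → K n s = true → K n s' = true) ∧
    ¬ ∃ g : ℕ → Bool, Computable g ∧ ∀ n, g n = true ↔ ∃ s, K n s = true := by
  refine ⟨StK_K, StK_computable, ?_, ?_⟩
  · intro n s s' hs h
    unfold StK_K at h ⊢
    obtain ⟨x, hx⟩ := Option.isSome_iff_exists.1 h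
    exact Option.isSome_iff_exists.2 ⟨x, Code.evaln_mono hs hx⟩
  · rintro ⟨g, hg, hiff⟩
    apply ComputablePred.halting_problem 0
    rw [ComputablePred.computable_iff]
    refine ⟨fun c => g (Encodable.encode c), hg.comp Computable.encode, ?_⟩
    funext c
    rw [hiff, StK_iff]

end Pool.Agent.W_59b51d_c25
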