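import Pool.Agent.W_59b51d_c25.EvComp
import Pool.Agent.W_59b51d_c25.Quot

/-!
# The upper bound: definitions

Coded polynomials are elements of `List (F × ℕ)`; the code `m` stands for the monomial `unc m` in the
variables `0, 1, 2, …`.
-/

namespace Pool.Agent.W_59b51d_c25

open Pool.Agent.W_59b51d_h18 (Poly code)

variable {F : Type} [Field F]

/-- A coded polynomial. -/
def upoly (L : List (F × ℕ)) : Poly F ℕ := L.map fun q => (q.1, unc q.2)

/-- The coded polynomial `L` vanishes under the coded relators `rc`, with generators
`0, 1, 2, …`. -/
def VanN (F : Type) [Field F] (f : ℕ → Poly F ℕ) (rc : List (List (F × ℕ)))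
    (L : List (F × ℕ)) : Prop :=
  Vanishes F f (rc.map upoly) (upoly L)

/-- All variables of the monomial with the code `m` are less than `n`. -/
def lv (n m : ℕ) : Bool :=
  if h : m % 2 = 0 then decide (m / 2 < n)
  else lv n (m / 2).unpair.1 && lv n (m / 2).unpair.2
termination_by m
decreasing_by
  · have := Nat.unpair_left_le (m / 2); omega
  · have := Nat.unpair_right_le (m / 2); omega

/-- The product of coded monomials. -/
def mulN (m m' : ℕ) : List (F × ℕ) := [(1, 2 * Nat.pair m m' + 1)]

/-- Multiplication of a coded polynomial by a coded monomial, on the right (`true`) or on the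
left. -/
def opN (L : List (F × ℕ)) (o : Bool × ℕ) : List (F × ℕ) :=
  if o.1 then mulB mulN L [(1, o.2)] else mulB mulN [(1, o.2)] L

/-- Codes of consequences: a relator `inl i` or an instance `inr (t, σ)` of an identity, multiplied
by monomials. -/
abbrev Cq (F : Type) : Type := (ℕ ⊕ (ℕ × List (List (F × ℕ)))) × List (Bool × ℕ)

/-- The consequence with a given code, as a coded polynomial; `f t` are the coded identities. -/
def cval (f : ℕ → List (F × ℕ)) (rc : List (List (F × ℕ))) (c : Cq F) : List (F × ℕ) :=
  c.2.foldl opN (match c.1 with
    | .inl i => rc.getD i []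
    | .inr p => evP mulN (fun i => p.2.getD i []) (f p.1))

/-- Linear combinations of consequences. -/
def combN (f : ℕ → List (F × ℕ)) (rc : List (List (F × ℕ))) (D : List (F × Cq F)) :
    List (F × ℕ) :=
  D.flatMap fun d => (cval f rc d.2).map fun q => (d.1 * q.1, q.2)

end Pool.Agent.W_59b51d_c25
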