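import Pool.Agent.W_59b51d_c25.UDefs

/-!
# The upper bound: completeness
-/

namespace Pool.Agent.W_59b51d_c25

open Pool.Agent.W_59b51d_h18 (Poly code)

/-- Decoding the code of a polynomial. -/
theorem UVan_pcode {F : Type} (p : List (F × FreeMagma ℕ)) :
    ((pcode p).map fun q => (q.1, unc q.2)) = p := by
  rw [pcode, List.map_map]
  have h : ((fun q : F × ℕ => (q.1, unc q.2)) ∘ fun q : F × FreeMagma ℕ => (q.1, mcode q.2)) =
      id := by
    funext q
    simp [unc_mcode]
  rw [h, List.map_id]

variable {F : Type} [Field F]

section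
variable {A : Type} [NonUnitalNonAssocRing A] [Module F A]

/-- The variables of a monomial are bounded. -/
theorem UVan_lift_bound (s : FreeMagma ℕ) : ∃ N : ℕ, ∀ x y : ℕ → A, (∀ i < N, x i = y i) →
    FreeMagma.lift x s = FreeMagma.lift y s := by
  induction s using FreeMagma.recOnMul with
  | ih1 i => exact ⟨i + 1, fun x y h => h i (Nat.lt_succ_self i)⟩
  | ih2 s t ihs iht =>
    obtain ⟨N, hN⟩ := ihs
    obtain ⟨N', hN'⟩ := iht
    refine ⟨max N N', fun x y h => ?_⟩
    rw [map_mul, map_mul, hN x y fun i hi => h i (lt_of_lt_of_le hi (le_max_left _ _)),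
      hN' x y fun i hi => h i (lt_of_lt_of_le hi (le_max_right _ _))]

/-- The variables of a polynomial are bounded. -/
theorem UVan_eval_bound (p : Poly F ℕ) : ∃ N : ℕ, ∀ x y : ℕ → A, (∀ i < N, x i = y i) →
    p.eval x = p.eval y := by
  unfold Pool.Agent.W_59b51d_h18.Poly.eval
  induction p with
  | nil => exact ⟨0, fun x y _ => rfl⟩
  | cons q p ih =>
    obtain ⟨N, hN⟩ := ih
    obtain ⟨N', hN'⟩ := UVan_lift_bound (A := A) q.2
    refine ⟨max N N', fun x y h => ?_⟩
    rw [List.map_cons, List.map_cons, List.sum_cons, List.sum_cons,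
      hN x y fun i hi => h i (lt_of_lt_of_le hi (le_max_left _ _)),
      hN' x y fun i hi => h i (lt_of_lt_of_le hi (le_max_right _ _))]

/-- The linear extension of `m ↦ lift a (unc m)`. -/
noncomputable def UVan_phi (a : ℕ → A) : (ℕ →₀ F) →ₗ[F] A :=
  Finsupp.linearCombination F fun m => FreeMagma.lift a (unc m)

theorem UVan_phi_single (a : ℕ → A) (m : ℕ) (c : F) :
    UVan_phi a (Finsupp.single m c) = c • FreeMagma.lift a (unc m) := by
  rw [UVan_phi, Finsupp.linearCombination_single]

theorem UVan_phi_mul (a : ℕ → A) (p q : ℕ) :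
    UVan_phi (F := F) a (Finsupp.single p 1) * UVan_phi (F := F) a (Finsupp.single q 1) =
      UVan_phi (F := F) a (vecB (mulN p q)) := by
  rw [mulN, vecB_cons, vecB_nil, add_zero, UVan_phi_single, UVan_phi_single, UVan_phi_single,
    one_smul, one_smul, one_smul, Ev_unc_odd, map_mul]

theorem UVan_phi_vecB (a : ℕ → A) (L : List (F × ℕ)) :
    UVan_phi a (vecB L) = (upoly L).eval a := by
  unfold Pool.Agent.W_59b51d_h18.Poly.eval upoly
  induction L with
  | nil => rw [vecB_nil, map_zero]; rfl
  | cons q L ih =>
    rw [vecB_cons, map_add, ih, UVan_phi_single]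
    rfl

/-- The combination of consequences under a linear map. -/
theorem UVan_comb (φ : (ℕ →₀ F) →ₗ[F] A) (f : ℕ → List (F × ℕ)) (rc : List (List (F × ℕ)))
    (D : List (F × Cq F)) :
    φ (vecB (combN f rc D)) = (D.map fun d => d.1 • φ (vecB (cval f rc d.2))).sum := by
  rw [combN]
  induction D with
  | nil => rw [List.flatMap_nil, vecB_nil, map_zero]; rfl
  | cons d D ih =>
    rw [List.flatMap_cons, vecB_append, map_add, vecB_smul, map_smul, ih, List.map_cons,
      List.sum_cons]

end

/-- Completeness of the consequences.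

Proof. Let `B` be the algebra `SC` on `ℕ →₀ F` with `bm m m' = single (2 * Nat.pair m m' + 1) 1`
(so `vecB (mulN m m') = bm m m'`), and `X i = b (2 * i)`. By `sem_evP` and induction on the
monomial, `(upoly L).eval X = of (vecB L)` (`mcode_unc`).
`←`: let `A` satisfy the identities and `a : ℕ → A` the relators. The linear map
`φ : (ℕ →₀ F) → A`, `single m 1 ↦ lift a (unc m)`, satisfies the condition of `sem_evP` for
`mulN`, so the values of the `cval` are `0`, and `φ (vecB L) = (upoly L).eval a`.
`→`: let `I` be the span of the vectors of the `cval f rc c` in `B`. It is an ideal (multiply by a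
basis element: `opN`) and contains the relators. It contains `(f t).eval v` for all `v : ℕ → B`:
only finitely many variables `i < N` occur in `f t`, choose lists `σ i` with `vecB (σ i) = v i`
(`exists_vecB`) and use `sem_evP`. `Vanishes.mem_ideal` gives `vecB L ∈ I`; the elements of the span
are the `vecB (combN …)`. -/
theorem vanN_iff (f : ℕ → Poly F ℕ) (rc : List (List (F × ℕ))) (L : List (F × ℕ)) :
    VanN F f rc L ↔ ∃ D : List (F × Cq F), vecB (combN (fun t => pcode (f t)) rc D) = vecB L := by
  constructor
  · intro h
    let bm : ℕ → ℕ → ℕ →₀ F := fun m m' => Finsupp.single (2 * Nat.pair m m' + 1) 1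
    let fc : ℕ → List (F × ℕ) := fun t => pcode (f t)
    let I : Submodule F (SC bm) :=
      Submodule.span F {z | ∃ c : Cq F, z = SC.of bm (vecB (cval fc rc c))}
    have hbm : ∀ p q : ℕ, SC.of bm (Finsupp.single p 1) * SC.of bm (Finsupp.single q 1) =
        SC.of bm (vecB (mulN p q)) := by
      intro p q
      rw [SC.of_single, SC.of_single, one_smul, one_smul, SC.b_mul_b, mulN, vecB_cons, vecB_nil,
        add_zero]
    have hcv : ∀ c : Cq F, SC.of bm (vecB (cval fc rc c)) ∈ I := fun c =>
      Submodule.subset_span ⟨c, rfl⟩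
    have hop : ∀ (c : Cq F) (o : Bool × ℕ), SC.of bm (vecB (opN (cval fc rc c) o)) ∈ I := by
      intro c o
      have h1 : cval fc rc (c.1, c.2 ++ [o]) = opN (cval fc rc c) o := by
        rw [cval, cval, List.foldl_append]
        rfl
      rw [← h1]
      exact hcv _
    have hb : ∀ m : ℕ, SC.b bm m = SC.of bm (vecB [(1, m)]) := by
      intro m
      rw [vecB_cons, vecB_nil, add_zero, SC.of_single, one_smul]
    have hl : ∀ x, ∀ y ∈ I, x * y ∈ I := by
      intro x y hy
      have hx : x ∈ Submodule.span F (Set.range (SC.b bm)) := by rw [SC.span_b]; trivial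
      induction hy using Submodule.span_induction with
      | mem y hy =>
        obtain ⟨c, rfl⟩ := hy
        induction hx using Submodule.span_induction with
        | mem x hx =>
          obtain ⟨m, rfl⟩ := hx
          have h1 := hop c (false, m)
          rw [opN, if_neg (by simp), sem_mulB (SC.of bm) mulN hbm, ← hb] at h1
          exact h1
        | zero => rw [zero_mul]; exact zero_mem _
        | add x x' _ _ hx hx' => rw [add_mul]; exact add_mem hx hx'
        | smul c x _ hx => rw [smul_mul_assoc]; exact Submodule.smul_mem _ _ hx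
      | zero => rw [mul_zero]; exact zero_mem _
      | add y y' _ _ hy hy' => rw [mul_add]; exact add_mem hy hy'
      | smul c y _ hy => rw [mul_smul_comm]; exact Submodule.smul_mem _ _ hy
    have hr : ∀ x ∈ I, ∀ y, x * y ∈ I := by
      intro x hx y
      have hy : y ∈ Submodule.span F (Set.range (SC.b bm)) := by rw [SC.span_b]; trivial
      induction hx using Submodule.span_induction with
      | mem x hx =>
        obtain ⟨c, rfl⟩ := hx
        induction hy using Submodule.span_induction with
        | mem y hy =>
          obtain ⟨m, rfl⟩ := hy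
          have h1 := hop c (true, m)
          rw [opN, if_pos rfl, sem_mulB (SC.of bm) mulN hbm, ← hb] at h1
          exact h1
        | zero => rw [mul_zero]; exact zero_mem _
        | add x x' _ _ hx hx' => rw [mul_add]; exact add_mem hx hx'
        | smul c x _ hx => rw [mul_smul_comm]; exact Submodule.smul_mem _ _ hx
      | zero => rw [zero_mul]; exact zero_mem _
      | add y y' _ _ hy hy' => rw [add_mul]; exact add_mem hy hy'
      | smul c y _ hy => rw [smul_mul_assoc]; exact Submodule.smul_mem _ _ hy
    have hf : ∀ (t : ℕ) (v : ℕ → SC bm), (f t).eval v ∈ I := by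
      intro t v
      obtain ⟨N, hN⟩ := UVan_eval_bound (A := SC bm) (f t)
      choose σ hσ using fun i => exists_vecB (SC.val bm (v i))
      have h1 := hcv (.inr (t, (List.range N).map σ), [])
      have h2 : cval fc rc (.inr (t, (List.range N).map σ), []) =
          evP mulN (fun i => ((List.range N).map σ).getD i []) (pcode (f t)) := rfl
      rw [h2, sem_evP (SC.of bm) mulN hbm, UVan_pcode] at h1
      rw [hN v (fun i => SC.of bm (vecB (((List.range N).map σ).getD i []))) ?_]
      · exact h1
      · intro i hi
        have h3 : ((List.range N).map σ).getD i [] = σ i := by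
          rw [List.getD_eq_getElem _ _ (by simpa using hi)]
          simp
        rw [h3, hσ, SC.of_val]
    have hX : ∀ m : ℕ, FreeMagma.lift (fun i => SC.b bm (2 * i)) (unc m) = SC.b bm m := by
      intro m
      induction m using Nat.strong_induction_on with
      | _ m ih =>
        by_cases hm : m % 2 = 0
        · obtain ⟨i, rfl⟩ : ∃ i, m = 2 * i := ⟨m / 2, by omega⟩
          rw [Ev_unc_even]
          rfl
        · obtain ⟨p, q, rfl⟩ : ∃ p q, m = 2 * Nat.pair p q + 1 :=
            ⟨(m / 2).unpair.1, (m / 2).unpair.2, by rw [Nat.pair_unpair]; omega⟩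
          have h1 := Nat.left_le_pair p q
          have h2 := Nat.right_le_pair p q
          rw [Ev_unc_odd, map_mul, ih p (by omega), ih q (by omega), SC.b_mul_b, SC.of_single,
            one_smul]
    have hev : ∀ L' : List (F × ℕ), (upoly L').eval (fun i => SC.b bm (2 * i)) =
        SC.of bm (vecB L') := by
      intro L'
      rw [← UVan_phi_vecB]
      induction L' with
      | nil => rw [vecB_nil, map_zero, map_zero]
      | cons q L' ih =>
        rw [vecB_cons, map_add, map_add, ih, UVan_phi_single, hX, SC.of_single]
    have hrc : ∀ p ∈ rc.map upoly, p.eval (fun i => SC.b bm (2 * i)) ∈ I := by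
      intro p hp
      obtain ⟨L', hL', rfl⟩ := List.mem_map.1 hp
      rw [hev]
      obtain ⟨i, hi, hi'⟩ := List.mem_iff_getElem.1 hL'
      have h1 := hcv (.inl i, [])
      have h2 : cval fc rc (.inl i, []) = rc.getD i [] := rfl
      rw [h2, List.getD_eq_getElem _ _ hi, hi'] at h1
      exact h1
    have hmem := Vanishes.mem_ideal h I hl hr hf (fun i => SC.b bm (2 * i)) hrc
    rw [hev] at hmem
    have hspan : ∀ z ∈ I, ∃ D : List (F × Cq F), SC.of bm (vecB (combN fc rc D)) = z := by
      intro z hz
      induction hz using Submodule.span_induction with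
      | mem z hz =>
        obtain ⟨c, rfl⟩ := hz
        refine ⟨[(1, c)], ?_⟩
        rw [UVan_comb]
        simp
      | zero => exact ⟨[], by rw [UVan_comb]; rfl⟩
      | add z z' _ _ hz hz' =>
        obtain ⟨D, rfl⟩ := hz
        obtain ⟨D', rfl⟩ := hz'
        refine ⟨D ++ D', ?_⟩
        rw [UVan_comb, UVan_comb, UVan_comb, List.map_append, List.sum_append]
      | smul c z _ hz =>
        obtain ⟨D, rfl⟩ := hz
        refine ⟨D.map fun d => (c * d.1, d.2), ?_⟩
        rw [UVan_comb, UVan_comb, List.map_map, List.smul_sum, List.map_map]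
        congr 1
        apply List.map_congr_left
        intro d _
        simp only [Function.comp, mul_smul]
    obtain ⟨D, hD⟩ := hspan _ hmem
    exact ⟨D, SC.of_injective bm hD⟩
  · rintro ⟨D, hD⟩ A _ _ _ _ hA a ha
    rw [← UVan_phi_vecB, ← hD, UVan_comb]
    apply List.sum_eq_zero
    intro y hy
    obtain ⟨d, _, rfl⟩ := List.mem_map.1 hy
    have hbase : ∀ (u : List (Bool × ℕ)) (L' : List (F × ℕ)), UVan_phi a (vecB L') = 0 →
        UVan_phi a (vecB (u.foldl opN L')) = 0 := by
      intro u
      induction u with
      | nil => exact fun L' h => h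
      | cons o u ih =>
        intro L' h
        rw [List.foldl_cons]
        apply ih
        rw [opN]
        split_ifs
        · rw [sem_mulB (UVan_phi a) mulN (UVan_phi_mul a), h, zero_mul]
        · rw [sem_mulB (UVan_phi a) mulN (UVan_phi_mul a), h, mul_zero]
    have h0 : UVan_phi a (vecB (cval (fun t => pcode (f t)) rc d.2)) = 0 := by
      rw [cval]
      apply hbase
      cases d.2.1 with
      | inl i =>
        show UVan_phi a (vecB (rc.getD i [])) = 0
        by_cases hi : i < rc.length
        · rw [List.getD_eq_getElem _ _ hi, UVan_phi_vecB]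
          exact ha _ (List.mem_map_of_mem (List.getElem_mem hi))
        · rw [List.getD_eq_default _ _ (by omega), vecB_nil, map_zero]
      | inr p =>
        show UVan_phi a (vecB (evP mulN (fun i => p.2.getD i []) (pcode (f p.1)))) = 0
        rw [sem_evP (UVan_phi a) mulN (UVan_phi_mul a), UVan_pcode]
        exact hA p.1 _
    rw [h0, smul_zero]

end Pool.Agent.W_59b51d_c25
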