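import Pool.Agent.W_59b51d_c25.Alt

/-!
# Properties of the identities
-/

namespace Pool.Agent.W_59b51d_c25

open Pool.Agent.W_59b51d_h18 (Poly code Multilinear vars)

/-- The variables of `opw m u`. -/
theorem Words_vars (u : List (Bool × ℕ)) :
    ∀ m : FreeMagma ℕ, (vars (opw m u)).Perm (vars m ++ u.map Prod.snd) := by
  induction u with
  | nil => intro m; simp [opw]
  | cons o u ih =>
    intro m
    have h1 : opw m (o :: u) = opw (if o.1 then m * FreeMagma.of o.2 else FreeMagma.of o.2 * m) u :=
      rfl
    rw [h1]
    refine (ih _).trans ?_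
    rw [List.map_cons]
    have h2 : (vars (if o.1 then m * FreeMagma.of o.2 else FreeMagma.of o.2 * m)).Perm
        (vars m ++ [o.2]) := by
      by_cases h : o.1 = true
      · rw [if_pos h]
        exact List.Perm.refl _
      · rw [if_neg h]
        exact List.perm_append_comm
    refine (h2.append_right _).trans ?_
    rw [List.append_assoc]
    exact List.Perm.refl _

/-- The length of `opw m u`. -/
theorem Words_length (u : List (Bool × ℕ)) :
    ∀ m : FreeMagma ℕ, (opw m u).length = m.length + u.length := by
  induction u with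
  | nil => intro m; simp [opw]
  | cons o u ih =>
    intro m
    have h1 : opw m (o :: u) = opw (if o.1 then m * FreeMagma.of o.2 else FreeMagma.of o.2 * m) u :=
      rfl
    rw [h1, ih]
    have h2 : (if o.1 then m * FreeMagma.of o.2 else FreeMagma.of o.2 * m).length =
        m.length + 1 := by
      by_cases h : o.1 = true
      · rw [if_pos h]
        rfl
      · rw [if_neg h]
        show 1 + m.length = m.length + 1
        omega
    rw [h2, List.length_cons]
    omega

/-- Consecutive ranges. -/
theorem Words_range_append (a b : ℕ) :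
    List.range a ++ (List.range b).map (fun i => a + i) = List.range (a + b) := by
  rw [List.range_add]

/-- The labels of `w4 j`. -/
theorem Words_w4 (j : ℕ) : (w4 j).map Prod.snd = List.range (j + 2) := by
  have h1 : (w4 j).map Prod.snd = 0 :: ((List.range j).map (fun i => i + 1) ++ [j + 1]) := by
    simp [w4, Function.comp_def]
  rw [h1, List.range_succ, List.range_succ_eq_map]
  rfl

/-- The labels of `wk n q σ`. -/
theorem Words_wk (n q : ℕ) (σ : List ℕ) (hσ : σ.Perm (List.range (n.unpair.1 + 1))) :
    ((wk n q σ).map Prod.snd).Perm (List.range (q + (n + 1) ^ 2 + 1)) := by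
  have h0 : n.unpair.1 + 1 ≤ (n + 1) ^ 2 := by
    have h1 : n.unpair.1 ≤ n := Nat.unpair_left_le n
    nlinarith
  obtain ⟨c, hc⟩ : ∃ c, (n + 1) ^ 2 = c + (n.unpair.1 + 1) :=
    ⟨(n + 1) ^ 2 - (n.unpair.1 + 1), by omega⟩
  have h1 : (wk n q σ).map Prod.snd = List.range q ++ ((List.range c).map (fun i => q + i) ++
      (σ.map (fun i => q + c + i) ++ [q + (n + 1) ^ 2])) := by
    have h2 : (n + 1) ^ 2 - (n.unpair.1 + 1) = c := by omega
    simp [wk, h2, Function.comp_def]
  rw [h1]
  have h3 : (σ.map (fun i => q + c + i)).Perm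
      ((List.range (n.unpair.1 + 1)).map (fun i => q + c + i)) := hσ.map _
  have h4 : (List.range q ++ ((List.range c).map (fun i => q + i) ++
      (σ.map (fun i => q + c + i) ++ [q + (n + 1) ^ 2]))).Perm
      (List.range q ++ ((List.range c).map (fun i => q + i) ++
      ((List.range (n.unpair.1 + 1)).map (fun i => q + c + i) ++ [q + (n + 1) ^ 2]))) :=
    List.Perm.append_left _ (List.Perm.append_left _ (h3.append_right _))
  refine h4.trans ?_
  have h5 : List.range q ++ ((List.range c).map (fun i => q + i) ++
      ((List.range (n.unpair.1 + 1)).map (fun i => q + c + i) ++ [q + (n + 1) ^ 2])) =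
      List.range (q + (n + 1) ^ 2 + 1) := by
    rw [← List.append_assoc, Words_range_append, ← List.append_assoc, Words_range_append,
      List.range_succ, hc, add_assoc]
  rw [h5]

/-- The words of one identity. -/
theorem Words_cases (ent : ℕ → ℕ → Bool) (t : ℕ) :
    ∃ N, t ≤ N + 2 ∧ ∀ q ∈ idw ent t, (q.2.map Prod.snd).Perm (List.range N) := by
  match t with
  | 0 => exact ⟨0, by omega, fun q hq => by simp [idw] at hq⟩
  | 1 =>
    refine ⟨3, by omega, fun q hq => ?_⟩
    have h1 : q = (1, [(false, 0), (true, 1), (true, 2)]) := by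
      simpa [idw] using hq
    rw [h1]
    decide
  | 2 =>
    refine ⟨3, by omega, fun q hq => ?_⟩
    have h1 : q = (1, [(false, 0), (true, 1), (false, 2)]) := by
      simpa [idw] using hq
    rw [h1]
    decide
  | j + 3 =>
    by_cases hs : sp j = true
    · by_cases h : 0 < j ∧ ent (j.unpair.2 - 1).unpair.1 (j.unpair.2 - 1).unpair.2 = true
      · refine ⟨j + ((j.unpair.2 - 1).unpair.1 + 1) ^ 2 + 1, by omega, fun q hq => ?_⟩
        rw [idw, if_pos hs, if_pos h, List.mem_map] at hq
        obtain ⟨c, hc, rfl⟩ := hq
        exact Words_wk _ _ _ (altP_perm _ c hc)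
      · refine ⟨j + 2, by omega, fun q hq => ?_⟩
        rw [idw, if_pos hs, if_neg h] at hq
        simp at hq
    · refine ⟨j + 2, by omega, fun q hq => ?_⟩
      rw [idw, if_neg hs, List.mem_singleton] at hq
      rw [hq]
      show ((w4 j).map Prod.snd).Perm _
      rw [Words_w4]

/-- The labels of the words of one identity are permutations of the same set (`N = 3`,
`N = j + 2`, `N = q + (n + 1) ^ 2 + 1`); note `n.unpair.1 ≤ n < (n + 1) ^ 2`. -/
theorem idw_perm (ent : ℕ → ℕ → Bool) (t : ℕ) :
    ∃ N, ∀ q ∈ idw ent t, (q.2.map Prod.snd).Perm (List.range N) := by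
  obtain ⟨N, _, h⟩ := Words_cases ent t
  exact ⟨N, h⟩

theorem idw_coef (ent : ℕ → ℕ → Bool) (t : ℕ) : ∀ q ∈ idw ent t, q.1 = 1 ∨ q.1 = -1 := by
  intro q hq
  match t with
  | 0 => simp [idw] at hq
  | 1 =>
    have h1 : q = (1, [(false, 0), (true, 1), (true, 2)]) := by
      simpa [idw] using hq
    rw [h1]
    exact Or.inl rfl
  | 2 =>
    have h1 : q = (1, [(false, 0), (true, 1), (false, 2)]) := by
      simpa [idw] using hq
    rw [h1]
    exact Or.inl rfl
  | j + 3 =>
    by_cases hs : sp j = true
    · by_cases h : 0 < j ∧ ent (j.unpair.2 - 1).unpair.1 (j.unpair.2 - 1).unpair.2 = true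
      · rw [idw, if_pos hs, if_pos h, List.mem_map] at hq
        obtain ⟨c, hc, rfl⟩ := hq
        exact altP_coef _ c hc
      · rw [idw, if_pos hs, if_neg h] at hq
        simp at hq
    · rw [idw, if_neg hs, List.mem_singleton] at hq
      rw [hq]
      exact Or.inl rfl

/-- The coefficients are `1` or `-1`, the monomials are multilinear and of degree at least `t`
(`FreeMagma.length` is the number of leaves). The variables of `opw (x₀ x₁) u` are a permutation of
`0 :: 1 ::` the labels of `u`; the lengths of the words are `3`, `j + 2` and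
`j + (n + 1) ^ 2 + 1`. -/
theorem fam_prop (ent : ℕ → ℕ → Bool) (t : ℕ) :
    ∀ q ∈ fam ent t, (q.1 = 1 ∨ q.1 = -1) ∧ Multilinear q.2 ∧ t ≤ q.2.length := by
  intro q hq
  by_cases ht : t = 0
  · rw [fam, if_pos ht, List.mem_singleton] at hq
    rw [hq]
    refine ⟨Or.inl rfl, ?_, ?_⟩
    · show ([0, 1, 2, 3] : List ℕ).Nodup
      decide
    · rw [ht]
      exact Nat.zero_le _
  · rw [fam, if_neg ht, List.mem_map] at hq
    obtain ⟨c, hc, rfl⟩ := hq
    obtain ⟨N, hN, h⟩ := Words_cases ent t
    have h1 := h c hc
    refine ⟨idw_coef ent t c hc, ?_, ?_⟩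
    · have h2 : (vars (opw (FreeMagma.of 0 * FreeMagma.of 1)
          (c.2.map fun o => (o.1, o.2 + 2)))).Perm
          ([0, 1] ++ (List.range N).map fun i => i + 2) := by
        refine (Words_vars _ _).trans (List.Perm.append_left _ ?_)
        have h3 : (c.2.map fun o => (o.1, o.2 + 2)).map Prod.snd =
            (c.2.map Prod.snd).map fun i => i + 2 := by
          simp [Function.comp_def]
        rw [h3]
        exact h1.map _
      show (vars _).Nodup
      rw [h2.nodup_iff]
      rw [List.nodup_append]
      refine ⟨by decide, ?_, ?_⟩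
      · exact List.Nodup.map (fun a b hab => by simpa using hab) List.nodup_range
      · intro a ha b hb hab
        rw [List.mem_map] at hb
        obtain ⟨i, _, rfl⟩ := hb
        simp at ha
        omega
    · show t ≤ (opw (FreeMagma.of 0 * FreeMagma.of 1) (c.2.map fun o => (o.1, o.2 + 2))).length
      rw [Words_length, List.length_map]
      have h4 : c.2.length = N := by
        have h5 := h1.length_eq
        rwa [List.length_map, List.length_range] at h5
      have h6 : (FreeMagma.of 0 * FreeMagma.of 1 : FreeMagma ℕ).length = 2 := rfl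
      rw [h4, h6]
      omega

end Pool.Agent.W_59b51d_c25
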